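import Pool.Agent.Work.MP_d7201b_al_T2.InstA

/-!
# The instantiation of the frame of T2: the relations
-/

set_option autoImplicit false

namespace Pool.Agent.Work.MP_d7201b_al

namespace T2

open MulOpposite

open scoped commutatorElement

set_option linter.unusedSectionVars false

/-! ## The shuffle product and the multilinear part of the fourth power -/

section Shuffle

variable {R : Type*} [Ring R]

/-- The shuffle product. -/
def shf (F F' : List R → R) (es : List R) : R :=
  ((L2.splits es).map fun p => F p.1 * F' p.2).sum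

/-- The unit. -/
def dl : List R → R
  | [] => 1
  | _ :: _ => 0

/-- The function of a slot. -/
def sl (g : R) : R × R → List R → R
  | s, [] => slotv g s
  | s, e :: L => sl g (put e s) L

theorem shf_nil (F F' : List R → R) : shf F F' [] = F [] * F' [] := by
  simp [shf, L2.splits]

theorem shf_cons (F F' : List R → R) (e : R) (es : List R) : shf F F' (e :: es) =
    shf (fun l => F (e :: l)) F' es + shf F (fun l => F' (e :: l)) es := by
  simp only [shf, L2.splits]
  rw [L2.sum_flatMap]
  simp only [List.map_cons, List.map_nil, List.sum_cons, List.sum_nil, add_zero]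
  exact L2.sum_map_add _ _ _

theorem shf_add (A B F' : List R → R) (es : List R) :
    shf (fun l => A l + B l) F' es = shf A F' es + shf B F' es := by
  simp only [shf, add_mul]
  exact L2.sum_map_add _ _ _

theorem sum_map_sub' {ι : Type*} (l : List ι) (f g : ι → R) :
    (l.map fun i => f i - g i).sum = (l.map f).sum - (l.map g).sum := by
  induction l with
  | nil => simp
  | cons a l ih => simp only [List.map_cons, List.sum_cons, ih]; abel

theorem shf_sub (A B F' : List R → R) (es : List R) :
    shf (fun l => A l - B l) F' es = shf A F' es - shf B F' es := by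
  simp only [shf, sub_mul]
  exact sum_map_sub' _ _ _

theorem shf_sub_right (F A B : List R → R) (es : List R) :
    shf F (fun l => A l - B l) es = shf F A es - shf F B es := by
  simp only [shf, mul_sub]
  exact sum_map_sub' _ _ _

theorem shf_zero (F' : List R → R) (es : List R) : shf (fun _ => 0) F' es = 0 := by
  simp only [shf, zero_mul]
  induction L2.splits es with
  | nil => rfl
  | cons a l ih => rw [List.map_cons, List.sum_cons, ih, add_zero]

theorem shf_dl (F : List R → R) (es : List R) : shf F dl es = F es := by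
  induction es generalizing F with
  | nil => rw [shf_nil]; simp [dl]
  | cons e es ih =>
    rw [shf_cons, ih]
    have : shf F (fun l => dl (e :: l)) es = 0 := by
      simp only [shf, dl, mul_zero]
      induction L2.splits es with
      | nil => rfl
      | cons a l ih => rw [List.map_cons, List.sum_cons, ih, add_zero]
    rw [this, add_zero]

theorem SS_eq (g : R) (es : List R) (a b c d : R × R) : SS g es a b c d =
    shf (shf (shf (shf dl (sl g a)) (sl g b)) (sl g c)) (sl g d) es := by
  induction es generalizing a b c d with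
  | nil => simp only [SS, shf_nil, dl, sl, one_mul]
  | cons e es ih =>
    simp only [SS, ih, shf_cons]
    have e1 : ∀ s : R × R, (fun l => sl g s (e :: l)) = sl g (put e s) := fun s => rfl
    have e0 : (fun l : List R => dl (e :: l)) = fun _ => (0 : R) := rfl
    have z : ∀ F' : List R → R, shf (fun _ => 0) F' = fun _ => 0 := by
      intro F'; funext l; exact shf_zero F' l
    have ad : ∀ A B F' : List R → R, shf (fun l => A l + B l) F' =
        fun l => shf A F' l + shf B F' l := by
      intro A B F'; funext l; exact shf_add A B F' l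
    simp only [e1, e0, z, ad, zero_add]

/-- The multilinear part of `h ^ j`. -/
def mR (g : R) : ℕ → List R → R
  | 0 => dl
  | j + 1 => shf (mR g j) (fun L => g * L.prod)

theorem sl_eq (g p : R) (L : List R) : sl g (p, 0) L = g * p * L.prod := by
  induction L generalizing p with
  | nil => simp [sl, slotv]
  | cons e L ih => rw [sl, put, ih, List.prod_cons]; simp only [mul_assoc]

theorem sl_one (g : R) : sl g (1, 1) = fun L => g * L.prod - dl L := by
  funext L
  cases L with
  | nil => simp [sl, slotv, dl]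
  | cons e L => rw [sl, put, sl_eq, List.prod_cons, dl]; simp only [one_mul, sub_zero, mul_assoc]

theorem SS_mR (g : R) (es : List R) : SS g es (1, 1) (1, 1) (1, 1) (1, 1) =
    mR g 4 es - 4 • mR g 3 es + 6 • mR g 2 es - 4 • mR g 1 es + mR g 0 es := by
  have st : ∀ F : List R → R, shf F (sl g (1, 1)) =
      fun es => shf F (fun L => g * L.prod) es - F es := by
    intro F
    funext es
    rw [sl_one, shf_sub_right, shf_dl]
  have sb : ∀ A B F' : List R → R, shf (fun l => A l - B l) F' =
      fun l => shf A F' l - shf B F' l := by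
    intro A B F'; funext l; exact shf_sub A B F' l
  rw [SS_eq]
  simp only [st, sb, mR]
  abel

end Shuffle

section Inst

variable {G : Type*} [Group G] {N : Subgroup G} [hN : N.Normal] {c : ℕ}
  {hc : N.lowerCentralSeries (c + 1) = ⊥}

/-- An operator as an element of the ring. -/
def opE (ψ : (List G → Last N c hc) →+ (List G → Last N c hc)) : RR hc :=
  op (ψ : AddMonoid.End (List G → Last N c hc))

theorem ap_opE (v : List G → Last N c hc)
    (ψ : (List G → Last N c hc) →+ (List G → Last N c hc)) : ap v (opE ψ) = ψ v := rfl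

theorem comp_ap (l : List ((List G → Last N c hc) →+ (List G → Last N c hc)))
    (w : List G → Last N c hc) : L2.comp l w = ap w ((l.map opE).prod) := by
  induction l generalizing w with
  | nil => rfl
  | cons ψ l ih =>
    rw [L2.comp_cons, ih, List.map_cons, List.prod_cons, ap_mul, ap_opE]

theorem mop_ap (φ : (List G → Last N c hc) →+ (List G → Last N c hc)) (j : ℕ)
    (ψs : List ((List G → Last N c hc) →+ (List G → Last N c hc))) (v : List G → Last N c hc) :
    L2.mop φ j ψs v = ap v (mR (opE φ) j (ψs.map opE)) := by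
  induction j generalizing ψs with
  | zero => cases ψs <;> rfl
  | succ j ih =>
    simp only [L2.mop, mR, shf, L2.splits_map, List.map_map]
    rw [ap_sum, List.map_map]
    congr 1
    apply List.map_congr_left
    intro p _
    simp only [Function.comp_apply]
    rw [ap_mul, ap_mul, comp_ap, ih, ap_opE]

/-- The relation of a right 4-Engel element in the slot form. -/
theorem quart_ap {x : G} (hx : x ∈ N) (he : IsRightEngel 4 x) (g : G) (hs : List G) :
    ap ((baseSys hc).θ 1 x) (SS (uR hc g) (hs.map fun h => uR hc h⁻¹ * XR hc x * uR hc h)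
      (1, 1) (1, 1) (1, 1) (1, 1)) = 0 := by
  have hb : List.Forall₂ (fun n ψ => (baseSys hc).IsBr n ψ) (hs.map (cj x))
      (hs.map fun h => brN hc (cj x h)) := by
    rw [List.forall₂_map_left_iff, List.forall₂_map_right_iff]
    exact List.forall₂_same.2 fun h _ => isBr hc (cj_mem hx h)
  have h1 := L2.engel_multi _ (baseSys hc) (isOp hc g) (show x ∈ (lcsFilt N).S 1 from hx)
    (fun g => he g) _ _ hb rfl
  have e1 : (hs.map fun h => uR hc h⁻¹ * XR hc x * uR hc h) =
      (hs.map fun h => brN hc (cj x h)).map opE := by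
    rw [List.map_map]
    apply List.map_congr_left
    intro h _
    exact gen_eq hc x h
  rw [e1, SS_mR]
  have sm : ∀ (k : ℕ) (r : RR hc) (v : List G → Last N c hc), ap v (k • r) = k • ap v r := by
    intro k r v
    induction k with
    | zero => rw [zero_nsmul, zero_nsmul]; rfl
    | succ k ih => rw [succ_nsmul, succ_nsmul, ap_add, ih]
  have e2 : (uR hc g : RR hc) = opE (opG hc g) := rfl
  rw [ap_add, ap_sub, ap_add, ap_sub, sm, sm, sm, e2, ← mop_ap, ← mop_ap, ← mop_ap, ← mop_ap,
    ← mop_ap]
  exact h1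

/-! ## Lie operators -/

/-- `w` and `T` belong to an element `z` of the `k`-th term. -/
def Real (hc : N.lowerCentralSeries (c + 1) = ⊥) (x : G) (k : ℕ) (w T : RR hc) : Prop :=
  1 ≤ k ∧ ∃ z ∈ (lcsFilt N).S k, ap ((baseSys hc).θ 1 x) w = (baseSys hc).θ k z ∧
    ∀ j, 1 ≤ j → ∀ y ∈ (lcsFilt N).S j,
      ap ((baseSys hc).θ j y) T = (baseSys hc).θ (j + k) (comm y z)

theorem comm_inv_th {i j : ℕ} (hi : 1 ≤ i) (hj : 1 ≤ j) {y z : G} (hy : y ∈ (lcsFilt N).S i)
    (hz : z ∈ (lcsFilt N).S j) :
    (baseSys hc).θ (i + j) (comm y z⁻¹) = - (baseSys hc).θ (i + j) (comm y z) := by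
  have h1 := (baseSys hc).comm_add_right hi hj hy hz (inv_mem hz)
  have e : comm y (1 : G) = 1 := by unfold comm; group
  rw [mul_inv_cancel, e, Sys.one _ (by omega)] at h1
  exact eq_neg_of_add_eq_zero_right h1.symm

theorem real_of_pr {H : Subgroup G} {x : G} (hx : x ∈ N) {k : ℕ} {w T : RR hc}
    (h : Pr ((uR hc).comp H.subtype) (XR hc x) k w T) : Real hc x k w T := by
  induction h with
  | one =>
    refine ⟨le_rfl, x, hx, rfl, fun j hj y hy => ?_⟩
    rw [ap_X]
    exact ((isBr hc hx).2 hj hy).symm
  | @cj k w T g _ ih =>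
    obtain ⟨hk, z, hz, h1, h2⟩ := ih
    set g' : G := (g : G) with hg'
    have eu : ((uR hc).comp H.subtype) g = uR hc g' := rfl
    have eu' : ((uR hc).comp H.subtype) g⁻¹ = uR hc g'⁻¹ := rfl
    refine ⟨hk, g'⁻¹ * z * g', (lcsFilt N).conj hz (Subgroup.mem_top g'), ?_, ?_⟩
    · rw [ap_mul, h1, eu, ap_u]
      exact ((isOp hc g').2 hk hz).symm
    · intro j hj y hy
      have hy' : g'⁻¹⁻¹ * y * g'⁻¹ ∈ (lcsFilt N).S j :=
        (lcsFilt N).conj hy (Subgroup.mem_top g'⁻¹)
      have m : comm (g'⁻¹⁻¹ * y * g'⁻¹) z ∈ (lcsFilt N).S (j + k) := (lcsFilt N).comm hy' hz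
      rw [ap_mul, ap_mul, eu, eu', ap_u, ap_u, ← (isOp hc g'⁻¹).2 hj hy, h2 j hj _ hy',
        ← (isOp hc g').2 (by omega) m, comm_conj]
      congr 2
      group
  | @x k w T _ ih =>
    obtain ⟨hk, z, hz, h1, h2⟩ := ih
    refine ⟨by omega, comm z x, (lcsFilt N).comm hz (t := 1) hx, ?_, ?_⟩
    · rw [ap_mul, h1, ap_X]
      exact ((isBr hc hx).2 hk hz).symm
    · intro j hj y hy
      have hx1 : x ∈ (lcsFilt N).S 1 := hx
      have m1 : comm y z ∈ (lcsFilt N).S (j + k) := (lcsFilt N).comm hy hz
      have m2 : comm y x ∈ (lcsFilt N).S (j + 1) := (lcsFilt N).comm hy hx1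
      have s := L2.ad_step (baseSys hc) (i := j) (j := k) (k := 1) hj hk le_rfl hy hz hx1
      rw [ap_sub, ap_mul, ap_mul, h2 j hj y hy, ap_X, ap_X,
        ← (isBr hc hx).2 (by omega) m1, ← (isBr hc hx).2 hj hy, h2 (j + 1) (by omega) _ m2,
        ← add_assoc, s]
      congr 2
      omega
  | @sub k w w' T T' _ _ ih ih' =>
    obtain ⟨hk, z, hz, h1, h2⟩ := ih
    obtain ⟨_, z', hz', h1', h2'⟩ := ih'
    refine ⟨hk, z * z'⁻¹, mul_mem hz (inv_mem hz'), ?_, ?_⟩
    · rw [ap_sub, h1, h1', (baseSys hc).mul hk hz (inv_mem hz'), Sys.inv _ hk hz']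
      abel
    · intro j hj y hy
      rw [ap_sub, h2 j hj y hy, h2' j hj y hy, (baseSys hc).comm_add_right hj hk hy hz
        (inv_mem hz'), comm_inv_th hj hk hy hz']
      abel

theorem anti_ap {x : G} {k k' : ℕ} {w T w' T' : RR hc} (h : Real hc x k w T)
    (h' : Real hc x k' w' T') : ap ((baseSys hc).θ 1 x) (w * T' + w' * T) = 0 := by
  obtain ⟨hk, z, hz, h1, h2⟩ := h
  obtain ⟨hk', z', hz', h1', h2'⟩ := h'
  have m : comm z z' ∈ (lcsFilt N).S (k + k') := (lcsFilt N).comm hz hz'
  have e : comm z' z = (comm z z')⁻¹ := by unfold comm; group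
  rw [ap_add, ap_mul, ap_mul, h1, h1', h2' k hk z hz, h2 k' hk' z' hz', e,
    show k' + k = k + k' by omega, Sys.inv _ (by omega) m]
  abel

/-! ## The frame -/

/-- The multiples of `5`. -/
def five5 (hc : N.lowerCentralSeries (c + 1) = ⊥) : AddSubgroup (Last N c hc) :=
  (nsmulAddMonoidHom (α := Last N c hc) 5).range

/-- The value modulo `5` at the list `rest`. -/
noncomputable def phi (hc : N.lowerCentralSeries (c + 1) = ⊥) (x : G) (rest : List G) :
    RR hc →+ (Last N c hc ⧸ five5 hc) where
  toFun r := QuotientAddGroup.mk (ap ((baseSys hc).θ 1 x) r rest)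
  map_zero' := rfl
  map_add' _ _ := rfl

theorem phi_apply (x : G) (rest : List G) (r : RR hc) :
    phi hc x rest r = QuotientAddGroup.mk (ap ((baseSys hc).θ 1 x) r rest) := rfl

theorem phi_zero_iff (x : G) (rest : List G) (r : RR hc) :
    phi hc x rest r = 0 ↔ ∃ w : Last N c hc, 5 • w = ap ((baseSys hc).θ 1 x) r rest := by
  rw [phi_apply, QuotientAddGroup.eq_zero_iff]
  rfl

theorem phi_of_ap (x : G) (rest : List G) (r : RR hc) (h : ap ((baseSys hc).θ 1 x) r = 0) :
    phi hc x rest r = 0 := by
  rw [phi_apply, h]; rfl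

theorem wrd_PP {H : Subgroup G} {x : G} (hx : x ∈ N) {k d n : ℕ} {r : RR hc}
    (h : Wrd ((uR hc).comp H.subtype) (XR hc x) (fun γ w => AtG hc H (γ : G) w) k d n r) :
    PP hc H k d (ap ((baseSys hc).θ 1 x) r) := by
  induction h with
  | one => exact PP.base hx (UU_zero hx) le_rfl
  | x _ ih => rw [ap_mul]; exact PP.br ih hx (UU_zero hx) le_rfl
  | atm _ h1 _ ih => rw [ap_mul]; exact ih.act h1

theorem wrd_DG {H : Subgroup G} {x : G} {k d n : ℕ} {r : RR hc}
    (h : Wrd ((uR hc).comp H.subtype) (XR hc x) (fun γ w => AtG hc H (γ : G) w) k d n r) :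
    ap ((baseSys hc).θ 1 x) r ∈ DG hc k := by
  induction h with
  | one => exact DG_th 0 x
  | x _ ih => rw [ap_mul]; exact DG_br ih x
  | @atm k d n r γ w _ _ _ ih =>
    rw [ap_mul, ap_sub, ap_one]
    exact sub_mem (DG_op ih (γ : G)) ih

theorem frameHyp {H : Subgroup G} {x : G} (hx : x ∈ N) (he : IsRightEngel 4 x)
    (hnil : NilAct hc H) (rest : List G) (hrest : 6 + rest.length = c) :
    FrameHyp ((uR hc).comp H.subtype) (XR hc x) (fun γ w => AtG hc H (γ : G) w)
      (phi hc x rest) where
  five r := by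
    rw [phi_apply, ← QuotientAddGroup.mk_nsmul, QuotientAddGroup.eq_zero_iff]
    exact ⟨_, rfl⟩
  at_one γ := AtG_one γ.2
  at_comm γ δ w w' h h' := AtG_comm γ.2 δ.2 h h'
  bound := by
    obtain ⟨n, hn⟩ := UU_le_F5 hnil
    refine ⟨7 * n, fun k d m r hr hd => ?_⟩
    rw [phi_zero_iff]
    by_cases hk : k = 6
    · subst hk
      exact (wrd_PP hx hr).bound hn hd rest
    · rw [wrd_DG hr rest (by omega)]
      exact ⟨0, smul_zero _⟩
  low k d n r hr hk := by
    rw [phi_zero_iff, wrd_DG hr rest (by omega)]
    exact ⟨0, smul_zero _⟩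
  xx s := by
    refine phi_of_ap x rest _ ?_
    have hx1 : x ∈ (lcsFilt N).S 1 := hx
    have e : comm x x = 1 := by unfold comm; group
    rw [ap_mul, ap_X, ← (isBr hc hx).2 le_rfl hx1, e, Sys.one _ (by omega), zero_ap]
  anti k w T k' w' T' s h h' := by
    refine phi_of_ap x rest _ ?_
    rw [ap_mul, anti_ap (real_of_pr hx h) (real_of_pr hx h'), zero_ap]
  quart g hs s := by
    refine phi_of_ap x rest _ ?_
    rw [ap_mul]
    have h1 := quart_ap (hc := hc) hx he (g : G) (hs.map fun h : H => (h : G))
    rw [List.map_map] at h1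
    have e : ap ((baseSys hc).θ 1 x) (SS (((uR hc).comp H.subtype) g)
        (hs.map fun h => ((uR hc).comp H.subtype) h⁻¹ * XR hc x * ((uR hc).comp H.subtype) h)
        (1, 1) (1, 1) (1, 1) (1, 1)) = 0 := h1
    rw [e, zero_ap]

theorem comp_eval (ns : List G) (f : List G → Last N c hc) (rest : List G) :
    L2.comp (ns.map fun n => brN hc n) f rest = f (ns ++ rest) := by
  induction ns generalizing f with
  | nil => rfl
  | cons n ns ih =>
    rw [List.map_cons, L2.comp_cons, ih]
    rfl

end Inst

universe u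

/-- T2. -/
theorem stmt_inst (hF : Stmt_Frame.{u, u, u}) : Stmt_Inst.{u} := by
  intro G _ x he c hc h6 a l hl hnil
  set N := Subgroup.normalClosure {x} with hN
  have hx : x ∈ N := Subgroup.subset_normalClosure (Set.mem_singleton x)
  set H : Subgroup G := Subgroup.closure (insert a {g | g ∈ l}) with hH
  have ha : a ∈ H := Subgroup.subset_closure (Set.mem_insert _ _)
  have hlH : ∀ g ∈ l, g ∈ H := fun g hg => Subgroup.subset_closure (Set.mem_insert_of_mem _ hg)
  have fh := frameHyp (hc := hc) hx he hnil ((l.drop 6).map (cj x)) (by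
    rw [List.length_map, List.length_drop]; omega)
  have key := hF _ _ _ _ fh
  -- the element of the ring
  set r : RR hc := uR hc a * ((l.take 6).map fun h => uR hc h⁻¹ * XR hc x * uR hc h).prod with hr
  have hu : ∀ g ∈ H, uR hc g ∈ Subring.closure
      (insert (XR hc x) (Set.range ((uR hc).comp H.subtype))) := by
    intro g hg
    exact Subring.subset_closure (Set.mem_insert_of_mem _ ⟨⟨g, hg⟩, rfl⟩)
  have hrm : r ∈ Subring.closure (insert (XR hc x) (Set.range ((uR hc).comp H.subtype))) := by
    refine mul_mem (hu a ha) (list_prod_mem ?_)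
    intro t ht
    rw [List.mem_map] at ht
    obtain ⟨h, hh, rfl⟩ := ht
    have hhH := hlH h (List.mem_of_mem_take hh)
    exact mul_mem (mul_mem (hu _ (inv_mem hhH))
      (Subring.subset_closure (Set.mem_insert _ _))) (hu _ hhH)
  have h0 := key r hrm
  rw [phi_zero_iff] at h0
  obtain ⟨w, hw⟩ := h0
  refine ⟨w, ?_⟩
  rw [hw, hr, ap_mul, ap_u]
  have e1 : opG hc a ((baseSys hc).θ 1 x) = (baseSys hc).θ 1 (cj x a) :=
    ((isOp hc a).2 le_rfl (show x ∈ (lcsFilt N).S 1 from hx)).symm
  have e2 : ((l.take 6).map fun h => uR hc h⁻¹ * XR hc x * uR hc h) =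
      (((l.take 6).map (cj x)).map fun n => brN hc n).map opE := by
    rw [List.map_map, List.map_map]
    apply List.map_congr_left
    intro h _
    exact gen_eq hc x h
  rw [e1, e2, ← comp_ap, comp_eval, ← List.map_append, List.take_append_drop]
  rfl

end T2

end Pool.Agent.Work.MP_d7201b_al
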