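import Pool.Agent.Work.MP_d7201b_al_T2.Frame
import Pool.Agent.Work.MP_d7201b_al_T2.InstB

/-!
# T2: if the conjugators act nilpotently, the values of weight at least seven are divisible by five
-/

set_option autoImplicit false

namespace Pool.Agent.Work.MP_d7201b_al

namespace T2

universe u

/-- T2: values of weight at least `7` are divisible by `5` if the conjugators act nilpotently. -/
theorem five_div {G : Type u} [Group G] {x : G} (he : IsRightEngel 4 x) {c : ℕ}
    (hc : (Subgroup.normalClosure {x}).lowerCentralSeries (c + 1) = ⊥) (h6 : 6 ≤ c) (a : G)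
    (l : List G) (hl : l.length = c)
    (hnil : NilAct hc (Subgroup.closure (insert a {g | g ∈ l}))) :
    ∃ w : Last (Subgroup.normalClosure {x}) c hc, 5 • w = MP_d7201b_al_helper73.value hc x a l :=
  stmt_inst stmt_frame he hc h6 a l hl hnil

end T2

end Pool.Agent.Work.MP_d7201b_al
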