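import Pool.Agent.Work.MP_d7201b_al_T2.Interface

/-!
# The instantiation of the frame of T2: operators, weights, degrees
-/

set_option autoImplicit false

namespace Pool.Agent.Work.MP_d7201b_al

namespace T2

open MulOpposite

open scoped commutatorElement

set_option linter.unusedSectionVars false

theorem ring_comm_id {R : Type*} [Ring R] (v a b : R) :
    v * ((a - 1) * (b - 1) - (b - 1) * (a - 1)) = v * (a * b) - v * (b * a) := by
  noncomm_ring

section Inst

variable {G : Type*} [Group G] {N : Subgroup G} [hN : N.Normal] {c : ℕ}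
  (hc : N.lowerCentralSeries (c + 1) = ⊥)

/-! ## Operators -/

/-- The operators, acting on the right. -/
abbrev RR : Type _ := (AddMonoid.End (List G → Last N c hc))ᵐᵒᵖ

variable {hc} in
/-- Action on the right. -/
def ap (v : List G → Last N c hc) (r : RR hc) : List G → Last N c hc := r.unop v

section

variable {hc}

theorem ap_mul (v : List G → Last N c hc) (r s : RR hc) : ap v (r * s) = ap (ap v r) s := rfl

theorem ap_add (v : List G → Last N c hc) (r s : RR hc) : ap v (r + s) = ap v r + ap v s := rfl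

theorem ap_sub (v : List G → Last N c hc) (r s : RR hc) : ap v (r - s) = ap v r - ap v s := rfl

theorem ap_one (v : List G → Last N c hc) : ap v (1 : RR hc) = v := rfl

theorem ap_zero (v : List G → Last N c hc) : ap v (0 : RR hc) = 0 := rfl

theorem add_ap (v w : List G → Last N c hc) (r : RR hc) : ap (v + w) r = ap v r + ap w r :=
  map_add r.unop v w

theorem sub_ap (v w : List G → Last N c hc) (r : RR hc) : ap (v - w) r = ap v r - ap w r :=
  map_sub r.unop v w

theorem neg_ap (v : List G → Last N c hc) (r : RR hc) : ap (-v) r = - ap v r :=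
  map_neg r.unop v

theorem zero_ap (r : RR hc) : ap (0 : List G → Last N c hc) r = 0 := map_zero r.unop

theorem ap_sum (v : List G → Last N c hc) (l : List (RR hc)) :
    ap v l.sum = (l.map (ap v)).sum := by
  induction l with
  | nil => exact ap_zero v
  | cons a l ih => rw [List.sum_cons, ap_add, ih, List.map_cons, List.sum_cons]

end

/-- The action of the group. -/
def uR : G →* RR hc where
  toFun g := op (opG hc g : AddMonoid.End (List G → Last N c hc))
  map_one' := by
    apply unop_injective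
    refine AddMonoidHom.ext fun F => ?_
    funext l
    show Last.act hc 1 (F (l.map fun n => 1 * n * 1⁻¹)) = F l
    have e : (fun n : G => 1 * n * 1⁻¹) = id := by funext n; simp
    rw [e, List.map_id]
    apply Last.ext
    simp
  map_mul' g h := by
    apply unop_injective
    refine AddMonoidHom.ext fun F => ?_
    funext l
    show Last.act hc (g * h) (F (l.map fun n => g * h * n * (g * h)⁻¹)) =
      Last.act hc h (Last.act hc g (F ((l.map fun n => h * n * h⁻¹).map fun n => g * n * g⁻¹)))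
    rw [List.map_map]
    have e : (fun n : G => g * h * n * (g * h)⁻¹) =
        (fun n => g * n * g⁻¹) ∘ fun n => h * n * h⁻¹ := by
      funext n; simp only [Function.comp_apply]; group
    rw [e]
    apply Last.ext
    simp only [Last.val_act]
    group

/-- The bracket with `x`. -/
def XR (x : G) : RR hc := op (brN hc x : AddMonoid.End (List G → Last N c hc))

theorem ap_u (g : G) (v : List G → Last N c hc) : ap v (uR hc g) = opG hc g v := rfl

theorem ap_X (x : G) (v : List G → Last N c hc) : ap v (XR hc x) = brN hc x v := rfl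

theorem opG_one (v : List G → Last N c hc) : opG hc 1 v = v := by
  rw [← ap_u, map_one, ap_one]

theorem opG_mul (g h : G) (v : List G → Last N c hc) :
    opG hc (g * h) v = opG hc h (opG hc g v) := by
  rw [← ap_u, map_mul, ap_mul, ap_u, ap_u]

theorem gen_eq (x h : G) : uR hc h⁻¹ * XR hc x * uR hc h =
    op (brN hc (cj x h) : AddMonoid.End (List G → Last N c hc)) := by
  apply unop_injective
  refine AddMonoidHom.ext fun F => ?_
  show opG hc h (brN hc x (opG hc h⁻¹ F)) = brN hc (cj x h) F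
  rw [opG_brN, ← opG_mul, inv_mul_cancel, opG_one]
  rfl

/-! ## Divisibility by five -/

/-- The functions with values divisible by `5`. -/
def F5 : AddSubgroup (List G → Last N c hc) where
  carrier := {f | ∀ l, ∃ w : Last N c hc, 5 • w = f l}
  zero_mem' := fun _ => ⟨0, smul_zero _⟩
  add_mem' := by
    intro f g hf hg l
    obtain ⟨w, hw⟩ := hf l
    obtain ⟨w', hw'⟩ := hg l
    exact ⟨w + w', by rw [smul_add, hw, hw']; rfl⟩
  neg_mem' := by
    intro f hf l
    obtain ⟨w, hw⟩ := hf l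
    exact ⟨-w, by rw [smul_neg, hw]; rfl⟩

theorem F5_op {f : List G → Last N c hc} (hf : f ∈ F5 hc) (g : G) : opG hc g f ∈ F5 hc := by
  intro l
  obtain ⟨w, hw⟩ := hf (l.map fun n => g * n * g⁻¹)
  exact ⟨Last.act hc g w, by rw [← map_nsmul, hw]; rfl⟩

theorem F5_br {f : List G → Last N c hc} (hf : f ∈ F5 hc) (n : G) : brN hc n f ∈ F5 hc :=
  fun l => hf (n :: l)

/-- If the values of `z` are divisible by `5`, so are those of `[z, y]`. -/
theorem F5_comm (k : ℕ) : ∀ (j : ℕ), 1 ≤ j → ∀ z ∈ (lcsFilt N).S j,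
    (baseSys hc).θ j z ∈ F5 hc → ∀ y ∈ (lcsFilt N).S (k + 1),
    (baseSys hc).θ (j + (k + 1)) (comm z y) ∈ F5 hc := by
  set T := baseSys hc with hT
  induction k with
  | zero =>
    intro j hj z hz h y hy
    have := (isBr hc (show y ∈ N from hy)).2 hj hz
    rw [← hT] at this
    rw [zero_add, this]
    exact F5_br hc h y
  | succ k ih =>
    intro j hj z hz h y hy
    -- the subgroup of the good elements
    let K : Subgroup G :=
      { carrier := {y | y ∈ (lcsFilt N).S (k + 1 + 1) ∧ T.θ (j + (k + 1 + 1)) (comm z y) ∈ F5 hc}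
        one_mem' := by
          refine ⟨one_mem _, ?_⟩
          have e : comm z (1 : G) = 1 := by unfold comm; group
          rw [e, T.one (by omega)]
          exact zero_mem _
        mul_mem' := by
          rintro a b ⟨ha, ha'⟩ ⟨hb, hb'⟩
          refine ⟨mul_mem ha hb, ?_⟩
          rw [T.comm_add_right hj (by omega) hz ha hb]
          exact add_mem ha' hb'
        inv_mem' := by
          rintro a ⟨ha, ha'⟩
          refine ⟨inv_mem ha, ?_⟩
          have h1 := T.comm_add_right hj (by omega) hz ha (inv_mem ha)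
          have e : comm z (1 : G) = 1 := by unfold comm; group
          rw [mul_inv_cancel, e, T.one (by omega)] at h1
          rw [eq_neg_of_add_eq_zero_right h1.symm]
          exact neg_mem ha' }
    have hK : (lcsFilt N).S (k + 1 + 1) ≤ K := by
      rw [lcsFilt_succ, Subgroup.lowerCentralSeries_succ, Subgroup.commutator_le]
      intro a ha b hb
      have e : ⁅a, b⁆ = comm a⁻¹ b⁻¹ := by rw [comm_eq_bracket, inv_inv, inv_inv]
      have ha' : a⁻¹ ∈ (lcsFilt N).S (k + 1) := Subgroup.inv_mem (N.lowerCentralSeries k) ha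
      have hb' : b⁻¹ ∈ (lcsFilt N).S 1 := Subgroup.inv_mem N hb
      rw [e]
      refine ⟨(lcsFilt N).comm ha' hb', ?_⟩
      have h1 := L2.ad_step T (i := j) (j := k + 1) (k := 1) hj (by omega) le_rfl hz ha' hb'
      rw [show j + (k + 1 + 1) = j + (k + 1) + 1 by omega, h1]
      have hza : comm z a⁻¹ ∈ (lcsFilt N).S (j + (k + 1)) := (lcsFilt N).comm hz ha'
      have hzb : comm z b⁻¹ ∈ (lcsFilt N).S (j + 1) := (lcsFilt N).comm hz hb'
      refine sub_mem ?_ ?_
      · have h2 := ih j hj z hz h a⁻¹ ha'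
        have h3 := (isBr hc (show b⁻¹ ∈ N from hb')).2 (k := j + (k + 1)) (by omega) hza
        rw [← hT] at h3
        rw [h3]
        exact F5_br hc h2 _
      · have h2 : T.θ (j + 1) (comm z b⁻¹) ∈ F5 hc := by
          have h3 := (isBr hc (show b⁻¹ ∈ N from hb')).2 hj hz
          rw [← hT] at h3
          rw [h3]
          exact F5_br hc h _
        have h4 := ih (j + 1) (by omega) _ hzb h2 a⁻¹ ha'
        rwa [show j + 1 + (k + 1) = j + (k + 1) + 1 by omega] at h4
    exact (hK hy).2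

/-- Values modulo `5`. -/
def VL (k : ℕ) (f : List G → Last N c hc) : Prop :=
  ∃ y ∈ (lcsFilt N).S (k + 1), f - (baseSys hc).θ (k + 1) y ∈ F5 hc

theorem VL.add {k : ℕ} {f f' : List G → Last N c hc} (h : VL hc k f) (h' : VL hc k f') :
    VL hc k (f + f') := by
  obtain ⟨y, hy, h1⟩ := h
  obtain ⟨y', hy', h1'⟩ := h'
  refine ⟨y * y', mul_mem hy hy', ?_⟩
  rw [(baseSys hc).mul (by omega) hy hy', add_sub_add_comm]
  exact add_mem h1 h1'

theorem VL.neg {k : ℕ} {f : List G → Last N c hc} (h : VL hc k f) : VL hc k (-f) := by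
  obtain ⟨y, hy, h1⟩ := h
  refine ⟨y⁻¹, inv_mem hy, ?_⟩
  rw [Sys.inv _ (by omega) hy, sub_neg_eq_add, ← neg_mem_iff, neg_add, neg_neg, ← sub_eq_add_neg]
  exact h1

theorem VL.of_F5 {k : ℕ} {f : List G → Last N c hc} (h : f ∈ F5 hc) : VL hc k f :=
  ⟨1, one_mem _, by rw [Sys.one _ (by omega), sub_zero]; exact h⟩

theorem VL.br {k : ℕ} {f : List G → Last N c hc} (h : VL hc k f) {n : G} (hn : n ∈ N) :
    VL hc (k + 1) (brN hc n f) := by
  obtain ⟨y, hy, h1⟩ := h
  refine ⟨comm y n, (lcsFilt N).comm hy (t := 1) hn, ?_⟩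
  rw [(isBr hc hn).2 (by omega) hy, ← map_sub]
  exact F5_br hc h1 n

theorem VL.op {k : ℕ} {f : List G → Last N c hc} (h : VL hc k f) (g : G) :
    VL hc k (opG hc g f) := by
  obtain ⟨y, hy, h1⟩ := h
  refine ⟨g⁻¹ * y * g, (lcsFilt N).conj hy (Subgroup.mem_top g), ?_⟩
  rw [(isOp hc g).2 (by omega) hy, ← map_sub]
  exact F5_op hc h1 g

theorem VL.br_mul {k : ℕ} {f : List G → Last N c hc} (h : VL hc k f) {n n' : G} (hn : n ∈ N)
    (hn' : n' ∈ N) : brN hc (n * n') f - brN hc n f - brN hc n' f ∈ F5 hc := by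
  obtain ⟨y, hy, h1⟩ := h
  have e : brN hc (n * n') ((baseSys hc).θ (k + 1) y) = brN hc n ((baseSys hc).θ (k + 1) y) +
      brN hc n' ((baseSys hc).θ (k + 1) y) := by
    rw [← (isBr hc hn).2 (by omega) hy, ← (isBr hc hn').2 (by omega) hy,
      ← (isBr hc (mul_mem hn hn')).2 (by omega) hy]
    exact (baseSys hc).comm_add_right (by omega) le_rfl hy (show n ∈ (lcsFilt N).S 1 from hn)
      (show n' ∈ (lcsFilt N).S 1 from hn')
  have e2 : brN hc (n * n') f - brN hc n f - brN hc n' f =
      brN hc (n * n') (f - (baseSys hc).θ (k + 1) y) - brN hc n (f - (baseSys hc).θ (k + 1) y) -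
      brN hc n' (f - (baseSys hc).θ (k + 1) y) := by
    simp only [map_sub, e]; abel
  rw [e2]
  exact sub_mem (sub_mem (F5_br hc h1 _) (F5_br hc h1 _)) (F5_br hc h1 _)

/-- If the values of `n` are divisible by `5`, so is the bracket with `n`. -/
theorem VL.br_F5 {k : ℕ} {f : List G → Last N c hc} (h : VL hc k f) {n : G} (hn : n ∈ N)
    (h5 : (baseSys hc).θ 1 n ∈ F5 hc) : brN hc n f ∈ F5 hc := by
  obtain ⟨y, hy, h1⟩ := h
  have e : brN hc n ((baseSys hc).θ (k + 1) y) ∈ F5 hc := by
    rw [← (isBr hc hn).2 (by omega) hy]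
    have h2 := F5_comm hc k 1 le_rfl n (show n ∈ (lcsFilt N).S 1 from hn) h5 y hy
    have m : comm n y ∈ (lcsFilt N).S (1 + (k + 1)) := (lcsFilt N).comm (s := 1) hn hy
    have e : comm y n = (comm n y)⁻¹ := by unfold comm; group
    rw [e, show k + 1 + 1 = 1 + (k + 1) by omega, Sys.inv _ (by omega) m]
    exact neg_mem h2
  have := add_mem (F5_br hc h1 n) e
  rw [← map_add, sub_add_cancel] at this
  exact this

/-! ## The weights of the elements of `N` -/

/-- The elements `[z, γ₁, …, γ_d]`. -/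
def YY (N : Subgroup G) (H : Subgroup G) (d : ℕ) : Set G :=
  {y | ∃ z ∈ N, ∃ γs : List G, (∀ γ ∈ γs, γ ∈ H) ∧ γs.length = d ∧ y = γs.foldl comm z}

/-- The functions of weight `d`. -/
def UU (H : Subgroup G) (d : ℕ) : AddSubgroup (List G → Last N c hc) :=
  AddSubgroup.closure ((F5 hc : Set (List G → Last N c hc)) ∪
    {f | ∃ y ∈ YY N H d, f = (baseSys hc).θ 1 y})

theorem comm_mem_N {z : G} (hz : z ∈ N) (γ : G) : comm z γ ∈ N :=
  (lcsFilt N).comm (s := 1) (t := 0) hz (Subgroup.mem_top γ)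

theorem foldl_mem_N (γs : List G) {z : G} (hz : z ∈ N) : γs.foldl comm z ∈ N := by
  induction γs generalizing z with
  | nil => exact hz
  | cons γ γs ih => exact ih (comm_mem_N hz γ)

theorem YY_mem {H : Subgroup G} {d : ℕ} {y : G} (h : y ∈ YY N H d) : y ∈ N := by
  obtain ⟨z, hz, γs, _, _, rfl⟩ := h
  exact foldl_mem_N γs hz

theorem YY_anti {H : Subgroup G} {d e : ℕ} (h : d ≤ e) : YY N H e ⊆ YY N H d := by
  obtain ⟨k, rfl⟩ := Nat.exists_eq_add_of_le h
  rintro y ⟨z, hz, γs, h1, h2, rfl⟩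
  refine ⟨(γs.take k).foldl comm z, foldl_mem_N _ hz, γs.drop k,
    fun γ hγ => h1 γ (List.mem_of_mem_drop hγ), by rw [List.length_drop]; omega, ?_⟩
  rw [← List.foldl_append, List.take_append_drop]

theorem YY_succ {H : Subgroup G} {d : ℕ} {y γ : G} (h : y ∈ YY N H d) (hγ : γ ∈ H) :
    comm y γ ∈ YY N H (d + 1) := by
  obtain ⟨z, hz, γs, h1, h2, rfl⟩ := h
  refine ⟨z, hz, γs ++ [γ], ?_, by rw [List.length_append, h2]; rfl, ?_⟩
  · intro γ' h'
    rw [List.mem_append, List.mem_singleton] at h'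
    rcases h' with h' | rfl
    · exact h1 _ h'
    · exact hγ
  · rw [List.foldl_append]; rfl

theorem th_comm {z : G} (hz : z ∈ N) (γ : G) : (baseSys hc).θ 1 (comm z γ) =
    ap ((baseSys hc).θ 1 z) (uR hc γ - 1) := by
  have hz' : z ∈ (lcsFilt N).S 1 := hz
  have e : comm z γ = z⁻¹ * (γ⁻¹ * z * γ) := by unfold comm; group
  rw [e, (baseSys hc).mul le_rfl (inv_mem hz') ((lcsFilt N).conj hz' (Subgroup.mem_top γ)),
    Sys.inv _ le_rfl hz', (isOp hc γ).2 le_rfl hz', ap_sub, ap_one, ap_u]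
  abel

variable {hc}

theorem UU_F5 {H : Subgroup G} {d : ℕ} {f : List G → Last N c hc} (h : f ∈ F5 hc) :
    f ∈ UU hc H d := AddSubgroup.subset_closure (Or.inl h)

theorem UU_th {H : Subgroup G} {d : ℕ} {y : G} (h : y ∈ YY N H d) :
    (baseSys hc).θ 1 y ∈ UU hc H d := AddSubgroup.subset_closure (Or.inr ⟨y, h, rfl⟩)

theorem UU_anti {H : Subgroup G} {d e : ℕ} (h : d ≤ e) : UU hc H e ≤ UU hc H d := by
  refine AddSubgroup.closure_mono ?_
  rintro f (hf | ⟨y, hy, rfl⟩)
  · exact Or.inl hf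
  · exact Or.inr ⟨y, YY_anti h hy, rfl⟩

theorem UU_zero {H : Subgroup G} {z : G} (hz : z ∈ N) : (baseSys hc).θ 1 z ∈ UU hc H 0 :=
  UU_th ⟨z, hz, [], by simp, rfl, rfl⟩

theorem UU_step {H : Subgroup G} {d : ℕ} {f : List G → Last N c hc} (h : f ∈ UU hc H d) {γ : G}
    (hγ : γ ∈ H) : ap f (uR hc γ - 1) ∈ UU hc H (d + 1) := by
  induction h using AddSubgroup.closure_induction with
  | mem f hf =>
    rcases hf with hf | ⟨y, hy, rfl⟩
    · refine UU_F5 ?_
      rw [ap_sub, ap_one, ap_u]
      exact sub_mem (F5_op hc hf γ) hf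
    · rw [← th_comm hc (YY_mem hy)]
      exact UU_th (YY_succ hy hγ)
  | zero => rw [zero_ap]; exact zero_mem _
  | add a b _ _ ha hb => rw [add_ap]; exact add_mem ha hb
  | neg a _ ha => rw [neg_ap]; exact neg_mem ha

theorem UU_u {H : Subgroup G} {d : ℕ} {f : List G → Last N c hc} (h : f ∈ UU hc H d) {γ : G}
    (hγ : γ ∈ H) : ap f (uR hc γ) ∈ UU hc H d := by
  have h1 := add_mem (UU_anti (Nat.le_succ d) (UU_step h hγ)) h
  rwa [ap_sub, ap_one, sub_add_cancel] at h1

/-- The weights of the elements of the group. -/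
def AtG (hc : N.lowerCentralSeries (c + 1) = ⊥) (H : Subgroup G) (γ : G) (w : ℕ) : Prop :=
  ∀ d, ∀ f ∈ UU hc H d, ap f (uR hc γ - 1) ∈ UU hc H (d + w)

theorem AtG_one {H : Subgroup G} {γ : G} (hγ : γ ∈ H) : AtG hc H γ 1 :=
  fun _ _ hf => UU_step hf hγ

theorem AtG_comm {H : Subgroup G} {γ δ : G} (hγ : γ ∈ H) (hδ : δ ∈ H) {w w' : ℕ}
    (h : AtG hc H γ w) (h' : AtG hc H δ w') : AtG hc H (comm γ δ) (w + w') := by
  intro d f hf
  have e : uR hc (comm γ δ) - 1 = uR hc (δ * γ)⁻¹ *
      ((uR hc γ - 1) * (uR hc δ - 1) - (uR hc δ - 1) * (uR hc γ - 1)) := by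
    have e1 : comm γ δ = (δ * γ)⁻¹ * (γ * δ) := by unfold comm; group
    have e2 : uR hc (δ * γ)⁻¹ * (uR hc δ * uR hc γ) = 1 := by
      rw [← map_mul, ← map_mul, inv_mul_cancel, map_one]
    rw [ring_comm_id, e2, e1, map_mul, map_mul]
  rw [e, ap_mul, ap_sub, ap_mul, ap_mul]
  have h0 : ap f (uR hc (δ * γ)⁻¹) ∈ UU hc H d := UU_u hf (inv_mem (mul_mem hδ hγ))
  refine sub_mem ?_ ?_
  · have := h' _ _ (h _ _ h0)
    rwa [add_assoc] at this
  · have := h _ _ (h' _ _ h0)
    rwa [add_assoc, add_comm w' w] at this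

/-! ## The weights of the values -/

/-- The values with `k + 1` entries of total weight `d`. -/
inductive PP (hc : N.lowerCentralSeries (c + 1) = ⊥) (H : Subgroup G) :
    ℕ → ℕ → (List G → Last N c hc) → Prop
  | base {d e : ℕ} {z : G} : z ∈ N → (baseSys hc).θ 1 z ∈ UU hc H e → d ≤ e →
      PP hc H 0 d ((baseSys hc).θ 1 z)
  | br {k d e d' : ℕ} {f : List G → Last N c hc} {z : G} : PP hc H k d f → z ∈ N →
      (baseSys hc).θ 1 z ∈ UU hc H e → d' ≤ d + e → PP hc H (k + 1) d' (brN hc z f)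
  | five {k d : ℕ} {f : List G → Last N c hc} : f ∈ F5 hc → PP hc H k d f
  | add {k d : ℕ} {f f' : List G → Last N c hc} : PP hc H k d f → PP hc H k d f' →
      PP hc H k d (f + f')

theorem PP.anti {H : Subgroup G} {k d d' : ℕ} {f : List G → Last N c hc} (h : PP hc H k d f)
    (hd : d' ≤ d) : PP hc H k d' f := by
  induction h generalizing d' with
  | base h1 h2 h3 => exact PP.base h1 h2 (hd.trans h3)
  | br h1 h2 h3 h4 _ => exact PP.br h1 h2 h3 (hd.trans h4)
  | five h1 => exact PP.five h1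
  | add _ _ ih1 ih2 => exact (ih1 hd).add (ih2 hd)

theorem PP.vl {H : Subgroup G} {k d : ℕ} {f : List G → Last N c hc} (h : PP hc H k d f) :
    VL hc k f := by
  induction h with
  | @base d e z h1 h2 h3 => exact ⟨z, h1, by rw [sub_self]; exact zero_mem _⟩
  | br h1 h2 h3 h4 ih => exact ih.br hc h2
  | five h1 => exact VL.of_F5 hc h1
  | add _ _ ih1 ih2 => exact ih1.add hc ih2

theorem PP.act {H : Subgroup G} {k d : ℕ} {f : List G → Last N c hc} (h : PP hc H k d f) {γ : G}
    {w : ℕ} (hγ : AtG hc H γ w) : PP hc H k (d + w) (ap f (uR hc γ - 1)) := by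
  induction h with
  | @base d e z h1 h2 h3 =>
    have := hγ _ _ h2
    rw [← th_comm hc h1] at this ⊢
    exact PP.base (comm_mem_N h1 γ) this (by omega)
  | @br k d e d' f z h1 h2 h3 h4 ih =>
    have hz : comm z γ ∈ N := comm_mem_N h2 γ
    have hzu : (baseSys hc).θ 1 (comm z γ) ∈ UU hc H (e + w) := by
      rw [th_comm hc h2]; exact hγ _ _ h3
    have e1 : γ⁻¹ * z * γ = z * comm z γ := conj_eq z γ
    have e2 : ap (brN hc z f) (uR hc γ - 1) =
        (brN hc (z * comm z γ) (opG hc γ f) - brN hc z (opG hc γ f) -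
          brN hc (comm z γ) (opG hc γ f)) +
        (brN hc z (ap f (uR hc γ - 1)) +
          (brN hc (comm z γ) f + brN hc (comm z γ) (ap f (uR hc γ - 1)))) := by
      rw [ap_sub, ap_one, ap_u, opG_brN, e1, ap_sub, ap_one, ap_u, map_sub, map_sub]
      abel
    rw [e2]
    refine PP.add (PP.five ?_) (PP.add ?_ (PP.add ?_ ?_))
    · exact (h1.vl.op hc γ).br_mul hc h2 hz
    · exact PP.br ih h2 h3 (by omega)
    · exact PP.br h1 hz hzu (by omega)
    · exact PP.br ih hz hzu (by omega)
  | five h1 =>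
    refine PP.five ?_
    rw [ap_sub, ap_one, ap_u]
    exact sub_mem (F5_op hc h1 γ) h1
  | add _ _ ih1 ih2 => rw [add_ap]; exact ih1.add ih2

theorem PP.bound {H : Subgroup G} {n : ℕ} (hn : UU hc H n ≤ F5 hc) {k d : ℕ}
    {f : List G → Last N c hc} (h : PP hc H k d f) : (k + 1) * n ≤ d → f ∈ F5 hc := by
  induction h with
  | @base d e z h1 h2 h3 => intro h; exact hn (UU_anti (by omega) h2)
  | @br k d e d' f z h1 h2 h3 h4 ih =>
    intro h
    by_cases he : n ≤ e
    · exact h1.vl.br_F5 hc h2 (hn (UU_anti he h3))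
    · refine F5_br hc (ih ?_) z
      have : (k + 1 + 1) * n = (k + 1) * n + n := by ring
      omega
  | five h1 => exact fun _ => h1
  | add _ _ ih1 ih2 => intro h; exact add_mem (ih1 h) (ih2 h)

theorem UU_le_F5 {H : Subgroup G} (h : NilAct hc H) : ∃ n, UU hc H n ≤ F5 hc := by
  obtain ⟨n, hn⟩ := h
  refine ⟨n, ?_⟩
  rw [UU, AddSubgroup.closure_le]
  rintro f (hf | ⟨y, ⟨z, hz, γs, h1, h2, rfl⟩, rfl⟩)
  · exact hf
  · exact fun l => hn z hz γs h1 h2 l

/-! ## Degrees -/

/-- The functions of degree `k`. -/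
def DG (hc : N.lowerCentralSeries (c + 1) = ⊥) (k : ℕ) : AddSubgroup (List G → Last N c hc) where
  carrier := {f | ∀ l : List G, k + l.length ≠ c → f l = 0}
  zero_mem' := fun _ _ => rfl
  add_mem' := by
    intro f g hf hg l hl
    rw [Pi.add_apply, hf l hl, hg l hl, add_zero]
  neg_mem' := by
    intro f hf l hl
    rw [Pi.neg_apply, hf l hl, neg_zero]

theorem th_deg (l : List G) : ∀ (k : ℕ) (z : G), k + l.length ≠ c + 1 → th hc k z l = 0 := by
  induction l with
  | nil =>
    intro k z h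
    simp only [th]
    rw [dif_neg]
    rintro ⟨h1, -⟩
    exact h (by simpa using h1)
  | cons n l ih =>
    intro k z h
    simp only [th]
    split_ifs
    · exact ih _ _ (by rw [List.length_cons] at h; omega)
    · rfl

theorem DG_th (k : ℕ) (z : G) : (baseSys hc).θ (k + 1) z ∈ DG hc k :=
  fun l hl => th_deg l (k + 1) z (by omega)

theorem DG_op {k : ℕ} {f : List G → Last N c hc} (h : f ∈ DG hc k) (g : G) :
    opG hc g f ∈ DG hc k := by
  intro l hl
  show Last.act hc g (f (l.map _)) = 0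
  rw [h _ (by rw [List.length_map]; exact hl), map_zero]

theorem DG_br {k : ℕ} {f : List G → Last N c hc} (h : f ∈ DG hc k) (n : G) :
    brN hc n f ∈ DG hc (k + 1) :=
  fun l hl => h (n :: l) (by rw [List.length_cons]; omega)

end Inst

end T2

end Pool.Agent.Work.MP_d7201b_al
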