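import Mathlib

/-!
# Words in one operator `X` and commuting derivations: the finite part

Words are lists of naturals: the letter `0` is the operator `X` (bracket with `x`), the letter
`j + 1` is the derivation `D_j`.  A function `ψ` on words is `Valid` if it kills the right ideal
generated by the relations of a right 4-Engel element and `5 ψ = 0`.  The checker computes normal
forms level by level.
-/

set_option autoImplicit false

namespace Pool.Agent.Work.MP_d7201b_al

namespace T2

abbrev Wd := List ℕ

/-- Renaming of the labels. -/
def relab (f : ℕ → ℕ) : ℕ → ℕ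
  | 0 => 0
  | j + 1 => f j + 1

section Fn

variable {W : Type*} [AddCommGroup W]

/-- right translate by one letter -/
def tr (a : ℕ) (ψ : Wd → W) : Wd → W := fun w => ψ (w ++ [a])

/-- right translate by a word -/
def tl (s : Wd) (ψ : Wd → W) : Wd → W := fun w => ψ (w ++ s)

/-- renaming -/
def rn (f : ℕ → ℕ) (ψ : Wd → W) : Wd → W := fun w => ψ (w.map (relab f))

/-- Right multiplication by the left-normed commutator whose letters are, from the last to the
first, the given ones. -/
def zF : List ℕ → (Wd → W) → (Wd → W)
  | [], ψ => ψ
  | a :: r, ψ => match r with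
    | [] => tr a ψ
    | _ :: _ => fun v => zF r (tr a ψ) v - zF r ψ (v ++ [a])

/-- All ways to pick one element. -/
def picks {α : Type*} : List α → List (α × List α)
  | [] => []
  | a :: l => (a, l) :: (picks l).map fun p => (p.1, a :: p.2)

/-- The symmetric sum `x · sym (z₁, …, zₙ)`. -/
def symF : ℕ → List (List ℕ) → (Wd → W) → W
  | 0, _, ψ => ψ []
  | n + 1, zs, ψ => ((picks zs).map fun p => symF n p.2 (zF p.1 ψ)).sum

/-- `z` is a single label or a commutator beginning with `X`. -/
def isZ : List ℕ → Bool
  | [] => false
  | a :: r => match r with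
    | [] => true
    | _ :: _ => isZl r
where
  isZl : List ℕ → Bool
  | [] => false
  | a :: r => match r with
    | [] => match a with
      | 0 => true
      | _ + 1 => false
    | _ :: _ => isZl r

/-- The functions killed by the relations. -/
structure Valid (ψ : Wd → W) : Prop where
  five : ∀ w, 5 • ψ w = 0
  comm : ∀ p i j s, ψ (p ++ (i + 1) :: (j + 1) :: s) = ψ (p ++ (j + 1) :: (i + 1) :: s)
  xx : ∀ s, ψ (0 :: s) = 0
  lie : ∀ a b s, zF (b.reverse ++ [0]) (tl s ψ) a + zF (a.reverse ++ [0]) (tl s ψ) b = 0
  sym : ∀ zs s, zs.length = 4 → (∀ z ∈ zs, isZ z = true) → symF 4 zs (tl s ψ) = 0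

theorem zF_cons (a b : ℕ) (r : List ℕ) (ψ : Wd → W) :
    zF (a :: b :: r) ψ = zF (b :: r) (tr a ψ) - tr a (zF (b :: r) ψ) := rfl

theorem zF_one (a : ℕ) (ψ : Wd → W) : zF [a] ψ = tr a ψ := rfl

theorem tr_tl (a : ℕ) (s : Wd) (ψ : Wd → W) : tr a (tl s ψ) = tl (a :: s) ψ := by
  funext w; simp [tr, tl]

theorem tr_eq (a : ℕ) (ψ : Wd → W) : tr a ψ = tl [a] ψ := rfl

theorem tl_tl (s t : Wd) (ψ : Wd → W) : tl s (tl t ψ) = tl (s ++ t) ψ := by
  funext w; simp [tl]

theorem tr_sub (a : ℕ) (ψ φ : Wd → W) : tr a (ψ - φ) = tr a ψ - tr a φ := rfl

theorem tl_sub (s : Wd) (ψ φ : Wd → W) : tl s (ψ - φ) = tl s ψ - tl s φ := rfl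

theorem zF_sub (z : List ℕ) (ψ φ : Wd → W) : zF z (ψ - φ) = zF z ψ - zF z φ := by
  induction z generalizing ψ φ with
  | nil => rfl
  | cons a r ih =>
    cases r with
    | nil => rfl
    | cons b r =>
      rw [zF_cons, zF_cons, zF_cons, tr_sub, ih, ih, tr_sub]
      abel

theorem symF_sub (n : ℕ) (zs : List (List ℕ)) (ψ φ : Wd → W) :
    symF n zs (ψ - φ) = symF n zs ψ - symF n zs φ := by
  induction n generalizing zs ψ φ with
  | zero => rfl
  | succ n ih =>
    simp only [symF, zF_sub, ih]
    induction picks zs with
    | nil => simp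
    | cons a l ihl =>
      simp only [List.map_cons, List.sum_cons, ihl]
      abel

theorem picks_map {α β : Type*} (f : α → β) (l : List α) :
    picks (l.map f) = (picks l).map fun p => (f p.1, p.2.map f) := by
  induction l with
  | nil => rfl
  | cons a l ih => simp [picks, ih, Function.comp_def]

theorem tr_rn (f : ℕ → ℕ) (a : ℕ) (ψ : Wd → W) : tr a (rn f ψ) = rn f (tr (relab f a) ψ) := by
  funext w; simp [tr, rn]

theorem tl_rn (f : ℕ → ℕ) (s : Wd) (ψ : Wd → W) :
    tl s (rn f ψ) = rn f (tl (s.map (relab f)) ψ) := by
  funext w; simp [tl, rn]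

theorem zF_rn (f : ℕ → ℕ) (z : List ℕ) (ψ : Wd → W) :
    zF z (rn f ψ) = rn f (zF (z.map (relab f)) ψ) := by
  induction z generalizing ψ with
  | nil => rfl
  | cons a r ih =>
    cases r with
    | nil => exact tr_rn f a ψ
    | cons b r =>
      rw [zF_cons, tr_rn, ih, ih, tr_rn]
      rfl

theorem symF_rn (f : ℕ → ℕ) (n : ℕ) (zs : List (List ℕ)) (ψ : Wd → W) :
    symF n zs (rn f ψ) = symF n (zs.map (List.map (relab f))) ψ := by
  induction n generalizing zs ψ with
  | zero => rfl
  | succ n ih =>
    simp only [symF, zF_rn, ih, picks_map, List.map_map, Function.comp_def]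

theorem isZl_map (f : ℕ → ℕ) : ∀ z : List ℕ, isZ.isZl (z.map (relab f)) = isZ.isZl z
  | [] => rfl
  | [a] => by cases a <;> rfl
  | a :: b :: r => isZl_map f (b :: r)

theorem isZ_map (f : ℕ → ℕ) (z : List ℕ) : isZ (z.map (relab f)) = isZ z := by
  cases z with
  | nil => rfl
  | cons a r =>
    cases r with
    | nil => rfl
    | cons b r => exact isZl_map f (b :: r)

namespace Valid

variable {ψ φ : Wd → W}

theorem tl (h : Valid ψ) (t : Wd) : Valid (tl t ψ) where
  five w := h.five _
  comm p i j s := by simpa [T2.tl] using h.comm p i j (s ++ t)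
  xx s := by simpa [T2.tl] using h.xx (s ++ t)
  lie a b s := by rw [tl_tl]; exact h.lie a b _
  sym zs s h1 h2 := by rw [tl_tl]; exact h.sym zs _ h1 h2

theorem tr (h : Valid ψ) (a : ℕ) : Valid (tr a ψ) := h.tl [a]

theorem sub (h : Valid ψ) (h' : Valid φ) : Valid (ψ - φ) where
  five w := by
    show 5 • (ψ w - φ w) = 0
    rw [smul_sub, h.five, h'.five, sub_zero]
  comm p i j s := by
    show ψ _ - φ _ = ψ _ - φ _
    rw [h.comm, h'.comm]
  xx s := by
    show ψ _ - φ _ = 0
    rw [h.xx, h'.xx, sub_zero]
  lie a b s := by
    rw [tl_sub, zF_sub, zF_sub]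
    show _ - _ + (_ - _) = (0 : W)
    have h1 := h.lie a b s
    have h2 := h'.lie a b s
    rw [sub_add_sub_comm, h1, h2, sub_zero]
  sym zs s h1 h2 := by
    rw [tl_sub, symF_sub, h.sym zs s h1 h2, h'.sym zs s h1 h2, sub_zero]

theorem rn (h : Valid ψ) (f : ℕ → ℕ) : Valid (rn f ψ) where
  five w := h.five _
  comm p i j s := by
    simpa [T2.rn, relab] using h.comm (p.map (relab f)) (f i) (f j) (s.map (relab f))
  xx s := by simpa [T2.rn, relab] using h.xx (s.map (relab f))
  lie a b s := by
    have h1 := h.lie (a.map (relab f)) (b.map (relab f)) (s.map (relab f))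
    rw [tl_rn, zF_rn, zF_rn]
    simpa [T2.rn, relab] using h1
  sym zs s h1 h2 := by
    rw [tl_rn, symF_rn]
    refine h.sym _ _ (by simpa using h1) ?_
    intro z hz
    rw [List.mem_map] at hz
    obtain ⟨z', hz', rfl⟩ := hz
    rw [isZ_map]
    exact h2 z' hz'

theorem zF (h : Valid ψ) (z : List ℕ) : Valid (zF z ψ) := by
  induction z generalizing ψ with
  | nil => exact h
  | cons a r ih =>
    cases r with
    | nil => exact h.tr a
    | cons b r =>
      rw [zF_cons]
      exact (ih (h.tr a)).sub ((ih h).tr a)

end Valid

end Fn

/-! ## The computation -/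

/-- addition of `c` times the first vector -/
def addm (c : ℕ) : List ℕ → List ℕ → List ℕ
  | [], l => l
  | a :: r, l => match l with
    | [] => Nat.mul c a :: addm c r []
    | b :: m => Nat.add (Nat.mul c a) b :: addm c r m

/-- the linear map with the given rows, coefficients modulo 5 -/
def lin : List ℕ → List (List ℕ) → List ℕ
  | [], _ => []
  | a :: v, l => match l with
    | [] => []
    | r :: rs => match Nat.mod a 5 with
      | 0 => lin v rs
      | Nat.succ c => addm (Nat.succ c) r (lin v rs)

/-- list access -/
def nth {α : Type} (d : α) : ℕ → List α → α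
  | _, [] => d
  | n, a :: l => match n with
    | 0 => a
    | Nat.succ n => nth d n l

/-- the first `n` entries -/
def tk : ℕ → List ℕ → List ℕ
  | 0, _ => []
  | Nat.succ n, l => match l with
    | [] => []
    | a :: l => a :: tk n l

/-- leading zeros -/
def zeros : ℕ → List ℕ → List ℕ
  | 0, l => l
  | Nat.succ n, l => 0 :: zeros n l

/-- number of entries `≤ j` before the first larger one -/
def pos (j : ℕ) : List ℕ → ℕ
  | [] => 0
  | a :: l => bif Nat.blt j a then 0 else Nat.succ (pos j l)

/-- insertion -/
def ins (j : ℕ) : List ℕ → List ℕ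
  | [] => [j]
  | a :: l => bif Nat.blt j a then j :: a :: l else a :: ins j l

/-- equality -/
def lbeq : List ℕ → List ℕ → Bool
  | [], l => match l with
    | [] => true
    | _ :: _ => false
  | a :: r, l => match l with
    | [] => false
    | b :: m => Nat.beq a b && lbeq r m

/-- length -/
def len {α : Type} : List α → ℕ
  | [] => 0
  | _ :: l => Nat.succ (len l)

/-- One level of the table: basis words, the images under `X` of the basis words of level
`(k - 1, T)`, and for every position `p` the images under `D_p` of the basis words of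
level `(k, T - 1)`. -/
structure Lv where
  /-- basis words -/
  w : List Wd
  /-- images under `X` -/
  x : List (List ℕ)
  /-- images under the derivations -/
  d : List (List (List ℕ))

/-- A vector of level `(k, A.length)`. -/
structure St where
  /-- number of factors -/
  k : ℕ
  /-- the labels -/
  A : List ℕ
  /-- the coordinates -/
  v : List ℕ

section Comp

variable (tab : ℕ → ℕ → Lv) (k0 T0 : ℕ)

/-- application of one letter -/
def mul (a : ℕ) (s : St) : Option St :=
  bif Nat.beq s.k k0 && Nat.beq (len s.A) T0 then none else
  match a with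
  | 0 => bif Nat.beq (Nat.succ s.k) k0 && Nat.beq (len s.A) T0 then
      some ⟨Nat.succ s.k, s.A, tk (len (tab s.k (len s.A)).w) s.v⟩
    else bif Nat.blt (Nat.add (Nat.succ s.k) (len s.A)) (Nat.add k0 T0) then
      some ⟨Nat.succ s.k, s.A, lin s.v (tab (Nat.succ s.k) (len s.A)).x⟩
    else none
  | Nat.succ j => bif Nat.beq s.k k0 && Nat.beq (Nat.succ (len s.A)) T0 then
      some ⟨s.k, ins j s.A, zeros (Nat.add (len (tab (Nat.pred s.k) (Nat.succ (len s.A))).w)
        (Nat.mul (pos j s.A) (len (tab s.k (len s.A)).w)))
          (tk (len (tab s.k (len s.A)).w) s.v)⟩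
    else bif Nat.blt (Nat.add s.k (Nat.succ (len s.A))) (Nat.add k0 T0) then
      some ⟨s.k, ins j s.A, lin s.v (nth [] (pos j s.A) (tab s.k (Nat.succ (len s.A))).d)⟩
    else none

/-- addition of `c` times the second vector -/
def sadd (c : ℕ) (s t : St) : Option St :=
  bif Nat.beq s.k t.k && lbeq s.A t.A then some ⟨s.k, s.A, addm c t.v s.v⟩ else none

/-- application of a commutator -/
def app : List ℕ → St → Option St
  | [], s => some s
  | a :: r, s => match r with
    | [] => mul tab k0 T0 a s
    | _ :: _ => match app r s with
      | none => none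
      | some s1 => match mul tab k0 T0 a s1 with
        | none => none
        | some s2 => match mul tab k0 T0 a s with
          | none => none
          | some s3 => match app r s3 with
            | none => none
            | some s4 => sadd 4 s2 s4

/-- sum of a list -/
def ssum : List (Option St) → Option St
  | [] => none
  | s :: l => match l with
    | [] => s
    | _ :: _ => match s with
      | none => none
      | some s => match ssum l with
        | none => none
        | some t => sadd 1 t s

/-- the vector `x` -/
def st0 : St := ⟨1, [], [1]⟩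

/-- symmetric sums -/
def symS : ℕ → List (List ℕ) → Option St
  | 0, _ => some st0
  | Nat.succ n, zs => ssum ((picks zs).map fun p => match symS n p.2 with
    | none => none
    | some s => app tab k0 T0 p.1 s)

/-- successive letters -/
def muls : List ℕ → St → Option St
  | [], s => some s
  | a :: r, s => match mul tab k0 T0 a s with
    | none => none
    | some t => muls r t

/-- relation items -/
inductive Item where
  | C (A : List ℕ) (i j b : ℕ)
  | X
  | L (a b : List ℕ)
  | P (zs : List (List ℕ))

/-- reverse -/
def rv : List ℕ → List ℕ → List ℕ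
  | [], l => l
  | a :: r, l => rv r (a :: l)

/-- sum of two optional vectors -/
def oadd (c : ℕ) (s t : Option St) : Option St := match s with
  | none => none
  | some s => match t with
    | none => none
    | some t => sadd c s t

/-- evaluation of a relation -/
def item : Item → Option St
  | .C A i j b => oadd 4 (muls tab k0 T0 [Nat.succ i, Nat.succ j] ⟨k0, A, zeros b [1]⟩)
      (muls tab k0 T0 [Nat.succ j, Nat.succ i] ⟨k0, A, zeros b [1]⟩)
  | .X => mul tab k0 T0 0 st0
  | .L a b => oadd 1
      (match muls tab k0 T0 a st0 with
        | none => none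
        | some s => app tab k0 T0 (rv b [0]) s)
      (match muls tab k0 T0 b st0 with
        | none => none
        | some s => app tab k0 T0 (rv a [0]) s)
  | .P zs => bif Nat.beq (len zs) 4 && zs.all isZ then symS tab k0 T0 4 zs else none

/-- relabelling which skips `p` -/
def skip (p j : ℕ) : ℕ := bif Nat.blt j p then j else Nat.succ j

/-- the words of the target level -/
def pre : List Wd :=
  (tab (k0 - 1) T0).w.map (fun w => w ++ [0]) ++
    (List.range T0).flatMap fun p =>
      (tab k0 (T0 - 1)).w.map fun w => w.map (relab (skip p)) ++ [p + 1]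

/-- all items have a value in the target level with labels `0, …, T0 - 1` -/
def items : List Item → Option (List (List ℕ))
  | [] => some []
  | r :: l => match item tab k0 T0 r with
    | none => none
    | some s => bif Nat.beq s.k k0 && lbeq s.A (List.range T0) then
        (match items l with
          | none => none
          | some vs => some (s.v :: vs))
      else none

/-- linear combination of the relation vectors -/
def comb (vs : List (List ℕ)) : List (ℕ × ℕ) → List ℕ → List ℕ
  | [], acc => acc
  | p :: l, acc => comb vs l (addm p.2 (nth [] p.1 vs) acc)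

/-- the lift of a vector in the basis to the prewords -/
def lift : List ℕ → List ℕ → List ℕ → List ℕ
  | [], _, acc => acc
  | a :: r, l, acc => match l with
    | [] => acc
    | i :: is => match a with
      | 0 => lift r is acc
      | Nat.succ a => lift r is (addm (Nat.succ a) (zeros i [1]) acc)

/-- all entries are divisible by 5 -/
def div5 : List ℕ → Bool
  | [] => true
  | a :: l => Nat.beq (Nat.mod a 5) 0 && div5 l

/-- the rules for the prewords `e, e + 1, …` -/
def rules (vs : List (List ℕ)) (idx : List ℕ) : ℕ → List (List ℕ) → List (List (ℕ × ℕ)) → Bool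
  | _, [], _ => true
  | e, r :: rs, ls => match ls with
    | [] => false
    | c :: cs => div5 (comb vs c (lift r idx (zeros e [4]))) && rules vs idx (Nat.succ e) rs cs

/-- number of rows is as expected -/
def lens (n : ℕ) : List (List (List ℕ)) → Bool
  | [] => true
  | r :: l => Nat.beq (len r) n && lens n l

/-- equality of lists of words -/
def wbeq : List Wd → List Wd → Bool
  | [], l => match l with
    | [] => true
    | _ :: _ => false
  | a :: r, l => match l with
    | [] => false
    | b :: m => lbeq a b && wbeq r m

/-- words with labels less than `n` -/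
def wlt (n : ℕ) : List Wd → Bool
  | [] => true
  | a :: r => a.all (fun i => Nat.ble i n) && wlt n r

/-- The check of one level: `its` are the relations, `idx` the indices of the basis words among
the prewords, `cs` the coefficients. -/
def chk (its : List Item) (idx : List ℕ) (cs : List (List (ℕ × ℕ))) : Bool :=
  match items tab k0 T0 its with
  | none => false
  | some vs =>
    Nat.beq (len (tab k0 T0).x) (len (tab (k0 - 1) T0).w) &&
    (Nat.beq (len (tab k0 T0).d) T0 &&
    (lens (len (tab k0 (T0 - 1)).w) (tab k0 T0).d &&
    (wbeq (tab k0 T0).w (idx.map fun i => nth [] i (pre tab k0 T0)) &&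
    (idx.all (fun i => Nat.blt i (len (pre tab k0 T0))) &&
    (wlt T0 (pre tab k0 T0) &&
    rules vs idx 0 ((tab k0 T0).x ++ (tab k0 T0).d.flatten) cs)))))

end Comp

end T2

end Pool.Agent.Work.MP_d7201b_al
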