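import Pool.Agent.Work.MP_d7201b_al_T2.Core

/-!
# The table of the levels `(k, T)`, `k ≤ 7`, `T ≤ 8` (generated)
-/

set_option autoImplicit false
set_option maxRecDepth 100000

namespace Pool.Agent.Work.MP_d7201b_al

namespace T2

/-- levels with `k = 1` -/
def data1 : List Lv := [
  ⟨[[]],
   [],
   []⟩,
  ⟨[[1]],
   [],
   [[[1]]]⟩,
  ⟨[[2, 1]],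
   [],
   [[[1]], [[1]]]⟩,
  ⟨[[3, 2, 1]],
   [],
   [[[1]], [[1]], [[1]]]⟩,
  ⟨[],
   [],
   [[[]], [[]], [[]], [[]]]⟩,
  ⟨[],
   [],
   [[], [], [], [], []]⟩,
  ⟨[],
   [],
   [[], [], [], [], [], []]⟩,
  ⟨[],
   [],
   [[], [], [], [], [], [], []]⟩,
  ⟨[],
   [],
   [[], [], [], [], [], [], [], []]⟩]

/-- levels with `k = 2` -/
def data2 : List Lv := [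
  ⟨[],
   [[]],
   []⟩,
  ⟨[[1, 0]],
   [[1]],
   [[]]⟩,
  ⟨[[2, 1, 0], [2, 0, 1]],
   [[1]],
   [[[0, 1]], [[2, 4]]]⟩,
  ⟨[[3, 2, 1, 0], [3, 2, 0, 1], [3, 0, 2, 1]],
   [[1]],
   [[[0, 1], [0, 0, 1]], [[3, 4, 3], [0, 0, 1]], [[3, 0, 2], [0, 2, 4]]]⟩,
  ⟨[[4, 3, 2, 0, 1], [4, 3, 0, 2, 1], [4, 0, 3, 2, 1], [4, 3, 1, 0, 2]],
   [],
   [[[1], [0, 1], [0, 0, 1]], [[0, 0, 0, 1], [0, 1], [0, 0, 1]], [[1, 1, 1, 1], [3, 4, 3], [0, 0, 1]], [[1, 3, 4, 1], [3, 0, 2], [0, 2, 4]]]⟩,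
  ⟨[],
   [],
   [[[], [], [], []], [[], [], [], []], [[], [], [], []], [[], [], [], []], [[], [], [], []]]⟩,
  ⟨[],
   [],
   [[], [], [], [], [], []]⟩,
  ⟨[],
   [],
   [[], [], [], [], [], [], []]⟩,
  ⟨[],
   [],
   [[], [], [], [], [], [], [], []]⟩]

/-- levels with `k = 3` -/
def data3 : List Lv := [
  ⟨[],
   [],
   []⟩,
  ⟨[[1, 0, 0]],
   [[1]],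
   [[]]⟩,
  ⟨[[2, 1, 0, 0], [2, 0, 1, 0]],
   [[1], [0, 1]],
   [[[4, 4]], [[2, 1]]]⟩,
  ⟨[[3, 2, 1, 0, 0], [3, 2, 0, 1, 0], [3, 0, 2, 1, 0], [3, 2, 0, 0, 1], [3, 0, 2, 0, 1], [3, 1, 0, 0, 2]],
   [[1], [0, 1], [0, 0, 1]],
   [[[0, 0, 0, 1], [0, 0, 0, 0, 1]], [[0, 0, 0, 0, 0, 1], [0, 0, 0, 1, 1, 4]], [[0, 0, 0, 3, 2, 1], [0, 0, 0, 0, 2, 4]]]⟩,
  ⟨[[4, 3, 2, 0, 1, 0], [4, 3, 0, 2, 1, 0], [4, 0, 3, 2, 1, 0], [4, 3, 1, 0, 2, 0], [4, 3, 2, 0, 0, 1], [4, 3, 0, 2, 0, 1], [4, 0, 3, 2, 0, 1], [4, 3, 0, 0, 2, 1], [4, 0, 3, 0, 2, 1], [4, 3, 1, 0, 0, 2], [4, 0, 3, 1, 0, 2]],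
   [[1], [0, 1], [0, 0, 1], [0, 0, 0, 1]],
   [[[0, 0, 0, 0, 1], [0, 0, 0, 0, 0, 1], [0, 0, 0, 0, 0, 0, 1], [0, 0, 0, 0, 0, 0, 0, 1], [0, 0, 0, 0, 0, 0, 0, 0, 1], [4, 1, 0, 2, 3, 0, 0, 3, 4]], [[0, 0, 0, 0, 0, 0, 0, 0, 0, 1], [4, 3, 0, 4, 4, 4, 0, 3, 0, 4], [0, 0, 0, 0, 0, 0, 0, 0, 0, 0, 1], [0, 0, 0, 0, 0, 0, 0, 1], [0, 0, 0, 0, 0, 0, 0, 0, 1], [2, 1, 0, 4, 0, 0, 0, 3, 4, 3]], [[4, 3, 1, 4, 1, 0, 0, 4, 3, 1], [0, 1, 2, 1, 4, 1, 2, 0, 4, 4], [1, 2, 2, 1, 3, 0, 4, 2, 3, 3, 4], [4, 1, 0, 2, 3, 0, 0, 3, 4], [1, 4, 0, 3, 2, 0, 0, 3, 2], [2, 1, 0, 4, 0, 0, 0, 3, 4, 3]], [[4, 0, 4, 4, 1, 0, 0, 0, 2, 1], [0, 0, 3, 1, 4, 0, 3, 3, 1, 4], [3, 0, 3, 3, 0, 0, 1, 2, 2, 0, 1], [4, 1, 0, 2, 3, 0, 0, 1, 1], [1,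 4, 0, 3, 2, 0, 0, 2, 3], [2, 1, 0, 4, 0, 0, 0, 1, 1, 3]]]⟩,
  ⟨[[5, 4, 3, 0, 2, 0, 1]],
   [],
   [[[1], [2], [2], [1], [4], [3], [3], [], [], [4], [3]], [[1], [2], [2], [1], [4], [3], [3], [], [], [4], [3]], [[1], [2], [2], [1], [4], [3], [3], [], [], [4], [3]], [[1], [2], [2], [1], [4], [3], [3], [], [], [4], [3]], [[1], [2], [2], [1], [4], [3], [3], [], [], [4], [3]]]⟩,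
  ⟨[[6, 5, 4, 0, 3, 0, 2, 1]],
   [],
   [[[1]], [[1]], [[1]], [[1]], [[1]], [[1]]]⟩,
  ⟨[],
   [],
   [[[]], [[]], [[]], [[]], [[]], [[]], [[]]]⟩,
  ⟨[],
   [],
   [[], [], [], [], [], [], [], []]⟩]

/-- levels with `k = 4` -/
def data4 : List Lv := [
  ⟨[],
   [],
   []⟩,
  ⟨[],
   [[]],
   [[]]⟩,
  ⟨[[2, 1, 0, 0, 0], [2, 0, 1, 0, 0]],
   [[1], [0, 1]],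
   [[], []]⟩,
  ⟨[[3, 2, 1, 0, 0, 0], [3, 2, 0, 1, 0, 0], [3, 0, 2, 1, 0, 0], [3, 2, 0, 0, 1, 0], [3, 0, 2, 0, 1, 0], [3, 1, 0, 0, 2, 0], [3, 0, 2, 0, 0, 1]],
   [[1], [0, 1], [0, 0, 1], [0, 0, 0, 1], [0, 0, 0, 0, 1], [0, 0, 0, 0, 0, 1]],
   [[[4, 4, 0, 4], [0, 0, 0, 0, 0, 0, 1]], [[1, 1, 2, 0, 0, 4], [1, 0, 4, 4, 4, 0, 4]], [[1, 0, 3, 2, 3, 4], [3, 0, 1, 4, 1, 0, 1]]]⟩,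
  ⟨[[4, 3, 2, 0, 1, 0, 0], [4, 3, 0, 2, 1, 0, 0], [4, 0, 3, 2, 1, 0, 0], [4, 3, 1, 0, 2, 0, 0], [4, 3, 2, 0, 0, 1, 0], [4, 3, 0, 2, 0, 1, 0], [4, 0, 3, 2, 0, 1, 0], [4, 3, 0, 0, 2, 1, 0], [4, 0, 3, 0, 2, 1, 0], [4, 3, 1, 0, 0, 2, 0], [4, 0, 3, 1, 0, 2, 0], [4, 3, 0, 2, 0, 0, 1], [4, 0, 3, 2, 0, 0, 1], [4, 3, 0, 0, 2, 0, 1], [4, 0, 3, 0, 2, 0, 1], [4, 2, 0, 0, 3, 0, 1]],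
   [[1], [0, 1], [0, 0, 1], [0, 0, 0, 1], [0, 0, 0, 0, 1], [0, 0, 0, 0, 0, 1], [0, 0, 0, 0, 0, 0, 1], [0, 0, 0, 0, 0, 0, 0, 1], [0, 0, 0, 0, 0, 0, 0, 0, 1], [0, 0, 0, 0, 0, 0, 0, 0, 0, 1], [0, 0, 0, 0, 0, 0, 0, 0, 0, 0, 1]],
   [[[4, 0, 0, 0, 4], [0, 0, 0, 0, 0, 0, 0, 0, 0, 0, 0, 1], [0, 0, 0, 0, 0, 0, 0, 0, 0, 0, 0, 0, 1], [0, 0, 0, 0, 0, 0, 0, 0, 0, 0, 0, 0, 0, 1], [0, 0, 0, 0, 0, 0, 0, 0, 0, 0, 0, 0, 0, 0, 1], [0, 0, 0, 0, 0, 0, 0, 0, 0, 0, 0, 0, 0, 0, 0, 1], [0, 3, 0, 4, 0, 1, 3, 2, 1, 4, 4, 1, 3, 2, 2]], [[0, 0, 0, 4, 0, 0, 0, 0, 0, 4], [2, 3, 0, 4, 2, 4, 0, 4, 0, 4, 0, 0, 0, 3, 3, 3], [1, 2, 4, 3, 1, 0, 3, 4, 3, 3, 4, 3, 2, 1, 0, 3], [2, 2, 0, 2, 2, 1, 0, 1, 0, 2, 0, 1, 0, 3, 2, 2], [4,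 2, 4, 4, 4, 3, 0, 2, 3, 4, 2, 0, 1, 0, 0, 2], [4, 1, 1, 3, 4, 4, 0, 0, 2, 3, 3, 1, 4, 2, 3, 1], [0, 3, 0, 4, 0, 1, 3, 2, 1, 4, 4, 1, 3, 2, 2]], [[0, 1, 3, 0, 4, 0, 0, 1, 2, 4], [2, 2, 2, 3, 0, 1, 2, 3, 3, 4, 0, 0, 0, 1, 3], [1, 4, 4, 1, 0, 0, 4, 1, 3, 0, 1, 2, 1, 3, 0, 1], [4, 2, 0, 2, 2, 4, 3, 1, 0, 2, 0, 4, 3, 4, 2, 1], [3, 2, 2, 0, 0, 2, 2, 0, 2, 0, 3, 0, 1, 2], [4, 0, 1, 4, 4, 1, 4, 4, 2, 2, 2, 4, 2, 4, 3, 4], [4, 2, 0, 1, 4, 4, 2, 3, 4, 1, 1, 4, 1, 2, 2]], [[0, 2, 2, 0, 4, 0, 0, 0, 3, 4], [2, 1, 3, 3, 0, 0, 3, 4, 2, 4, 0, 0, 0, 2, 2], [4, 3, 1, 4, 3, 1, 1, 3, 2, 3, 4, 4, 4, 1, 2, 1], [4, 2, 0, 2, 2, 0, 2, 1, 0, 2, 0, 0, 2, 1, 0, 1], [2, 4, 3, 4, 4, 0, 3, 2, 3, 4, 2, 2, 4, 2], [0, 4, 4, 0,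 0, 0, 1, 0, 3, 3, 3, 3, 3, 2, 0, 4], [2, 3, 0, 4, 2, 1, 3, 2, 1, 4, 4, 1, 4, 1, 3]]]⟩,
  ⟨[[5, 4, 3, 0, 2, 0, 1, 0], [5, 4, 3, 0, 2, 0, 0, 1], [5, 4, 0, 3, 2, 0, 0, 1], [5, 0, 4, 3, 2, 0, 0, 1], [5, 4, 2, 0, 3, 0, 0, 1], [5, 4, 3, 0, 0, 2, 0, 1], [5, 4, 0, 3, 0, 2, 0, 1], [5, 0, 4, 3, 0, 2, 0, 1], [5, 4, 0, 0, 3, 2, 0, 1], [5, 0, 4, 0, 3, 2, 0, 1], [5, 4, 2, 0, 0, 3, 0, 1], [5, 0, 4, 2, 0, 3, 0, 1]],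
   [[1]],
   [[[0, 1], [0, 0, 1], [0, 0, 0, 1], [0, 0, 0, 0, 1], [0, 0, 0, 0, 0, 1], [0, 0, 0, 0, 0, 0, 1], [0, 0, 0, 0, 0, 0, 0, 1], [0, 0, 0, 0, 0, 0, 0, 0, 1], [0, 0, 0, 0, 0, 0, 0, 0, 0, 1], [0, 0, 0, 0, 0, 0, 0, 0, 0, 0, 1], [0, 0, 0, 0, 0, 0, 0, 0, 0, 0, 0, 1], [0, 0, 4, 0, 0, 0, 4], [0, 0, 0, 4, 0, 0, 0, 4], [0, 0, 4, 0, 4, 4, 1, 0, 0, 0, 3], [0, 0, 3, 1, 4, 4, 4, 2, 4, 1, 3], [0, 3, 4, 4, 1, 0, 4, 3, 2, 4, 3]], [[3, 2, 0, 0, 1, 1, 0, 0, 2, 0, 4], [1, 3, 4, 0, 1, 0, 4, 0, 1, 0, 3], [1, 3, 2, 2, 1, 0, 0, 4, 0, 1, 3], [4, 4, 0, 0, 4, 2, 3, 0, 3, 0, 3], [2, 4, 0, 0, 4, 0, 0, 0, 3, 0, 1], [4, 2, 2, 0, 4, 0, 2, 0, 4, 0, 2], [4, 2, 3, 4, 4, 0, 0, 2, 0, 4, 2], [3, 1, 1, 0, 4, 4, 2, 0, 3, 0, 2],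 [3, 1, 0, 1, 4, 4, 3, 4, 1, 2, 2], [1, 3, 2, 0, 3, 2, 2, 0, 1, 0, 1], [3, 3, 0, 3, 0, 3, 0, 2, 3, 3, 0, 1], [0, 0, 4, 0, 0, 0, 4], [0, 0, 0, 4, 0, 0, 0, 4], [0, 0, 4, 0, 4, 4, 1, 0, 0, 0, 3], [0, 0, 3, 1, 4, 4, 4, 2, 4, 1, 3], [0, 3, 4, 4, 1, 0, 4, 3, 2, 4, 3]], [[3, 1, 0, 0, 2, 4, 0, 0, 2, 0, 1], [1, 2, 1, 0, 4, 4, 1, 0, 3, 0, 1], [1, 1, 2, 2, 3, 3, 0, 0, 0, 1, 0, 4], [4, 1, 4, 0, 1, 0, 2, 0, 2, 0, 4], [2, 4, 0, 0, 4, 1, 0, 0, 3], [4, 2, 3, 0, 0, 0, 3, 0, 0, 0, 3], [4, 4, 3, 4, 2, 2, 0, 0, 0, 4, 0, 2], [3, 2, 2, 0, 4, 0, 3, 0, 4, 0, 2], [3, 1, 4, 1, 3, 4, 2, 0, 0, 2, 1, 4], [1, 1, 3, 0, 1, 4, 3, 0, 2], [3, 0, 0, 3, 3, 0, 0, 1, 3, 3, 3, 2], [0, 1, 1, 0, 1, 1, 1, 0, 2, 0, 1], [0, 0, 0, 4, 0, 0,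 0, 0, 0, 0, 0, 4], [0, 3, 2, 0, 4, 2, 4, 0, 3, 0, 3], [0, 0, 0, 1, 1, 4, 1, 0, 1, 1, 0, 2], [0, 2, 1, 4, 4, 4, 1, 0, 4, 4, 1, 3]], [[3, 0, 2, 3, 0, 1, 0, 0, 0, 1, 1], [1, 0, 4, 3, 4, 2, 4, 3, 3, 0, 1], [1, 0, 3, 4, 0, 2, 0, 1, 1, 4, 2, 1], [4, 3, 1, 2, 1, 1, 3, 1, 2, 0, 4], [2, 0, 2, 4, 0, 0, 0, 0, 4, 2], [4, 3, 1, 2, 2, 2, 2, 4, 2, 4, 3], [4, 1, 4, 4, 1, 1, 0, 3, 1, 4, 1, 3], [3, 1, 2, 2, 0, 3, 2, 4, 0, 2, 2], [3, 1, 3, 0, 2, 2, 3, 2, 3, 4, 3, 1], [1, 4, 0, 0, 0, 4, 2, 4, 1, 3], [3, 2, 1, 3, 2, 4, 0, 4, 4, 3, 4, 3], [0, 2, 0, 0, 4, 1, 4, 3, 0, 1, 1], [0, 4, 3, 2, 4, 2, 0, 1, 3, 2, 2, 1], [0, 2, 4, 3, 2, 1, 1, 2, 1, 1, 3], [0, 3, 0, 1, 3, 3, 4, 1, 0, 2, 1, 3], [0, 1, 2, 3, 1, 2, 4, 0, 4, 1, 0,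 2]], [[3, 0, 3, 2, 0, 1, 0, 0, 2, 4, 1], [1, 0, 0, 2, 4, 2, 0, 2, 3, 0, 1], [1, 3, 2, 1, 3, 0, 0, 4, 0, 1, 0, 4], [4, 3, 0, 3, 1, 1, 0, 4, 2, 0, 4], [2, 0, 0, 1, 0, 0, 0, 0, 3, 3], [4, 3, 0, 3, 2, 2, 0, 1, 0, 1, 3], [4, 0, 0, 1, 0, 0, 0, 2, 2, 1, 0, 2], [3, 1, 1, 3, 0, 3, 0, 1, 4, 3, 2], [3, 4, 4, 0, 0, 0, 0, 3, 2, 1, 1, 4], [1, 4, 0, 0, 0, 4, 0, 1, 2, 2], [3, 1, 0, 2, 1, 3, 2, 1, 3, 2, 3, 2], [0, 2, 0, 0, 4, 1, 0, 2, 2, 4, 1], [0, 2, 3, 3, 2, 0, 0, 4, 3, 3, 0, 4], [0, 2, 0, 2, 2, 1, 0, 3, 3, 4, 3], [0, 2, 0, 4, 2, 2, 0, 4, 2, 3, 0, 2], [0, 2, 0, 2, 2, 3, 0, 0, 3, 4, 1, 3]]]⟩,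
  ⟨[[6, 5, 4, 0, 3, 0, 2, 1, 0]],
   [[1]],
   [[[], [4], [3], [3], [4], [4], [3], [3], [1], [1], [4], [3]], [[], [4], [3], [3], [4], [4], [3], [3], [1], [1], [4], [3]], [[], [4], [3], [3], [4], [4], [3], [3], [1], [1], [4], [3]], [[], [4], [3], [3], [4], [4], [3], [3], [1], [1], [4], [3]], [[], [4], [3], [3], [4], [4], [3], [3], [1], [1], [4], [3]], [[], [4], [3], [3], [4], [4], [3], [3], [1], [1], [4], [3]]]⟩,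
  ⟨[[7, 6, 5, 0, 4, 0, 3, 2, 0, 1]],
   [],
   [[[1]], [[1]], [[1]], [[1]], [[1]], [[1]], [[1]]]⟩,
  ⟨[],
   [],
   [[[]], [[]], [[]], [[]], [[]], [[]], [[]], [[]]]⟩]

/-- levels with `k = 5` -/
def data5 : List Lv := [
  ⟨[],
   [],
   []⟩,
  ⟨[],
   [],
   [[]]⟩,
  ⟨[[2, 0, 1, 0, 0, 0]],
   [[], [1]],
   [[], []]⟩,
  ⟨[[3, 2, 0, 1, 0, 0, 0], [3, 0, 2, 1, 0, 0, 0], [3, 2, 0, 0, 1, 0, 0], [3, 0, 2, 0, 1, 0, 0], [3, 1, 0, 0, 2, 0, 0]],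
   [[], [1], [0, 1], [0, 0, 1], [0, 0, 0, 1], [0, 0, 0, 0, 1], [1, 3, 2, 2]],
   [[[4, 1, 3, 2]], [[1, 3, 2, 2, 1]], [[2, 2, 4, 0, 1]]]⟩,
  ⟨[[4, 3, 2, 0, 1, 0, 0, 0], [4, 3, 0, 2, 1, 0, 0, 0], [4, 0, 3, 2, 1, 0, 0, 0], [4, 3, 1, 0, 2, 0, 0, 0], [4, 3, 2, 0, 0, 1, 0, 0], [4, 3, 0, 2, 0, 1, 0, 0], [4, 0, 3, 2, 0, 1, 0, 0], [4, 3, 0, 0, 2, 1, 0, 0], [4, 0, 3, 0, 2, 1, 0, 0], [4, 3, 1, 0, 0, 2, 0, 0], [4, 0, 3, 1, 0, 2, 0, 0], [4, 3, 0, 2, 0, 0, 1, 0], [4, 0, 3, 2, 0, 0, 1, 0], [4, 3, 0, 0, 2, 0, 1, 0], [4, 3, 0, 0, 2, 0, 0, 1], [4, 0, 3, 0, 2, 0, 0, 1], [4, 2, 0, 0, 3, 0, 0, 1]],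
   [[1], [0, 1], [0, 0, 1], [0, 0, 0, 1], [0, 0, 0, 0, 1], [0, 0, 0, 0, 0, 1], [0, 0, 0, 0, 0, 0, 1], [0, 0, 0, 0, 0, 0, 0, 1], [0, 0, 0, 0, 0, 0, 0, 0, 1], [0, 0, 0, 0, 0, 0, 0, 0, 0, 1], [0, 0, 0, 0, 0, 0, 0, 0, 0, 0, 1], [0, 0, 0, 0, 0, 0, 0, 0, 0, 0, 0, 1], [0, 0, 0, 0, 0, 0, 0, 0, 0, 0, 0, 0, 1], [0, 0, 0, 0, 0, 0, 0, 0, 0, 0, 0, 0, 0, 1], [0, 2, 3, 0, 0, 1, 4, 4, 1, 0, 0, 3, 2, 1], [3, 3, 2, 2, 1, 1, 1, 2, 4, 0, 0, 3, 3, 1]],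
   [[[0, 4, 0, 0, 0, 4, 0, 0, 0, 0, 0, 4], [0, 0, 4, 0, 0, 0, 4, 0, 0, 0, 0, 0, 4], [0, 0, 0, 0, 0, 0, 0, 0, 0, 0, 0, 0, 0, 0, 1], [0, 0, 0, 0, 0, 0, 0, 0, 0, 0, 0, 0, 0, 0, 0, 1], [0, 0, 0, 0, 0, 0, 0, 0, 0, 0, 0, 0, 0, 0, 0, 0, 1]], [[0, 3, 0, 1, 1, 1, 0, 0, 0, 2, 0, 2, 0, 1], [0, 4, 4, 1, 1, 2, 4, 0, 0, 2, 0, 3, 4, 1], [1, 1, 0, 0, 0, 0, 0, 4, 0, 4, 0, 4, 0, 4, 4], [1, 1, 0, 0, 0, 0, 0, 4, 0, 4, 0, 4, 0, 4, 3, 1], [4, 2, 0, 0, 2, 2, 0, 2, 0, 3, 0, 0, 0, 3, 4, 0, 1]], [[0, 2, 4, 1, 1, 0, 4, 0, 0, 2, 0, 1, 4, 1], [0, 1, 1, 1, 1, 4, 1, 0, 0, 2, 0, 0, 1, 1], [1, 2, 0, 2, 3, 4, 4, 1, 4, 4, 0, 3, 4, 4, 0, 0, 4], [1, 2, 0, 2, 3, 4, 4, 1, 4, 4, 0, 3, 4, 4, 1, 1, 2], [4, 3, 0, 2, 0, 1, 4, 4, 4, 3, 0,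 4, 4, 3, 1, 0, 4]], [[0, 0, 1, 1, 1, 3, 1, 0, 0, 2, 0, 4, 1, 1], [0, 3, 4, 1, 1, 1, 4, 0, 0, 2, 0, 2, 4, 1], [1, 2, 0, 2, 3, 2, 1, 4, 1, 4, 0, 1, 1, 4, 2, 3, 4], [1, 2, 0, 2, 3, 2, 1, 4, 1, 4, 0, 1, 1, 4, 4, 3, 2], [4, 3, 0, 2, 0, 4, 1, 2, 1, 3, 0, 2, 1, 3, 3, 3, 4]]]⟩,
  ⟨[[5, 4, 3, 0, 2, 0, 1, 0, 0]],
   [[1], [], [], [], [], [3], [1], [1], [1], [1], [3], [1]],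
   [[[4], [3], [3], [4], [4], [3], [3], [1], [1], [4], [3], [4], [4], [4], [2], [2], [2]], [[4], [3], [3], [4], [4], [3], [3], [1], [1], [4], [3], [4], [4], [4], [2], [2], [2]], [[4], [3], [3], [4], [4], [3], [3], [1], [1], [4], [3], [4], [4], [4], [2], [2], [2]], [[4], [3], [3], [4], [4], [3], [3], [1], [1], [4], [3], [4], [4], [4], [2], [2], [2]], [[4], [3], [3], [4], [4], [3], [3], [1], [1], [4], [3], [4], [4], [4], [2], [2], [2]]]⟩,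
  ⟨[[6, 5, 4, 0, 3, 0, 2, 1, 0, 0]],
   [[1]],
   [[[2]], [[2]], [[2]], [[2]], [[2]], [[2]]]⟩,
  ⟨[],
   [[]],
   [[[]], [[]], [[]], [[]], [[]], [[]], [[]]]⟩,
  ⟨[],
   [],
   [[], [], [], [], [], [], [], []]⟩]

/-- levels with `k = 6` -/
def data6 : List Lv := [
  ⟨[],
   [],
   []⟩,
  ⟨[],
   [],
   [[]]⟩,
  ⟨[],
   [[]],
   [[], []]⟩,
  ⟨[[3, 2, 0, 0, 1, 0, 0, 0], [3, 0, 2, 0, 1, 0, 0, 0], [3, 1, 0, 0, 2, 0, 0, 0]],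
   [[], [], [1], [0, 1], [0, 0, 1]],
   [[], [], []]⟩,
  ⟨[[4, 3, 2, 0, 0, 1, 0, 0, 0], [4, 3, 0, 2, 0, 1, 0, 0, 0], [4, 0, 3, 2, 0, 1, 0, 0, 0], [4, 3, 1, 0, 0, 2, 0, 0, 0]],
   [[], [], [], [], [1], [0, 1], [0, 0, 1], [4, 4], [4, 1, 3], [0, 0, 0, 1], [1, 0, 1, 4], [4, 2], [4, 0, 2], [3, 2, 0, 2], [4, 1, 0, 4], [4, 0, 1, 4], [3, 0, 4, 4]],
   [[[4, 3, 0, 4], [4, 3, 0, 4], [4, 3, 0, 4]], [[2, 3, 0, 1], [2, 3, 0, 1], [2, 3, 0, 1]], [[0, 1, 3, 1], [0, 1, 3, 1], [0, 1, 3, 1]], [[0, 2, 2, 1], [0, 2, 2, 1], [0, 2, 2, 1]]]⟩,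
  ⟨[[5, 4, 3, 0, 2, 0, 1, 0, 0, 0]],
   [[1]],
   [[[4], [3], [3], [4]], [[4], [3], [3], [4]], [[4], [3], [3], [4]], [[4], [3], [3], [4]], [[4], [3], [3], [4]]]⟩,
  ⟨[[6, 5, 4, 0, 3, 0, 2, 1, 0, 0, 0]],
   [[1]],
   [[[2]], [[2]], [[2]], [[2]], [[2]], [[2]]]⟩,
  ⟨[],
   [],
   [[[]], [[]], [[]], [[]], [[]], [[]], [[]]]⟩,
  ⟨[],
   [],
   [[], [], [], [], [], [], [], []]⟩]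

/-- levels with `k = 7` -/
def data7 : List Lv := [
  ⟨[],
   [],
   []⟩,
  ⟨[],
   [],
   [[]]⟩,
  ⟨[],
   [],
   [[], []]⟩,
  ⟨[],
   [[], [], []],
   [[], [], []]⟩,
  ⟨[],
   [[], [], [], []],
   [[], [], [], []]⟩,
  ⟨[],
   [[]],
   [[], [], [], [], []]⟩,
  ⟨[],
   [[]],
   [[], [], [], [], [], []]⟩,
  ⟨[],
   [],
   [[], [], [], [], [], [], []]⟩,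
  ⟨[],
   [],
   [[], [], [], [], [], [], [], []]⟩]

/-- all levels -/
def data : List (List Lv) := [[], data1, data2, data3, data4, data5, data6, data7]

/-- the table -/
def tab (k T : ℕ) : Lv := nth ⟨[], [], List.replicate T []⟩ T (nth [] k data)

end T2

end Pool.Agent.Work.MP_d7201b_al
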