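import Pool.Agent.Work.MP_d7201b_al_T2.Data

/-!
# Kernel checks (generated)
-/

set_option autoImplicit false
set_option maxRecDepth 100000

namespace Pool.Agent.Work.MP_d7201b_al

namespace T2

theorem chk35 : chk tab 3 5
  [.C [2, 3, 4] 0 1 0, .C [2, 3, 4] 0 1 1, .C [2, 3, 4] 0 1 2, .C [2, 3, 4] 0 1 3, .C [2, 3, 4] 0 1 4, .C [2, 3, 4] 0 1 5, .C [1, 3, 4] 0 2 0, .C [1, 3, 4] 0 2 1, .C [1, 3, 4] 0 2 2, .C [1, 3, 4] 0 2 3, .C [1, 3, 4] 0 2 4, .C [1, 3, 4] 0 2 5, .C [1, 2, 4] 0 3 0, .C [1, 2, 4] 0 3 1, .C [1, 2, 4] 0 3 2, .C [1, 2, 4] 0 3 3, .C [1, 2, 4] 0 3 4, .C [1, 2, 4] 0 3 5, .C [1, 2, 3] 0 4 0, .C [1, 2, 3] 0 4 1, .C [1, 2, 3] 0 4 2, .C [1, 2, 3] 0 4 3, .C [1, 2, 3] 0 4 4, .C [1, 2, 3] 0 4 5, .C [0, 3, 4] 1 2 0, .C [0, 3, 4] 1 2 1, .C [0, 3, 4] 1 2 2, .C [0, 3, 4] 1 2 5, .C [0, 2, 4] 1 3 0, .C [0, 2, 4] 1 3 1, .C [0, 2, 4] 1 3 2, .C [0, 2, 4] 1 3 5, .C [0,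 2, 3] 1 4 0, .C [0, 2, 3] 1 4 1, .C [0, 2, 3] 1 4 2, .C [0, 1, 4] 2 3 0, .C [0, 1, 4] 2 3 1, .C [0, 1, 4] 2 3 2, .C [0, 1, 3] 2 4 0, .C [0, 1, 2] 3 4 0, .P [[5, 3, 0], [4, 0], [1], [2]], .P [[5, 2, 0], [4, 0], [1], [3]], .P [[5, 2, 0], [3, 0], [1], [4]], .P [[5, 1, 0], [4, 0], [2], [3]], .P [[5, 1, 0], [3, 0], [2], [4]], .P [[5, 1, 0], [2, 0], [3], [4]], .P [[4, 2, 0], [3, 0], [1], [5]], .P [[4, 1, 0], [3, 0], [2], [5]], .P [[4, 1, 0], [2, 0], [3], [5]], .P [[3, 1, 0], [2, 0], [4], [5]], .P [[5, 0, 4, 0], [1], [2], [3]], .P [[5, 0, 3, 0], [1], [2], [4]], .P [[5, 0, 2, 0], [1], [3], [4]], .P [[5, 0, 1, 0], [2], [3], [4]]]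
  [0]
  [[], [(0, 2), (1, 2), (2, 2), (3, 1), (4, 1), (5, 2), (6, 3), (7, 1), (9, 4), (10, 1), (11, 2), (12, 3), (13, 2), (14, 3), (15, 3), (16, 2), (17, 4), (18, 2), (19, 4), (20, 3), (21, 2), (23, 1), (24, 1), (25, 2), (26, 3), (30, 3), (31, 2), (32, 2), (33, 4), (34, 1), (36, 3), (37, 1), (38, 3), (39, 4), (40, 2), (41, 3), (42, 4), (43, 1), (45, 4), (47, 1), (48, 4), (49, 2), (50, 2), (51, 1)], [(0, 1), (1, 1), (2, 1), (3, 4), (4, 4), (5, 3), (6, 2), (8, 4), (9, 2), (10, 4), (11, 3), (12, 2), (13, 2), (14, 3), (15, 1), (16, 3), (17, 1), (18, 3), (19, 4), (20, 4), (21, 4), (22, 4), (23, 4), (24, 1), (25, 2), (26, 3), (27, 4), (28, 3), (29, 1), (30, 1), (31, 4), (32, 3), (33, 4), (34, 1), (35, 3), (36, 4), (37, 4), (38, 4), (39, 4), (40, 3), (41, 4), (42, 4), (43, 2), (44, 2), (45, 1), (47, 4), (48, 2), (49, 2), (50, 1), (51, 1)], [(0, 4), (2, 2), (3, 4),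 (4, 2), (5, 4), (6, 2), (7, 2), (8, 3), (10, 1), (11, 4), (12, 2), (13, 1), (14, 3), (15, 2), (16, 2), (17, 1), (18, 4), (19, 3), (21, 4), (22, 2), (23, 4), (24, 2), (25, 2), (26, 4), (27, 1), (28, 2), (29, 2), (30, 2), (32, 2), (33, 2), (34, 3), (35, 3), (37, 1), (38, 3), (40, 2), (41, 3), (44, 3), (45, 2), (47, 1), (48, 4), (51, 3), (52, 2)], [(1, 1), (3, 4), (5, 3), (6, 3), (9, 1), (10, 4), (11, 1), (12, 4), (13, 1), (14, 4), (15, 3), (16, 1), (17, 2), (19, 3), (21, 1), (23, 2), (24, 2), (26, 4), (27, 2), (29, 3), (30, 2), (32, 3), (34, 2), (36, 4), (37, 2), (38, 2), (39, 3), (40, 2), (41, 2), (42, 2), (43, 3), (44, 3), (46, 3), (47, 2), (52, 1), (53, 4)], [(0, 4), (3, 1), (5, 2), (6, 4), (7, 4), (8, 3), (9, 1), (10, 3), (12, 3), (13, 4), (15, 3), (16, 1), (18, 4), (19, 1), (20, 3), (21, 2), (22, 2), (23, 4), (24, 2), (25, 2), (26, 1), (27, 2), (29, 3), (30,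 2), (31, 1), (34, 3), (35, 4), (36, 3), (37, 2), (38, 3), (39, 2), (40, 4), (41, 1), (42, 3), (43, 3), (45, 1), (47, 3), (48, 1), (49, 3), (52, 2), (53, 3)], [(0, 4), (1, 2), (2, 3), (3, 2), (5, 3), (7, 2), (8, 2), (10, 2), (11, 1), (12, 1), (13, 4), (14, 1), (15, 2), (16, 4), (17, 1), (18, 1), (20, 3), (21, 1), (22, 4), (23, 4), (24, 3), (25, 3), (26, 2), (27, 3), (28, 3), (29, 4), (30, 4), (31, 2), (32, 2), (33, 3), (34, 2), (36, 3), (37, 3), (40, 4), (41, 1), (42, 1), (43, 3), (44, 3), (45, 4), (46, 2), (48, 3), (49, 3), (52, 2), (53, 3)], [(0, 2), (1, 4), (2, 4), (3, 3), (4, 4), (5, 2), (7, 4), (8, 1), (9, 2), (10, 1), (11, 2), (12, 1), (13, 1), (14, 2), (15, 2), (16, 2), (17, 2), (18, 1), (19, 1), (20, 4), (21, 2), (22, 4), (26, 4), (27, 2), (28, 1), (30, 4), (31, 2), (32, 1), (33, 2), (34, 3), (37, 3), (38, 1), (39, 1), (40, 3), (41, 3), (42, 1), (43,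 3), (44, 1), (45, 1), (46, 2), (47, 2), (48, 2), (50, 3), (51, 3), (52, 3), (53, 3)], [(0, 2), (1, 1), (2, 2), (3, 4), (4, 3), (5, 1), (6, 1), (7, 4), (8, 3), (11, 1), (12, 1), (13, 3), (15, 1), (17, 2), (18, 2), (19, 3), (20, 4), (21, 4), (24, 1), (25, 4), (26, 2), (27, 1), (28, 1), (31, 2), (32, 2), (33, 1), (35, 3), (37, 1), (38, 2), (40, 3), (41, 3), (43, 3), (46, 3), (47, 3), (48, 3), (50, 3), (51, 3), (52, 3), (53, 3)], [(0, 2), (1, 3), (2, 1), (5, 1), (6, 1), (7, 3), (8, 4), (10, 4), (11, 3), (12, 1), (13, 3), (14, 1), (15, 1), (16, 1), (17, 4), (18, 1), (19, 4), (20, 1), (21, 3), (24, 1), (27, 2), (28, 1), (29, 2), (30, 3), (32, 2), (34, 2), (35, 4), (37, 1), (38, 3), (39, 3), (41, 4), (42, 2), (43, 3), (44, 2), (45, 1), (46, 3), (47, 4), (48, 3), (51, 3), (52, 3), (53, 4)], [(0, 1), (1, 1), (2, 1), (3, 3), (4, 2), (5, 3), (6, 1), (7, 4), (8, 4), (9,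 1), (10, 4), (12, 3), (13, 3), (14, 1), (15, 2), (18, 2), (19, 3), (20, 2), (21, 1), (23, 3), (24, 4), (25, 2), (26, 3), (27, 3), (30, 4), (31, 2), (32, 4), (33, 4), (34, 1), (35, 3), (36, 3), (37, 2), (38, 3), (40, 2), (41, 3), (42, 1), (43, 3), (44, 3), (45, 4), (46, 2), (47, 1), (48, 2), (49, 3), (51, 1), (52, 1), (53, 3)], [(0, 4), (1, 3), (3, 3), (4, 3), (5, 4), (6, 3), (7, 3), (8, 4), (9, 3), (10, 1), (11, 4), (14, 3), (15, 3), (16, 1), (17, 1), (18, 2), (20, 2), (21, 3), (22, 1), (23, 1), (25, 3), (26, 1), (27, 2), (28, 3), (29, 1), (30, 2), (32, 1), (33, 1), (34, 3), (35, 2), (36, 2), (37, 2), (41, 1), (42, 1), (43, 4), (44, 4), (46, 4), (47, 1), (52, 3), (53, 2)], [(1, 2), (2, 3), (3, 2), (5, 4), (6, 4), (8, 1), (9, 4), (10, 1), (11, 2), (12, 2), (13, 4), (15, 3), (16, 2), (17, 3), (18, 3), (19, 3), (20, 1), (21, 2), (23, 1), (25, 3), (26, 2), (28,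 1), (29, 3), (30, 1), (31, 3), (32, 1), (34, 3), (35, 3), (36, 1), (37, 4), (38, 3), (39, 4), (40, 2), (41, 3), (42, 2), (43, 1), (44, 2), (45, 4), (46, 4), (47, 2), (48, 4), (49, 2), (50, 2), (51, 1), (52, 1), (53, 4)], [(0, 1), (2, 2), (3, 2), (4, 2), (8, 3), (9, 4), (10, 3), (11, 3), (12, 1), (13, 3), (14, 4), (15, 3), (16, 2), (17, 2), (19, 4), (21, 1), (22, 3), (23, 3), (25, 1), (26, 4), (27, 3), (28, 1), (29, 4), (31, 2), (32, 3), (33, 3), (35, 4), (38, 4), (39, 4), (40, 3), (41, 4), (42, 4), (43, 2), (44, 2), (45, 1), (46, 2), (47, 2), (48, 2), (49, 2), (50, 1), (51, 1), (52, 1), (53, 4)], [(0, 3), (1, 4), (2, 4), (3, 1), (4, 2), (5, 3), (6, 3), (7, 4), (8, 2), (9, 4), (10, 4), (11, 1), (14, 1), (15, 1), (17, 2), (18, 2), (19, 1), (20, 2), (21, 3), (23, 2), (25, 3), (27, 2), (28, 3), (29, 1), (30, 4), (31, 2), (32, 3), (33, 2), (34, 1), (36, 2), (37,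 3), (38, 3), (40, 2), (41, 1), (42, 4), (43, 2), (44, 4), (45, 2), (47, 1), (48, 4), (51, 3), (52, 3), (53, 4)], [(0, 1), (1, 1), (3, 4), (5, 3), (6, 3), (9, 1), (10, 4), (11, 1), (12, 4), (13, 1), (14, 4), (15, 3), (16, 1), (17, 2), (19, 3), (21, 1), (23, 2), (24, 2), (26, 4), (27, 2), (29, 3), (30, 2), (32, 3), (34, 2), (36, 4), (37, 2), (38, 2), (39, 3), (40, 2), (41, 2), (42, 2), (43, 3), (44, 3), (46, 3), (47, 2), (52, 1), (53, 4)], [(0, 4), (1, 1), (3, 1), (5, 2), (6, 4), (7, 4), (8, 3), (9, 1), (10, 3), (12, 3), (13, 4), (15, 3), (16, 1), (18, 4), (19, 1), (20, 3), (21, 2), (22, 2), (23, 4), (24, 2), (25, 2), (26, 1), (27, 2), (29, 3), (30, 2), (31, 1), (34, 3), (35, 4), (36, 3), (37, 2), (38, 3), (39, 2), (40, 4), (41, 1), (42, 3), (43, 3), (45, 1), (47, 3), (48, 1), (49, 3), (52, 2), (53, 3)], [(0, 4), (1, 2), (2, 4), (3, 2), (5, 3), (7, 2), (8, 2),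 (10, 2), (11, 1), (12, 1), (13, 4), (14, 1), (15, 2), (16, 4), (17, 1), (18, 1), (20, 3), (21, 1), (22, 4), (23, 4), (24, 3), (25, 3), (26, 2), (27, 3), (28, 3), (29, 4), (30, 4), (31, 2), (32, 2), (33, 3), (34, 2), (36, 3), (37, 3), (40, 4), (41, 1), (42, 1), (43, 3), (44, 3), (45, 4), (46, 2), (48, 3), (49, 3), (52, 2), (53, 3)], [(0, 2), (1, 4), (2, 4), (3, 4), (4, 4), (5, 2), (7, 4), (8, 1), (9, 2), (10, 1), (11, 2), (12, 1), (13, 1), (14, 2), (15, 2), (16, 2), (17, 2), (18, 1), (19, 1), (20, 4), (21, 2), (22, 4), (26, 4), (27, 2), (28, 1), (30, 4), (31, 2), (32, 1), (33, 2), (34, 3), (37, 3), (38, 1), (39, 1), (40, 3), (41, 3), (42, 1), (43, 3), (44, 1), (45, 1), (46, 2), (47, 2), (48, 2), (50, 3), (51, 3), (52, 3), (53, 3)], [(0, 2), (1, 1), (2, 2), (3, 4), (4, 4), (5, 1), (6, 1), (7, 4), (8, 3), (11, 1), (12, 1), (13, 3), (15, 1), (17, 2), (18, 2), (19,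 3), (20, 4), (21, 4), (24, 1), (25, 4), (26, 2), (27, 1), (28, 1), (31, 2), (32, 2), (33, 1), (35, 3), (37, 1), (38, 2), (40, 3), (41, 3), (43, 3), (46, 3), (47, 3), (48, 3), (50, 3), (51, 3), (52, 3), (53, 3)], [(0, 1), (1, 1), (3, 4), (4, 4), (5, 3), (6, 3), (7, 1), (9, 2), (10, 3), (11, 3), (12, 1), (13, 4), (14, 3), (15, 3), (17, 4), (19, 3), (20, 4), (22, 4), (23, 4), (24, 1), (25, 1), (26, 4), (27, 1), (28, 3), (30, 1), (31, 4), (34, 4), (35, 2), (36, 3), (37, 4), (38, 3), (39, 3), (41, 2), (42, 1), (44, 3), (45, 1), (47, 2), (48, 3), (51, 3), (52, 1), (53, 1)], [(0, 4), (1, 4), (2, 3), (3, 1), (4, 3), (5, 2), (6, 4), (7, 2), (8, 1), (9, 2), (10, 1), (11, 2), (12, 1), (14, 1), (15, 3), (16, 2), (17, 2), (18, 1), (19, 3), (20, 4), (21, 2), (22, 2), (24, 2), (25, 1), (26, 1), (27, 3), (28, 3), (30, 4), (31, 2), (32, 1), (33, 1), (34, 4), (35, 3), (36, 3),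 (37, 2), (38, 3), (40, 2), (41, 1), (42, 1), (44, 3), (45, 4), (46, 3), (48, 2), (49, 3), (51, 1), (52, 2), (53, 2)], [(0, 3), (1, 1), (3, 4), (4, 3), (5, 3), (7, 2), (8, 4), (9, 1), (10, 4), (11, 3), (12, 3), (13, 2), (14, 2), (15, 3), (16, 3), (17, 4), (18, 2), (19, 4), (20, 3), (22, 3), (23, 2), (25, 1), (26, 2), (27, 1), (28, 2), (29, 4), (30, 1), (32, 2), (33, 3), (34, 1), (35, 3), (36, 1), (37, 1), (38, 4), (40, 3), (41, 3), (42, 1), (43, 4), (44, 3), (45, 1), (46, 4), (47, 1), (51, 1), (52, 2), (53, 2)], [(0, 3), (1, 4), (2, 1), (4, 2), (5, 4), (6, 4), (7, 4), (8, 3), (9, 3), (10, 3), (11, 1), (12, 2), (13, 1), (14, 3), (15, 1), (16, 3), (17, 4), (18, 4), (19, 1), (21, 1), (22, 1), (23, 1), (24, 1), (25, 3), (26, 2), (27, 4), (29, 3), (31, 3), (32, 3), (33, 1), (34, 2), (35, 4), (36, 2), (37, 4), (38, 1), (39, 4), (40, 2), (41, 3), (42, 2), (43, 1), (45,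 1), (46, 4), (47, 1), (49, 2), (50, 2), (51, 2), (53, 4)], [(0, 3), (1, 4), (2, 1), (3, 2), (5, 4), (6, 2), (7, 4), (8, 4), (10, 2), (11, 1), (13, 3), (14, 2), (15, 4), (17, 3), (18, 1), (19, 1), (22, 1), (23, 1), (24, 4), (25, 3), (26, 3), (27, 4), (28, 3), (30, 4), (31, 2), (33, 1), (34, 2), (35, 2), (36, 2), (37, 3), (38, 2), (39, 4), (40, 3), (41, 4), (42, 4), (43, 2), (44, 2), (45, 1), (46, 2), (47, 4), (49, 2), (50, 1), (51, 2), (53, 4)], [(0, 4), (1, 2), (2, 2), (3, 3), (5, 1), (6, 2), (7, 1), (8, 4), (9, 2), (10, 1), (11, 3), (12, 1), (13, 1), (14, 2), (15, 4), (17, 4), (18, 3), (19, 2), (20, 3), (21, 1), (23, 4), (24, 4), (25, 4), (26, 2), (27, 3), (29, 2), (30, 1), (31, 2), (32, 2), (33, 2), (34, 1), (35, 3), (36, 1), (37, 1), (38, 4), (40, 3), (42, 4), (43, 2), (45, 1), (51, 1), (53, 4)], [(0, 2), (1, 3), (2, 1), (5, 1), (6, 2), (7, 3), (8, 4), (10,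 4), (11, 3), (12, 1), (13, 3), (14, 1), (15, 1), (16, 1), (17, 4), (18, 1), (19, 4), (20, 1), (21, 3), (24, 1), (27, 2), (28, 1), (29, 2), (30, 3), (32, 2), (34, 2), (35, 4), (37, 1), (38, 3), (39, 3), (41, 4), (42, 2), (43, 3), (44, 2), (45, 1), (46, 3), (47, 4), (48, 3), (51, 3), (52, 3), (53, 4)], [(0, 2), (1, 4), (3, 3), (4, 3), (5, 2), (6, 4), (7, 2), (8, 3), (9, 1), (10, 4), (11, 4), (12, 2), (14, 2), (15, 1), (16, 2), (17, 1), (19, 4), (20, 2), (21, 2), (22, 3), (23, 3), (24, 1), (25, 2), (26, 2), (27, 4), (30, 2), (31, 1), (32, 2), (33, 1), (34, 2), (35, 4), (36, 2), (37, 1), (38, 1), (39, 2), (40, 2), (41, 3), (42, 3), (43, 3), (45, 1), (47, 4), (49, 3), (51, 1), (52, 1), (53, 3)], [(0, 1), (1, 1), (2, 1), (3, 3), (4, 2), (5, 3), (6, 1), (7, 4), (9, 1), (10, 4), (12, 3), (13, 3), (14, 1), (15, 2), (18, 2), (19, 3), (20, 2), (21, 1), (23, 3), (24, 4),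 (25, 2), (26, 3), (27, 3), (30, 4), (31, 2), (32, 4), (33, 4), (34, 1), (35, 3), (36, 3), (37, 2), (38, 3), (40, 2), (41, 3), (42, 1), (43, 3), (44, 3), (45, 4), (46, 2), (47, 1), (48, 2), (49, 3), (51, 1), (52, 1), (53, 3)], [(0, 2), (1, 4), (2, 4), (3, 3), (4, 4), (5, 2), (7, 4), (8, 1), (9, 3), (10, 1), (11, 2), (12, 1), (13, 1), (14, 2), (15, 2), (16, 2), (17, 2), (18, 1), (19, 1), (20, 4), (21, 2), (22, 4), (26, 4), (27, 2), (28, 1), (30, 4), (31, 2), (32, 1), (33, 2), (34, 3), (37, 3), (38, 1), (39, 1), (40, 3), (41, 3), (42, 1), (43, 3), (44, 1), (45, 1), (46, 2), (47, 2), (48, 2), (50, 3), (51, 3), (52, 3), (53, 3)], [(0, 2), (1, 1), (2, 2), (3, 4), (4, 3), (5, 1), (6, 1), (7, 4), (8, 3), (10, 1), (11, 1), (12, 1), (13, 3), (15, 1), (17, 2), (18, 2), (19, 3), (20, 4), (21, 4), (24, 1), (25, 4), (26, 2), (27, 1), (28, 1), (31, 2), (32, 2), (33, 1), (35,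 3), (37, 1), (38, 2), (40, 3), (41, 3), (43, 3), (46, 3), (47, 3), (48, 3), (50, 3), (51, 3), (52, 3), (53, 3)], [(0, 1), (1, 1), (3, 4), (4, 4), (5, 3), (6, 3), (7, 1), (9, 2), (10, 3), (11, 3), (12, 1), (13, 4), (14, 3), (15, 3), (17, 4), (19, 3), (20, 4), (22, 4), (23, 4), (24, 2), (25, 1), (26, 4), (27, 1), (28, 3), (30, 1), (31, 4), (34, 4), (35, 2), (36, 3), (37, 4), (38, 3), (39, 3), (41, 2), (42, 1), (44, 3), (45, 1), (47, 2), (48, 3), (51, 3), (52, 1), (53, 1)], [(0, 4), (1, 4), (2, 3), (3, 1), (4, 3), (5, 2), (6, 4), (7, 2), (8, 1), (9, 2), (10, 1), (11, 2), (12, 1), (14, 1), (15, 3), (16, 2), (17, 2), (18, 1), (19, 3), (20, 4), (21, 2), (22, 2), (24, 2), (25, 1), (26, 2), (27, 3), (28, 3), (30, 4), (31, 2), (32, 1), (33, 1), (34, 4), (35, 3), (36, 3), (37, 2), (38, 3), (40, 2), (41, 1), (42, 1), (44, 3), (45, 4), (46, 3), (48, 2), (49, 3), (51, 1),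 (52, 2), (53, 2)], [(0, 2), (2, 4), (3, 3), (4, 3), (5, 4), (6, 3), (7, 2), (8, 4), (11, 4), (13, 2), (14, 2), (15, 4), (16, 2), (17, 3), (18, 2), (19, 3), (20, 4), (21, 3), (23, 2), (24, 1), (25, 3), (26, 1), (27, 4), (28, 1), (29, 2), (30, 2), (31, 2), (32, 2), (33, 1), (34, 3), (35, 4), (36, 3), (37, 2), (38, 1), (39, 3), (40, 3), (41, 1), (42, 3), (43, 3), (44, 4), (45, 1), (46, 4), (47, 1), (50, 1), (52, 2), (53, 2)], [(0, 1), (1, 2), (2, 4), (3, 1), (4, 2), (5, 3), (6, 3), (7, 2), (8, 3), (9, 4), (10, 1), (12, 3), (13, 3), (14, 3), (18, 4), (20, 1), (22, 2), (23, 1), (25, 3), (26, 3), (27, 3), (28, 1), (29, 3), (30, 4), (31, 4), (32, 3), (33, 2), (34, 1), (35, 2), (36, 2), (37, 1), (38, 3), (39, 2), (40, 2), (41, 2), (42, 3), (44, 1), (45, 1), (46, 4), (47, 1), (48, 2), (50, 2), (51, 2), (53, 4)], [(0, 1), (1, 2), (2, 4), (3, 2), (5, 4), (6, 3), (7, 3),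 (8, 1), (9, 2), (10, 3), (11, 4), (12, 4), (13, 4), (15, 2), (16, 4), (18, 1), (19, 1), (21, 2), (22, 4), (23, 1), (25, 4), (26, 1), (27, 2), (28, 2), (29, 4), (30, 1), (31, 4), (33, 3), (36, 2), (37, 4), (38, 1), (40, 3), (41, 4), (42, 4), (43, 2), (44, 2), (45, 1), (46, 2), (47, 4), (48, 2), (50, 2), (51, 1), (53, 4)], [(1, 3), (2, 3), (3, 2), (5, 2), (6, 3), (7, 3), (8, 3), (9, 1), (10, 2), (11, 1), (13, 4), (14, 3), (16, 4), (17, 1), (18, 3), (21, 4), (22, 2), (23, 4), (24, 2), (25, 4), (26, 2), (27, 4), (28, 2), (29, 2), (30, 1), (31, 1), (32, 2), (33, 1), (34, 2), (36, 4), (37, 3), (38, 1), (39, 3), (40, 3), (41, 4), (44, 2), (45, 1), (50, 1), (53, 4)], [(0, 4), (2, 3), (3, 1), (6, 1), (7, 2), (8, 3), (9, 3), (10, 3), (12, 2), (13, 4), (14, 2), (15, 3), (16, 2), (17, 2), (18, 1), (19, 3), (20, 2), (22, 3), (24, 3), (25, 3), (26, 4), (27, 3), (28, 4), (29,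 4), (30, 4), (31, 4), (32, 2), (34, 2), (35, 3), (36, 2), (37, 4), (39, 1), (41, 2), (42, 4), (43, 2), (44, 3), (45, 1), (46, 3), (47, 4), (49, 3), (50, 3), (52, 3), (53, 4)], [(0, 1), (1, 3), (2, 4), (4, 3), (6, 3), (7, 4), (8, 1), (9, 3), (10, 4), (11, 4), (12, 3), (13, 3), (14, 4), (15, 4), (16, 2), (17, 1), (19, 1), (23, 3), (24, 4), (25, 2), (26, 2), (27, 2), (28, 2), (30, 2), (31, 3), (32, 2), (33, 4), (34, 4), (35, 1), (36, 1), (37, 4), (39, 3), (40, 2), (41, 3), (42, 3), (44, 3), (45, 1), (47, 4), (48, 3), (50, 1), (52, 1), (53, 3)], [(0, 1), (1, 1), (2, 1), (3, 4), (4, 2), (5, 2), (6, 1), (7, 2), (8, 3), (9, 3), (10, 1), (11, 2), (12, 3), (14, 3), (16, 3), (17, 3), (18, 2), (19, 3), (20, 2), (21, 2), (22, 4), (23, 3), (24, 1), (25, 2), (26, 2), (27, 2), (28, 3), (31, 3), (32, 4), (33, 3), (34, 2), (35, 2), (37, 4), (38, 2), (39, 1), (40, 2), (41, 1),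 (42, 3), (43, 3), (44, 3), (45, 4), (46, 2), (47, 1), (48, 3), (49, 2), (50, 1), (52, 1), (53, 3)], [(0, 4), (1, 1), (2, 1), (3, 1), (4, 4), (5, 4), (7, 3), (8, 1), (9, 3), (10, 3), (11, 3), (12, 1), (13, 2), (14, 2), (15, 2), (17, 1), (18, 1), (19, 4), (20, 1), (22, 1), (25, 2), (26, 3), (27, 3), (28, 1), (29, 3), (31, 1), (32, 1), (33, 3), (34, 2), (35, 3), (37, 2), (38, 1), (39, 1), (40, 3), (41, 1), (42, 3), (43, 1), (44, 3), (45, 1), (46, 2), (47, 2), (49, 2), (50, 3), (51, 3), (52, 3), (53, 3)], [(1, 4), (3, 1), (4, 3), (5, 4), (6, 1), (8, 3), (9, 4), (10, 3), (12, 1), (13, 2), (15, 2), (16, 3), (17, 3), (18, 2), (20, 2), (21, 1), (22, 3), (24, 1), (25, 2), (26, 3), (28, 1), (29, 2), (30, 4), (31, 3), (32, 2), (34, 1), (37, 2), (38, 2), (40, 3), (42, 3), (44, 3), (46, 3), (47, 3), (49, 3), (50, 3), (51, 3), (52, 3), (53, 3)], [(2, 4), (4, 4), (5, 2), (7,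 2), (8, 3), (10, 2), (11, 4), (12, 4), (13, 3), (16, 1), (17, 3), (19, 1), (20, 1), (21, 2), (22, 2), (23, 4), (24, 1), (25, 2), (26, 4), (27, 3), (28, 4), (29, 4), (30, 1), (31, 2), (33, 1), (34, 3), (35, 2), (36, 1), (37, 3), (39, 1), (41, 1), (42, 2), (43, 3), (45, 1), (47, 2), (49, 3), (50, 3), (52, 1), (53, 1)], [(0, 2), (1, 2), (2, 1), (3, 3), (4, 3), (6, 1), (7, 1), (8, 2), (9, 4), (10, 3), (11, 1), (12, 4), (13, 1), (15, 1), (17, 3), (18, 1), (19, 1), (20, 1), (21, 3), (22, 1), (24, 2), (26, 3), (28, 3), (29, 1), (30, 3), (32, 1), (33, 2), (34, 3), (35, 3), (36, 1), (38, 2), (39, 1), (40, 2), (41, 1), (42, 1), (43, 3), (45, 4), (46, 3), (48, 3), (49, 2), (50, 1), (52, 2), (53, 2)], [(0, 4), (1, 4), (2, 4), (3, 2), (4, 4), (5, 1), (6, 4), (8, 3), (9, 3), (11, 1), (12, 1), (15, 1), (16, 3), (18, 4), (19, 1), (20, 2), (21, 1), (22, 2), (23, 4), (25, 3),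 (26, 4), (29, 1), (30, 2), (31, 2), (32, 3), (33, 1), (35, 3), (36, 1), (37, 4), (38, 4), (40, 4), (41, 2), (42, 2), (43, 4), (44, 4), (45, 1), (47, 1), (52, 2), (53, 2)], [(0, 1), (1, 3), (2, 3), (5, 3), (6, 2), (7, 3), (9, 3), (10, 2), (13, 2), (14, 1), (15, 3), (16, 2), (17, 2), (18, 4), (19, 2), (20, 1), (22, 3), (23, 1), (24, 4), (25, 1), (26, 3), (27, 3), (28, 3), (29, 1), (30, 1), (31, 1), (32, 3), (34, 2), (35, 3), (36, 2), (37, 4), (38, 1), (40, 2), (41, 2), (42, 2), (45, 3), (47, 2), (50, 2), (51, 2), (53, 4)], [(0, 1), (1, 3), (2, 3), (3, 4), (5, 4), (6, 4), (7, 4), (8, 2), (9, 2), (10, 2), (11, 4), (12, 3), (13, 1), (14, 4), (15, 4), (16, 2), (17, 3), (18, 4), (19, 3), (21, 1), (22, 2), (23, 1), (24, 1), (25, 2), (27, 2), (28, 1), (30, 4), (31, 2), (32, 3), (33, 1), (34, 1), (36, 2), (37, 3), (38, 1), (40, 2), (41, 3), (42, 1), (43, 1), (44, 4),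 (45, 3), (47, 2), (50, 3), (51, 1), (53, 4)], [(0, 3), (1, 4), (2, 3), (3, 1), (4, 3), (5, 1), (6, 1), (7, 1), (8, 1), (9, 2), (10, 3), (12, 3), (13, 1), (14, 3), (16, 1), (17, 4), (18, 3), (19, 3), (20, 2), (23, 2), (24, 2), (26, 1), (27, 4), (28, 2), (29, 3), (30, 4), (31, 1), (32, 3), (33, 2), (35, 3), (36, 1), (37, 4), (38, 4), (40, 4), (43, 1), (44, 1), (45, 1), (47, 1), (53, 4)], [(0, 1), (2, 2), (3, 4), (5, 4), (6, 2), (7, 4), (8, 3), (9, 4), (10, 3), (11, 4), (12, 3), (13, 2), (14, 4), (15, 3), (16, 2), (17, 3), (18, 4), (19, 1), (21, 4), (22, 4), (23, 4), (24, 2), (25, 4), (26, 1), (27, 1), (28, 3), (29, 2), (30, 2), (32, 4), (33, 1), (35, 4), (38, 2), (39, 2), (40, 3), (45, 3), (46, 2), (47, 2), (48, 3), (49, 3), (52, 3), (53, 4)], [(1, 3), (2, 2), (3, 1), (4, 4), (7, 1), (8, 3), (9, 1), (10, 4), (11, 4), (13, 1), (14, 1), (15, 4), (16, 2), (17, 4),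 (20, 1), (22, 3), (23, 1), (24, 2), (25, 1), (26, 4), (28, 3), (29, 2), (30, 4), (31, 1), (32, 2), (34, 2), (35, 1), (36, 2), (37, 4), (39, 4), (40, 3), (41, 4), (42, 4), (43, 1), (44, 1), (45, 4), (46, 4), (47, 1), (52, 1), (53, 3)], [(0, 3), (1, 1), (3, 3), (4, 4), (5, 3), (7, 3), (9, 1), (10, 3), (11, 3), (13, 4), (14, 4), (15, 4), (16, 3), (19, 2), (20, 4), (21, 3), (23, 1), (24, 3), (26, 3), (27, 2), (28, 2), (29, 3), (31, 4), (32, 2), (33, 1), (34, 1), (35, 2), (36, 3), (37, 3), (39, 4), (40, 3), (41, 2), (42, 1), (43, 4), (44, 3), (45, 4), (46, 4), (47, 1), (48, 3), (49, 2), (52, 1), (53, 3)], [(0, 4), (2, 2), (3, 3), (4, 2), (5, 2), (6, 2), (7, 3), (9, 4), (10, 1), (11, 1), (12, 1), (13, 1), (14, 3), (15, 4), (16, 1), (17, 1), (18, 3), (19, 3), (20, 1), (22, 3), (24, 2), (26, 4), (27, 1), (28, 1), (29, 3), (30, 2), (31, 1), (32, 3), (33, 1), (34, 1),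 (35, 4), (37, 3), (38, 3), (39, 4), (40, 3), (41, 1), (42, 1), (43, 1), (44, 1), (45, 4), (46, 4), (47, 4), (48, 2), (49, 2), (50, 3), (51, 3), (52, 3), (53, 3)], [(1, 1), (2, 3), (3, 2), (4, 2), (5, 3), (6, 2), (9, 2), (10, 2), (11, 4), (12, 1), (13, 4), (14, 3), (15, 1), (17, 3), (18, 3), (19, 2), (20, 2), (21, 3), (24, 2), (25, 1), (26, 1), (27, 4), (28, 1), (29, 2), (31, 3), (32, 3), (33, 4), (34, 3), (35, 3), (38, 3), (39, 4), (40, 3), (42, 2), (44, 2), (45, 4), (46, 4), (47, 4), (48, 1), (49, 3), (50, 3), (51, 3), (52, 3), (53, 3)], [(0, 3), (1, 2), (2, 3), (5, 1), (6, 2), (7, 2), (8, 2), (9, 2), (10, 4), (11, 3), (12, 1), (13, 3), (14, 4), (15, 1), (16, 3), (19, 2), (20, 3), (21, 2), (25, 2), (26, 2), (27, 3), (28, 3), (29, 2), (30, 2), (31, 4), (32, 1), (33, 1), (34, 2), (35, 2), (36, 3), (37, 3), (38, 2), (39, 2), (40, 3), (41, 4), (42, 4), (43, 1),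 (44, 1), (45, 3), (46, 3), (47, 1), (48, 3), (49, 3), (52, 1), (53, 1)], [(1, 2), (2, 2), (3, 2), (5, 2), (6, 4), (7, 1), (8, 3), (9, 4), (10, 4), (11, 3), (12, 4), (13, 1), (15, 2), (16, 4), (17, 1), (19, 1), (21, 1), (22, 1), (23, 2), (24, 2), (25, 3), (27, 3), (28, 1), (29, 2), (30, 4), (31, 4), (33, 3), (35, 2), (36, 3), (37, 3), (39, 4), (40, 3), (41, 2), (42, 1), (43, 4), (44, 3), (45, 4), (46, 3), (47, 2), (48, 3), (49, 2), (52, 2), (53, 2)]] = true := by decide +kernel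

end T2

end Pool.Agent.Work.MP_d7201b_al
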