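import Pool.Agent.Work.MP_d7201b_al_T2.Data

/-!
# Kernel checks (generated)
-/

set_option autoImplicit false
set_option maxRecDepth 100000

namespace Pool.Agent.Work.MP_d7201b_al

namespace T2

theorem chk55 : chk tab 5 5
  [.C [2, 3, 4] 0 1 0, .C [2, 3, 4] 0 1 1, .C [2, 3, 4] 0 1 2, .C [2, 3, 4] 0 1 3, .C [2, 3, 4] 0 1 4, .C [1, 3, 4] 0 2 0, .C [1, 3, 4] 0 2 1, .C [1, 3, 4] 0 2 2, .C [1, 3, 4] 0 2 3, .C [1, 3, 4] 0 2 4, .C [1, 2, 4] 0 3 0, .C [1, 2, 4] 0 3 1, .C [1, 2, 4] 0 3 2, .C [1, 2, 4] 0 3 3, .C [1, 2, 4] 0 3 4, .C [1, 2, 3] 0 4 0, .C [1, 2, 3] 0 4 1, .C [1, 2, 3] 0 4 2, .C [1, 2, 3] 0 4 3, .C [1, 2, 3] 0 4 4, .C [0, 3, 4] 1 2 0, .C [0, 3, 4] 1 2 2, .C [0, 3, 4] 1 2 4, .C [0, 2, 4] 1 3 0, .C [0, 2, 4] 1 3 2, .C [0, 2, 4] 1 3 4, .C [0, 2, 3] 1 4 0, .C [0, 2, 3] 1 4 2, .C [0, 2, 3] 1 4 4, .C [0, 1, 4] 2 3 2, .C [0, 1, 3] 2 4 2, .C [0, 1, 2] 3 4 2, .P [[5, 3, 0], [0,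 0, 4, 0], [1], [2]], .P [[5, 2, 0], [3, 0], [0, 4, 0], [1]], .P [[5, 2, 0], [0, 3, 0], [4, 0], [1]], .P [[5, 2, 0], [0, 0, 4, 0], [1], [3]], .P [[5, 2, 0], [0, 0, 3, 0], [1], [4]], .P [[5, 1, 0], [3, 0], [0, 4, 0], [2]], .P [[5, 1, 0], [2, 0], [3, 0], [4, 0]], .P [[5, 1, 0], [2, 0], [0, 4, 0], [3]], .P [[5, 1, 0], [2, 0], [0, 3, 0], [4]], .P [[5, 1, 0], [0, 3, 0], [4, 0], [2]], .P [[5, 1, 0], [0, 2, 0], [4, 0], [3]], .P [[5, 1, 0], [0, 2, 0], [3, 0], [4]], .P [[5, 1, 0], [0, 0, 4, 0], [2], [3]], .P [[5, 1, 0], [0, 0, 3, 0], [2], [4]], .P [[5, 1, 0], [0, 0, 2, 0], [3], [4]], .P [[4, 3, 0], [0, 0, 5, 0], [1], [2]], .P [[4, 2, 0], [3, 0], [0, 5, 0], [1]], .P [[4, 2, 0], [0, 3, 0], [5, 0], [1]], .P [[4, 2, 0], [0, 0, 5, 0], [1], [3]], .P [[4, 2, 0], [0, 0, 3, 0], [1], [5]], .P [[4, 1, 0], [3, 0], [0, 5, 0], [2]], .P [[4, 1, 0], [2, 0], [3, 0], [5, 0]], .P [[4, 1, 0], [2, 0],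 [0, 5, 0], [3]], .P [[4, 1, 0], [2, 0], [0, 3, 0], [5]], .P [[4, 1, 0], [0, 3, 0], [5, 0], [2]], .P [[4, 1, 0], [0, 2, 0], [3, 0], [5]], .P [[4, 1, 0], [0, 0, 5, 0], [2], [3]], .P [[4, 1, 0], [0, 0, 3, 0], [2], [5]], .P [[4, 1, 0], [0, 0, 2, 0], [3], [5]], .P [[3, 2, 0], [4, 0], [0, 5, 0], [1]], .P [[3, 2, 0], [0, 4, 0], [5, 0], [1]], .P [[3, 2, 0], [0, 0, 5, 0], [1], [4]], .P [[3, 2, 0], [0, 0, 4, 0], [1], [5]], .P [[3, 1, 0], [4, 0], [0, 5, 0], [2]], .P [[3, 1, 0], [2, 0], [4, 0], [5, 0]], .P [[3, 1, 0], [2, 0], [0, 5, 0], [4]], .P [[3, 1, 0], [2, 0], [0, 4, 0], [5]], .P [[3, 1, 0], [0, 4, 0], [5, 0], [2]], .P [[3, 1, 0], [0, 0, 5, 0], [2], [4]], .P [[3, 1, 0], [0, 0, 4, 0], [2], [5]], .P [[3, 1, 0], [0, 0, 2, 0], [4], [5]], .P [[3, 0], [4, 0], [2, 0, 5, 0], [1]], .P [[3, 0], [4, 0], [1, 0, 5, 0], [2]], .P [[3, 0], [2, 0, 4, 0], [5, 0], [1]], .P [[3, 0], [1, 0, 4, 0],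 [5, 0], [2]], .P [[2, 1, 0], [4, 0], [0, 5, 0], [3]], .P [[2, 1, 0], [3, 0], [4, 0], [5, 0]], .P [[2, 1, 0], [3, 0], [0, 5, 0], [4]], .P [[2, 1, 0], [3, 0], [0, 4, 0], [5]], .P [[2, 1, 0], [0, 4, 0], [5, 0], [3]], .P [[2, 1, 0], [0, 0, 5, 0], [3], [4]], .P [[2, 1, 0], [0, 0, 4, 0], [3], [5]], .P [[2, 1, 0], [0, 0, 3, 0], [4], [5]], .P [[2, 0], [5, 3, 0], [0, 4, 0], [1]], .P [[2, 0], [4, 0], [3, 0, 5, 0], [1]], .P [[2, 0], [4, 0], [1, 0, 5, 0], [3]], .P [[2, 0], [1, 0, 3, 0], [5, 0], [4]], .P [[1, 0], [5, 3, 0], [0, 4, 0], [2]], .P [[0], [5, 4, 2, 0], [0, 3, 0], [1]], .P [[0], [5, 4, 1, 0], [2, 0], [3, 0]], .P [[0], [5, 4, 1, 0], [0, 3, 0], [2]], .P [[0], [5, 4, 1, 0], [0, 2, 0], [3]], .P [[0], [5, 3, 2, 0], [0, 4, 0], [1]], .P [[0], [5, 2, 1, 0], [0, 4, 0], [3]]]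
  [0]
  [[], [(0, 2), (1, 1), (2, 4), (3, 1), (4, 2), (5, 2), (6, 4), (7, 3), (8, 1), (9, 4), (10, 2), (11, 1), (13, 1), (14, 1), (15, 1), (16, 1), (17, 1), (18, 4), (19, 1), (20, 4), (21, 3), (22, 2), (24, 3), (25, 2), (26, 4), (27, 4), (28, 3), (30, 3), (31, 1), (32, 1), (34, 3), (35, 2), (36, 1), (37, 1), (38, 1), (39, 4), (40, 1), (41, 1), (42, 4), (44, 4), (45, 1), (46, 2), (47, 1), (48, 3), (49, 4), (50, 3), (51, 2), (53, 4), (54, 1), (55, 4), (56, 4), (57, 3), (58, 1), (59, 2), (60, 1), (61, 2), (63, 3), (64, 1), (65, 4), (67, 1), (68, 4), (69, 3), (70, 4), (71, 2), (72, 3), (73, 4), (74, 2), (76, 1), (77, 2), (79, 2), (80, 3), (81, 4), (83, 4), (84, 3), (85, 1), (86, 2), (87, 3), (88, 3), (89, 1), (90, 2), (91, 4), (92, 1), (93, 1), (94, 3), (95, 2)], [(1, 1), (2, 3), (3, 3), (4, 2), (5, 3), (7, 1), (10, 1), (11, 1), (12, 1), (13, 4), (14, 2), (15, 4), (16, 2),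 (18, 3), (19, 1), (20, 1), (21, 2), (23, 2), (24, 2), (26, 3), (28, 2), (29, 3), (30, 4), (31, 2), (33, 2), (34, 2), (37, 2), (38, 2), (39, 4), (40, 2), (41, 1), (43, 4), (44, 2), (45, 1), (47, 4), (48, 1), (49, 4), (50, 4), (53, 1), (54, 4), (55, 3), (56, 2), (57, 2), (58, 4), (59, 2), (60, 4), (61, 4), (63, 4), (64, 1), (65, 4), (66, 3), (67, 4), (69, 2), (70, 1), (71, 3), (72, 3), (73, 3), (74, 4), (76, 2), (77, 3), (78, 2), (79, 1), (81, 4), (83, 1), (84, 3), (85, 2), (86, 1), (87, 4), (88, 3), (89, 2), (90, 4), (91, 3), (92, 2), (93, 2), (94, 1), (95, 4)], [(1, 1), (2, 4), (3, 2), (4, 2), (5, 2), (6, 1), (7, 4), (8, 2), (10, 1), (11, 4), (13, 1), (14, 4), (15, 4), (16, 4), (17, 1), (18, 1), (19, 4), (20, 1), (21, 2), (23, 1), (24, 4), (25, 4), (26, 4), (27, 3), (28, 3), (30, 2), (31, 3), (34, 2), (35, 1), (36, 1), (37, 4), (38, 2), (39, 2), (40, 2), (43, 3), (46, 1),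 (47, 4), (48, 3), (49, 4), (50, 3), (51, 4), (52, 3), (53, 1), (54, 1), (55, 3), (56, 3), (57, 3), (58, 1), (59, 3), (60, 3), (61, 1), (62, 3), (63, 4), (64, 1), (65, 1), (66, 3), (67, 2), (68, 2), (70, 2), (71, 2), (72, 3), (73, 2), (75, 1), (76, 1), (77, 3), (78, 2), (79, 1), (81, 4), (82, 3), (83, 3), (84, 3), (85, 2), (86, 1), (87, 4), (88, 3), (89, 2), (90, 4), (91, 3), (92, 2), (93, 2), (94, 1), (95, 4)], [(1, 2), (2, 4), (3, 1), (5, 2), (6, 3), (7, 3), (8, 4), (9, 2), (10, 1), (11, 3), (13, 1), (14, 1), (16, 2), (17, 1), (18, 4), (19, 2), (20, 1), (21, 2), (22, 1), (23, 4), (25, 4), (26, 1), (27, 3), (28, 2), (29, 3), (30, 2), (31, 1), (32, 1), (33, 2), (34, 4), (35, 1), (36, 4), (37, 2), (38, 3), (39, 2), (40, 4), (41, 1), (43, 3), (44, 3), (45, 2), (46, 4), (48, 3), (49, 4), (50, 3), (51, 3), (52, 2), (53, 1), (54, 2), (57, 2), (58, 1), (59, 1), (60, 4), (63, 4),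 (64, 3), (65, 4), (66, 2), (67, 2), (69, 3), (70, 3), (72, 3), (74, 3), (75, 4), (76, 2), (77, 4), (78, 4), (79, 2), (80, 1), (81, 2), (82, 3), (83, 2), (84, 1), (86, 2), (87, 1), (88, 3), (89, 1), (90, 3), (91, 4), (92, 3), (93, 3), (94, 2), (95, 3)], [(0, 3), (1, 3), (2, 1), (3, 3), (4, 3), (5, 3), (6, 1), (7, 2), (8, 2), (9, 4), (11, 2), (12, 3), (13, 4), (14, 4), (15, 2), (16, 4), (18, 3), (19, 2), (20, 2), (21, 1), (23, 2), (24, 4), (25, 2), (26, 3), (27, 3), (28, 1), (29, 3), (30, 1), (31, 1), (32, 4), (33, 1), (34, 3), (35, 4), (36, 1), (37, 1), (38, 3), (39, 2), (40, 1), (42, 4), (44, 3), (45, 4), (47, 1), (48, 3), (49, 2), (50, 2), (51, 1), (52, 3), (53, 2), (54, 3), (55, 2), (57, 3), (59, 1), (60, 2), (61, 2), (62, 4), (64, 1), (68, 1), (70, 1), (71, 3), (72, 2), (73, 1), (74, 3), (76, 4), (78, 1), (79, 2), (80, 2), (81, 4), (82, 3), (84, 3), (85, 1), (86, 3),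 (87, 2), (88, 2), (89, 1), (90, 1), (91, 4), (92, 4), (93, 4), (94, 4), (95, 1)], [(0, 3), (2, 3), (5, 3), (7, 4), (8, 2), (9, 3), (10, 4), (11, 1), (13, 3), (15, 3), (16, 3), (17, 4), (18, 4), (19, 4), (21, 2), (22, 1), (24, 1), (25, 1), (26, 4), (28, 3), (30, 3), (31, 2), (32, 3), (33, 3), (34, 4), (35, 4), (36, 3), (37, 1), (38, 2), (39, 2), (40, 1), (41, 1), (42, 4), (43, 4), (44, 1), (45, 4), (46, 2), (48, 4), (49, 1), (50, 4), (51, 4), (52, 3), (53, 3), (54, 3), (55, 3), (56, 1), (57, 3), (59, 2), (63, 3), (64, 2), (65, 1), (66, 4), (67, 1), (68, 2), (69, 2), (70, 3), (71, 1), (72, 1), (74, 1), (75, 2), (76, 1), (77, 2), (78, 3), (79, 3), (81, 4), (82, 4), (83, 2), (84, 4), (86, 1), (87, 1), (88, 4), (89, 2), (90, 2), (91, 3), (92, 3), (93, 3), (94, 3), (95, 2)], [(0, 3), (2, 3), (5, 3), (7, 2), (8, 4), (9, 3), (10, 2), (11, 4), (12, 1), (13, 2), (17, 3), (19, 4),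 (21, 2), (22, 1), (25, 4), (26, 4), (27, 1), (30, 3), (31, 3), (32, 4), (33, 4), (34, 2), (35, 4), (36, 2), (37, 1), (38, 2), (39, 4), (40, 3), (41, 3), (42, 4), (43, 2), (44, 4), (46, 1), (47, 4), (48, 3), (49, 3), (50, 4), (52, 3), (53, 3), (54, 1), (55, 1), (56, 4), (58, 2), (59, 1), (60, 1), (61, 2), (62, 3), (63, 2), (64, 3), (65, 3), (66, 4), (67, 3), (70, 1), (71, 3), (72, 1), (73, 1), (75, 1), (76, 2), (77, 1), (78, 3), (79, 2), (80, 1), (83, 1), (84, 4), (86, 1), (87, 1), (88, 4), (89, 2), (90, 2), (91, 3), (92, 3), (93, 3), (94, 3), (95, 2)], [(0, 3), (1, 4), (3, 3), (4, 2), (5, 4), (6, 1), (7, 3), (8, 4), (10, 1), (12, 3), (13, 3), (14, 4), (16, 3), (17, 2), (19, 2), (20, 2), (25, 2), (26, 2), (27, 4), (28, 4), (29, 2), (30, 2), (31, 4), (32, 1), (33, 1), (34, 1), (35, 1), (36, 4), (40, 2), (41, 3), (43, 1), (45, 2), (46, 3), (48, 4), (49, 1), (50, 1), (51, 1),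 (52, 4), (53, 2), (55, 4), (56, 1), (58, 2), (61, 1), (62, 2), (64, 3), (66, 3), (67, 4), (68, 2), (69, 3), (70, 1), (72, 2), (73, 3), (74, 3), (75, 2), (76, 3), (77, 3), (78, 3), (79, 2), (80, 2), (81, 2), (83, 3), (85, 1), (86, 4), (88, 4), (89, 4), (90, 4), (91, 1), (92, 1), (93, 1), (94, 1), (95, 4)], [(0, 4), (1, 3), (2, 3), (4, 2), (5, 3), (6, 2), (8, 2), (10, 3), (11, 3), (12, 1), (13, 1), (14, 1), (15, 3), (17, 4), (18, 2), (20, 2), (23, 2), (24, 3), (25, 4), (27, 1), (28, 2), (29, 2), (30, 2), (31, 4), (32, 1), (33, 3), (35, 2), (38, 1), (39, 3), (40, 3), (43, 1), (44, 4), (45, 2), (48, 2), (49, 2), (52, 4), (53, 1), (54, 2), (55, 3), (56, 4), (58, 3), (60, 3), (61, 3), (64, 3), (65, 2), (66, 3), (67, 2), (68, 4), (69, 1), (70, 2), (71, 4), (72, 2), (73, 2), (74, 4), (75, 3), (76, 2), (77, 3), (78, 3), (79, 2), (80, 2), (81, 2), (82, 3), (85, 1), (86, 4), (88,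 4), (89, 4), (90, 4), (91, 1), (92, 1), (93, 1), (94, 1), (95, 4)], [(0, 4), (1, 2), (2, 3), (3, 1), (4, 1), (5, 4), (6, 2), (7, 3), (8, 3), (10, 2), (12, 3), (14, 4), (15, 2), (16, 3), (17, 1), (18, 2), (20, 2), (21, 3), (22, 1), (23, 4), (24, 3), (25, 3), (27, 4), (28, 4), (29, 2), (30, 4), (31, 1), (32, 4), (33, 3), (34, 1), (36, 3), (37, 3), (38, 2), (39, 2), (40, 3), (41, 3), (42, 1), (43, 2), (44, 4), (45, 3), (46, 3), (47, 2), (48, 4), (49, 3), (50, 2), (53, 4), (54, 2), (55, 1), (56, 3), (57, 4), (59, 2), (60, 4), (61, 4), (62, 4), (63, 4), (64, 4), (65, 2), (66, 3), (67, 4), (69, 2), (70, 1), (71, 4), (72, 1), (74, 2), (75, 1), (76, 3), (77, 1), (78, 2), (79, 2), (80, 4), (81, 4), (82, 1), (83, 3), (84, 1), (85, 2), (86, 3), (87, 4), (88, 2), (89, 1), (91, 4), (92, 2), (93, 2)], [(0, 3), (1, 1), (2, 2), (3, 4), (4, 1), (5, 2), (6, 3), (7, 3), (8, 4), (9, 2), (10,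 2), (11, 4), (12, 2), (13, 2), (15, 4), (16, 4), (17, 3), (18, 2), (19, 3), (23, 3), (26, 1), (27, 3), (28, 4), (30, 2), (31, 3), (32, 3), (33, 3), (34, 4), (35, 3), (36, 3), (37, 3), (38, 1), (39, 4), (40, 2), (41, 3), (42, 2), (43, 3), (44, 4), (45, 3), (46, 2), (49, 1), (52, 4), (53, 4), (54, 2), (55, 1), (56, 4), (57, 4), (58, 3), (60, 2), (61, 3), (62, 2), (64, 4), (65, 2), (66, 4), (69, 4), (70, 4), (71, 4), (74, 3), (75, 2), (76, 1), (77, 4), (79, 4), (84, 2), (86, 4), (87, 1), (88, 2), (89, 2), (90, 1), (91, 3), (92, 1), (93, 1), (94, 4), (95, 1)], [(1, 1), (2, 4), (3, 1), (4, 4), (6, 1), (8, 4), (9, 2), (10, 4), (12, 4), (14, 1), (18, 4), (19, 3), (21, 1), (22, 1), (23, 3), (24, 4), (25, 3), (26, 1), (27, 2), (28, 3), (29, 2), (30, 4), (31, 2), (32, 4), (33, 4), (34, 4), (35, 1), (36, 1), (38, 1), (40, 3), (41, 2), (42, 3), (43, 3), (44, 1), (45, 3), (46, 4), (47,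 2), (48, 1), (49, 4), (50, 2), (51, 3), (52, 3), (54, 4), (55, 1), (57, 3), (58, 1), (59, 4), (60, 4), (61, 3), (62, 4), (63, 4), (64, 4), (65, 2), (66, 1), (67, 2), (68, 2), (69, 1), (70, 3), (71, 1), (72, 1), (74, 4), (75, 2), (77, 2), (78, 4), (79, 3), (81, 4), (82, 1), (83, 3), (84, 2), (85, 2), (86, 2), (87, 1), (88, 4), (89, 1), (90, 4), (91, 3), (92, 1), (93, 4), (94, 4), (95, 1)], [(0, 3), (1, 4), (2, 2), (3, 3), (5, 1), (7, 4), (8, 4), (9, 1), (10, 2), (11, 3), (12, 4), (14, 3), (15, 1), (16, 3), (17, 2), (18, 3), (19, 3), (20, 2), (21, 2), (22, 3), (24, 4), (25, 3), (27, 1), (28, 2), (29, 1), (30, 2), (31, 2), (32, 3), (33, 2), (34, 2), (35, 3), (36, 2), (37, 1), (38, 4), (39, 1), (40, 2), (41, 4), (43, 1), (44, 3), (45, 4), (46, 3), (47, 2), (48, 1), (49, 3), (50, 2), (51, 4), (52, 4), (53, 2), (54, 2), (56, 4), (58, 2), (59, 3), (60, 1), (61, 2), (62, 1), (63,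 4), (64, 2), (66, 1), (67, 2), (68, 1), (69, 4), (70, 3), (71, 3), (72, 4), (73, 2), (77, 4), (78, 4), (79, 3), (81, 2), (82, 3), (84, 2), (87, 3), (88, 3), (89, 4), (90, 3), (91, 3), (92, 4), (93, 3)], [(0, 1), (2, 3), (3, 3), (4, 4), (5, 1), (6, 4), (7, 3), (8, 1), (10, 2), (12, 2), (13, 2), (14, 4), (15, 2), (18, 2), (19, 4), (22, 1), (23, 2), (24, 3), (25, 2), (26, 2), (27, 2), (29, 2), (30, 2), (31, 3), (34, 1), (35, 2), (36, 1), (37, 2), (38, 3), (39, 4), (40, 2), (41, 3), (42, 4), (45, 4), (47, 4), (48, 2), (49, 2), (50, 2), (51, 1), (52, 2), (53, 3), (54, 4), (55, 2), (56, 3), (57, 3), (58, 1), (59, 3), (60, 2), (61, 3), (63, 3), (64, 4), (65, 3), (66, 1), (67, 1), (68, 4), (69, 2), (71, 1), (72, 1), (73, 2), (74, 1), (75, 4), (77, 4), (78, 4), (79, 4), (80, 3), (81, 2), (82, 3), (83, 4), (84, 2), (85, 3), (88, 4), (91, 4), (93, 3), (94, 4), (95, 4)], [(0, 4), (1,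 2), (2, 1), (3, 4), (4, 2), (6, 2), (7, 3), (9, 3), (10, 1), (11, 4), (12, 3), (15, 1), (16, 4), (17, 4), (20, 3), (21, 3), (22, 1), (23, 3), (24, 1), (25, 4), (28, 1), (30, 1), (31, 2), (32, 2), (33, 4), (34, 4), (35, 3), (36, 1), (37, 4), (38, 1), (39, 3), (40, 3), (41, 2), (42, 1), (43, 2), (44, 2), (46, 1), (47, 2), (48, 2), (49, 3), (50, 4), (51, 2), (52, 2), (53, 1), (54, 3), (55, 1), (56, 4), (58, 4), (59, 1), (61, 3), (62, 1), (63, 2), (65, 3), (66, 1), (68, 3), (69, 2), (71, 3), (72, 3), (73, 2), (74, 2), (75, 1), (76, 1), (78, 4), (79, 1), (80, 2), (81, 2), (82, 1), (84, 3), (85, 3), (87, 3), (88, 3), (89, 1), (91, 3), (92, 2), (93, 2), (94, 3), (95, 2)], [(0, 2), (1, 1), (2, 1), (3, 4), (4, 3), (6, 4), (7, 1), (8, 3), (9, 3), (10, 3), (11, 1), (12, 4), (13, 1), (14, 2), (16, 1), (17, 2), (18, 2), (19, 3), (20, 3), (21, 1), (23, 2), (24, 4), (25, 3), (27, 1),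 (28, 1), (29, 2), (30, 1), (32, 4), (33, 4), (35, 3), (36, 4), (37, 3), (39, 3), (40, 4), (41, 3), (42, 2), (43, 2), (44, 2), (45, 2), (46, 2), (47, 2), (48, 1), (49, 2), (51, 2), (52, 1), (53, 1), (54, 2), (55, 4), (56, 3), (57, 1), (58, 4), (59, 2), (60, 3), (61, 2), (62, 1), (63, 3), (64, 1), (65, 2), (67, 2), (68, 1), (70, 3), (71, 2), (72, 4), (73, 1), (74, 1), (76, 2), (77, 2), (79, 4), (80, 1), (81, 1), (83, 3), (84, 3), (85, 4), (88, 2), (89, 2), (90, 2), (92, 1), (94, 2), (95, 3)], [(0, 2), (1, 2), (2, 2), (3, 3), (5, 2), (6, 2), (7, 2), (9, 3), (10, 4), (11, 4), (14, 1), (16, 1), (17, 2), (18, 4), (19, 1), (20, 4), (21, 4), (22, 2), (23, 1), (24, 2), (25, 3), (26, 2), (27, 4), (28, 3), (29, 3), (30, 1), (31, 4), (32, 3), (34, 3), (35, 2), (36, 1), (37, 3), (40, 1), (41, 1), (43, 4), (44, 2), (45, 2), (46, 4), (47, 4), (48, 2), (49, 4), (51, 3), (52, 4), (53, 4),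 (54, 4), (55, 1), (56, 3), (57, 4), (58, 1), (59, 1), (60, 4), (62, 3), (63, 3), (64, 2), (67, 2), (68, 4), (69, 3), (70, 2), (71, 2), (73, 1), (74, 2), (76, 1), (77, 1), (79, 4), (80, 1), (81, 4), (83, 1), (84, 1), (85, 2), (86, 3), (88, 1), (90, 4), (91, 1), (92, 3)], [(0, 3), (1, 3), (2, 4), (3, 4), (4, 2), (5, 4), (6, 2), (7, 1), (8, 4), (10, 4), (11, 2), (12, 2), (13, 3), (15, 3), (17, 3), (18, 4), (19, 3), (20, 3), (21, 3), (22, 1), (23, 1), (24, 4), (25, 2), (26, 4), (27, 2), (29, 4), (30, 3), (31, 2), (33, 3), (34, 4), (35, 4), (36, 2), (37, 2), (38, 1), (39, 1), (40, 2), (41, 4), (42, 2), (43, 4), (46, 4), (47, 4), (48, 1), (49, 2), (52, 2), (53, 3), (54, 3), (55, 1), (56, 4), (58, 1), (59, 3), (60, 3), (61, 3), (63, 4), (64, 4), (65, 4), (68, 2), (69, 2), (70, 4), (72, 1), (73, 1), (74, 2), (75, 2), (76, 4), (79, 1), (80, 1), (82, 3), (84, 1), (85, 1), (86, 3),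 (87, 1), (88, 4), (89, 3), (91, 4), (92, 1), (94, 2), (95, 2)], [(0, 3), (1, 1), (2, 2), (4, 1), (5, 1), (7, 3), (8, 3), (9, 2), (10, 2), (11, 2), (12, 3), (13, 3), (16, 1), (17, 3), (19, 3), (20, 3), (21, 2), (24, 4), (25, 4), (27, 4), (28, 4), (29, 4), (30, 3), (31, 2), (32, 4), (33, 2), (34, 2), (35, 1), (36, 2), (37, 4), (38, 1), (40, 4), (41, 3), (43, 1), (44, 3), (45, 1), (46, 2), (47, 4), (48, 2), (50, 1), (53, 3), (54, 3), (55, 3), (56, 3), (57, 1), (58, 3), (59, 3), (60, 2), (61, 3), (62, 3), (63, 2), (64, 1), (66, 2), (67, 1), (68, 4), (69, 2), (70, 1), (71, 1), (72, 2), (74, 2), (75, 2), (76, 3), (77, 2), (78, 4), (79, 2), (80, 4), (82, 1), (83, 2), (85, 3), (87, 3), (88, 3), (89, 3), (91, 3), (92, 4), (93, 2), (94, 1), (95, 4)], [(2, 4), (3, 2), (4, 2), (6, 2), (7, 1), (8, 4), (9, 3), (10, 3), (11, 3), (13, 1), (14, 4), (15, 3), (16, 1), (18, 1), (19, 2), (21,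 4), (22, 2), (23, 1), (24, 2), (25, 1), (27, 1), (29, 4), (30, 2), (31, 4), (32, 2), (33, 1), (34, 1), (35, 3), (36, 4), (37, 1), (38, 4), (39, 3), (40, 4), (41, 3), (42, 1), (45, 1), (47, 2), (48, 4), (49, 3), (51, 2), (52, 4), (55, 1), (59, 3), (60, 1), (61, 3), (62, 3), (63, 3), (64, 4), (65, 3), (66, 2), (67, 3), (69, 3), (71, 2), (73, 1), (74, 1), (75, 2), (76, 3), (77, 1), (78, 4), (80, 2), (81, 1), (82, 2), (83, 2), (87, 1), (88, 2), (89, 2), (90, 3), (91, 2), (92, 3), (93, 2), (94, 2)], [(1, 3), (2, 3), (3, 2), (4, 1), (5, 1), (6, 1), (8, 2), (9, 1), (10, 4), (11, 3), (13, 2), (14, 3), (15, 1), (16, 1), (17, 1), (18, 1), (19, 3), (20, 2), (21, 3), (22, 4), (23, 3), (24, 4), (25, 3), (27, 4), (28, 2), (29, 1), (30, 2), (32, 4), (33, 4), (34, 3), (36, 1), (38, 3), (39, 2), (40, 3), (41, 1), (43, 1), (44, 1), (46, 4), (47, 2), (48, 4), (50, 1), (51, 4), (52, 3), (53,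 2), (54, 1), (55, 3), (56, 4), (58, 4), (61, 4), (62, 2), (63, 2), (65, 1), (66, 2), (67, 3), (68, 3), (69, 1), (70, 4), (71, 4), (74, 4), (75, 3), (76, 4), (78, 4), (79, 3), (80, 4), (81, 3), (82, 3), (85, 2), (86, 3), (88, 2), (89, 2), (90, 3), (94, 1), (95, 4)], [(1, 3), (2, 4), (5, 2), (6, 3), (7, 1), (8, 4), (9, 4), (10, 3), (11, 2), (12, 2), (13, 4), (14, 3), (15, 2), (16, 3), (17, 2), (18, 3), (19, 3), (20, 2), (21, 4), (23, 4), (24, 3), (25, 4), (26, 3), (29, 2), (30, 4), (31, 2), (32, 3), (33, 2), (34, 2), (35, 1), (36, 4), (37, 2), (38, 1), (39, 4), (40, 1), (41, 4), (42, 1), (44, 3), (46, 3), (47, 4), (49, 1), (50, 1), (51, 1), (52, 4), (53, 1), (54, 2), (55, 3), (56, 4), (58, 1), (59, 3), (60, 4), (62, 4), (63, 3), (64, 1), (65, 2), (67, 4), (68, 4), (69, 4), (70, 2), (71, 3), (72, 1), (73, 3), (74, 2), (75, 1), (77, 1), (78, 2), (80, 1), (81, 4), (82, 2), (83,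 1), (84, 2), (86, 2), (88, 4), (89, 3), (90, 2), (91, 4), (93, 4), (95, 4)], [(0, 1), (1, 2), (2, 4), (3, 4), (5, 1), (6, 4), (7, 3), (8, 2), (9, 2), (12, 4), (14, 3), (15, 1), (16, 2), (17, 1), (18, 4), (19, 2), (20, 1), (21, 4), (22, 2), (25, 3), (26, 4), (27, 3), (29, 1), (30, 4), (31, 2), (32, 1), (33, 1), (34, 4), (36, 4), (37, 4), (38, 1), (39, 3), (40, 1), (41, 3), (42, 1), (43, 4), (44, 2), (46, 1), (48, 3), (49, 4), (50, 3), (54, 1), (56, 3), (57, 2), (61, 1), (62, 1), (63, 1), (64, 1), (65, 3), (67, 2), (69, 2), (70, 2), (72, 3), (73, 4), (75, 1), (76, 4), (77, 1), (79, 3), (81, 2), (82, 4), (83, 1), (84, 1), (85, 4), (86, 1), (88, 4), (89, 3), (90, 3), (91, 3), (93, 2), (94, 2), (95, 3)], [(0, 1), (2, 1), (3, 4), (4, 3), (5, 4), (6, 4), (8, 2), (10, 4), (11, 2), (12, 3), (13, 4), (14, 3), (15, 4), (16, 3), (17, 4), (18, 2), (19, 1), (20, 2), (22, 3), (23, 2),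 (24, 2), (27, 1), (28, 2), (29, 2), (32, 4), (33, 3), (34, 1), (35, 2), (36, 2), (37, 4), (38, 4), (39, 4), (40, 1), (41, 2), (42, 4), (43, 1), (46, 2), (48, 4), (49, 3), (50, 4), (51, 4), (52, 3), (53, 2), (55, 4), (57, 4), (58, 4), (61, 1), (62, 1), (64, 4), (65, 2), (67, 1), (70, 2), (72, 2), (74, 4), (75, 3), (76, 2), (77, 2), (79, 1), (81, 1), (82, 1), (83, 2), (84, 1), (86, 1), (87, 4), (88, 1), (90, 2), (92, 2), (93, 2), (95, 1)], [(0, 3), (2, 1), (3, 1), (5, 1), (7, 3), (8, 1), (10, 3), (12, 1), (13, 3), (14, 4), (15, 3), (16, 1), (17, 1), (18, 3), (19, 2), (20, 4), (21, 4), (22, 2), (23, 2), (24, 2), (25, 2), (28, 4), (29, 2), (30, 2), (31, 1), (32, 1), (33, 1), (34, 4), (35, 4), (37, 1), (38, 3), (39, 1), (40, 3), (42, 2), (43, 2), (44, 1), (45, 3), (46, 3), (47, 3), (48, 2), (49, 4), (50, 1), (51, 2), (52, 3), (53, 3), (56, 2), (57, 1), (59, 2), (60, 3), (64,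 2), (65, 1), (66, 4), (67, 3), (68, 3), (71, 1), (72, 1), (73, 2), (74, 4), (77, 4), (78, 2), (79, 1), (81, 4), (82, 1), (83, 3), (84, 3), (85, 2), (86, 1), (87, 3), (88, 3), (89, 3), (90, 3), (91, 4), (92, 3), (93, 2), (94, 2), (95, 3)], [(0, 4), (1, 3), (2, 4), (3, 4), (4, 2), (5, 2), (6, 1), (7, 4), (8, 2), (9, 1), (10, 4), (11, 1), (13, 4), (15, 1), (16, 3), (18, 2), (19, 1), (20, 1), (23, 3), (24, 2), (25, 1), (28, 4), (29, 3), (30, 3), (31, 2), (33, 1), (34, 3), (35, 3), (36, 4), (37, 4), (38, 1), (39, 2), (40, 2), (41, 1), (42, 2), (44, 3), (45, 4), (47, 1), (48, 3), (49, 1), (50, 2), (51, 3), (52, 1), (53, 4), (54, 2), (55, 2), (56, 3), (57, 2), (58, 2), (59, 3), (61, 2), (65, 2), (66, 3), (73, 1), (74, 1), (75, 2), (76, 3), (78, 4), (79, 3), (81, 1), (82, 4), (83, 4), (84, 4), (85, 3), (86, 1), (87, 2), (88, 2), (89, 2), (90, 3), (91, 3), (92, 3)], [(0, 4), (2,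 1), (4, 4), (5, 2), (6, 3), (8, 4), (9, 3), (11, 2), (13, 4), (14, 3), (15, 3), (16, 4), (17, 3), (19, 4), (21, 4), (22, 4), (23, 2), (24, 4), (25, 4), (26, 3), (27, 3), (28, 2), (29, 3), (30, 1), (31, 1), (32, 1), (34, 3), (36, 1), (37, 3), (38, 3), (39, 2), (40, 1), (41, 2), (42, 4), (43, 4), (44, 3), (45, 4), (46, 2), (47, 2), (48, 1), (50, 2), (51, 4), (52, 4), (53, 2), (54, 2), (55, 4), (56, 1), (57, 4), (59, 3), (60, 2), (61, 3), (62, 4), (63, 2), (64, 1), (65, 4), (66, 3), (67, 3), (68, 3), (69, 1), (70, 2), (71, 3), (72, 1), (74, 2), (77, 3), (78, 4), (79, 4), (80, 1), (81, 3), (82, 1), (83, 4), (84, 4), (85, 2), (86, 1), (87, 3), (90, 4), (91, 1), (92, 1), (94, 2), (95, 2)], [(1, 4), (2, 1), (3, 1), (4, 3), (5, 3), (6, 2), (7, 3), (8, 1), (9, 1), (10, 1), (11, 3), (12, 3), (13, 1), (15, 4), (16, 2), (18, 4), (19, 4), (20, 2), (21, 3), (22, 1), (23, 2), (24, 1),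 (25, 3), (27, 2), (28, 4), (29, 1), (30, 2), (32, 4), (33, 2), (35, 1), (36, 3), (37, 3), (38, 2), (39, 1), (40, 1), (41, 1), (42, 1), (43, 1), (44, 3), (45, 2), (46, 3), (47, 1), (48, 2), (49, 2), (50, 2), (51, 3), (52, 4), (53, 2), (54, 1), (55, 3), (56, 4), (57, 2), (58, 4), (59, 1), (61, 3), (64, 4), (66, 3), (67, 4), (68, 4), (69, 2), (71, 3), (72, 2), (75, 3), (76, 3), (77, 3), (78, 1), (79, 2), (80, 2), (81, 3), (82, 3), (83, 3), (85, 2), (89, 2), (90, 2), (91, 3), (92, 3), (94, 1)], [(0, 3), (1, 1), (2, 3), (4, 2), (5, 2), (6, 4), (7, 3), (8, 1), (9, 4), (10, 4), (11, 3), (13, 2), (15, 1), (16, 4), (17, 3), (18, 4), (21, 3), (22, 2), (23, 3), (24, 3), (25, 3), (28, 1), (29, 2), (30, 2), (31, 2), (32, 3), (33, 2), (34, 2), (36, 3), (37, 2), (38, 1), (39, 3), (40, 2), (41, 4), (42, 1), (45, 2), (46, 3), (47, 3), (49, 3), (50, 2), (51, 1), (52, 4), (53, 3), (54, 3),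 (57, 2), (58, 4), (59, 1), (60, 3), (61, 3), (62, 4), (64, 4), (65, 3), (66, 4), (67, 2), (70, 3), (71, 2), (73, 1), (74, 4), (77, 1), (79, 1), (80, 1), (81, 1), (82, 2), (83, 4), (84, 4), (85, 2), (86, 2), (87, 3), (88, 2), (89, 3), (90, 4), (91, 3), (92, 4), (93, 1), (94, 3), (95, 2)], [(0, 4), (1, 3), (2, 2), (3, 1), (4, 3), (5, 3), (6, 2), (8, 2), (9, 1), (10, 4), (12, 2), (13, 1), (14, 2), (15, 4), (16, 1), (17, 1), (18, 2), (20, 3), (23, 3), (24, 4), (26, 4), (27, 2), (28, 3), (31, 2), (32, 2), (33, 2), (34, 3), (35, 1), (36, 3), (37, 4), (40, 4), (41, 3), (42, 3), (43, 2), (44, 2), (45, 4), (46, 3), (48, 3), (49, 3), (50, 2), (51, 2), (53, 1), (54, 2), (55, 2), (56, 2), (57, 1), (59, 3), (60, 4), (61, 3), (62, 1), (63, 3), (64, 4), (65, 4), (66, 1), (68, 1), (69, 3), (73, 1), (75, 4), (76, 2), (77, 3), (78, 4), (79, 4), (80, 4), (81, 2), (82, 2), (83, 1), (84, 2),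 (85, 2), (86, 4), (87, 1), (88, 3), (89, 3), (90, 3), (91, 3), (93, 2), (94, 3), (95, 2)], [(0, 2), (1, 4), (2, 4), (4, 2), (5, 1), (6, 3), (7, 1), (8, 2), (10, 3), (12, 2), (13, 4), (14, 2), (15, 1), (17, 2), (19, 2), (20, 1), (21, 3), (22, 3), (23, 1), (24, 3), (25, 2), (27, 3), (28, 3), (29, 3), (30, 3), (31, 3), (32, 3), (33, 3), (34, 2), (37, 3), (39, 2), (40, 3), (41, 2), (42, 2), (43, 2), (45, 2), (46, 4), (47, 3), (48, 1), (49, 2), (50, 2), (51, 1), (53, 1), (56, 1), (57, 3), (58, 3), (60, 1), (61, 1), (62, 3), (64, 3), (65, 4), (66, 1), (67, 3), (69, 4), (70, 4), (71, 1), (72, 2), (73, 3), (74, 4), (75, 1), (76, 4), (77, 4), (78, 4), (79, 1), (80, 1), (81, 1), (82, 2), (84, 2), (86, 4), (87, 3), (88, 4), (89, 4), (91, 4), (92, 1), (93, 2), (94, 2), (95, 1)], [(0, 3), (2, 4), (3, 3), (5, 4), (6, 3), (7, 2), (8, 1), (9, 1), (10, 2), (12, 3), (13, 2), (14, 4), (15,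 4), (16, 1), (17, 1), (18, 1), (20, 3), (21, 2), (22, 1), (23, 2), (24, 2), (26, 3), (27, 2), (29, 3), (30, 4), (31, 2), (32, 1), (33, 3), (36, 1), (37, 3), (38, 4), (39, 4), (40, 1), (41, 3), (44, 3), (45, 3), (46, 4), (47, 2), (48, 3), (50, 4), (53, 3), (54, 4), (55, 4), (56, 2), (57, 1), (58, 4), (59, 1), (60, 4), (61, 1), (62, 2), (63, 4), (64, 4), (67, 1), (69, 1), (70, 1), (71, 3), (72, 3), (73, 4), (74, 2), (75, 1), (77, 1), (78, 3), (80, 4), (81, 2), (82, 2), (85, 2), (86, 3), (87, 2), (89, 2), (91, 3), (92, 1), (93, 3)], [(1, 3), (2, 2), (3, 1), (4, 1), (5, 4), (7, 1), (8, 2), (9, 3), (10, 2), (13, 4), (14, 1), (15, 4), (16, 2), (17, 1), (18, 3), (19, 4), (20, 2), (21, 4), (22, 3), (23, 3), (24, 4), (25, 4), (26, 4), (27, 3), (28, 3), (29, 1), (32, 3), (33, 2), (34, 1), (35, 2), (36, 2), (37, 3), (38, 3), (41, 1), (42, 2), (43, 2), (44, 1), (45, 3), (46, 1), (47,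 4), (48, 2), (49, 2), (50, 2), (51, 4), (52, 1), (53, 2), (54, 1), (55, 3), (56, 2), (57, 3), (58, 2), (59, 4), (60, 2), (61, 3), (62, 4), (63, 1), (65, 2), (66, 1), (67, 4), (69, 2), (70, 4), (72, 3), (73, 4), (75, 1), (76, 1), (77, 2), (79, 1), (80, 1), (81, 2), (82, 4), (83, 4), (84, 3), (85, 1), (87, 3), (88, 2), (90, 4), (92, 4), (94, 2), (95, 3)], [(3, 1), (5, 3), (6, 3), (7, 2), (9, 4), (11, 3), (13, 2), (15, 2), (16, 4), (17, 3), (18, 1), (19, 4), (20, 2), (23, 2), (25, 1), (26, 1), (28, 4), (29, 3), (31, 4), (32, 3), (33, 2), (34, 3), (35, 4), (36, 3), (37, 4), (40, 4), (42, 1), (44, 1), (46, 2), (47, 2), (49, 4), (50, 4), (51, 2), (52, 3), (53, 4), (54, 4), (56, 1), (57, 3), (60, 4), (61, 1), (63, 2), (64, 1), (65, 1), (66, 2), (68, 4), (71, 1), (72, 1), (73, 3), (75, 1), (77, 3), (79, 2), (80, 2), (81, 4), (82, 4), (83, 4), (85, 2), (86, 1), (87, 2), (88, 4),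 (89, 1), (90, 3), (91, 1), (92, 4)], [(0, 2), (3, 4), (4, 2), (5, 4), (6, 4), (7, 3), (8, 2), (9, 1), (10, 3), (12, 4), (13, 1), (14, 2), (15, 2), (16, 4), (17, 2), (19, 3), (20, 1), (21, 4), (22, 4), (23, 3), (25, 4), (26, 2), (28, 2), (30, 1), (31, 2), (32, 2), (33, 1), (35, 2), (36, 4), (38, 2), (39, 4), (40, 3), (42, 3), (44, 3), (45, 4), (48, 3), (49, 1), (50, 3), (51, 4), (52, 4), (53, 2), (55, 2), (57, 4), (58, 1), (59, 1), (61, 4), (62, 2), (63, 2), (64, 4), (66, 2), (67, 3), (68, 2), (69, 4), (70, 4), (71, 2), (72, 2), (73, 1), (74, 2), (76, 1), (77, 3), (80, 1), (81, 4), (82, 1), (83, 4), (85, 1), (86, 1), (87, 3), (88, 2), (89, 4), (90, 4), (91, 4), (92, 2), (94, 2), (95, 2)], [(0, 1), (1, 2), (3, 2), (6, 4), (9, 3), (10, 2), (11, 2), (12, 2), (13, 2), (14, 2), (15, 3), (17, 1), (18, 3), (19, 3), (20, 3), (21, 3), (22, 3), (24, 1), (25, 4), (28, 3), (29, 4),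 (30, 1), (31, 2), (32, 2), (33, 4), (34, 3), (35, 1), (37, 3), (38, 3), (40, 4), (41, 1), (42, 3), (43, 2), (44, 2), (45, 2), (46, 4), (47, 4), (51, 4), (52, 2), (53, 4), (54, 4), (55, 4), (56, 2), (59, 2), (60, 3), (61, 3), (62, 4), (63, 2), (65, 2), (66, 1), (67, 4), (68, 3), (69, 4), (71, 1), (72, 2), (75, 2), (76, 2), (77, 3), (78, 1), (80, 3), (81, 2), (83, 1), (84, 1), (85, 3), (86, 2), (87, 2), (88, 4), (90, 4), (91, 3), (92, 4), (93, 3), (94, 3), (95, 2)], [(0, 2), (1, 2), (2, 3), (3, 3), (4, 1), (5, 2), (6, 3), (8, 4), (9, 4), (10, 2), (11, 1), (13, 1), (14, 1), (15, 2), (16, 2), (17, 2), (18, 3), (19, 2), (23, 2), (25, 3), (26, 4), (27, 1), (28, 2), (29, 1), (30, 3), (31, 4), (32, 4), (34, 1), (35, 3), (37, 4), (38, 2), (39, 2), (40, 3), (41, 2), (42, 4), (43, 2), (46, 1), (47, 3), (49, 4), (50, 4), (51, 3), (52, 2), (54, 2), (55, 3), (56, 3), (57, 3), (58, 1),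 (59, 4), (60, 3), (62, 2), (63, 1), (65, 2), (66, 1), (69, 3), (70, 1), (73, 3), (74, 2), (76, 4), (77, 3), (78, 1), (79, 4), (81, 2), (82, 1), (83, 1), (84, 1), (86, 2), (88, 3), (89, 4), (90, 2), (91, 2), (92, 3), (93, 3), (94, 4), (95, 3)], [(0, 3), (2, 2), (3, 2), (4, 4), (5, 4), (6, 2), (7, 2), (8, 3), (9, 4), (11, 3), (12, 2), (13, 3), (14, 2), (15, 1), (17, 4), (18, 2), (19, 3), (20, 2), (21, 4), (22, 4), (24, 2), (25, 1), (26, 4), (27, 3), (28, 4), (29, 3), (32, 3), (33, 2), (34, 3), (35, 4), (36, 2), (37, 2), (38, 2), (39, 3), (40, 2), (43, 1), (44, 3), (45, 3), (46, 4), (47, 2), (48, 4), (49, 3), (50, 2), (52, 2), (53, 1), (56, 1), (57, 1), (58, 1), (59, 2), (60, 2), (61, 3), (62, 3), (63, 1), (64, 2), (66, 4), (67, 4), (68, 1), (69, 2), (70, 4), (71, 3), (73, 2), (74, 2), (75, 4), (76, 2), (77, 1), (79, 4), (80, 2), (81, 4), (82, 3), (83, 3), (85, 3), (86, 3),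 (87, 4), (88, 1), (90, 4), (92, 4), (94, 1), (95, 4)], [(0, 3), (1, 1), (2, 3), (3, 2), (4, 4), (5, 1), (6, 4), (7, 4), (8, 3), (9, 3), (11, 1), (12, 1), (13, 3), (15, 2), (17, 3), (19, 4), (20, 3), (22, 3), (23, 4), (24, 3), (25, 1), (26, 2), (27, 4), (28, 4), (31, 2), (32, 3), (33, 2), (34, 1), (35, 3), (38, 4), (39, 2), (41, 2), (42, 1), (43, 1), (44, 4), (45, 1), (46, 3), (47, 2), (48, 2), (49, 4), (50, 2), (51, 2), (53, 2), (54, 4), (55, 2), (56, 2), (57, 2), (58, 2), (59, 3), (60, 4), (62, 4), (63, 2), (64, 4), (67, 4), (69, 1), (70, 2), (73, 1), (75, 1), (76, 4), (77, 2), (78, 2), (79, 3), (80, 4), (81, 2), (82, 3), (83, 1), (84, 2), (85, 4), (86, 4), (87, 1), (89, 1), (90, 2), (91, 4), (92, 3), (93, 1), (94, 4)], [(0, 1), (2, 1), (3, 3), (4, 2), (5, 3), (6, 1), (7, 2), (8, 4), (9, 1), (10, 2), (11, 4), (12, 1), (13, 2), (15, 1), (16, 1), (17, 1), (18, 3), (19, 2),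 (20, 2), (22, 2), (23, 1), (24, 2), (25, 3), (26, 1), (27, 1), (28, 3), (29, 2), (30, 2), (31, 2), (32, 2), (33, 4), (34, 3), (36, 1), (39, 4), (40, 1), (42, 2), (43, 2), (44, 4), (45, 2), (46, 3), (47, 4), (48, 3), (49, 4), (50, 4), (51, 3), (53, 1), (54, 1), (55, 4), (56, 2), (57, 2), (58, 3), (59, 1), (60, 2), (61, 4), (62, 4), (63, 3), (65, 3), (66, 3), (67, 1), (69, 1), (70, 2), (71, 4), (72, 1), (73, 3), (74, 2), (75, 1), (76, 3), (79, 4), (81, 2), (82, 1), (83, 2), (84, 2), (85, 2), (86, 4), (88, 1), (89, 3), (90, 4), (91, 3), (92, 3), (93, 3), (94, 4), (95, 1)], [(0, 1), (1, 3), (2, 4), (3, 2), (5, 4), (6, 3), (8, 3), (9, 4), (10, 4), (11, 4), (12, 1), (13, 4), (14, 3), (15, 1), (16, 4), (17, 3), (18, 3), (19, 3), (20, 3), (21, 1), (22, 3), (23, 1), (24, 1), (25, 3), (26, 4), (27, 2), (28, 2), (30, 1), (32, 4), (33, 2), (34, 4), (35, 1), (36, 1), (38, 1), (39, 3),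 (40, 4), (41, 2), (43, 3), (44, 2), (45, 3), (46, 2), (48, 3), (49, 4), (50, 1), (52, 3), (54, 2), (56, 1), (58, 2), (60, 4), (61, 2), (62, 1), (66, 3), (67, 1), (68, 4), (69, 1), (70, 3), (71, 3), (73, 4), (74, 1), (75, 3), (76, 1), (77, 4), (80, 2), (81, 3), (82, 4), (83, 2), (84, 2), (85, 3), (86, 4), (87, 4), (88, 3), (90, 3), (93, 3), (94, 2), (95, 4)], [(0, 3), (1, 1), (3, 4), (5, 4), (7, 1), (8, 2), (9, 3), (10, 3), (13, 2), (14, 2), (15, 4), (16, 2), (18, 3), (19, 2), (20, 4), (21, 2), (22, 3), (23, 1), (24, 4), (25, 3), (26, 2), (27, 2), (28, 3), (29, 3), (30, 3), (31, 1), (33, 1), (34, 1), (37, 4), (38, 2), (39, 3), (42, 1), (44, 1), (45, 4), (47, 1), (48, 3), (49, 1), (50, 3), (51, 4), (52, 2), (53, 3), (54, 3), (55, 4), (56, 3), (57, 1), (58, 4), (59, 3), (60, 1), (62, 4), (63, 2), (64, 2), (65, 1), (67, 1), (68, 1), (69, 3), (70, 4), (71, 2), (72, 2), (73,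 3), (75, 2), (76, 3), (77, 3), (78, 1), (80, 1), (81, 3), (83, 2), (84, 4), (85, 3), (86, 2), (88, 4), (89, 2), (90, 2), (91, 4), (92, 3), (93, 3), (94, 4), (95, 1)], [(0, 4), (1, 3), (3, 4), (4, 2), (5, 2), (6, 1), (7, 4), (8, 2), (9, 1), (10, 4), (11, 1), (13, 4), (15, 1), (16, 3), (18, 2), (19, 1), (20, 1), (23, 3), (24, 2), (25, 1), (28, 4), (29, 3), (30, 3), (31, 2), (33, 1), (34, 3), (35, 3), (36, 4), (37, 4), (38, 1), (39, 2), (40, 2), (41, 1), (42, 2), (44, 3), (45, 4), (47, 1), (48, 3), (49, 1), (50, 2), (51, 3), (52, 1), (53, 4), (54, 2), (55, 2), (56, 3), (57, 2), (58, 2), (59, 3), (61, 2), (65, 2), (66, 3), (73, 1), (74, 1), (75, 2), (76, 3), (78, 4), (79, 3), (81, 1), (82, 4), (83, 4), (84, 4), (85, 3), (86, 1), (87, 2), (88, 2), (89, 2), (90, 3), (91, 3), (92, 3)], [(0, 4), (2, 1), (3, 1), (4, 4), (5, 2), (6, 3), (8, 4), (9, 3), (11, 2), (13, 4), (14, 3),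 (15, 3), (16, 4), (17, 3), (19, 4), (21, 4), (22, 4), (23, 2), (24, 4), (25, 4), (26, 3), (27, 3), (28, 2), (29, 3), (30, 1), (31, 1), (32, 1), (34, 3), (36, 1), (37, 3), (38, 3), (39, 2), (40, 1), (41, 2), (42, 4), (43, 4), (44, 3), (45, 4), (46, 2), (47, 2), (48, 1), (50, 2), (51, 4), (52, 4), (53, 2), (54, 2), (55, 4), (56, 1), (57, 4), (59, 3), (60, 2), (61, 3), (62, 4), (63, 2), (64, 1), (65, 4), (66, 3), (67, 3), (68, 3), (69, 1), (70, 2), (71, 3), (72, 1), (74, 2), (77, 3), (78, 4), (79, 4), (80, 1), (81, 3), (82, 1), (83, 4), (84, 4), (85, 2), (86, 1), (87, 3), (90, 4), (91, 1), (92, 1), (94, 2), (95, 2)], [(1, 4), (2, 1), (3, 1), (4, 4), (5, 3), (6, 2), (7, 3), (8, 1), (9, 1), (10, 1), (11, 3), (12, 3), (13, 1), (15, 4), (16, 2), (18, 4), (19, 4), (20, 2), (21, 3), (22, 1), (23, 2), (24, 1), (25, 3), (27, 2), (28, 4), (29, 1), (30, 2), (32, 4), (33, 2), (35, 1),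 (36, 3), (37, 3), (38, 2), (39, 1), (40, 1), (41, 1), (42, 1), (43, 1), (44, 3), (45, 2), (46, 3), (47, 1), (48, 2), (49, 2), (50, 2), (51, 3), (52, 4), (53, 2), (54, 1), (55, 3), (56, 4), (57, 2), (58, 4), (59, 1), (61, 3), (64, 4), (66, 3), (67, 4), (68, 4), (69, 2), (71, 3), (72, 2), (75, 3), (76, 3), (77, 3), (78, 1), (79, 2), (80, 2), (81, 3), (82, 3), (83, 3), (85, 2), (89, 2), (90, 2), (91, 3), (92, 3), (94, 1)], [(0, 2), (1, 2), (2, 2), (3, 3), (4, 1), (6, 4), (7, 1), (8, 2), (9, 3), (10, 2), (11, 1), (12, 3), (14, 2), (15, 2), (17, 1), (18, 2), (20, 1), (21, 2), (22, 2), (23, 3), (24, 3), (25, 1), (26, 3), (27, 3), (28, 1), (29, 2), (30, 1), (31, 2), (32, 1), (33, 1), (34, 1), (35, 1), (36, 4), (37, 2), (38, 2), (40, 3), (41, 1), (42, 3), (43, 4), (44, 2), (45, 1), (46, 2), (48, 1), (49, 2), (53, 4), (54, 3), (55, 3), (56, 1), (57, 4), (58, 2), (60, 3), (61, 4),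 (62, 2), (65, 2), (66, 3), (67, 3), (68, 2), (69, 1), (70, 4), (71, 2), (72, 3), (73, 1), (74, 1), (75, 4), (76, 1), (77, 4), (79, 4), (80, 4), (81, 1), (82, 3), (84, 1), (85, 3), (86, 2), (87, 1), (88, 1), (89, 3), (90, 4), (91, 3), (94, 3), (95, 2)], [(0, 3), (1, 1), (2, 1), (3, 3), (4, 1), (5, 2), (6, 1), (8, 3), (9, 1), (10, 3), (12, 3), (13, 3), (15, 2), (16, 3), (17, 4), (18, 4), (19, 1), (20, 2), (21, 2), (22, 2), (23, 4), (24, 4), (25, 4), (26, 1), (27, 1), (28, 2), (29, 2), (31, 2), (33, 2), (34, 1), (35, 4), (36, 3), (37, 3), (38, 1), (41, 1), (43, 1), (44, 4), (45, 3), (46, 3), (48, 1), (49, 3), (51, 1), (53, 2), (54, 2), (55, 3), (56, 4), (57, 1), (58, 2), (59, 4), (60, 2), (61, 3), (64, 4), (65, 3), (66, 4), (67, 2), (68, 4), (69, 4), (71, 4), (73, 4), (74, 3), (75, 2), (76, 4), (77, 4), (78, 3), (79, 2), (80, 2), (81, 3), (82, 1), (83, 3), (85, 4), (86, 4),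 (88, 4), (89, 3), (90, 4), (91, 3), (92, 1), (94, 2), (95, 3)], [(1, 3), (2, 2), (3, 3), (6, 2), (8, 4), (10, 4), (11, 1), (12, 3), (13, 3), (14, 3), (15, 2), (16, 1), (23, 3), (24, 3), (25, 2), (26, 1), (27, 2), (28, 1), (30, 3), (31, 3), (32, 2), (33, 3), (35, 4), (36, 1), (38, 3), (40, 1), (41, 3), (42, 4), (43, 2), (44, 2), (45, 4), (46, 4), (47, 2), (48, 4), (49, 2), (50, 4), (51, 4), (52, 2), (54, 2), (55, 4), (57, 2), (59, 3), (60, 4), (61, 2), (62, 1), (63, 4), (64, 1), (65, 4), (66, 4), (67, 3), (69, 4), (70, 4), (72, 2), (74, 3), (77, 4), (78, 3), (79, 2), (80, 1), (81, 3), (82, 4), (83, 4), (85, 2), (86, 4), (87, 2), (89, 4), (90, 1), (91, 4), (92, 2), (94, 1), (95, 2)], [(2, 2), (3, 2), (4, 1), (5, 1), (6, 1), (7, 4), (9, 3), (11, 2), (12, 2), (13, 1), (14, 3), (15, 1), (16, 4), (17, 2), (18, 4), (19, 4), (20, 4), (21, 3), (22, 2), (23, 2), (25, 4), (26, 1),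 (27, 2), (28, 4), (29, 3), (30, 1), (31, 2), (32, 4), (33, 1), (34, 4), (38, 3), (39, 1), (40, 2), (41, 1), (42, 1), (43, 4), (45, 2), (48, 1), (49, 4), (50, 2), (51, 4), (52, 1), (53, 1), (54, 4), (55, 3), (56, 2), (57, 4), (59, 4), (62, 2), (63, 3), (64, 3), (65, 4), (66, 3), (67, 4), (68, 4), (69, 2), (70, 2), (71, 3), (72, 2), (74, 1), (75, 3), (76, 3), (79, 3), (80, 2), (81, 4), (82, 2), (83, 1), (84, 2), (86, 3), (87, 2), (88, 3), (89, 2), (90, 2), (91, 3), (92, 2), (94, 3), (95, 2)], [(0, 3), (1, 4), (2, 2), (3, 1), (4, 4), (5, 1), (6, 2), (9, 2), (11, 1), (12, 1), (13, 4), (15, 2), (16, 2), (17, 3), (18, 1), (19, 4), (20, 1), (21, 1), (22, 1), (23, 1), (25, 2), (26, 3), (27, 3), (28, 2), (29, 3), (30, 2), (32, 2), (33, 4), (35, 2), (36, 4), (37, 4), (38, 3), (39, 3), (41, 3), (42, 1), (44, 4), (45, 4), (46, 3), (47, 2), (48, 1), (50, 1), (51, 4), (54, 3), (55, 1),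 (56, 2), (58, 1), (60, 4), (62, 3), (63, 4), (64, 4), (65, 3), (66, 2), (67, 4), (69, 4), (70, 3), (71, 4), (73, 3), (74, 2), (76, 2), (77, 3), (78, 4), (79, 1), (80, 3), (81, 2), (82, 2), (83, 1), (85, 1), (86, 4), (87, 3), (88, 4), (90, 2), (92, 3), (93, 3), (94, 4), (95, 1)], [(0, 1), (1, 3), (3, 1), (5, 2), (6, 2), (7, 4), (8, 3), (10, 3), (13, 1), (14, 3), (15, 1), (16, 4), (17, 2), (18, 3), (19, 3), (21, 4), (22, 1), (23, 4), (25, 3), (27, 1), (28, 3), (30, 3), (31, 4), (32, 4), (33, 2), (34, 1), (35, 1), (36, 4), (37, 3), (38, 3), (40, 2), (41, 3), (42, 2), (43, 3), (45, 3), (46, 4), (47, 3), (49, 2), (50, 3), (51, 3), (54, 2), (56, 3), (58, 3), (59, 1), (61, 2), (62, 2), (63, 2), (64, 1), (65, 1), (66, 3), (67, 4), (70, 2), (71, 3), (72, 4), (73, 4), (74, 1), (75, 3), (76, 3), (77, 1), (78, 1), (79, 1), (80, 2), (81, 4), (82, 3), (83, 3), (84, 1), (85, 1), (86,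 2), (87, 4), (88, 3), (89, 1), (90, 1), (91, 1), (92, 2), (93, 4), (94, 2), (95, 3)], [(0, 2), (1, 4), (2, 3), (3, 1), (4, 2), (5, 4), (6, 2), (7, 3), (8, 2), (9, 2), (10, 1), (12, 4), (13, 2), (15, 1), (16, 1), (17, 1), (19, 2), (20, 4), (21, 3), (23, 2), (25, 2), (26, 4), (27, 1), (29, 3), (30, 3), (31, 2), (32, 2), (33, 4), (34, 1), (37, 1), (38, 2), (39, 4), (40, 4), (42, 4), (44, 2), (45, 2), (46, 2), (47, 2), (49, 1), (50, 1), (52, 4), (53, 1), (54, 3), (55, 4), (57, 4), (58, 4), (59, 2), (60, 1), (62, 4), (63, 2), (64, 4), (65, 3), (66, 3), (67, 3), (68, 2), (69, 1), (70, 2), (71, 3), (73, 2), (74, 3), (75, 2), (76, 4), (77, 3), (78, 1), (79, 3), (80, 2), (81, 2), (82, 4), (83, 4), (84, 1), (86, 2), (88, 1), (89, 4), (90, 2), (91, 4), (93, 4), (94, 4)], [(0, 1), (1, 4), (2, 4), (3, 1), (4, 1), (5, 2), (6, 4), (9, 1), (10, 3), (11, 2), (12, 2), (13, 1), (14, 4), (15,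 1), (16, 4), (17, 2), (18, 2), (19, 4), (21, 2), (22, 1), (23, 1), (24, 2), (25, 3), (26, 3), (28, 3), (29, 4), (30, 1), (31, 2), (32, 4), (33, 2), (34, 3), (35, 4), (36, 2), (37, 2), (38, 1), (39, 3), (40, 1), (41, 4), (42, 1), (43, 2), (44, 3), (45, 4), (46, 3), (47, 4), (49, 4), (50, 2), (51, 2), (52, 1), (53, 2), (54, 2), (55, 1), (56, 1), (57, 1), (58, 4), (62, 4), (65, 4), (66, 2), (67, 4), (69, 4), (71, 4), (72, 2), (75, 3), (76, 1), (77, 2), (78, 2), (79, 1), (80, 2), (82, 3), (83, 4), (84, 1), (85, 3), (86, 3), (87, 1), (88, 1), (90, 4), (91, 3), (92, 2), (94, 3), (95, 2)], [(0, 4), (1, 2), (2, 3), (3, 1), (4, 2), (5, 1), (6, 1), (7, 1), (8, 3), (9, 2), (10, 4), (11, 3), (12, 2), (14, 4), (15, 4), (16, 4), (17, 1), (18, 2), (19, 2), (20, 2), (21, 4), (22, 3), (23, 2), (24, 1), (25, 2), (26, 3), (27, 1), (28, 2), (30, 4), (31, 4), (32, 2), (34, 3), (35, 2), (36,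 3), (37, 4), (39, 3), (40, 2), (41, 1), (42, 2), (43, 3), (44, 1), (47, 2), (48, 3), (49, 1), (53, 3), (54, 2), (55, 3), (56, 1), (57, 3), (59, 4), (61, 3), (62, 1), (63, 1), (64, 3), (66, 2), (67, 3), (68, 4), (69, 2), (70, 1), (71, 3), (73, 2), (74, 3), (75, 2), (76, 2), (77, 1), (78, 2), (79, 3), (80, 1), (81, 1), (82, 2), (83, 1), (84, 1), (86, 3), (87, 4), (89, 4), (90, 2), (91, 2), (92, 1), (94, 4), (95, 3)], [(0, 2), (1, 4), (2, 2), (4, 3), (6, 3), (7, 2), (8, 3), (9, 2), (11, 4), (12, 2), (13, 1), (14, 4), (15, 1), (16, 4), (19, 2), (21, 3), (22, 1), (23, 2), (24, 3), (25, 2), (26, 4), (29, 3), (30, 1), (32, 4), (34, 4), (35, 1), (36, 4), (38, 1), (39, 4), (40, 3), (41, 3), (42, 4), (43, 1), (44, 1), (45, 4), (47, 4), (48, 2), (49, 4), (50, 3), (51, 4), (54, 4), (55, 3), (56, 2), (57, 1), (58, 4), (59, 4), (62, 2), (63, 3), (64, 3), (65, 1), (66, 4), (67, 3), (68,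 1), (69, 2), (71, 3), (72, 3), (73, 4), (74, 1), (75, 3), (76, 3), (78, 3), (79, 2), (80, 4), (81, 2), (82, 4), (83, 1), (84, 4), (85, 2), (86, 1), (90, 3), (92, 3), (93, 2), (94, 2), (95, 3)], [(0, 3), (2, 1), (3, 4), (4, 4), (5, 3), (7, 3), (9, 3), (10, 4), (11, 1), (12, 1), (13, 1), (14, 1), (15, 4), (16, 1), (17, 4), (19, 2), (20, 4), (21, 3), (22, 1), (24, 1), (25, 4), (26, 1), (28, 1), (29, 2), (30, 3), (31, 2), (32, 4), (33, 4), (34, 4), (35, 2), (36, 3), (37, 2), (38, 3), (39, 2), (40, 2), (41, 3), (42, 4), (43, 1), (44, 4), (45, 3), (46, 4), (47, 3), (49, 1), (50, 1), (51, 3), (52, 3), (53, 3), (55, 4), (57, 4), (58, 1), (59, 2), (60, 3), (61, 3), (62, 1), (63, 2), (65, 3), (66, 3), (67, 2), (68, 4), (70, 3), (74, 3), (75, 4), (76, 1), (77, 2), (78, 2), (80, 2), (81, 4), (82, 1), (83, 4), (85, 3), (86, 4), (87, 4), (88, 2), (89, 1), (90, 3), (91, 4), (92, 2), (93,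 1), (94, 3), (95, 1)], [(0, 4), (1, 4), (2, 4), (3, 3), (4, 2), (6, 4), (7, 4), (9, 1), (10, 4), (11, 1), (12, 4), (13, 3), (14, 4), (15, 1), (16, 1), (19, 1), (20, 2), (21, 2), (22, 1), (23, 3), (24, 2), (26, 4), (27, 1), (28, 1), (29, 4), (30, 4), (31, 2), (32, 2), (33, 1), (34, 2), (35, 4), (36, 1), (37, 2), (38, 2), (40, 3), (42, 1), (43, 3), (44, 4), (46, 4), (47, 1), (50, 3), (51, 2), (52, 2), (53, 4), (54, 2), (57, 4), (58, 2), (61, 4), (62, 4), (63, 2), (64, 2), (65, 2), (66, 1), (67, 1), (68, 1), (69, 3), (70, 2), (71, 3), (73, 2), (74, 4), (75, 1), (76, 3), (77, 4), (79, 1), (80, 4), (81, 1), (82, 1), (84, 1), (85, 2), (86, 2), (87, 1), (88, 3), (89, 3), (91, 3), (92, 1), (93, 4), (94, 3), (95, 2)], [(1, 1), (3, 4), (5, 1), (6, 1), (8, 1), (9, 4), (10, 4), (11, 2), (12, 4), (13, 1), (14, 4), (15, 3), (16, 3), (17, 2), (18, 4), (20, 3), (21, 3), (22, 2), (24, 1),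 (25, 3), (27, 2), (28, 2), (29, 1), (30, 4), (32, 4), (33, 1), (35, 3), (37, 2), (38, 4), (39, 1), (40, 1), (41, 2), (42, 4), (43, 1), (44, 2), (45, 3), (46, 3), (47, 2), (48, 3), (49, 3), (50, 2), (53, 2), (54, 1), (55, 1), (56, 4), (58, 1), (59, 2), (60, 2), (61, 1), (62, 2), (63, 2), (64, 4), (66, 1), (67, 2), (68, 4), (69, 2), (70, 2), (71, 3), (72, 4), (73, 4), (74, 2), (75, 2), (76, 2), (77, 2), (80, 3), (81, 3), (82, 2), (83, 2), (84, 1), (85, 3), (86, 2), (90, 4), (92, 3), (93, 4), (94, 1)], [(0, 1), (1, 2), (2, 4), (3, 3), (4, 4), (5, 3), (6, 1), (7, 4), (8, 2), (10, 3), (11, 4), (12, 1), (15, 1), (17, 4), (18, 4), (20, 4), (21, 2), (24, 3), (25, 1), (26, 4), (28, 1), (29, 4), (31, 1), (32, 1), (33, 1), (34, 1), (35, 2), (36, 4), (39, 4), (40, 2), (41, 2), (42, 3), (43, 1), (45, 1), (46, 1), (47, 1), (48, 2), (49, 2), (50, 3), (51, 1), (53, 4), (54, 3), (55, 1),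 (56, 2), (58, 1), (59, 3), (60, 1), (61, 4), (62, 3), (63, 2), (64, 3), (65, 4), (69, 3), (71, 1), (72, 4), (73, 1), (74, 2), (75, 2), (76, 3), (77, 1), (78, 1), (79, 4), (81, 4), (82, 4), (83, 2), (84, 4), (85, 2), (87, 2), (89, 2), (90, 1), (91, 4), (92, 3), (93, 4)], [(0, 2), (1, 1), (2, 2), (3, 3), (7, 2), (8, 3), (9, 2), (10, 3), (11, 2), (13, 3), (14, 4), (17, 1), (18, 2), (20, 1), (22, 1), (24, 1), (25, 3), (26, 2), (27, 2), (28, 1), (29, 2), (30, 2), (31, 2), (32, 2), (33, 2), (35, 1), (36, 2), (37, 3), (38, 1), (39, 3), (40, 2), (41, 3), (42, 3), (43, 1), (44, 4), (45, 4), (46, 2), (47, 4), (48, 3), (49, 3), (50, 1), (51, 3), (54, 4), (55, 3), (56, 4), (57, 2), (58, 4), (59, 4), (62, 4), (63, 3), (64, 2), (66, 1), (68, 3), (70, 4), (71, 3), (72, 4), (74, 3), (75, 4), (76, 1), (77, 4), (78, 4), (79, 4), (80, 2), (81, 1), (82, 1), (83, 3), (84, 1), (85, 3), (86,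 1), (87, 1), (88, 3), (89, 2), (91, 3), (93, 1), (94, 3), (95, 2)], [(0, 2), (1, 3), (2, 4), (3, 4), (4, 2), (6, 2), (7, 2), (8, 1), (9, 4), (10, 4), (11, 3), (13, 3), (14, 2), (15, 2), (16, 1), (17, 4), (19, 3), (21, 4), (23, 4), (24, 3), (25, 1), (28, 4), (29, 2), (31, 1), (32, 3), (33, 1), (35, 3), (36, 4), (37, 2), (38, 3), (39, 3), (40, 1), (41, 4), (44, 4), (45, 4), (46, 4), (48, 1), (49, 2), (50, 1), (51, 4), (52, 3), (53, 3), (54, 4), (56, 2), (57, 4), (58, 2), (59, 4), (60, 2), (61, 1), (62, 3), (64, 3), (65, 2), (66, 1), (67, 3), (68, 1), (69, 1), (70, 1), (71, 1), (73, 4), (74, 4), (75, 2), (76, 3), (77, 2), (78, 4), (80, 3), (81, 3), (82, 3), (83, 3), (84, 1), (85, 2), (86, 1), (87, 2), (88, 1), (90, 1), (91, 1), (92, 3), (93, 1), (95, 4)], [(2, 4), (4, 3), (7, 3), (8, 4), (10, 1), (11, 1), (12, 4), (14, 2), (15, 2), (16, 2), (17, 4), (18, 3), (20, 3), (21,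 1), (22, 3), (23, 2), (24, 1), (26, 3), (27, 2), (30, 1), (32, 3), (33, 3), (34, 3), (35, 2), (36, 4), (37, 4), (38, 3), (39, 1), (40, 1), (41, 3), (42, 1), (43, 3), (45, 2), (46, 2), (47, 2), (48, 3), (49, 2), (51, 3), (52, 1), (53, 3), (57, 2), (58, 3), (59, 3), (61, 4), (62, 3), (63, 1), (64, 3), (65, 1), (66, 3), (67, 4), (69, 2), (70, 2), (71, 3), (72, 4), (73, 3), (74, 4), (75, 2), (76, 4), (77, 1), (78, 2), (79, 4), (80, 1), (81, 3), (82, 3), (83, 2), (85, 2), (87, 3), (88, 2), (89, 2), (90, 1), (91, 3), (92, 2), (93, 2), (94, 2), (95, 4)], [(0, 3), (1, 2), (2, 2), (3, 1), (4, 4), (5, 1), (6, 1), (7, 2), (8, 4), (10, 1), (11, 1), (13, 2), (14, 4), (15, 3), (16, 3), (17, 3), (18, 4), (20, 3), (21, 3), (22, 1), (23, 4), (24, 3), (25, 4), (27, 3), (28, 1), (30, 2), (31, 1), (32, 4), (34, 4), (38, 4), (39, 3), (41, 2), (42, 1), (43, 2), (44, 4), (45, 4), (47, 2), (48,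 3), (49, 4), (50, 2), (54, 4), (55, 1), (57, 1), (58, 4), (60, 2), (62, 1), (63, 1), (64, 2), (66, 4), (67, 2), (68, 2), (70, 2), (71, 2), (72, 1), (73, 2), (74, 1), (75, 3), (76, 1), (78, 3), (79, 1), (81, 1), (82, 1), (83, 4), (84, 4), (85, 3), (87, 2), (89, 3), (90, 2), (91, 3), (95, 2)], [(1, 3), (2, 4), (4, 2), (5, 2), (6, 3), (7, 4), (10, 1), (11, 4), (12, 3), (13, 1), (14, 1), (15, 1), (19, 4), (20, 1), (21, 1), (22, 4), (23, 3), (24, 4), (25, 1), (26, 3), (28, 4), (29, 1), (31, 3), (32, 3), (34, 1), (35, 3), (37, 2), (38, 2), (39, 3), (40, 3), (41, 2), (42, 1), (44, 2), (45, 1), (46, 1), (47, 4), (49, 2), (50, 1), (51, 1), (53, 4), (54, 4), (56, 4), (57, 4), (60, 3), (61, 2), (62, 3), (65, 3), (66, 2), (67, 1), (68, 1), (69, 3), (71, 2), (72, 1), (73, 1), (74, 4), (78, 2), (80, 3), (82, 2), (83, 4), (85, 1), (86, 4), (87, 2), (89, 3), (90, 2), (91, 3), (92, 1),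 (94, 4), (95, 3)], [(0, 3), (1, 1), (2, 1), (3, 2), (5, 4), (6, 3), (7, 4), (8, 2), (9, 1), (10, 1), (12, 4), (13, 4), (14, 2), (16, 4), (18, 4), (19, 1), (20, 2), (21, 3), (22, 1), (26, 2), (27, 2), (28, 2), (30, 1), (31, 1), (32, 2), (33, 3), (34, 1), (35, 2), (36, 4), (37, 1), (39, 3), (40, 2), (42, 1), (43, 4), (44, 2), (45, 4), (47, 4), (48, 3), (50, 4), (51, 3), (52, 2), (53, 3), (54, 2), (55, 3), (56, 3), (57, 2), (58, 1), (59, 2), (60, 3), (61, 2), (62, 3), (63, 2), (64, 1), (65, 2), (66, 3), (67, 3), (68, 4), (69, 4), (71, 2), (72, 2), (73, 2), (74, 2), (75, 3), (76, 3), (77, 4), (78, 3), (79, 3), (81, 3), (82, 3), (83, 4), (84, 3), (85, 4), (89, 4), (90, 3), (91, 4), (92, 2), (94, 4), (95, 2)], [(0, 2), (1, 3), (2, 2), (3, 3), (4, 1), (5, 1), (6, 3), (7, 1), (8, 2), (9, 3), (10, 1), (14, 4), (15, 3), (18, 1), (20, 4), (21, 2), (22, 4), (24, 3), (25, 3), (26, 3),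 (28, 3), (29, 1), (30, 4), (31, 1), (32, 2), (33, 3), (34, 1), (35, 4), (36, 3), (38, 3), (41, 2), (42, 1), (43, 3), (44, 4), (46, 3), (47, 1), (48, 4), (49, 2), (50, 2), (51, 4), (52, 4), (53, 3), (54, 2), (55, 4), (56, 1), (57, 3), (58, 1), (59, 3), (62, 2), (63, 2), (64, 3), (65, 3), (66, 4), (67, 3), (68, 3), (69, 3), (70, 2), (71, 2), (72, 4), (73, 3), (74, 3), (77, 1), (79, 2), (80, 3), (81, 3), (82, 1), (83, 4), (84, 4), (85, 4), (88, 1), (89, 2), (91, 3), (92, 2), (95, 2)], [(1, 2), (3, 4), (5, 3), (6, 4), (7, 4), (8, 3), (9, 3), (10, 2), (12, 1), (13, 2), (16, 3), (18, 1), (19, 3), (20, 1), (21, 2), (22, 3), (23, 2), (26, 2), (28, 3), (29, 4), (30, 2), (31, 3), (32, 3), (33, 1), (35, 4), (38, 4), (39, 2), (40, 4), (41, 3), (42, 4), (43, 1), (44, 3), (45, 3), (46, 4), (47, 2), (48, 3), (50, 2), (52, 3), (53, 4), (55, 1), (56, 4), (57, 2), (59, 3), (60, 1), (61,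 4), (62, 3), (63, 3), (64, 4), (65, 2), (66, 1), (68, 4), (69, 1), (70, 3), (71, 3), (72, 2), (73, 3), (78, 3), (79, 3), (81, 3), (82, 2), (83, 2), (85, 2), (86, 1), (87, 3), (88, 3), (90, 1), (92, 3), (93, 3), (95, 1)], [(0, 2), (1, 2), (2, 3), (3, 1), (4, 4), (5, 2), (6, 3), (8, 1), (10, 4), (11, 4), (12, 4), (13, 3), (14, 1), (15, 4), (16, 3), (17, 1), (18, 1), (19, 4), (20, 3), (21, 1), (22, 1), (23, 2), (24, 4), (25, 3), (26, 4), (28, 3), (29, 2), (30, 3), (31, 3), (32, 3), (33, 2), (34, 1), (35, 1), (36, 3), (37, 3), (38, 4), (39, 2), (40, 2), (41, 2), (43, 3), (44, 2), (45, 2), (46, 1), (47, 2), (48, 4), (50, 2), (51, 2), (52, 1), (54, 3), (55, 4), (56, 1), (57, 3), (58, 2), (60, 3), (61, 4), (62, 3), (63, 4), (64, 4), (65, 4), (66, 3), (67, 4), (68, 1), (70, 2), (71, 1), (72, 4), (73, 4), (74, 4), (75, 3), (76, 3), (77, 2), (78, 1), (79, 4), (81, 2), (82, 2), (83,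 2), (84, 1), (85, 4), (86, 1), (87, 2), (88, 2), (89, 1), (91, 1), (92, 2), (93, 4), (94, 3), (95, 3)], [(0, 2), (1, 4), (2, 1), (4, 2), (6, 4), (7, 1), (8, 1), (9, 1), (10, 1), (12, 4), (13, 3), (14, 1), (15, 4), (17, 3), (18, 2), (19, 3), (21, 2), (22, 3), (23, 2), (24, 4), (25, 2), (26, 3), (27, 4), (28, 4), (30, 3), (31, 4), (32, 3), (33, 3), (34, 3), (35, 4), (36, 3), (37, 1), (38, 4), (39, 2), (40, 2), (41, 2), (43, 3), (45, 1), (46, 3), (48, 3), (49, 1), (50, 4), (51, 3), (52, 3), (53, 4), (54, 4), (55, 3), (56, 2), (57, 1), (58, 4), (59, 4), (60, 4), (61, 3), (62, 3), (63, 1), (64, 3), (65, 3), (67, 4), (68, 2), (69, 1), (70, 3), (71, 4), (72, 1), (73, 1), (75, 3), (76, 1), (77, 1), (78, 4), (79, 4), (80, 2), (81, 2), (82, 1), (83, 3), (84, 4), (85, 4), (86, 2), (87, 4), (88, 3), (89, 4), (90, 3), (91, 4), (93, 4), (94, 3)], [(1, 3), (3, 3), (4, 4), (5, 4), (6,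 3), (7, 4), (8, 1), (9, 3), (10, 4), (11, 4), (12, 2), (14, 2), (16, 1), (17, 3), (18, 3), (19, 2), (20, 1), (22, 4), (23, 3), (24, 3), (25, 4), (27, 4), (29, 4), (30, 4), (32, 2), (33, 2), (34, 1), (35, 2), (37, 3), (38, 2), (41, 3), (42, 1), (43, 2), (44, 3), (46, 1), (47, 3), (48, 1), (49, 3), (50, 3), (51, 3), (52, 4), (53, 4), (54, 1), (56, 2), (57, 4), (58, 3), (60, 3), (61, 2), (62, 2), (65, 1), (67, 1), (69, 2), (70, 4), (71, 3), (72, 1), (73, 2), (74, 1), (75, 1), (76, 2), (77, 3), (78, 1), (79, 4), (80, 3), (81, 2), (82, 4), (83, 2), (84, 4), (86, 3), (87, 3), (88, 2), (91, 3), (92, 2), (94, 2), (95, 2)], [(0, 1), (1, 4), (2, 4), (3, 1), (4, 2), (5, 4), (6, 1), (7, 4), (9, 4), (10, 1), (11, 1), (12, 1), (13, 2), (14, 2), (15, 4), (16, 3), (17, 1), (18, 2), (19, 2), (20, 4), (21, 1), (22, 4), (23, 3), (24, 1), (25, 2), (27, 3), (28, 4), (30, 4), (31, 3), (32, 1),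 (33, 3), (36, 4), (37, 1), (39, 4), (40, 3), (41, 2), (42, 1), (43, 3), (44, 4), (47, 1), (48, 3), (49, 1), (50, 3), (51, 1), (52, 1), (53, 3), (54, 2), (55, 2), (56, 1), (57, 2), (59, 2), (60, 4), (61, 1), (62, 2), (63, 4), (64, 4), (65, 2), (66, 4), (67, 1), (69, 2), (70, 2), (71, 3), (72, 1), (75, 4), (76, 3), (77, 4), (78, 4), (79, 3), (80, 3), (81, 2), (82, 4), (83, 3), (85, 3), (86, 4), (87, 3), (88, 3), (89, 4), (90, 4), (91, 2), (92, 1), (94, 2), (95, 3)], [(0, 4), (4, 2), (5, 4), (7, 4), (8, 1), (9, 3), (10, 4), (12, 2), (13, 2), (14, 2), (15, 3), (16, 2), (17, 1), (20, 1), (21, 2), (22, 2), (23, 2), (24, 4), (25, 2), (26, 3), (27, 4), (28, 2), (29, 4), (30, 4), (31, 3), (33, 4), (35, 3), (36, 3), (37, 4), (38, 4), (39, 2), (40, 1), (41, 3), (43, 1), (44, 3), (45, 3), (46, 1), (48, 4), (49, 4), (50, 1), (52, 4), (53, 3), (54, 4), (56, 3), (57, 1), (58, 4), (59,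 3), (60, 1), (61, 4), (63, 4), (66, 3), (67, 4), (68, 1), (69, 3), (70, 3), (71, 3), (72, 1), (73, 2), (74, 2), (76, 4), (77, 2), (79, 2), (80, 1), (81, 4), (82, 3), (83, 3), (85, 4), (86, 4), (87, 3), (90, 2), (92, 3), (93, 2), (94, 3), (95, 3)], [(0, 1), (1, 3), (3, 1), (4, 2), (5, 4), (6, 3), (7, 1), (9, 2), (10, 1), (11, 3), (12, 3), (13, 3), (14, 2), (15, 3), (17, 2), (18, 4), (20, 2), (21, 1), (23, 4), (24, 3), (25, 2), (26, 4), (28, 4), (29, 4), (30, 4), (31, 4), (32, 4), (33, 4), (34, 2), (35, 1), (36, 2), (37, 4), (38, 4), (40, 4), (41, 4), (42, 2), (43, 3), (44, 3), (45, 4), (46, 2), (47, 4), (48, 2), (50, 1), (52, 2), (53, 1), (54, 3), (55, 4), (56, 2), (57, 1), (58, 2), (59, 3), (61, 3), (62, 2), (63, 1), (65, 1), (66, 1), (67, 4), (70, 3), (71, 2), (73, 1), (75, 3), (77, 1), (78, 2), (79, 1), (81, 1), (82, 3), (84, 3), (85, 4), (86, 2), (87, 3), (88, 2), (89,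 1), (90, 4), (91, 4), (92, 2), (93, 1), (94, 2), (95, 1)], [(0, 2), (1, 4), (2, 4), (3, 2), (4, 1), (5, 4), (6, 2), (7, 2), (8, 3), (9, 3), (11, 4), (13, 2), (14, 4), (16, 4), (17, 2), (19, 1), (20, 2), (21, 4), (22, 1), (23, 2), (24, 3), (25, 1), (27, 1), (28, 1), (29, 1), (30, 1), (32, 1), (33, 2), (34, 2), (35, 3), (36, 2), (37, 4), (38, 3), (39, 3), (40, 4), (41, 2), (42, 3), (43, 3), (44, 1), (45, 3), (46, 3), (47, 2), (49, 1), (50, 4), (52, 1), (53, 1), (54, 3), (55, 2), (56, 4), (57, 1), (58, 4), (60, 1), (61, 3), (62, 1), (65, 1), (68, 4), (69, 2), (71, 3), (74, 4), (75, 3), (76, 3), (77, 4), (78, 4), (79, 1), (81, 2), (83, 3), (84, 4), (85, 2), (86, 1), (87, 4), (89, 3), (91, 3), (92, 1), (93, 4), (94, 3), (95, 2)], [(1, 1), (2, 1), (3, 4), (4, 2), (6, 2), (7, 2), (8, 3), (9, 2), (12, 3), (13, 1), (14, 1), (16, 3), (17, 1), (20, 1), (22, 4), (23, 1), (25, 4), (26,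 1), (27, 3), (28, 3), (29, 3), (30, 2), (31, 4), (32, 1), (33, 4), (34, 2), (37, 4), (38, 4), (39, 4), (40, 4), (41, 4), (42, 4), (43, 3), (45, 4), (46, 3), (47, 4), (49, 4), (50, 2), (51, 4), (52, 1), (53, 3), (54, 2), (55, 2), (57, 2), (58, 2), (59, 1), (61, 3), (62, 4), (64, 1), (65, 3), (66, 1), (68, 3), (69, 1), (70, 4), (71, 3), (72, 1), (73, 3), (74, 3), (75, 3), (78, 1), (79, 1), (80, 4), (81, 1), (82, 3), (83, 2), (84, 4), (85, 2), (87, 2), (88, 4), (90, 2), (92, 3), (93, 4), (94, 3)], [(1, 4), (2, 2), (3, 4), (4, 1), (5, 2), (6, 4), (7, 2), (8, 3), (10, 4), (11, 2), (12, 2), (13, 3), (14, 3), (15, 3), (16, 2), (17, 4), (18, 2), (20, 4), (21, 3), (22, 1), (23, 3), (24, 2), (25, 3), (26, 1), (27, 3), (28, 4), (29, 2), (31, 2), (32, 3), (33, 4), (34, 2), (35, 4), (36, 3), (37, 4), (38, 4), (40, 4), (41, 3), (42, 2), (44, 1), (45, 2), (46, 2), (47, 1), (48, 4), (49,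 4), (50, 1), (51, 1), (52, 2), (53, 3), (55, 4), (56, 1), (59, 1), (60, 4), (62, 2), (63, 4), (66, 3), (68, 3), (75, 3), (76, 2), (77, 3), (81, 3), (82, 3), (83, 3), (84, 1), (85, 4), (89, 2), (90, 1), (91, 4), (92, 3), (93, 4)], [(0, 2), (1, 1), (2, 1), (3, 2), (4, 2), (5, 1), (6, 1), (7, 4), (8, 1), (9, 4), (10, 3), (11, 2), (12, 2), (13, 2), (14, 2), (15, 4), (17, 3), (18, 4), (19, 1), (20, 3), (21, 2), (23, 3), (24, 3), (26, 2), (27, 1), (28, 1), (30, 1), (31, 2), (33, 4), (34, 4), (35, 2), (37, 1), (38, 3), (39, 4), (40, 2), (41, 3), (42, 4), (44, 4), (46, 3), (47, 4), (48, 2), (49, 1), (50, 1), (51, 3), (53, 1), (54, 2), (57, 2), (58, 4), (59, 1), (60, 1), (61, 1), (62, 3), (63, 3), (65, 2), (66, 1), (67, 3), (68, 1), (70, 3), (71, 3), (72, 2), (73, 3), (74, 1), (75, 1), (76, 1), (78, 3), (79, 2), (80, 1), (82, 4), (83, 1), (84, 3), (85, 1), (86, 4), (87, 2), (88,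 4), (89, 2), (90, 3), (91, 3), (93, 1), (95, 2)], [(1, 1), (2, 4), (3, 4), (4, 2), (5, 4), (6, 1), (7, 2), (9, 1), (11, 4), (13, 4), (16, 3), (17, 1), (18, 3), (19, 3), (22, 2), (23, 4), (24, 2), (25, 4), (28, 4), (29, 4), (30, 1), (32, 3), (33, 1), (35, 3), (36, 4), (37, 2), (38, 3), (39, 1), (40, 3), (41, 4), (42, 3), (43, 2), (44, 4), (45, 4), (46, 4), (48, 2), (49, 3), (50, 1), (51, 4), (52, 2), (53, 3), (54, 4), (56, 1), (57, 4), (58, 3), (60, 3), (62, 2), (64, 3), (65, 3), (66, 1), (67, 3), (68, 1), (69, 2), (72, 4), (73, 4), (74, 4), (75, 2), (76, 3), (77, 2), (78, 4), (80, 3), (81, 3), (82, 3), (83, 3), (84, 1), (85, 2), (86, 1), (87, 2), (88, 1), (90, 1), (91, 1), (92, 3), (93, 1), (95, 4)], [(0, 4), (1, 4), (2, 1), (3, 2), (4, 4), (7, 2), (8, 3), (9, 1), (10, 4), (11, 4), (12, 2), (13, 2), (14, 1), (15, 3), (16, 3), (17, 1), (18, 3), (19, 3), (20, 4), (22, 1),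 (23, 1), (24, 4), (26, 3), (27, 4), (30, 1), (31, 2), (32, 2), (33, 4), (36, 3), (37, 3), (38, 4), (39, 3), (40, 2), (41, 3), (42, 3), (43, 1), (47, 2), (48, 3), (49, 4), (51, 3), (52, 3), (53, 1), (54, 4), (55, 1), (57, 2), (58, 1), (59, 2), (60, 1), (61, 4), (62, 2), (63, 1), (64, 2), (66, 3), (67, 3), (68, 4), (70, 1), (73, 2), (74, 3), (75, 3), (76, 4), (77, 4), (78, 4), (79, 3), (80, 3), (82, 2), (83, 1), (84, 1), (85, 1), (86, 4), (87, 1), (89, 2), (91, 3), (92, 2), (93, 2), (94, 3), (95, 4)], [(0, 4), (1, 4), (4, 2), (7, 4), (8, 4), (9, 3), (10, 3), (11, 3), (12, 3), (13, 3), (14, 1), (15, 3), (16, 4), (17, 2), (19, 2), (20, 4), (21, 4), (22, 2), (23, 2), (25, 1), (27, 1), (28, 3), (29, 3), (30, 1), (31, 1), (32, 3), (33, 2), (34, 3), (35, 1), (36, 1), (38, 3), (39, 2), (40, 2), (41, 1), (42, 4), (43, 1), (44, 3), (47, 1), (48, 4), (49, 1), (50, 4), (51, 1), (52,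 3), (53, 1), (55, 3), (56, 2), (57, 1), (58, 2), (59, 4), (60, 3), (61, 2), (62, 4), (63, 4), (64, 1), (65, 4), (66, 4), (67, 3), (69, 3), (70, 2), (71, 2), (73, 2), (74, 3), (75, 1), (76, 1), (77, 2), (78, 3), (80, 4), (81, 4), (82, 2), (83, 1), (84, 4), (85, 4), (87, 1), (88, 2), (90, 1), (92, 2), (94, 3)], [(1, 1), (2, 3), (3, 3), (5, 3), (8, 1), (9, 3), (11, 3), (12, 1), (13, 3), (15, 4), (16, 4), (17, 4), (19, 4), (20, 2), (21, 2), (24, 4), (25, 4), (26, 4), (29, 4), (30, 4), (31, 4), (32, 3), (33, 1), (34, 1), (36, 3), (38, 1), (39, 3), (40, 3), (41, 3), (42, 4), (44, 3), (45, 3), (46, 1), (47, 2), (48, 2), (49, 3), (50, 2), (54, 4), (55, 4), (56, 4), (57, 3), (58, 1), (59, 3), (60, 4), (61, 1), (62, 4), (63, 4), (64, 3), (65, 1), (66, 2), (67, 3), (68, 3), (69, 2), (70, 4), (71, 3), (73, 3), (74, 4), (75, 1), (76, 2), (77, 1), (78, 2), (79, 3), (80, 3), (81, 4),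 (82, 3), (83, 1), (85, 2), (86, 4), (87, 1), (88, 2), (90, 1), (92, 3), (94, 2), (95, 1)], [(0, 1), (1, 2), (2, 4), (4, 4), (5, 3), (6, 3), (8, 2), (10, 3), (11, 4), (12, 2), (13, 1), (14, 3), (15, 4), (16, 4), (17, 3), (18, 3), (19, 2), (21, 1), (22, 4), (23, 3), (24, 1), (26, 3), (27, 1), (28, 4), (29, 4), (30, 3), (33, 4), (34, 1), (35, 1), (36, 2), (37, 2), (38, 2), (39, 3), (40, 2), (41, 2), (43, 4), (44, 2), (45, 3), (46, 4), (48, 1), (49, 3), (50, 4), (51, 1), (53, 1), (54, 2), (56, 4), (57, 4), (58, 2), (59, 3), (60, 2), (61, 3), (62, 2), (63, 4), (66, 3), (67, 4), (69, 2), (70, 2), (72, 4), (73, 3), (74, 2), (75, 1), (76, 4), (77, 1), (78, 3), (79, 4), (80, 3), (81, 1), (82, 1), (84, 3), (85, 2), (87, 2), (88, 1), (92, 3), (94, 3), (95, 1)], [(0, 4), (1, 4), (2, 1), (3, 1), (4, 4), (5, 4), (6, 3), (7, 4), (8, 1), (9, 1), (10, 2), (11, 1), (12, 4), (13, 4), (14,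 1), (15, 4), (16, 2), (17, 3), (18, 4), (19, 2), (21, 3), (23, 4), (25, 1), (26, 2), (27, 3), (28, 4), (30, 2), (31, 1), (32, 3), (33, 1), (35, 2), (36, 3), (37, 2), (39, 1), (40, 4), (41, 1), (42, 4), (44, 4), (47, 3), (48, 4), (49, 4), (50, 2), (51, 1), (53, 1), (54, 1), (55, 4), (56, 3), (58, 3), (59, 3), (60, 4), (61, 1), (62, 1), (63, 2), (66, 4), (67, 1), (68, 4), (69, 3), (71, 4), (72, 3), (73, 2), (74, 1), (75, 4), (76, 4), (77, 1), (79, 4), (80, 4), (81, 3), (82, 2), (83, 1), (84, 4), (87, 4), (88, 3), (89, 4), (90, 4), (92, 4), (94, 3)], [(0, 2), (1, 4), (2, 3), (3, 2), (4, 4), (5, 3), (6, 3), (7, 3), (9, 2), (10, 1), (11, 2), (12, 3), (13, 2), (14, 1), (15, 2), (17, 4), (18, 2), (19, 4), (20, 4), (22, 1), (23, 2), (24, 1), (25, 2), (26, 1), (27, 4), (28, 3), (29, 4), (30, 3), (31, 1), (33, 4), (35, 1), (36, 2), (37, 4), (38, 2), (39, 3), (41, 3), (42, 3), (44,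 2), (46, 3), (47, 4), (48, 4), (49, 3), (50, 4), (51, 4), (52, 3), (53, 1), (54, 4), (55, 2), (56, 2), (58, 2), (59, 1), (61, 1), (62, 1), (63, 2), (64, 1), (65, 3), (66, 1), (67, 2), (68, 4), (69, 1), (71, 1), (72, 4), (73, 4), (74, 1), (75, 3), (77, 2), (78, 3), (79, 1), (80, 1), (81, 1), (82, 2), (83, 1), (86, 1), (88, 4), (89, 1), (90, 3), (91, 1), (92, 4), (93, 3), (94, 4)], [(0, 3), (2, 3), (3, 2), (4, 3), (6, 4), (7, 3), (8, 4), (9, 4), (10, 4), (11, 2), (12, 3), (13, 2), (14, 1), (16, 4), (17, 3), (18, 3), (19, 1), (20, 1), (21, 4), (22, 4), (23, 2), (24, 3), (25, 2), (26, 3), (27, 1), (28, 1), (29, 3), (30, 3), (31, 4), (33, 3), (36, 3), (38, 3), (39, 2), (41, 2), (42, 4), (43, 4), (44, 3), (46, 4), (47, 4), (48, 2), (49, 4), (50, 2), (51, 3), (52, 3), (53, 1), (54, 3), (55, 3), (56, 4), (57, 4), (58, 2), (59, 2), (60, 3), (61, 2), (63, 4), (65, 2), (66, 3), (67,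 2), (69, 3), (70, 3), (72, 1), (74, 2), (75, 1), (76, 1), (77, 4), (78, 1), (79, 2), (80, 1), (83, 3), (84, 1), (85, 2), (86, 1), (87, 4), (88, 3), (89, 2), (90, 2), (91, 2), (92, 3), (93, 4), (94, 2), (95, 2)], [(0, 2), (1, 1), (2, 3), (3, 1), (4, 4), (5, 4), (6, 2), (9, 3), (11, 1), (12, 4), (13, 1), (14, 4), (15, 3), (16, 1), (17, 1), (18, 2), (19, 1), (20, 4), (21, 1), (22, 2), (23, 4), (24, 3), (25, 2), (26, 3), (29, 1), (32, 2), (33, 2), (34, 2), (36, 1), (38, 4), (39, 3), (40, 1), (41, 4), (42, 2), (45, 4), (46, 3), (47, 3), (48, 1), (49, 1), (51, 3), (52, 1), (53, 4), (54, 3), (56, 4), (58, 2), (59, 1), (60, 3), (61, 3), (62, 3), (63, 2), (65, 2), (67, 3), (68, 4), (71, 2), (72, 2), (73, 4), (74, 1), (75, 2), (76, 3), (77, 4), (78, 4), (79, 4), (80, 4), (81, 4), (82, 3), (83, 3), (84, 4), (85, 3), (86, 2), (88, 1), (89, 2), (90, 4), (91, 2), (92, 3), (93, 4), (95,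 2)], [(0, 3), (1, 1), (3, 2), (5, 4), (6, 4), (7, 2), (8, 2), (9, 4), (10, 3), (11, 1), (13, 2), (14, 1), (17, 4), (19, 1), (20, 3), (21, 2), (22, 1), (23, 3), (24, 2), (26, 1), (28, 2), (29, 4), (30, 3), (32, 3), (33, 1), (34, 1), (35, 1), (36, 2), (37, 4), (38, 1), (40, 4), (41, 3), (42, 2), (43, 1), (44, 3), (45, 3), (46, 4), (47, 3), (48, 3), (52, 4), (54, 1), (55, 4), (56, 4), (57, 3), (58, 2), (59, 2), (60, 2), (61, 3), (62, 1), (63, 4), (68, 4), (69, 2), (70, 3), (71, 4), (72, 4), (73, 4), (74, 4), (76, 3), (78, 1), (80, 3), (82, 3), (83, 4), (84, 4), (85, 2), (86, 3), (87, 1), (88, 1), (89, 4), (90, 3), (91, 2), (92, 1), (94, 3), (95, 3)], [(0, 1), (1, 4), (4, 2), (8, 4), (9, 4), (10, 4), (11, 2), (13, 4), (14, 1), (15, 1), (16, 2), (17, 2), (19, 3), (20, 4), (21, 1), (22, 4), (23, 2), (24, 1), (25, 4), (26, 1), (27, 3), (28, 2), (29, 1), (30, 3), (31, 3), (32,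 4), (34, 4), (35, 3), (36, 3), (39, 4), (40, 2), (41, 3), (42, 1), (43, 2), (44, 3), (46, 1), (47, 3), (48, 1), (49, 2), (51, 2), (52, 2), (53, 3), (54, 2), (55, 3), (57, 3), (58, 1), (59, 2), (60, 3), (62, 3), (63, 4), (64, 4), (65, 1), (66, 4), (67, 1), (69, 3), (70, 2), (71, 3), (72, 1), (75, 4), (76, 3), (77, 3), (78, 4), (80, 1), (81, 3), (82, 4), (83, 3), (85, 3), (86, 4), (87, 3), (88, 3), (89, 4), (90, 4), (91, 2), (92, 1), (94, 2), (95, 3)], [(0, 2), (1, 1), (2, 1), (4, 1), (6, 3), (7, 2), (8, 4), (9, 2), (11, 3), (12, 2), (13, 4), (14, 1), (15, 3), (16, 3), (17, 2), (18, 4), (19, 3), (20, 4), (24, 1), (26, 4), (27, 2), (28, 1), (29, 3), (30, 1), (31, 1), (33, 2), (34, 1), (35, 3), (36, 1), (38, 4), (39, 1), (41, 2), (42, 4), (43, 2), (44, 1), (45, 1), (46, 3), (47, 4), (49, 1), (51, 3), (52, 2), (53, 3), (55, 3), (56, 2), (57, 2), (58, 2), (60, 2), (61, 2), (62,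 2), (63, 1), (64, 4), (65, 3), (66, 3), (67, 4), (68, 3), (69, 1), (70, 2), (71, 4), (72, 3), (73, 4), (74, 2), (75, 2), (77, 1), (79, 2), (82, 3), (83, 2), (85, 2), (86, 4), (88, 1), (89, 1), (90, 4), (91, 1), (92, 4), (93, 2), (94, 2), (95, 2)], [(0, 2), (1, 4), (2, 2), (3, 2), (4, 4), (5, 4), (7, 4), (9, 4), (10, 3), (12, 4), (13, 3), (14, 1), (15, 4), (17, 4), (18, 2), (19, 2), (20, 1), (22, 4), (23, 3), (26, 2), (27, 3), (28, 2), (29, 4), (30, 2), (32, 1), (34, 4), (35, 2), (36, 1), (37, 3), (38, 1), (39, 4), (40, 1), (41, 3), (42, 4), (43, 2), (45, 3), (47, 4), (48, 3), (49, 2), (50, 2), (51, 4), (53, 4), (54, 4), (55, 3), (56, 2), (57, 3), (58, 3), (59, 4), (60, 1), (63, 3), (64, 1), (65, 1), (66, 1), (67, 1), (68, 4), (69, 3), (70, 4), (71, 1), (72, 1), (75, 1), (76, 3), (77, 1), (78, 2), (79, 3), (81, 1), (84, 3), (85, 3), (86, 2), (87, 4), (89, 4), (91, 2), (93,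 1), (94, 4), (95, 3)], [(0, 3), (1, 3), (3, 1), (4, 1), (6, 1), (7, 3), (8, 2), (9, 3), (10, 4), (11, 3), (13, 3), (15, 1), (17, 2), (18, 4), (20, 2), (21, 4), (22, 1), (23, 2), (24, 3), (25, 4), (27, 1), (28, 3), (29, 1), (30, 1), (31, 4), (33, 4), (34, 4), (35, 1), (36, 3), (37, 4), (38, 4), (39, 3), (40, 4), (41, 4), (42, 3), (44, 3), (45, 2), (46, 4), (47, 3), (48, 3), (49, 4), (50, 1), (51, 4), (52, 1), (54, 3), (55, 2), (56, 2), (57, 4), (58, 2), (59, 1), (61, 3), (62, 1), (63, 3), (64, 2), (65, 3), (67, 3), (68, 1), (70, 2), (71, 1), (74, 1), (75, 3), (76, 1), (77, 1), (78, 4), (79, 3), (80, 3), (82, 1), (83, 2), (84, 4), (85, 2), (86, 1), (87, 4), (89, 3), (91, 3), (92, 1), (93, 4), (94, 3), (95, 2)], [(1, 3), (2, 1), (3, 2), (4, 4), (5, 2), (6, 2), (7, 2), (8, 1), (9, 4), (10, 2), (12, 3), (13, 4), (14, 2), (15, 1), (17, 4), (21, 4), (22, 3), (23, 4), (24, 1),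 (25, 4), (27, 2), (28, 4), (29, 4), (30, 4), (31, 3), (32, 3), (34, 2), (35, 1), (37, 4), (38, 3), (39, 3), (40, 2), (41, 2), (42, 1), (43, 3), (44, 1), (45, 3), (47, 4), (48, 1), (49, 3), (50, 3), (51, 2), (52, 3), (53, 4), (54, 3), (56, 1), (57, 3), (58, 4), (59, 2), (60, 2), (62, 2), (64, 4), (65, 3), (66, 1), (67, 2), (68, 2), (69, 4), (70, 3), (71, 4), (72, 2), (73, 1), (74, 2), (75, 2), (76, 4), (78, 1), (79, 2), (81, 1), (82, 3), (83, 4), (84, 4), (85, 1), (87, 3), (88, 2), (89, 3), (90, 3), (91, 3), (92, 1), (93, 4), (95, 2)], [(0, 2), (1, 2), (2, 4), (3, 2), (4, 1), (5, 4), (6, 2), (7, 1), (8, 4), (11, 4), (12, 1), (13, 1), (14, 3), (15, 2), (18, 4), (20, 4), (21, 3), (22, 1), (23, 4), (24, 2), (25, 3), (27, 3), (28, 4), (29, 1), (30, 1), (32, 4), (34, 2), (35, 4), (38, 2), (41, 1), (42, 2), (43, 4), (44, 4), (45, 3), (46, 3), (48, 3), (49, 4), (50, 1), (51, 4),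 (52, 1), (55, 3), (56, 3), (57, 1), (58, 2), (60, 3), (61, 4), (62, 3), (63, 1), (64, 3), (65, 2), (66, 3), (67, 2), (68, 1), (69, 3), (70, 3), (71, 2), (73, 1), (74, 4), (75, 2), (76, 3), (77, 4), (79, 1), (80, 4), (81, 2), (82, 4), (83, 2), (84, 1), (85, 4), (89, 2), (90, 1), (91, 4), (92, 3), (93, 4)], [(0, 3), (1, 3), (2, 4), (3, 1), (5, 4), (6, 1), (8, 2), (9, 2), (10, 1), (11, 2), (12, 2), (13, 2), (14, 2), (15, 3), (16, 3), (18, 1), (20, 4), (21, 3), (22, 1), (23, 1), (24, 3), (26, 2), (27, 1), (29, 4), (30, 4), (32, 4), (33, 4), (34, 3), (36, 3), (38, 3), (39, 4), (40, 1), (42, 2), (43, 4), (45, 1), (46, 2), (47, 3), (49, 3), (50, 1), (51, 2), (52, 4), (53, 1), (54, 2), (56, 4), (57, 2), (60, 3), (62, 4), (63, 1), (64, 4), (66, 1), (68, 3), (69, 4), (70, 1), (72, 1), (73, 4), (75, 3), (76, 4), (77, 2), (78, 3), (79, 1), (81, 3), (82, 2), (83, 1), (84, 3), (85, 2),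 (86, 4), (87, 1), (88, 1), (89, 4), (90, 2), (92, 2), (93, 1), (94, 3)], [(0, 1), (1, 1), (3, 2), (4, 3), (5, 2), (6, 4), (7, 2), (8, 4), (9, 2), (10, 2), (11, 3), (12, 1), (13, 3), (14, 2), (15, 2), (17, 4), (18, 3), (19, 4), (20, 2), (21, 2), (22, 4), (23, 3), (25, 1), (26, 2), (27, 2), (29, 3), (30, 1), (31, 4), (32, 1), (33, 2), (34, 4), (35, 4), (37, 2), (38, 1), (39, 1), (40, 3), (42, 4), (43, 2), (46, 1), (47, 3), (48, 2), (49, 1), (50, 1), (51, 2), (52, 3), (54, 4), (55, 3), (56, 2), (57, 2), (58, 1), (59, 4), (60, 3), (61, 3), (62, 4), (63, 1), (64, 1), (65, 4), (66, 1), (67, 2), (70, 1), (71, 4), (72, 2), (73, 1), (74, 2), (75, 1), (76, 4), (77, 1), (78, 4), (79, 3), (80, 1), (81, 4), (82, 4), (83, 3), (84, 1), (85, 4), (86, 1), (89, 4), (90, 4), (92, 2), (93, 1), (94, 1)], [(1, 1), (2, 4), (3, 1), (4, 2), (5, 3), (7, 3), (8, 4), (9, 4), (10, 2), (11, 4), (12,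 3), (13, 2), (15, 2), (16, 1), (17, 2), (19, 3), (21, 1), (22, 2), (23, 4), (24, 4), (26, 3), (27, 4), (28, 4), (29, 4), (30, 4), (32, 1), (33, 4), (34, 4), (35, 3), (36, 1), (37, 2), (38, 4), (39, 3), (40, 1), (42, 1), (44, 1), (45, 1), (46, 4), (47, 1), (48, 1), (49, 1), (51, 2), (52, 2), (53, 1), (54, 4), (55, 1), (56, 4), (57, 2), (58, 2), (59, 1), (60, 3), (61, 3), (62, 3), (63, 4), (64, 1), (65, 3), (66, 3), (68, 1), (69, 4), (70, 4), (71, 2), (72, 4), (73, 3), (74, 2), (76, 2), (77, 1), (78, 4), (79, 2), (80, 2), (81, 3), (83, 1), (84, 1), (85, 2), (86, 4), (88, 2), (89, 4), (90, 4), (92, 4), (93, 2), (94, 1), (95, 2)]] = true := by decide +kernel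

end T2

end Pool.Agent.Work.MP_d7201b_al
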