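import Pool.Agent.Work.MP_d7201b_al_T2.Data

/-!
# Kernel checks (generated)
-/

set_option autoImplicit false
set_option maxRecDepth 100000

namespace Pool.Agent.Work.MP_d7201b_al

namespace T2

theorem chk64 : chk tab 6 4
  [.P [[2, 0], [3, 0], [0, 0, 4, 0], [1]], .P [[2, 0], [0, 3, 0], [0, 4, 0], [1]], .P [[2, 0], [0, 0, 3, 0], [4, 0], [1]], .P [[1, 0], [3, 0], [0, 0, 4, 0], [2]], .P [[1, 0], [2, 0], [3, 0], [0, 4, 0]], .P [[1, 0], [2, 0], [0, 3, 0], [4, 0]], .P [[1, 0], [2, 0], [0, 0, 4, 0], [3]], .P [[1, 0], [2, 0], [0, 0, 3, 0], [4]], .P [[1, 0], [0, 3, 0], [0, 4, 0], [2]], .P [[1, 0], [0, 2, 0], [3, 0], [4, 0]], .P [[0], [4, 2, 0], [0, 0, 3, 0], [1]], .P [[0], [4, 1, 0], [2, 0], [0, 3, 0]], .P [[0], [4, 1, 0], [0, 2, 0], [3, 0]], .P [[0], [4, 1, 0], [0, 0, 3, 0], [2]], .P [[0], [4, 1, 0], [0, 0, 2, 0], [3]], .P [[0], [3, 2, 0], [0,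 0, 4, 0], [1]], .P [[0], [3, 1, 0], [2, 0], [0, 4, 0]], .P [[0], [3, 1, 0], [0, 0, 4, 0], [2]], .P [[0], [3, 1, 0], [0, 0, 2, 0], [4]], .P [[0], [2, 1, 0], [0, 0, 4, 0], [3]], .P [[0], [2, 1, 0], [0, 0, 3, 0], [4]], .P [[0], [2, 0], [3, 0], [1, 0, 4, 0]], .P [[0], [0], [4, 3, 1, 0], [0, 2, 0]], .P [[0], [0], [4, 2, 1, 0], [0, 3, 0]], .P [[0], [0], [3, 2, 1, 0], [0, 4, 0]]]
  [4, 5, 6, 9]
  [[(11, 4), (12, 4), (22, 4), (23, 4), (24, 4)], [(11, 3), (12, 3), (23, 2), (24, 2)], [(11, 3), (12, 3), (24, 4)], [(22, 1)], [], [], [], [(0, 1), (1, 2), (2, 3), (3, 3), (4, 3), (5, 3), (6, 4), (7, 4), (8, 2), (9, 1), (10, 3), (12, 2), (13, 2), (14, 2), (15, 3), (16, 2), (17, 2), (18, 2), (19, 1), (20, 1), (21, 4), (22, 2), (23, 2), (24, 2)], [(0, 3), (1, 4), (2, 2), (3, 4), (4, 3), (5, 3), (7, 3), (8, 4), (9, 1), (10, 2), (11, 4), (12, 2), (13, 4), (14,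 4), (15, 4), (16, 3), (19, 1), (20, 1), (21, 4), (22, 2), (23, 2), (24, 2)], [], [(0, 2), (1, 4), (2, 4), (3, 3), (4, 1), (5, 2), (6, 3), (7, 1), (8, 4), (9, 3), (10, 3), (11, 4), (12, 1), (13, 2), (14, 4), (16, 2), (18, 3), (19, 2), (20, 4), (21, 2), (22, 1), (23, 3), (24, 3)], [(0, 1), (1, 3), (2, 2), (3, 4), (6, 3), (7, 3), (9, 2), (10, 4), (11, 4), (12, 2), (14, 2), (15, 4), (16, 4), (18, 2), (19, 3), (20, 3), (21, 2), (22, 3), (23, 4), (24, 4)], [(0, 2), (1, 1), (3, 3), (4, 1), (5, 4), (6, 4), (7, 2), (8, 3), (9, 2), (11, 1), (12, 2), (13, 4), (14, 4), (15, 3), (16, 2), (17, 1), (19, 1), (21, 2), (22, 3), (23, 3)], [(0, 4), (1, 4), (2, 4), (4, 4), (5, 4), (6, 3), (7, 3), (9, 4), (11, 4), (12, 1), (13, 3), (16, 3), (17, 3), (19, 4), (20, 4), (22, 3), (23, 4), (24, 4)], [(0, 4), (1, 4), (2, 1), (3, 3), (4, 4), (5, 4), (6, 4), (7, 4), (8,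 1), (9, 3), (10, 3), (11, 3), (12, 4), (13, 1), (15, 3), (16, 3), (17, 1), (19, 2), (20, 2), (21, 4), (22, 4), (23, 1), (24, 1)], [(1, 4), (3, 3), (4, 1), (5, 2), (6, 4), (7, 4), (8, 1), (9, 3), (10, 4), (11, 3), (12, 4), (13, 3), (14, 4), (15, 2), (16, 3), (17, 4), (18, 1), (19, 4), (21, 4), (22, 4), (24, 2)], [(0, 4), (2, 1), (4, 3), (5, 2), (6, 4), (7, 4), (9, 3), (10, 4), (11, 4), (12, 2), (14, 1), (15, 1), (16, 2), (17, 4), (18, 4), (19, 4), (20, 3), (22, 2), (23, 3), (24, 1)], [(0, 3), (1, 1), (3, 3), (4, 4), (5, 4), (6, 4), (7, 4), (9, 2), (10, 2), (11, 4), (12, 1), (13, 4), (14, 3), (15, 2), (16, 2), (17, 4), (18, 3), (19, 3), (20, 3), (21, 4), (22, 1), (23, 3), (24, 3)], [(0, 2), (1, 2), (2, 4), (3, 1), (5, 3), (7, 3), (8, 1), (9, 2), (12, 1), (14, 1), (15, 4), (16, 1), (17, 3), (20, 1), (21, 4), (22, 1), (23, 2), (24, 4)], [(0,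 4), (1, 1), (3, 1), (5, 2), (6, 2), (7, 4), (8, 2), (9, 3), (11, 1), (12, 1), (13, 3), (14, 4), (15, 1), (16, 4), (19, 2), (20, 1), (21, 2), (22, 4), (24, 3)], [(4, 1), (5, 1), (6, 3), (7, 3), (8, 4), (9, 2), (10, 1), (11, 2), (12, 1), (15, 1), (16, 1), (19, 4), (20, 4), (22, 2), (23, 1), (24, 1)], [(0, 1), (1, 3), (2, 3), (3, 4), (4, 3), (5, 4), (6, 2), (7, 4), (8, 2), (9, 2), (10, 2), (12, 1), (13, 3), (14, 2), (16, 3), (17, 2), (18, 3), (19, 3), (22, 2), (24, 2)], [(0, 2), (1, 3), (2, 4), (3, 2), (4, 1), (6, 2), (8, 1), (9, 1), (11, 1), (12, 2), (13, 3), (14, 4), (15, 2), (16, 3), (17, 4), (18, 3), (19, 2), (21, 3), (22, 4), (24, 3)], [(0, 2), (3, 1), (4, 3), (5, 1), (6, 4), (7, 3), (8, 3), (10, 2), (11, 1), (12, 1), (15, 4), (17, 2), (18, 2), (19, 2), (20, 2), (21, 1), (23, 3), (24, 1)], [(1, 3), (2, 2), (3, 2), (4, 1), (5, 3), (6, 4),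 (7, 4), (8, 2), (9, 2), (10, 1), (11, 3), (12, 4), (13, 2), (14, 3), (15, 2), (16, 4), (17, 1), (18, 3), (19, 4), (21, 4), (22, 4), (23, 3), (24, 2)], [(0, 4), (1, 4), (2, 1), (3, 1), (4, 4), (5, 4), (9, 2), (10, 3), (11, 3), (12, 2), (13, 4), (14, 3), (15, 1), (18, 3), (19, 1), (21, 1), (22, 4), (24, 3)], [(0, 3), (1, 4), (2, 1), (3, 3), (4, 1), (5, 3), (6, 3), (7, 4), (8, 2), (10, 4), (12, 1), (13, 2), (14, 2), (15, 2), (16, 1), (19, 2), (20, 2), (21, 1), (23, 1), (24, 3)], [(0, 1), (1, 2), (2, 3), (3, 4), (4, 3), (5, 1), (6, 4), (7, 4), (8, 1), (9, 2), (10, 2), (11, 4), (12, 4), (13, 1), (14, 3), (15, 1), (16, 3), (17, 2), (18, 3), (20, 4), (21, 4), (22, 4), (23, 2), (24, 3)], [(0, 4), (1, 3), (2, 3), (3, 3), (4, 4), (5, 4), (8, 4), (9, 2), (10, 1), (11, 1), (12, 2), (14, 3), (15, 3), (16, 2), (17, 4), (18, 3), (20, 1), (21, 1), (22, 4),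 (23, 3)]] = true := by decide +kernel

end T2

end Pool.Agent.Work.MP_d7201b_al
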