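import Pool.Agent.Work.MP_d7201b_al_T2.Data

/-!
# Kernel checks (generated)
-/

set_option autoImplicit false
set_option maxRecDepth 100000

namespace Pool.Agent.Work.MP_d7201b_al

namespace T2

theorem chk11 : chk tab 1 1
  []
  [0]
  [[]] = true := by decide +kernel

theorem chk20 : chk tab 2 0
  [.X]
  []
  [[(0, 1)]] = true := by decide +kernel

theorem chk12 : chk tab 1 2
  [.C [] 0 1 0]
  [0]
  [[], [(0, 1)]] = true := by decide +kernel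

theorem chk21 : chk tab 2 1
  []
  [0]
  [[]] = true := by decide +kernel

theorem chk30 : chk tab 3 0
  []
  []
  [] = true := by decide +kernel

theorem chk13 : chk tab 1 3
  [.C [2] 0 1 0, .C [1] 0 2 0]
  [0]
  [[], [(0, 1)], [(1, 1)]] = true := by decide +kernel

theorem chk22 : chk tab 2 2
  [.L [] [1, 2]]
  [0, 1]
  [[], [], [(0, 4)]] = true := by decide +kernel

theorem chk31 : chk tab 3 1
  []
  [0]
  [[]] = true := by decide +kernel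

theorem chk40 : chk tab 4 0
  []
  []
  [] = true := by decide +kernel

theorem chk14 : chk tab 1 4
  [.C [2, 3] 0 1 0, .C [1, 3] 0 2 0, .C [1, 2] 0 3 0, .P [[1], [2], [3], [4]]]
  []
  [[(0, 1), (1, 1), (2, 1), (3, 4)], [(0, 2), (1, 1), (2, 1), (3, 4)], [(0, 1), (1, 2), (2, 1), (3, 4)], [(0, 1), (1, 1), (2, 2), (3, 4)]] = true := by decide +kernel

theorem chk23 : chk tab 2 3
  [.C [2] 0 1 0, .C [1] 0 2 0, .C [0] 1 2 0, .P [[0], [1], [2], [3]]]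
  [0, 1, 2]
  [[], [], [], [(0, 4), (1, 1), (2, 1), (3, 2)], [(0, 1)], [(0, 1), (1, 4), (2, 4), (3, 2)], [(1, 1)]] = true := by decide +kernel

theorem chk32 : chk tab 3 2
  [.P [[0], [0], [1], [2]], .L [1, 0] [2]]
  [0, 1]
  [[], [], [(0, 4), (1, 2)], [(0, 4), (1, 3)]] = true := by decide +kernel

theorem chk41 : chk tab 4 1
  [.P [[0], [0], [0], [1]]]
  []
  [[(0, 1)]] = true := by decide +kernel

theorem chk50 : chk tab 5 0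
  []
  []
  [] = true := by decide +kernel

theorem chk15 : chk tab 1 5
  []
  []
  [] = true := by decide +kernel

theorem chk24 : chk tab 2 4
  [.C [2, 3] 0 1 0, .C [2, 3] 0 1 1, .C [1, 3] 0 2 0, .C [1, 3] 0 2 1, .C [1, 2] 0 3 0, .C [1, 2] 0 3 1, .C [0, 3] 1 2 0, .C [0, 2] 1 3 0]
  [0, 1, 2, 3]
  [[], [], [], [], [(0, 1)], [(1, 1)], [(0, 3), (1, 1), (2, 2), (3, 4), (6, 2)], [(2, 1)], [(3, 1)], [(1, 4), (4, 2), (5, 4), (7, 2)], [(4, 1)], [(5, 1)]] = true := by decide +kernel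

theorem chk33 : chk tab 3 3
  [.C [2] 0 1 0, .C [1] 0 2 0, .C [0] 1 2 0]
  [0, 1, 2, 3, 4, 5]
  [[], [], [], [], [], [], [(0, 4)], [(0, 4), (1, 1), (2, 1)], [(0, 1), (1, 3), (2, 4)]] = true := by decide +kernel

theorem chk42 : chk tab 4 2
  []
  [0, 1]
  [[], []] = true := by decide +kernel

theorem chk51 : chk tab 5 1
  []
  []
  [] = true := by decide +kernel

theorem chk60 : chk tab 6 0
  []
  []
  [] = true := by decide +kernel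

theorem chk16 : chk tab 1 6
  []
  []
  [] = true := by decide +kernel

theorem chk25 : chk tab 2 5
  [.C [2, 3, 4] 0 1 0, .C [2, 3, 4] 0 1 1, .C [2, 3, 4] 0 1 2, .C [1, 3, 4] 0 2 0, .C [1, 3, 4] 0 2 1, .C [1, 3, 4] 0 2 2, .C [1, 2, 4] 0 3 0, .C [1, 2, 4] 0 3 1, .C [1, 2, 4] 0 3 2, .C [1, 2, 3] 0 4 0, .C [1, 2, 3] 0 4 1, .C [1, 2, 3] 0 4 2, .C [0, 3, 4] 1 2 0, .C [0, 2, 4] 1 3 0, .C [0, 2, 3] 1 4 0, .P [[5, 4, 0], [1], [2], [3]], .P [[5, 3, 0], [1], [2], [4]], .P [[5, 2, 0], [1], [3], [4]], .P [[5, 1, 0], [2], [3], [4]], .P [[4, 3, 0], [1], [2], [5]]]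
  []
  [[(0, 3), (1, 2), (2, 2), (3, 2), (4, 1), (6, 1), (8, 4), (9, 4), (10, 1), (12, 2), (13, 1), (14, 4), (17, 3), (18, 3), (19, 1)], [(0, 4), (1, 4), (3, 1), (4, 3), (6, 4), (8, 1), (9, 4), (10, 4), (11, 4), (12, 1), (13, 4), (14, 4), (15, 1), (16, 2), (17, 1), (18, 1), (19, 4)], [(0, 4), (2, 4), (3, 1), (4, 3), (6, 1), (7, 3), (9, 2), (10, 1), (12, 1), (13, 1), (14, 2), (15, 1), (16, 1), (17, 1), (18, 1)], [(0, 2), (1, 4), (2, 2), (3, 3), (4, 4), (6, 1), (8, 4), (9, 2), (10, 4), (11, 3), (12, 3), (13, 1), (14, 4), (16, 2), (17, 1), (18, 3), (19, 1)], [(0, 4), (1, 2), (2, 2), (3, 2), (4, 1), (6, 1), (8, 4), (9, 4), (10, 1), (12, 2), (13, 1), (14, 4), (17, 3), (18, 3), (19, 1)], [(0, 4), (3, 1), (4, 3), (6, 4), (8, 1), (9, 4), (10, 4), (11, 4), (12, 1), (13, 4), (14, 4), (15, 1), (16, 2), (17, 1), (18, 1), (19, 4)], [(0, 4), (3, 1), (4, 3),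 (6, 1), (7, 3), (9, 2), (10, 1), (12, 1), (13, 1), (14, 2), (15, 1), (16, 1), (17, 1), (18, 1)], [(0, 1), (1, 1), (2, 4), (3, 3), (4, 4), (6, 1), (8, 4), (9, 4), (10, 4), (11, 3), (12, 3), (13, 1), (14, 2), (16, 2), (17, 3), (18, 1), (19, 1)], [(0, 2), (1, 4), (2, 2), (3, 4), (4, 4), (6, 1), (8, 4), (9, 2), (10, 4), (11, 3), (12, 3), (13, 1), (14, 4), (16, 2), (17, 1), (18, 3), (19, 1)], [(0, 4), (1, 4), (3, 1), (4, 4), (6, 4), (8, 1), (9, 4), (10, 4), (11, 4), (12, 1), (13, 4), (14, 4), (15, 1), (16, 2), (17, 1), (18, 1), (19, 4)], [(0, 4), (2, 4), (3, 1), (4, 3), (5, 1), (6, 1), (7, 3), (9, 2), (10, 1), (12, 1), (13, 1), (14, 2), (15, 1), (16, 1), (17, 1), (18, 1)], [(0, 1), (1, 1), (2, 4), (3, 3), (4, 4), (6, 1), (8, 4), (9, 4), (10, 4), (11, 3), (12, 4), (13, 1), (14, 2), (16, 2), (17, 3), (18, 1), (19, 1)], [(0, 3), (2, 3), (3, 2), (4, 1),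 (6, 3), (7, 3), (8, 4), (9, 2), (11, 2), (12, 2), (13, 2), (14, 4), (15, 2), (17, 1), (18, 3), (19, 1)], [(0, 2), (1, 2), (2, 3), (3, 3), (4, 4), (6, 2), (8, 1), (9, 4), (10, 2), (11, 1), (12, 3), (13, 2), (14, 4), (15, 2), (16, 1), (17, 1), (18, 1), (19, 4)], [(0, 4), (2, 4), (3, 1), (4, 3), (6, 1), (7, 3), (8, 1), (9, 2), (10, 1), (12, 1), (13, 1), (14, 2), (15, 1), (16, 1), (17, 1), (18, 1)], [(0, 3), (1, 3), (2, 1), (3, 2), (4, 1), (6, 2), (7, 3), (8, 4), (9, 4), (11, 2), (12, 2), (13, 3), (14, 2), (15, 2), (17, 3), (18, 1), (19, 1)], [(0, 3), (1, 3), (3, 2), (4, 1), (6, 3), (7, 2), (8, 1), (9, 2), (10, 1), (12, 2), (13, 3), (14, 3), (15, 2), (16, 2), (17, 1), (18, 3), (19, 4)], [(0, 2), (1, 1), (2, 4), (3, 3), (4, 4), (7, 1), (8, 2), (9, 1), (10, 1), (12, 3), (14, 1), (15, 2), (16, 2), (17, 1), (18, 1), (19, 3)], [(0, 4), (1, 3), (2, 1),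 (3, 1), (4, 3), (6, 2), (7, 2), (8, 2), (9, 1), (10, 2), (11, 4), (12, 1), (13, 2), (14, 1), (15, 1), (16, 3), (17, 1), (18, 1), (19, 3)], [(0, 3), (1, 3), (2, 1), (3, 2), (4, 1), (6, 3), (7, 2), (8, 1), (9, 3), (10, 1), (12, 2), (13, 3), (14, 2), (15, 2), (16, 2), (17, 3), (18, 1), (19, 4)]] = true := by decide +kernel

theorem chk43 : chk tab 4 3
  [.P [[0], [2, 0], [3, 0], [1]], .P [[0], [1, 0], [3, 0], [2]], .P [[0], [1, 0], [2, 0], [3]], .P [[0], [0], [3, 2, 0], [1]], .P [[0], [0], [3, 1, 0], [2]]]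
  [0, 1, 2, 3, 4, 5, 7]
  [[], [], [], [], [], [], [(0, 1), (3, 3)], [], [(1, 1), (4, 3)], [(0, 1), (1, 1), (2, 3), (3, 1), (4, 1)], [(0, 1), (1, 1), (2, 2), (3, 2), (4, 2)], [(0, 1), (2, 3), (3, 4), (4, 4)]] = true := by decide +kernel

theorem chk52 : chk tab 5 2
  [.P [[0], [0], [1, 0], [2, 0]]]
  [1]
  [[(0, 4)], []] = true := by decide +kernel

theorem chk61 : chk tab 6 1
  []
  []
  [] = true := by decide +kernel

theorem chk70 : chk tab 7 0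
  []
  []
  [] = true := by decide +kernel

theorem chk17 : chk tab 1 7
  []
  []
  [] = true := by decide +kernel

theorem chk26 : chk tab 2 6
  []
  []
  [] = true := by decide +kernel

theorem chk53 : chk tab 5 3
  [.P [[0], [2, 0], [0, 3, 0], [1]], .P [[0], [1, 0], [2, 0], [3, 0]], .P [[0], [1, 0], [0, 3, 0], [2]], .P [[0], [1, 0], [0, 2, 0], [3]], .P [[0], [0], [3, 0, 2, 0], [1]]]
  [1, 2, 3, 4, 5]
  [[(1, 4)], [], [], [], [], [], [(0, 4), (1, 4), (2, 1), (3, 4)], [(0, 2), (1, 2), (2, 4), (3, 1), (4, 2)], [(1, 4), (2, 3), (3, 4), (4, 3)], [(2, 4), (3, 3), (4, 2)]] = true := by decide +kernel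

theorem chk62 : chk tab 6 2
  [.P [[0], [0], [1, 0], [0, 2, 0]]]
  []
  [[(0, 4)]] = true := by decide +kernel

theorem chk71 : chk tab 7 1
  []
  []
  [] = true := by decide +kernel

theorem chk18 : chk tab 1 8
  []
  []
  [] = true := by decide +kernel

theorem chk27 : chk tab 2 7
  []
  []
  [] = true := by decide +kernel

theorem chk36 : chk tab 3 6
  [.C [2, 3, 4, 5] 0 1 0, .C [1, 3, 4, 5] 0 2 0, .C [1, 2, 4, 5] 0 3 0, .C [1, 2, 3, 5] 0 4 0, .C [1, 2, 3, 4] 0 5 0]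
  [0]
  [[], [(0, 1)], [(1, 1)], [(2, 1)], [(3, 1)], [(4, 1)]] = true := by decide +kernel

theorem chk63 : chk tab 6 3
  [.P [[0], [2, 0], [0, 0, 3, 0], [1]], .P [[0], [1, 0], [2, 0], [0, 3, 0]]]
  [2, 3, 4]
  [[(0, 2), (1, 3)], [(1, 2)], [], [], []] = true := by decide +kernel

theorem chk72 : chk tab 7 2
  []
  []
  [] = true := by decide +kernel

theorem chk28 : chk tab 2 8
  []
  []
  [] = true := by decide +kernel

theorem chk37 : chk tab 3 7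
  [.C [2, 3, 4, 5, 6] 0 1 0, .C [1, 3, 4, 5, 6] 0 2 0, .C [1, 2, 4, 5, 6] 0 3 0, .C [1, 2, 3, 5, 6] 0 4 0, .C [1, 2, 3, 4, 6] 0 5 0, .C [1, 2, 3, 4, 5] 0 6 0, .P [[7, 6, 3, 0], [5, 4, 0], [1], [2]]]
  []
  [[(0, 4), (5, 1), (6, 1)], [(5, 1), (6, 1)], [(0, 4), (1, 1), (5, 1), (6, 1)], [(0, 4), (2, 1), (5, 1), (6, 1)], [(0, 4), (3, 1), (5, 1), (6, 1)], [(0, 4), (4, 1), (5, 1), (6, 1)], [(0, 4), (5, 2), (6, 1)]] = true := by decide +kernel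

theorem chk73 : chk tab 7 3
  [.P [[0], [1, 0], [2, 0], [0, 0, 3, 0]], .P [[0], [0], [3, 1, 0], [0, 0, 2, 0]], .P [[0], [0], [2, 1, 0], [0, 0, 3, 0]]]
  []
  [[(0, 1), (1, 1), (2, 1)], [(0, 1), (1, 4), (2, 3)], [(1, 4)]] = true := by decide +kernel

theorem chk38 : chk tab 3 8
  []
  []
  [] = true := by decide +kernel

theorem chk47 : chk tab 4 7
  [.C [2, 3, 4, 5, 6] 0 1 1, .C [1, 3, 4, 5, 6] 0 2 1, .C [1, 2, 4, 5, 6] 0 3 1, .C [1, 2, 3, 5, 6] 0 4 1, .C [1, 2, 3, 4, 6] 0 5 1, .C [1, 2, 3, 4, 5] 0 6 1]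
  [0]
  [[], [(0, 4)], [(1, 4)], [(2, 4)], [(3, 4)], [(4, 4)], [(5, 4)]] = true := by decide +kernel

theorem chk56 : chk tab 5 6
  [.C [2, 3, 4, 5] 0 1 0, .C [1, 3, 4, 5] 0 2 0, .C [1, 2, 4, 5] 0 3 0, .C [1, 2, 3, 5] 0 4 0, .C [1, 2, 3, 4] 0 5 0, .P [[6, 5, 3, 0], [0, 0, 4, 0], [1], [2]]]
  [0]
  [[], [(0, 2), (1, 3), (3, 1), (4, 3), (5, 2)], [(0, 1), (1, 3), (3, 1), (4, 3), (5, 2)], [(0, 2), (1, 2), (3, 1), (4, 3), (5, 2)], [(0, 2), (1, 3), (2, 4), (3, 1), (4, 3), (5, 2)], [(0, 2), (1, 3), (4, 3), (5, 2)], [(0, 2), (1, 3), (3, 1), (4, 2), (5, 2)]] = true := by decide +kernel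

theorem chk74 : chk tab 7 4
  [.P [[2, 0], [0, 3, 0], [0, 0, 4, 0], [1]], .P [[1, 0], [2, 0], [3, 0], [0, 0, 4, 0]], .P [[1, 0], [2, 0], [0, 3, 0], [0, 4, 0]], .P [[0], [0], [4, 3, 1, 0], [0, 0, 2, 0]]]
  []
  [[(0, 3), (2, 2), (3, 4)], [(0, 4), (2, 3), (3, 3)], [(0, 4), (1, 2), (3, 3)], [(3, 4)]] = true := by decide +kernel

theorem chk48 : chk tab 4 8
  [.C [2, 3, 4, 5, 6, 7] 0 1 0, .C [1, 3, 4, 5, 6, 7] 0 2 0, .C [1, 2, 4, 5, 6, 7] 0 3 0, .C [1, 2, 3, 5, 6, 7] 0 4 0, .C [1, 2, 3, 4, 6, 7] 0 5 0, .C [1, 2, 3, 4, 5, 7] 0 6 0, .C [1, 2, 3, 4, 5, 6] 0 7 0, .P [[8, 7, 2, 0], [6, 3, 0], [5, 4, 0], [1]]]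
  []
  [[(3, 3), (4, 3), (5, 2), (6, 4), (7, 2)], [(0, 1), (3, 3), (4, 3), (5, 2), (6, 4), (7, 2)], [(1, 1), (3, 3), (4, 3), (5, 2), (6, 4), (7, 2)], [(2, 1), (3, 3), (4, 3), (5, 2), (6, 4), (7, 2)], [(3, 4), (4, 3), (5, 2), (6, 4), (7, 2)], [(3, 3), (4, 4), (5, 2), (6, 4), (7, 2)], [(3, 3), (4, 3), (5, 3), (6, 4), (7, 2)], [(3, 3), (4, 3), (5, 2), (7, 2)]] = true := by decide +kernel

theorem chk57 : chk tab 5 7
  [.C [2, 3, 4, 5, 6] 0 1 0, .C [1, 3, 4, 5, 6] 0 2 0, .C [1, 2, 4, 5, 6] 0 3 0, .C [1, 2, 3, 5, 6] 0 4 0, .C [1, 2, 3, 4, 6] 0 5 0, .C [1, 2, 3, 4, 5] 0 6 0, .P [[7, 6, 3, 0], [4, 0], [2, 0, 5, 0], [1]], .P [[7, 6, 1, 0], [5, 2, 0], [3, 0], [4, 0]]]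
  []
  [[(0, 1), (1, 4), (2, 3), (3, 3), (5, 4), (6, 4)], [(0, 2), (1, 1), (2, 3), (3, 4), (4, 4), (5, 4), (6, 2), (7, 2)], [(1, 1), (2, 3), (3, 4), (4, 4), (5, 4), (6, 2), (7, 2)], [(0, 2), (1, 4), (2, 3), (3, 4), (4, 4), (5, 4), (6, 2), (7, 2)], [(0, 2), (1, 1), (2, 1), (3, 4), (4, 4), (5, 4), (6, 2), (7, 2)], [(0, 2), (1, 1), (2, 3), (3, 2), (4, 4), (5, 4), (6, 2), (7, 2)], [(0, 2), (1, 1), (2, 3), (3, 4), (4, 2), (5, 4), (6, 2), (7, 2)], [(0, 2), (1, 1), (2, 3), (3, 4), (4, 4), (5, 2), (6, 2), (7, 2)]] = true := by decide +kernel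

theorem chk66 : chk tab 6 6
  [.C [2, 3, 4, 5] 0 1 0, .C [1, 3, 4, 5] 0 2 0, .C [1, 2, 4, 5] 0 3 0, .C [1, 2, 3, 5] 0 4 0, .C [1, 2, 3, 4] 0 5 0, .P [[6, 5, 2, 0], [3, 0], [0, 0, 4, 0], [1]]]
  [0]
  [[], [(0, 4), (1, 1), (2, 1), (3, 4), (4, 1), (5, 1)], [(0, 3), (1, 1), (2, 1), (3, 4), (4, 1), (5, 1)], [(0, 4), (2, 1), (3, 4), (4, 1), (5, 1)], [(0, 4), (1, 1), (3, 4), (4, 1), (5, 1)], [(0, 4), (1, 1), (2, 1), (3, 3), (4, 1), (5, 1)], [(0, 4), (1, 1), (2, 1), (3, 4), (5, 1)]] = true := by decide +kernel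

theorem chk75 : chk tab 7 5
  [.P [[5, 1, 0], [2, 0], [0, 3, 0], [0, 4, 0]]]
  []
  [[(0, 1)]] = true := by decide +kernel

theorem chk58 : chk tab 5 8
  []
  []
  [] = true := by decide +kernel

theorem chk67 : chk tab 6 7
  [.C [2, 3, 4, 5, 6] 0 1 0, .C [1, 3, 4, 5, 6] 0 2 0, .C [1, 2, 4, 5, 6] 0 3 0, .C [1, 2, 3, 5, 6] 0 4 0, .C [1, 2, 3, 4, 6] 0 5 0, .C [1, 2, 3, 4, 5] 0 6 0, .P [[7, 6, 2, 0], [5, 3, 0], [0, 0, 4, 0], [1]]]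
  []
  [[(0, 3), (1, 3), (2, 1), (5, 4), (6, 3)], [(0, 1), (1, 3), (2, 1), (5, 4), (6, 3)], [(0, 3), (1, 1), (2, 1), (5, 4), (6, 3)], [(0, 3), (1, 3), (2, 4), (5, 4), (6, 3)], [(0, 3), (1, 3), (2, 1), (3, 3), (5, 4), (6, 3)], [(0, 3), (1, 3), (2, 1), (4, 3), (5, 4), (6, 3)], [(0, 3), (1, 3), (2, 1), (5, 2), (6, 3)]] = true := by decide +kernel

theorem chk76 : chk tab 7 6
  [.P [[6, 5, 2, 0], [0, 3, 0], [0, 0, 4, 0], [1]]]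
  []
  [[(0, 2)]] = true := by decide +kernel

theorem chk68 : chk tab 6 8
  []
  []
  [] = true := by decide +kernel

theorem chk77 : chk tab 7 7
  []
  []
  [] = true := by decide +kernel

theorem chk78 : chk tab 7 8
  []
  []
  [] = true := by decide +kernel

end T2

end Pool.Agent.Work.MP_d7201b_al
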