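import Pool.Agent.Work.MP_d7201b_al_T2.Sound
import Pool.Agent.Work.MP_d7201b_al_T2.Rest
import Pool.Agent.Work.MP_d7201b_al_T2.L34
import Pool.Agent.Work.MP_d7201b_al_T2.L35
import Pool.Agent.Work.MP_d7201b_al_T2.L44
import Pool.Agent.Work.MP_d7201b_al_T2.L45
import Pool.Agent.Work.MP_d7201b_al_T2.L46
import Pool.Agent.Work.MP_d7201b_al_T2.L54
import Pool.Agent.Work.MP_d7201b_al_T2.L55
import Pool.Agent.Work.MP_d7201b_al_T2.L64
import Pool.Agent.Work.MP_d7201b_al_T2.L65

/-!
# Every word with six letters `X` is killed
-/

set_option autoImplicit false

namespace Pool.Agent.Work.MP_d7201b_al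

namespace T2

universe u

theorem tab_w_big {k T : ℕ} (h : 8 ≤ k ∨ 9 ≤ T) : (tab k T).w = [] := by
  unfold tab
  rw [nth_eq, nth_eq]
  rcases h with h | h
  · rw [List.getD_eq_default data [] (by exact h)]
    rfl
  · have : ∀ l ∈ data, l.length ≤ 9 := by decide
    have h2 : (data.getD k []).length ≤ 9 := by
      by_cases hk : k < data.length
      · rw [List.getD_eq_getElem _ _ hk]
        exact this _ (List.getElem_mem _)
      · rw [List.getD_eq_default _ _ (by omega)]
        simp
    rw [List.getD_eq_default _ _ (by omega)]

theorem tab_big {k T : ℕ} (h : 8 ≤ k ∨ 9 ≤ T) : tab k T = ⟨[], [], List.replicate T []⟩ := by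
  unfold tab
  rw [nth_eq, nth_eq]
  rcases h with h | h
  · rw [List.getD_eq_default data [] (by exact h)]
    rfl
  · have : ∀ l ∈ data, l.length ≤ 9 := by decide
    have h2 : (data.getD k []).length ≤ 9 := by
      by_cases hk : k < data.length
      · rw [List.getD_eq_getElem _ _ hk]
        exact this _ (List.getElem_mem _)
      · rw [List.getD_eq_default _ _ (by omega)]
        simp
    rw [List.getD_eq_default _ _ (by omega)]

theorem tab_w_edge7 (T : ℕ) : (tab 7 T).w = [] := by
  by_cases h : 9 ≤ T
  · exact tab_w_big (Or.inr h)
  · have : T < 9 := by omega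
    interval_cases T <;> rfl

theorem tab_w_edge8 (k : ℕ) : (tab k 8).w = [] := by
  by_cases h : 8 ≤ k
  · exact tab_w_big (Or.inl h)
  · have : k < 8 := by omega
    interval_cases k <;> rfl

theorem LR_big {k T : ℕ} (h : 8 ≤ k ∨ 9 ≤ T) : LR.{u} tab k T := by
  have h1 : (tab (k - 1) T).w = [] := by
    rcases h with h | h
    · by_cases h8 : 8 ≤ k - 1
      · exact tab_w_big (Or.inl h8)
      · have : k - 1 = 7 := by omega
        rw [this]
        exact tab_w_edge7 T
    · exact tab_w_big (Or.inr h)
  have h2 : T = 0 ∨ (tab k (T - 1)).w = [] := by
    rcases h with h | h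
    · right; exact tab_w_big (Or.inl h)
    · right
      by_cases h8 : 9 ≤ T - 1
      · exact tab_w_big (Or.inr h8)
      · have : T - 1 = 8 := by omega
        rw [this]
        exact tab_w_edge8 k
  have h3 : pre tab k T = [] := by
    rw [pre, h1]
    rcases h2 with rfl | h2
    · rfl
    · rw [h2]
      simp
  have h4 := tab_big h
  refine ⟨?_, ?_, ?_, ?_⟩
  · rw [h1, h4]
  · rw [h4]; simp
  · rw [h4]
    intro r hr
    rcases h2 with rfl | h2
    · simp at hr
    · rw [h2]
      rw [List.eq_of_mem_replicate hr]
  · intro W _ ψ _
    rw [h3, h4]
    simp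

theorem exists_of_forall₂ {α β : Type*} {R : α → β → Prop} {l : List α} {m : List β}
    (h : List.Forall₂ R l m) {a : α} (ha : a ∈ l) : ∃ b, R a b := by
  induction h with
  | nil => simp at ha
  | cons h1 _ ih =>
    rcases List.mem_cons.1 ha with rfl | ha
    · exact ⟨_, h1⟩
    · exact ih ha

theorem vsum_eq_zero {W : Type u} [AddCommGroup W] {bs : List Wd} {f : Wd → W}
    (h : ∀ b ∈ bs, f b = 0) (v : List ℕ) : vsum v bs f = 0 := by
  induction bs generalizing v with
  | nil => exact vsum_nil' v f
  | cons b bs ih =>
    cases v with
    | nil => exact vsum_nil _ f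
    | cons a v =>
      rw [vsum_cons, h b List.mem_cons_self, ih fun b hb => h b (List.mem_cons_of_mem _ hb)]
      simp

theorem tab_lt (k T : ℕ) : ∀ b ∈ (tab k T).w, ∀ i, i + 1 ∈ b → i < T := by
  by_cases h : 8 ≤ k ∨ 9 ≤ T
  · rw [tab_w_big h]; simp
  · have h1 : ∀ k ∈ List.range 8, ∀ T ∈ List.range 9, wlt T (tab k T).w = true := by decide +kernel
    intro b hb i hi
    have h2 := wlt_sound (h1 k (by simp; omega) T (by simp; omega)) b hb (i + 1) hi
    omega

theorem LR_all (n : ℕ) : ∀ k T, 1 ≤ k → k + T = n → (k, T) ≠ (1, 0) → LR.{u} tab k T := by
  induction n using Nat.strong_induction_on with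
  | _ n ih =>
    intro k T hk hn hne
    by_cases hb : 8 ≤ k ∨ 9 ≤ T
    · exact LR_big hb
    · have hL : ∀ k' T', 1 ≤ k' → k' + T' < k + T → (k', T') ≠ (1, 0) → LR.{u} tab k' T' :=
        fun k' T' h1 h2 h3 => ih (k' + T') (by omega) k' T' h1 rfl h3
      have h10 : (tab 1 0).w = [[]] := rfl
      have hne' : ¬ (1 = k ∧ 0 = T) := fun h => hne (by rw [← h.1, ← h.2])
      have hk8 : k < 8 := by omega
      have hT9 : T < 9 := by omega
      interval_cases k
      · interval_cases T
        · exact absurd rfl hne
        · exact chk_sound hL h10 hne' (by norm_num) chk11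
        · exact chk_sound hL h10 hne' (by norm_num) chk12
        · exact chk_sound hL h10 hne' (by norm_num) chk13
        · exact chk_sound hL h10 hne' (by norm_num) chk14
        · exact chk_sound hL h10 hne' (by norm_num) chk15
        · exact chk_sound hL h10 hne' (by norm_num) chk16
        · exact chk_sound hL h10 hne' (by norm_num) chk17
        · exact chk_sound hL h10 hne' (by norm_num) chk18
      · interval_cases T
        · exact chk_sound hL h10 hne' (by norm_num) chk20
        · exact chk_sound hL h10 hne' (by norm_num) chk21
        · exact chk_sound hL h10 hne' (by norm_num) chk22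
        · exact chk_sound hL h10 hne' (by norm_num) chk23
        · exact chk_sound hL h10 hne' (by norm_num) chk24
        · exact chk_sound hL h10 hne' (by norm_num) chk25
        · exact chk_sound hL h10 hne' (by norm_num) chk26
        · exact chk_sound hL h10 hne' (by norm_num) chk27
        · exact chk_sound hL h10 hne' (by norm_num) chk28
      · interval_cases T
        · exact chk_sound hL h10 hne' (by norm_num) chk30
        · exact chk_sound hL h10 hne' (by norm_num) chk31
        · exact chk_sound hL h10 hne' (by norm_num) chk32
        · exact chk_sound hL h10 hne' (by norm_num) chk33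
        · exact chk_sound hL h10 hne' (by norm_num) chk34
        · exact chk_sound hL h10 hne' (by norm_num) chk35
        · exact chk_sound hL h10 hne' (by norm_num) chk36
        · exact chk_sound hL h10 hne' (by norm_num) chk37
        · exact chk_sound hL h10 hne' (by norm_num) chk38
      · interval_cases T
        · exact chk_sound hL h10 hne' (by norm_num) chk40
        · exact chk_sound hL h10 hne' (by norm_num) chk41
        · exact chk_sound hL h10 hne' (by norm_num) chk42
        · exact chk_sound hL h10 hne' (by norm_num) chk43
        · exact chk_sound hL h10 hne' (by norm_num) chk44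
        · exact chk_sound hL h10 hne' (by norm_num) chk45
        · exact chk_sound hL h10 hne' (by norm_num) chk46
        · exact chk_sound hL h10 hne' (by norm_num) chk47
        · exact chk_sound hL h10 hne' (by norm_num) chk48
      · interval_cases T
        · exact chk_sound hL h10 hne' (by norm_num) chk50
        · exact chk_sound hL h10 hne' (by norm_num) chk51
        · exact chk_sound hL h10 hne' (by norm_num) chk52
        · exact chk_sound hL h10 hne' (by norm_num) chk53
        · exact chk_sound hL h10 hne' (by norm_num) chk54
        · exact chk_sound hL h10 hne' (by norm_num) chk55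
        · exact chk_sound hL h10 hne' (by norm_num) chk56
        · exact chk_sound hL h10 hne' (by norm_num) chk57
        · exact chk_sound hL h10 hne' (by norm_num) chk58
      · interval_cases T
        · exact chk_sound hL h10 hne' (by norm_num) chk60
        · exact chk_sound hL h10 hne' (by norm_num) chk61
        · exact chk_sound hL h10 hne' (by norm_num) chk62
        · exact chk_sound hL h10 hne' (by norm_num) chk63
        · exact chk_sound hL h10 hne' (by norm_num) chk64
        · exact chk_sound hL h10 hne' (by norm_num) chk65
        · exact chk_sound hL h10 hne' (by norm_num) chk66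
        · exact chk_sound hL h10 hne' (by norm_num) chk67
        · exact chk_sound hL h10 hne' (by norm_num) chk68
      · interval_cases T
        · exact chk_sound hL h10 hne' (by norm_num) chk70
        · exact chk_sound hL h10 hne' (by norm_num) chk71
        · exact chk_sound hL h10 hne' (by norm_num) chk72
        · exact chk_sound hL h10 hne' (by norm_num) chk73
        · exact chk_sound hL h10 hne' (by norm_num) chk74
        · exact chk_sound hL h10 hne' (by norm_num) chk75
        · exact chk_sound hL h10 hne' (by norm_num) chk76
        · exact chk_sound hL h10 hne' (by norm_num) chk77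
        · exact chk_sound hL h10 hne' (by norm_num) chk78

theorem zero_of_basis {W : Type u} [AddCommGroup W] (w : Wd) :
    ∀ {ψ : Wd → W}, Valid ψ → (∀ f : ℕ → ℕ, ∀ b ∈ (tab (w.count 0 + 1) (w.length - w.count 0)).w,
      rn f ψ b = 0) → ψ w = 0 := by
  induction w using List.reverseRecOn with
  | nil =>
    intro ψ _ h
    have e : (tab 1 0).w = [[]] := rfl
    have h0 : ∀ b ∈ (tab 1 0).w, rn id ψ b = 0 := h id
    rw [e] at h0
    exact h0 [] (List.mem_singleton.2 rfl)
  | append_singleton w a ih =>
    intro ψ hψ h
    have hcl : w.count 0 ≤ w.length := List.count_le_length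
    show tr a ψ w = 0
    refine ih (hψ.tr a) ?_
    intro f b hb
    show ψ (b.map (relab f) ++ [a]) = 0
    cases a with
    | zero =>
      have e1 : (w ++ [0]).count 0 = w.count 0 + 1 := by simp
      have e2 : (w ++ [0]).length - (w.count 0 + 1) = w.length - w.count 0 := by
        simp
      rw [e1, e2] at h
      have hr := (LR_all.{u} _ (w.count 0 + 1 + 1) (w.length - w.count 0) (by omega) rfl (by
        intro e; rw [Prod.mk.injEq] at e; omega)).rowX (hψ.rn f)
      rw [show w.count 0 + 1 + 1 - 1 = w.count 0 + 1 from rfl] at hr
      obtain ⟨r, hr1⟩ := exists_of_forall₂ hr hb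
      have : (rn f ψ) (b ++ [0]) = ψ (b.map (relab f) ++ [0]) := by simp [rn, relab]
      rw [← this, hr1]
      exact vsum_eq_zero (h f) r
    | succ j =>
      have e1 : (w ++ [j + 1]).count 0 = w.count 0 := by simp
      have e2 : (w ++ [j + 1]).length - w.count 0 = w.length - w.count 0 + 1 := by
        rw [List.length_append, List.length_singleton]; omega
      rw [e1, e2] at h
      set T := w.length - w.count 0 with hT
      have hr := (LR_all.{u} _ (w.count 0 + 1) (T + 1) (by omega) rfl (by
        intro e; rw [Prod.mk.injEq] at e; omega)).rowD
          (hψ.rn fun i => if i = T then j else f i) (Nat.lt_succ_self T)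
      rw [show T + 1 - 1 = T from rfl] at hr
      obtain ⟨r, hr1⟩ := exists_of_forall₂ hr hb
      have hlt := tab_lt (w.count 0 + 1) T b hb
      have : rn (fun i => if i = T then j else f i) ψ (b.map (relab (skip T)) ++ [T + 1]) =
          ψ (b.map (relab f) ++ [j + 1]) := by
        simp only [rn, List.map_append, List.map_map, List.map_cons, List.map_nil]
        congr 2
        · apply List.map_congr_left
          intro i hi
          cases i with
          | zero => rfl
          | succ i =>
            have h1 : i < T := hlt _ hi
            show (if skip T i = T then j else f (skip T i)) + 1 = f i + 1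
            have h2 : skip T i = i := by
              unfold skip
              rw [blt_iff.2 h1]; rfl
            rw [h2, if_neg (by omega)]
        · show [(if T = T then j else f T) + 1] = _
          rw [if_pos rfl]
      rw [← this, hr1]
      exact vsum_eq_zero (h _) r

/-- **The finite part.** Every word with six letters `X` is killed. -/
theorem kill {W : Type u} [AddCommGroup W] {ψ : Wd → W} (hψ : Valid ψ) (w : Wd)
    (hw : 6 ≤ w.count 0) : ψ w = 0 := by
  induction w using List.reverseRecOn generalizing ψ with
  | nil => simp at hw
  | append_singleton w a ih =>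
    by_cases h : 6 ≤ w.count 0
    · exact ih (hψ.tr a) h
    · have ha : (w ++ [a]).count 0 = 6 := by
        have : (w ++ [a]).count 0 ≤ w.count 0 + 1 := by
          rw [List.count_append]
          have : [a].count 0 ≤ 1 := by simpa using List.count_le_length (a := 0) (l := [a])
          omega
        omega
      refine zero_of_basis _ hψ ?_
      intro f b hb
      rw [ha, tab_w_edge7] at hb
      simp at hb

end T2

end Pool.Agent.Work.MP_d7201b_al
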