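import Pool.Agent.Work.MP_d7201b_al_T2.Interface
import Pool.Agent.Work.MP_d7201b_al_T2.Kill

/-!
# The frame of T2: from the finite certificate to the action of a group
-/

set_option autoImplicit false

namespace Pool.Agent.Work.MP_d7201b_al

namespace T2

universe u v w

section Frame

variable {Γ R W : Type*} [Group Γ] [Ring R] [AddCommGroup W]
variable (u : Γ →* R) (X : R) (At : Γ → ℕ → Prop)

/-! ## Words and the filtration by weight -/

theorem Wrd.mul {k d n k' d' n' : ℕ} {r r' : R} (h : Wrd u X At k d n r)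
    (h' : Wrd u X At k' d' n' r') : Wrd u X At (k + k') (d + d') (n + n') (r * r') := by
  induction h' with
  | one => simpa using h
  | x _ ih => rw [← mul_assoc, ← add_assoc]; exact ih.x
  | atm _ h1 h2 ih => rw [← mul_assoc, ← add_assoc, ← add_assoc]; exact ih.atm h1 h2

/-- The additive subgroup generated by the words of weight at least `d`. -/
def 𝒲 (d : ℕ) : AddSubgroup R :=
  AddSubgroup.closure {r | ∃ k d' n, d ≤ d' ∧ Wrd u X At k d' n r}

variable {u X At}

theorem Wrd.mem {k d n : ℕ} {r : R} (h : Wrd u X At k d n r) : r ∈ 𝒲 u X At d :=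
  AddSubgroup.subset_closure ⟨k, d, n, le_rfl, h⟩

theorem 𝒲_anti {d d' : ℕ} (h : d ≤ d') : 𝒲 u X At d' ≤ 𝒲 u X At d :=
  AddSubgroup.closure_mono fun _ ⟨k, e, n, h1, h2⟩ => ⟨k, e, n, h.trans h1, h2⟩

theorem 𝒲_mul {d d' : ℕ} {r r' : R} (h : r ∈ 𝒲 u X At d) (h' : r' ∈ 𝒲 u X At d') :
    r * r' ∈ 𝒲 u X At (d + d') := by
  induction h using AddSubgroup.closure_induction with
  | mem r hr =>
    obtain ⟨k, e, n, h1, h2⟩ := hr
    induction h' using AddSubgroup.closure_induction with
    | mem r' hr' =>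
      obtain ⟨k', e', n', h1', h2'⟩ := hr'
      exact AddSubgroup.subset_closure ⟨_, _, _, add_le_add h1 h1', h2.mul u X At h2'⟩
    | zero => rw [mul_zero]; exact zero_mem _
    | add a b _ _ ha hb => rw [mul_add]; exact add_mem ha hb
    | neg a _ ha => rw [mul_neg]; exact neg_mem ha
  | zero => rw [zero_mul]; exact zero_mem _
  | add a b _ _ ha hb => rw [add_mul]; exact add_mem ha hb
  | neg a _ ha => rw [neg_mul]; exact neg_mem ha

theorem 𝒲_one : (1 : R) ∈ 𝒲 u X At 0 := Wrd.one.mem

theorem 𝒲_X : X ∈ 𝒲 u X At 0 := by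
  have := (Wrd.one (u := u) (X := X) (At := At)).x
  rw [one_mul] at this
  exact this.mem

theorem 𝒲_sub {γ : Γ} {w : ℕ} (h : At γ w) (hw : 1 ≤ w) : u γ - 1 ∈ 𝒲 u X At w := by
  have := (Wrd.one (u := u) (X := X) (At := At)).atm h hw
  rw [one_mul, zero_add] at this
  exact this.mem

theorem 𝒲_mul_left {d : ℕ} {r r' : R} (h : r ∈ 𝒲 u X At 0) (h' : r' ∈ 𝒲 u X At d) :
    r * r' ∈ 𝒲 u X At d := by
  have := 𝒲_mul h h'
  rwa [zero_add] at this

theorem 𝒲_mul_right {d : ℕ} {r r' : R} (h : r ∈ 𝒲 u X At d) (h' : r' ∈ 𝒲 u X At 0) :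
    r * r' ∈ 𝒲 u X At d := by
  have := 𝒲_mul h h'
  rwa [add_zero] at this

theorem 𝒲_u (h1 : ∀ γ, At γ 1) (γ : Γ) : u γ ∈ 𝒲 u X At 0 := by
  have h2 : u γ - 1 ∈ 𝒲 u X At 0 := 𝒲_anti (Nat.zero_le 1) (𝒲_sub (h1 γ) le_rfl)
  have h3 : (1 : R) ∈ 𝒲 u X At 0 := 𝒲_one
  have h4 : u γ - 1 + 1 ∈ 𝒲 u X At 0 := add_mem h2 h3
  rwa [sub_add_cancel] at h4

/-! ## Functions of a group element -/

/-- `f` and its iterated differences have the expected weights. -/
def 𝓕 (u : Γ →* R) (X : R) (At : Γ → ℕ → Prop) : ℕ → ℕ → (Γ → R) → Prop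
  | 0, d, f => ∀ g, f g ∈ 𝒲 u X At d
  | m + 1, d, f => (∀ g, f g ∈ 𝒲 u X At d) ∧
      ∀ γ w, At γ w → 1 ≤ w → 𝓕 u X At m (d + w) (fun g => f (g * γ) - f g)

theorem 𝓕.val {m d : ℕ} {f : Γ → R} (h : 𝓕 u X At m d f) (g : Γ) : f g ∈ 𝒲 u X At d := by
  cases m with
  | zero => exact h g
  | succ m => exact h.1 g

theorem 𝓕.pred {m d : ℕ} {f : Γ → R} (h : 𝓕 u X At (m + 1) d f) : 𝓕 u X At m d f := by
  induction m generalizing d f with
  | zero => exact h.1
  | succ m ih => exact ⟨h.1, fun γ w h1 h2 => ih (h.2 γ w h1 h2)⟩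

theorem 𝓕.anti {m d d' : ℕ} {f : Γ → R} (h : 𝓕 u X At m d' f) (hd : d ≤ d') :
    𝓕 u X At m d f := by
  induction m generalizing d d' f with
  | zero => exact fun g => 𝒲_anti hd (h g)
  | succ m ih => exact ⟨fun g => 𝒲_anti hd (h.1 g), fun γ w h1 h2 => ih (h.2 γ w h1 h2) (by omega)⟩

theorem 𝓕.add {m d : ℕ} {f f' : Γ → R} (h : 𝓕 u X At m d f) (h' : 𝓕 u X At m d f') :
    𝓕 u X At m d (fun g => f g + f' g) := by
  induction m generalizing d f f' with
  | zero => exact fun g => add_mem (h g) (h' g)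
  | succ m ih =>
    refine ⟨fun g => add_mem (h.1 g) (h'.1 g), fun γ w h1 h2 => ?_⟩
    have := ih (h.2 γ w h1 h2) (h'.2 γ w h1 h2)
    have e : (fun g => f (g * γ) + f' (g * γ) - (f g + f' g)) =
        fun g => (f (g * γ) - f g) + (f' (g * γ) - f' g) := by
      funext g; abel
    rw [e]; exact this

theorem 𝓕.neg {m d : ℕ} {f : Γ → R} (h : 𝓕 u X At m d f) :
    𝓕 u X At m d (fun g => - f g) := by
  induction m generalizing d f with
  | zero => exact fun g => neg_mem (h g)
  | succ m ih =>
    refine ⟨fun g => neg_mem (h.1 g), fun γ w h1 h2 => ?_⟩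
    have := ih (h.2 γ w h1 h2)
    have e : (fun g => - f (g * γ) - - f g) = fun g => - (f (g * γ) - f g) := by
      funext g; abel
    rw [e]; exact this

theorem 𝓕.sub {m d : ℕ} {f f' : Γ → R} (h : 𝓕 u X At m d f) (h' : 𝓕 u X At m d f') :
    𝓕 u X At m d (fun g => f g - f' g) := by
  simp only [sub_eq_add_neg]
  exact h.add h'.neg

theorem 𝓕.const {m d : ℕ} {r : R} (h : r ∈ 𝒲 u X At d) : 𝓕 u X At m d (fun _ => r) := by
  induction m generalizing d r with
  | zero => exact fun _ => h
  | succ m ih =>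
    refine ⟨fun _ => h, fun γ w _ _ => ?_⟩
    simp only [sub_self]
    exact ih (zero_mem _)

theorem 𝓕.mul {m d d' : ℕ} {f f' : Γ → R} (h : 𝓕 u X At m d f) (h' : 𝓕 u X At m d' f') :
    𝓕 u X At m (d + d') (fun g => f g * f' g) := by
  induction m generalizing d d' f f' with
  | zero => exact fun g => 𝒲_mul (h g) (h' g)
  | succ m ih =>
    refine ⟨fun g => 𝒲_mul (h.1 g) (h'.1 g), fun γ w h1 h2 => ?_⟩
    have a1 := ih (h.2 γ w h1 h2) h'.pred
    have a2 := ih h.pred (h'.2 γ w h1 h2)
    have a3 := ih (h.2 γ w h1 h2) (h'.2 γ w h1 h2)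
    have e : (fun g => f (g * γ) * f' (g * γ) - f g * f' g) =
        fun g => ((f (g * γ) - f g) * f' g + f g * (f' (g * γ) - f' g)) +
          (f (g * γ) - f g) * (f' (g * γ) - f' g) := by
      funext g; noncomm_ring
    rw [e]
    refine ((a1.anti (by omega)).add (a2.anti (by omega))).add (a3.anti (by omega))

theorem 𝓕_u (h1 : ∀ γ, At γ 1) (m : ℕ) : 𝓕 u X At m 0 (fun g => u g) := by
  have key : ∀ (m d : ℕ) (r : R), r ∈ 𝒲 u X At d → 𝓕 u X At m d (fun g => u g * r) := by
    intro m
    induction m with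
    | zero => exact fun d r hr g => 𝒲_mul_left (𝒲_u h1 g) hr
    | succ m ih =>
      intro d r hr
      refine ⟨fun g => 𝒲_mul_left (𝒲_u h1 g) hr, fun γ w h2 h3 => ?_⟩
      have e : (fun g => u (g * γ) * r - u g * r) = fun g => u g * ((u γ - 1) * r) := by
        funext g; rw [map_mul]; noncomm_ring
      rw [e]
      refine ih _ _ ?_
      have := 𝒲_mul (𝒲_sub (u := u) (X := X) h2 h3) hr
      rwa [add_comm] at this
  have := key m 0 1 𝒲_one
  simpa using this

/-! ## Slots -/

theorem slotv_sub (g : R) (s s' : R × R) : slotv g (s - s') = slotv g s - slotv g s' := by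
  simp only [slotv, Prod.fst_sub, Prod.snd_sub]; noncomm_ring

theorem put_sub (e : R) (s s' : R × R) : put e (s - s') = put e s - put e s' := by
  simp only [put, Prod.fst_sub, sub_mul, Prod.mk_sub_mk, sub_zero]

theorem put_sub_left (a b : R) (s : R × R) : put (a - b) s = put a s - put b s := by
  simp only [put, mul_sub, Prod.mk_sub_mk, sub_zero]

theorem put_put (a b : R) (s : R × R) :
    put (a * b - b * a) s = put b (put a s) - put a (put b s) := by
  simp only [put, mul_sub, Prod.mk_sub_mk, sub_zero, mul_assoc]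

theorem SS_sub1 (g : R) (es : List R) (s s' b c d : R × R) :
    SS g es (s - s') b c d = SS g es s b c d - SS g es s' b c d := by
  induction es generalizing s s' b c d with
  | nil => simp only [SS, slotv_sub]; noncomm_ring
  | cons e es ih => simp only [SS, put_sub, ih]; abel

theorem SS_sub2 (g : R) (es : List R) (s s' a c d : R × R) :
    SS g es a (s - s') c d = SS g es a s c d - SS g es a s' c d := by
  induction es generalizing s s' a c d with
  | nil => simp only [SS, slotv_sub]; noncomm_ring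
  | cons e es ih => simp only [SS, put_sub, ih]; abel

theorem SS_sub3 (g : R) (es : List R) (s s' a b d : R × R) :
    SS g es a b (s - s') d = SS g es a b s d - SS g es a b s' d := by
  induction es generalizing s s' a b d with
  | nil => simp only [SS, slotv_sub]; noncomm_ring
  | cons e es ih => simp only [SS, put_sub, ih]; abel

theorem SS_sub4 (g : R) (es : List R) (s s' a b c : R × R) :
    SS g es a b c (s - s') = SS g es a b c s - SS g es a b c s' := by
  induction es generalizing s s' a b c with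
  | nil => simp only [SS, slotv_sub]; noncomm_ring
  | cons e es ih => simp only [SS, put_sub, ih]; abel

theorem SS_sub (g : R) (P Q : List R) (x y : R) (a b c d : R × R) :
    SS g (P ++ (x - y) :: Q) a b c d = SS g (P ++ x :: Q) a b c d - SS g (P ++ y :: Q) a b c d := by
  induction P generalizing a b c d with
  | nil =>
    simp only [List.nil_append, SS, put_sub_left, SS_sub1, SS_sub2, SS_sub3, SS_sub4]; abel
  | cons e es ih => simp only [List.cons_append, SS, ih]; abel

theorem SS_swap (g : R) (P Q : List R) (x y : R) (a b c d : R × R) :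
    SS g (P ++ (x * y - y * x) :: Q) a b c d =
      SS g (P ++ x :: y :: Q) a b c d - SS g (P ++ y :: x :: Q) a b c d := by
  induction P generalizing a b c d with
  | nil =>
    simp only [List.nil_append, SS, put_put, SS_sub1, SS_sub2, SS_sub3, SS_sub4]; abel
  | cons e es ih => simp only [List.cons_append, SS, ih]; abel

/-! ## Lie operators -/

/-- The operators generated by the conjugates of `X`. -/
inductive IsLie (u : Γ →* R) (X : R) : R → Prop
  | gen (h : Γ) : IsLie u X (u h⁻¹ * X * u h)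
  | sub {T T' : R} : IsLie u X T → IsLie u X T' → IsLie u X (T - T')
  | br {T : R} (h : Γ) : IsLie u X T →
      IsLie u X (T * (u h⁻¹ * X * u h) - (u h⁻¹ * X * u h) * T)

theorem IsLie.conj {T : R} (h : IsLie u X T) (g : Γ) : IsLie u X (u g⁻¹ * T * u g) := by
  have e : ∀ a : Γ, u g⁻¹ * (u a⁻¹ * X * u a) * u g = u (a * g)⁻¹ * X * u (a * g) := by
    intro a
    rw [mul_inv_rev, map_mul, map_mul]; noncomm_ring
  have hg : u g * u g⁻¹ = 1 := by rw [← map_mul, mul_inv_cancel, map_one]
  induction h with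
  | gen a => rw [e]; exact IsLie.gen _
  | sub _ _ h1 h2 =>
    have := h1.sub h2
    rw [mul_sub, sub_mul]; exact this
  | @br T a _ ih =>
    have := ih.br (a * g)
    rw [← e] at this
    have e2 : ∀ p q : R, u g⁻¹ * (p * q) * u g = (u g⁻¹ * p * u g) * (u g⁻¹ * q * u g) := by
      intro p q
      calc u g⁻¹ * (p * q) * u g = u g⁻¹ * p * 1 * q * u g := by noncomm_ring
        _ = u g⁻¹ * p * (u g * u g⁻¹) * q * u g := by rw [hg]
        _ = _ := by noncomm_ring
    rw [mul_sub, sub_mul, e2 T (u a⁻¹ * X * u a), e2 (u a⁻¹ * X * u a) T]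
    exact this

theorem IsLie.self : IsLie u X X := by
  have := IsLie.gen (u := u) (X := X) 1
  simpa using this

theorem IsLie.brX {T : R} (h : IsLie u X T) : IsLie u X (T * X - X * T) := by
  have := h.br 1
  simpa using this

/-- Expansion of Lie operators. -/
theorem lie_exp {W : Type*} [AddCommGroup W] (Φ : List R → W)
    (h1 : ∀ P Q x y, Φ (P ++ (x - y) :: Q) = Φ (P ++ x :: Q) - Φ (P ++ y :: Q))
    (h2 : ∀ P Q x y, Φ (P ++ (x * y - y * x) :: Q) = Φ (P ++ x :: y :: Q) - Φ (P ++ y :: x :: Q))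
    (h3 : ∀ hs : List Γ, Φ (hs.map fun h => u h⁻¹ * X * u h) = 0)
    (es : List R) (he : ∀ e ∈ es, IsLie u X e) : Φ es = 0 := by
  have key : ∀ T : R, IsLie u X T → ∀ es : List R,
      (∀ P : List Γ, Φ (P.map (fun h => u h⁻¹ * X * u h) ++ es) = 0) →
      ∀ P : List Γ, Φ (P.map (fun h => u h⁻¹ * X * u h) ++ T :: es) = 0 := by
    intro T hT
    induction hT with
    | gen h =>
      intro es hes P
      have := hes (P ++ [h])
      simpa using this
    | sub _ _ ih1 ih2 =>
      intro es hes P
      rw [h1, ih1 es hes P, ih2 es hes P, sub_zero]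
    | @br T h _ ih =>
      intro es hes P
      rw [h2]
      have a1 := ih ((u h⁻¹ * X * u h) :: es) (by
        intro P
        have := hes (P ++ [h])
        simpa using this) P
      have a2 := ih es hes (P ++ [h])
      simp only [List.map_append, List.map_cons, List.map_nil, List.append_assoc,
        List.cons_append, List.nil_append] at a2
      rw [a1, a2, sub_zero]
  have key2 : ∀ es : List R, (∀ e ∈ es, IsLie u X e) →
      ∀ P : List Γ, Φ (P.map (fun h => u h⁻¹ * X * u h) ++ es) = 0 := by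
    intro es
    induction es with
    | nil => intro _ P; rw [List.append_nil]; exact h3 P
    | cons e es ih =>
      intro he
      exact key e (he e List.mem_cons_self) es (ih fun a ha => he a (List.mem_cons_of_mem _ ha))
  exact key2 es he []

/-! ## Differences of the slot sums -/

/-- Insert `e` in front of a slot. -/
def insF (e : R) (s : R × R) : R × R := (e * s.1, 0)

theorem insF_put (e e' : R) (s : R × R) : insF e (put e' s) = put e' (insF e s) := by
  simp only [insF, put, mul_assoc]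

theorem insF_one (e : R) : insF e (1, 1) = put e (1, 1) := by simp [insF, put]

/-- The weights of a slot. -/
def okS (u : Γ →* R) (X : R) (At : Γ → ℕ → Prop) (d : ℕ) (s : R × R) : Prop :=
  s.1 ∈ 𝒲 u X At d ∧ s.2 ∈ 𝒲 u X At d

theorem okS.put {d e : ℕ} {s : R × R} {r : R} (h : okS u X At d s) (hr : r ∈ 𝒲 u X At e) :
    okS u X At (d + e) (put r s) := ⟨𝒲_mul h.1 hr, zero_mem _⟩

theorem okS.insF {d e : ℕ} {s : R × R} {r : R} (h : okS u X At d s) (hr : r ∈ 𝒲 u X At e) :
    okS u X At (d + e) (insF r s) := by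
  refine ⟨?_, zero_mem _⟩
  have := 𝒲_mul hr h.1
  rwa [add_comm] at this

theorem okS_one : okS u X At 0 (1, 1) := ⟨𝒲_one, 𝒲_one⟩

theorem 𝓕_slot (h1 : ∀ γ, At γ 1) {d : ℕ} {s : R × R} (h : okS u X At d s) (m : ℕ) :
    𝓕 u X At m d (fun g => slotv (u g) s) := by
  have := ((𝓕_u h1 m).mul (𝓕.const h.1)).anti (d := d) (by omega)
  exact this.sub (𝓕.const h.2)

theorem 𝓕_mul4 {m d1 d2 d3 d4 d : ℕ} {f1 f2 f3 f4 : Γ → R} (h1 : 𝓕 u X At m d1 f1)
    (h2 : 𝓕 u X At m d2 f2) (h3 : 𝓕 u X At m d3 f3) (h4 : 𝓕 u X At m d4 f4)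
    (hd : d ≤ d1 + d2 + d3 + d4) : 𝓕 u X At m d (fun g => f1 g * f2 g * f3 g * f4 g) :=
  (((h1.mul h2).mul h3).mul h4).anti hd

theorem SS_diff (h1 : ∀ γ, At γ 1) {γ : Γ} {w : ℕ} (hγ : At γ w) (hw : 1 ≤ w) (m : ℕ) :
    ∀ (es : List R) (ds : List ℕ) (_ : List.Forall₂ (fun e d => e ∈ 𝒲 u X At d) es ds)
      (da db dc dd : ℕ) (a b c d : R × R) (_ : okS u X At da a) (_ : okS u X At db b)
      (_ : okS u X At dc c) (_ : okS u X At dd d),
    𝓕 u X At m (da + db + dc + dd + ds.sum + w + 1) (fun g =>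
      SS (u (g * γ)) es a b c d - SS (u g) es a b c d -
      (SS (u g) es (insF (u γ - 1) a) b c d + SS (u g) es a (insF (u γ - 1) b) c d +
        SS (u g) es a b (insF (u γ - 1) c) d + SS (u g) es a b c (insF (u γ - 1) d))) := by
  intro es
  induction es with
  | nil =>
    intro ds hds da db dc dd a b c d ha hb hc hd
    cases hds
    have hE : u γ - 1 ∈ 𝒲 u X At w := 𝒲_sub hγ hw
    have A1 := 𝓕_slot h1 ha m
    have A2 := 𝓕_slot h1 hb m
    have A3 := 𝓕_slot h1 hc m
    have A4 := 𝓕_slot h1 hd m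
    have B1 := 𝓕_slot h1 (ha.insF hE) m
    have B2 := 𝓕_slot h1 (hb.insF hE) m
    have B3 := 𝓕_slot h1 (hc.insF hE) m
    have B4 := 𝓕_slot h1 (hd.insF hE) m
    have e : ∀ (g : Γ) (s : R × R), slotv (u (g * γ)) s =
        slotv (u g) s + slotv (u g) (insF (u γ - 1) s) := by
      intro g s
      simp only [slotv, insF, map_mul]; noncomm_ring
    simp only [SS, e]
    have t1 := 𝓕_mul4 (d := da + db + dc + dd + w + 1) B1 B2 A3 A4 (by omega)
    have t2 := 𝓕_mul4 (d := da + db + dc + dd + w + 1) B1 A2 B3 A4 (by omega)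
    have t3 := 𝓕_mul4 (d := da + db + dc + dd + w + 1) B1 A2 A3 B4 (by omega)
    have t4 := 𝓕_mul4 (d := da + db + dc + dd + w + 1) A1 B2 B3 A4 (by omega)
    have t5 := 𝓕_mul4 (d := da + db + dc + dd + w + 1) A1 B2 A3 B4 (by omega)
    have t6 := 𝓕_mul4 (d := da + db + dc + dd + w + 1) A1 A2 B3 B4 (by omega)
    have t7 := 𝓕_mul4 (d := da + db + dc + dd + w + 1) B1 B2 B3 A4 (by omega)
    have t8 := 𝓕_mul4 (d := da + db + dc + dd + w + 1) B1 B2 A3 B4 (by omega)
    have t9 := 𝓕_mul4 (d := da + db + dc + dd + w + 1) B1 A2 B3 B4 (by omega)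
    have t10 := 𝓕_mul4 (d := da + db + dc + dd + w + 1) A1 B2 B3 B4 (by omega)
    have t11 := 𝓕_mul4 (d := da + db + dc + dd + w + 1) B1 B2 B3 B4 (by omega)
    have t := (((((((((t1.add t2).add t3).add t4).add t5).add t6).add t7).add t8).add t9).add
      t10).add t11
    refine (?_ : 𝓕 u X At m (da + db + dc + dd + w + 1) _).anti (by simp)
    convert t using 2
    noncomm_ring
  | cons e es ih =>
    intro ds hds da db dc dd a b c d ha hb hc hd
    cases hds with
    | @cons _ d0 _ ds he hds =>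
      have i1 := ih ds hds (da + d0) db dc dd (put e a) b c d (ha.put he) hb hc hd
      have i2 := ih ds hds da (db + d0) dc dd a (put e b) c d ha (hb.put he) hc hd
      have i3 := ih ds hds da db (dc + d0) dd a b (put e c) d ha hb (hc.put he) hd
      have i4 := ih ds hds da db dc (dd + d0) a b c (put e d) ha hb hc (hd.put he)
      have i := (((i1.anti (d := da + db + dc + dd + (d0 :: ds).sum + w + 1) (by
        simp only [List.sum_cons]; omega)).add (i2.anti (by
        simp only [List.sum_cons]; omega))).add (i3.anti (by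
        simp only [List.sum_cons]; omega))).add (i4.anti (by
        simp only [List.sum_cons]; omega))
      convert i using 2
      simp only [SS, insF_put]
      abel

/-- Iterated differences. -/
def DD : List Γ → (Γ → R) → (Γ → R)
  | [], f => f
  | γ :: γs, f => fun g => DD γs f (g * γ) - DD γs f g

theorem DD_zero {W : Type*} [AddCommGroup W] (φ : R →+ W) (s : R) (f : Γ → R)
    (hf : ∀ g, φ (f g * s) = 0) : ∀ (γs : List Γ) (g : Γ), φ (DD γs f g * s) = 0
  | [], g => hf g
  | γ :: γs, g => by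
    rw [DD, sub_mul, map_sub, DD_zero φ s f hf γs, DD_zero φ s f hf γs, sub_zero]

theorem DD_SS (h1 : ∀ γ, At γ 1) (Ts : List R) (dT : List ℕ)
    (hT : List.Forall₂ (fun e d => e ∈ 𝒲 u X At d) Ts dT) :
    ∀ (γs : List Γ) (ws : List ℕ) (_ : List.Forall₂ (fun γ w => At γ w ∧ 1 ≤ w) γs ws) (m : ℕ),
    𝓕 u X At m (ws.sum + dT.sum + 1) (fun g =>
      DD γs (fun g => SS (u g) Ts (1, 1) (1, 1) (1, 1) (1, 1)) g -
        SS (u g) (γs.map (fun γ => u γ - 1) ++ Ts) (1, 1) (1, 1) (1, 1) (1, 1)) := by
  intro γs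
  induction γs with
  | nil =>
    intro ws _ m
    simp only [DD, List.map_nil, List.nil_append, sub_self]
    exact 𝓕.const (zero_mem _)
  | cons γ γs ih =>
    intro ws hws m
    cases hws with
    | @cons _ w _ ws hw hws =>
      have i1 := (ih ws hws (m + 1)).2 γ w hw.1 hw.2
      have hes : List.Forall₂ (fun e d => e ∈ 𝒲 u X At d) (γs.map (fun γ => u γ - 1) ++ Ts)
          (ws ++ dT) := by
        refine List.rel_append ?_ hT
        rw [List.forall₂_map_left_iff]
        exact hws.imp fun γ w h => 𝒲_sub h.1 h.2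
      have i2 := SS_diff (u := u) (X := X) h1 hw.1 hw.2 m _ _ hes 0 0 0 0 _ _ _ _ okS_one okS_one
        okS_one okS_one
      have i := (i1.anti (d := (w :: ws).sum + dT.sum + 1) (by
        simp only [List.sum_cons]; omega)).add (i2.anti (d := (w :: ws).sum + dT.sum + 1) (by
        simp only [List.sum_cons, List.sum_append]; omega))
      convert i using 2
      simp only [DD, List.map_cons, List.cons_append, SS, insF_one]
      abel

/-! ## The symmetric sum -/

/-- The symmetric sum of the products. -/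
def symR (l : List R) : R := ((List.permutations' l).map List.prod).sum

theorem symR_perm {l l' : List R} (h : l.Perm l') : symR l = symR l' :=
  ((h.permutations').map List.prod).sum_eq

theorem symR_four (a b c d : R) : symR [a, b, c, d] =
    SS 1 [a, b, c, d] (1, 1) (1, 1) (1, 1) (1, 1) := by
  simp only [symR, List.permutations', List.permutations'Aux, List.flatMap_cons, List.flatMap_nil,
    List.map_cons, List.map_nil, List.append_nil, List.cons_append, List.nil_append,
    List.prod_cons, List.prod_nil, List.sum_cons, List.sum_nil, SS, put, slotv, one_mul, mul_one,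
    sub_self, sub_zero, mul_zero, zero_mul, add_zero, zero_add]
  noncomm_ring

/-! ## Congruences -/

/-- `r` and `r'` have weight `d` and are congruent in weight `d`. -/
def Cg (u : Γ →* R) (X : R) (At : Γ → ℕ → Prop) (d : ℕ) (r r' : R) : Prop :=
  r ∈ 𝒲 u X At d ∧ r' ∈ 𝒲 u X At d ∧ r - r' ∈ 𝒲 u X At (d + 1)

theorem Cg.rfl' {d : ℕ} {r : R} (h : r ∈ 𝒲 u X At d) : Cg u X At d r r :=
  ⟨h, h, by rw [sub_self]; exact zero_mem _⟩

theorem Cg.mul {d e : ℕ} {r r' s s' : R} (h : Cg u X At d r r') (h' : Cg u X At e s s') :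
    Cg u X At (d + e) (r * s) (r' * s') := by
  refine ⟨𝒲_mul h.1 h'.1, 𝒲_mul h.2.1 h'.2.1, ?_⟩
  have e1 : r * s - r' * s' = (r - r') * s + r' * (s - s') := by noncomm_ring
  rw [e1]
  refine add_mem ?_ ?_
  · exact 𝒲_anti (by omega) (𝒲_mul h.2.2 h'.1)
  · exact 𝒲_anti (by omega) (𝒲_mul h.2.1 h'.2.2)

theorem Cg.add {d : ℕ} {r r' s s' : R} (h : Cg u X At d r r') (h' : Cg u X At d s s') :
    Cg u X At d (r + s) (r' + s') := by
  refine ⟨add_mem h.1 h'.1, add_mem h.2.1 h'.2.1, ?_⟩
  rw [add_sub_add_comm]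
  exact add_mem h.2.2 h'.2.2

theorem Cg.sub {d : ℕ} {r r' s s' : R} (h : Cg u X At d r r') (h' : Cg u X At d s s') :
    Cg u X At d (r - s) (r' - s') := by
  refine ⟨sub_mem h.1 h'.1, sub_mem h.2.1 h'.2.1, ?_⟩
  rw [sub_sub_sub_comm]
  exact sub_mem h.2.2 h'.2.2

/-- Congruence of slots. -/
def CgS (u : Γ →* R) (X : R) (At : Γ → ℕ → Prop) (d : ℕ) (s s' : R × R) : Prop :=
  Cg u X At d s.1 s'.1 ∧ Cg u X At d s.2 s'.2

theorem CgS.put {d e : ℕ} {s s' : R × R} {r r' : R} (h : CgS u X At d s s')
    (hr : Cg u X At e r r') : CgS u X At (d + e) (put r s) (put r' s') :=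
  ⟨h.1.mul hr, Cg.rfl' (zero_mem _)⟩

theorem CgS.one : CgS u X At 0 ((1, 1) : R × R) (1, 1) := ⟨Cg.rfl' 𝒲_one, Cg.rfl' 𝒲_one⟩

theorem CgS.slotv {d : ℕ} {s s' : R × R} (h : CgS u X At d s s') :
    Cg u X At d (slotv 1 s) (slotv 1 s') := by
  simp only [T2.slotv, one_mul]
  exact h.1.sub h.2

theorem SS_cg : ∀ (L : List (R × R × ℕ)) (_ : ∀ t ∈ L, Cg u X At t.2.2 t.1 t.2.1)
    (da db dc dd : ℕ) (a a' b b' c c' d d' : R × R) (_ : CgS u X At da a a')
    (_ : CgS u X At db b b') (_ : CgS u X At dc c c') (_ : CgS u X At dd d d'),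
    Cg u X At (da + db + dc + dd + (L.map fun t => t.2.2).sum)
      (SS 1 (L.map fun t => t.1) a b c d) (SS 1 (L.map fun t => t.2.1) a' b' c' d') := by
  intro L
  induction L with
  | nil =>
    intro _ da db dc dd a a' b b' c c' d d' ha hb hc hd
    exact ((ha.slotv.mul hb.slotv).mul hc.slotv).mul hd.slotv
  | cons t L ih =>
    intro hL da db dc dd a a' b b' c c' d d' ha hb hc hd
    have ht := hL t List.mem_cons_self
    have hL' : ∀ t ∈ L, Cg u X At t.2.2 t.1 t.2.1 := fun t h => hL t (List.mem_cons_of_mem _ h)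
    have i1 := ih hL' _ _ _ _ _ _ _ _ _ _ _ _ (ha.put ht) hb hc hd
    have i2 := ih hL' _ _ _ _ _ _ _ _ _ _ _ _ ha (hb.put ht) hc hd
    have i3 := ih hL' _ _ _ _ _ _ _ _ _ _ _ _ ha hb (hc.put ht) hd
    have i4 := ih hL' _ _ _ _ _ _ _ _ _ _ _ _ ha hb hc (hd.put ht)
    simp only [List.map_cons, List.sum_cons, SS]
    rw [show da + t.2.2 + db + dc + dd + (L.map fun t => t.2.2).sum =
      da + db + dc + dd + (t.2.2 + (L.map fun t => t.2.2).sum) by omega] at i1
    rw [show da + (db + t.2.2) + dc + dd + (L.map fun t => t.2.2).sum =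
      da + db + dc + dd + (t.2.2 + (L.map fun t => t.2.2).sum) by omega] at i2
    rw [show da + db + (dc + t.2.2) + dd + (L.map fun t => t.2.2).sum =
      da + db + dc + dd + (t.2.2 + (L.map fun t => t.2.2).sum) by omega] at i3
    rw [show da + db + dc + (dd + t.2.2) + (L.map fun t => t.2.2).sum =
      da + db + dc + dd + (t.2.2 + (L.map fun t => t.2.2).sum) by omega] at i4
    exact ((i1.add i2).add i3).add i4

/-! ## Letters -/

/-- The operator of a letter. -/
def evl (u : Γ →* R) (X : R) (γ : ℕ → Γ) : ℕ → R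
  | 0 => X
  | j + 1 => u (γ j) - 1

/-- The operator of a word. -/
def evw (u : Γ →* R) (X : R) (γ : ℕ → Γ) (w : Wd) : R := (w.map (evl u X γ)).prod

/-- The weight of a letter. -/
def wtl (f : ℕ → ℕ) : ℕ → ℕ
  | 0 => 0
  | j + 1 => f j

/-- The weight of a word. -/
def wt (f : ℕ → ℕ) (w : Wd) : ℕ := (w.map (wtl f)).sum

/-- The number of letters `D`. -/
def na (w : Wd) : ℕ := (w.map (wtl fun _ => 1)).sum

/-- The ring commutator of a list. -/
def Cr (u : Γ →* R) (X : R) (γ : ℕ → Γ) : List ℕ → R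
  | [] => 1
  | [a] => evl u X γ a
  | a :: b :: r => Cr u X γ (b :: r) * evl u X γ a - evl u X γ a * Cr u X γ (b :: r)

/-- The exact Lie operator of a list. -/
def That (u : Γ →* R) (X : R) (γ : ℕ → Γ) : List ℕ → R
  | [] => X
  | [_] => X
  | 0 :: b :: r => That u X γ (b :: r) * X - X * That u X γ (b :: r)
  | (j + 1) :: b :: r => u (γ j)⁻¹ * That u X γ (b :: r) * u (γ j) - That u X γ (b :: r)

/-- The operator of the word of a list. -/
def wz (u : Γ →* R) (X : R) (γ : ℕ → Γ) : List ℕ → R
  | [] => 1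
  | [_] => 1
  | a :: b :: r => wz u X γ (b :: r) * evl u X γ a

/-- The number of letters `X` -/
def kz : List ℕ → ℕ
  | [] => 1
  | [_] => 1
  | 0 :: b :: r => kz (b :: r) + 1
  | (_ + 1) :: b :: r => kz (b :: r)

section Letters

variable {γ : ℕ → Γ} {f : ℕ → ℕ}

@[simp] theorem wt_nil : wt f [] = 0 := rfl

@[simp] theorem wt_cons (a : ℕ) (w : Wd) : wt f (a :: w) = wtl f a + wt f w := by
  simp [wt]

theorem wt_append (w w' : Wd) : wt f (w ++ w') = wt f w + wt f w' := by simp [wt]

theorem wt_reverse (w : Wd) : wt f w.reverse = wt f w := by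
  simp [wt, List.sum_reverse]

theorem evw_append (w w' : Wd) : evw u X γ (w ++ w') = evw u X γ w * evw u X γ w' := by
  simp [evw]

@[simp] theorem evw_nil : evw u X γ [] = 1 := rfl

@[simp] theorem evw_cons (a : ℕ) (w : Wd) : evw u X γ (a :: w) = evl u X γ a * evw u X γ w := by
  simp [evw]

theorem na_eq (w : Wd) : na w = wt (fun _ => 1) w := rfl

variable (hγ : ∀ j, At (γ j) (f j) ∧ 1 ≤ f j)

include hγ

theorem wrd_evw (w : Wd) : Wrd u X At (w.count 0) (wt f w) (na w) (evw u X γ w) := by
  induction w using List.reverseRecOn with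
  | nil => exact Wrd.one
  | append_singleton w a ih =>
    rw [wt_append, na_eq, wt_append, ← na_eq, evw_append, List.count_append]
    cases a with
    | zero =>
      have := ih.x
      simpa [wtl, evl] using this
    | succ j =>
      have := ih.atm (hγ j).1 (hγ j).2
      simpa [wtl, evl] using this

theorem evw_mem (w : Wd) : evw u X γ w ∈ 𝒲 u X At (wt f w) := (wrd_evw hγ w).mem

theorem evl_mem (a : ℕ) : evl u X γ a ∈ 𝒲 u X At (wtl f a) := by
  have := evw_mem (u := u) (X := X) hγ [a]
  simpa using this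

theorem Cr_mem : ∀ z : List ℕ, Cr u X γ z ∈ 𝒲 u X At (wt f z)
  | [] => 𝒲_one
  | [a] => by simpa [Cr] using evl_mem (u := u) (X := X) hγ a
  | a :: b :: r => by
    have h1 := Cr_mem (b :: r)
    have h2 := evl_mem (u := u) (X := X) hγ a
    rw [wt_cons]
    refine sub_mem ?_ (𝒲_mul h2 h1)
    have := 𝒲_mul h1 h2
    rwa [add_comm] at this

theorem That_cg (h1 : ∀ γ, At γ 1) : ∀ z : List ℕ, isZ.isZl z = true →
    Cg u X At (wt f z) (Cr u X γ z) (That u X γ z)
  | [], h => by simp [isZ.isZl] at h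
  | [0], _ => Cg.rfl' 𝒲_X
  | [_ + 1], h => by simp [isZ.isZl] at h
  | 0 :: b :: r, h => by
    have ih := That_cg h1 (b :: r) h
    have hX : Cg u X At 0 X X := Cg.rfl' 𝒲_X
    have a1 := ih.mul hX
    have a2 := hX.mul ih
    rw [wt_cons]
    simp only [Cr, That, evl, wtl]
    rw [zero_add] at a2 ⊢
    exact a1.sub a2
  | (j + 1) :: b :: r, h => by
    have ih := That_cg h1 (b :: r) h
    set c := Cr u X γ (b :: r) with hcdef
    set t := That u X γ (b :: r) with ht
    set d := wt f (b :: r) with hd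
    have hE : u (γ j) - 1 ∈ 𝒲 u X At (f j) := 𝒲_sub (hγ j).1 (hγ j).2
    have hE' : Cg u X At (f j) (u (γ j) - 1) (u (γ j) - 1) := Cg.rfl' hE
    have a1 := (ih.mul hE').sub (by
      have := hE'.mul ih
      rwa [add_comm] at this)
    -- `u⁻¹ t u - t = (1 + (u⁻¹ - 1)) (t E - E t)`
    have hui : u (γ j)⁻¹ * u (γ j) = 1 := by rw [← map_mul, inv_mul_cancel, map_one]
    have e1 : u (γ j)⁻¹ * t * u (γ j) - t = (t * (u (γ j) - 1) - (u (γ j) - 1) * t) +
        (u (γ j)⁻¹ - 1) * (t * (u (γ j) - 1) - (u (γ j) - 1) * t) := by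
      have e2 : u (γ j)⁻¹ * t * u (γ j) - t = u (γ j)⁻¹ * t * u (γ j) -
          (u (γ j)⁻¹ * u (γ j)) * t := by rw [hui, one_mul]
      rw [e2]; noncomm_ring
    have b1 : u (γ j)⁻¹ - 1 ∈ 𝒲 u X At 1 := 𝒲_sub (h1 _) le_rfl
    have b2 : (u (γ j)⁻¹ - 1) * (t * (u (γ j) - 1) - (u (γ j) - 1) * t) ∈
        𝒲 u X At (1 + (d + f j)) := 𝒲_mul b1 a1.2.1
    rw [wt_cons]
    simp only [Cr, That, evl, wtl, ← hcdef, ← ht, ← hd]
    rw [e1, add_comm (f j) d]
    refine ⟨a1.1, add_mem a1.2.1 (𝒲_anti (by omega) b2), ?_⟩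
    rw [← sub_sub]
    exact sub_mem a1.2.2 (𝒲_anti (by omega) b2)

omit hγ in
theorem That_lie : ∀ z : List ℕ, IsLie u X (That u X γ z)
  | [] => IsLie.self
  | [_] => IsLie.self
  | 0 :: b :: r => (That_lie (b :: r)).brX
  | (_ + 1) :: b :: r => ((That_lie (b :: r)).conj _).sub (That_lie (b :: r))

omit hγ in
theorem That_pr : ∀ z : List ℕ, isZ.isZl z = true → Pr u X (kz z) (wz u X γ z) (That u X γ z)
  | [], h => by simp [isZ.isZl] at h
  | [0], _ => Pr.one
  | [_ + 1], h => by simp [isZ.isZl] at h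
  | 0 :: b :: r, h => (That_pr (b :: r) h).x
  | (j + 1) :: b :: r, h => by
    have ih := That_pr (b :: r) h
    have := (ih.cj (γ j)).sub ih
    have e : wz u X γ (b :: r) * u (γ j) - wz u X γ (b :: r) =
        wz u X γ (b :: r) * (u (γ j) - 1) := by noncomm_ring
    rw [e] at this
    exact this

omit hγ in
theorem wz_cons (a : ℕ) {z : List ℕ} (hz : z ≠ []) :
    wz u X γ (a :: z) = wz u X γ z * evl u X γ a := by
  cases z with
  | nil => exact absurd rfl hz
  | cons b r => rfl

omit hγ in
theorem wz_rev (b : Wd) : wz u X γ (b.reverse ++ [0]) = evw u X γ b := by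
  induction b using List.reverseRecOn with
  | nil => rfl
  | append_singleton b a ih =>
    rw [List.reverse_append, List.reverse_singleton, List.append_assoc, List.singleton_append,
      wz_cons a (by simp), ih, evw_append]
    simp

omit hγ in
theorem isZl_snoc (z : List ℕ) : isZ.isZl (z ++ [0]) = true := by
  induction z with
  | nil => rfl
  | cons a z ih =>
    cases z with
    | nil => rfl
    | cons b r => exact ih

end Letters

/-! ## Functions on words represented by an element of the ring -/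

section Rep

variable (φ : R →+ W) (γ : ℕ → Γ) (f : ℕ → ℕ) (D n : ℕ)

/-- `χ` is `v ↦ φ (v r)` on the words of the right weight and number of letters. -/
def Rep (u : Γ →* R) (X : R) (χ : Wd → W) (d e : ℕ) (r : R) : Prop :=
  ∀ v, χ v = if wt f v + d = D ∧ na v + e = n then φ (evw u X γ v * r) else 0

/-- The function on words. -/
def psi (u : Γ →* R) (X : R) : Wd → W :=
  fun v => if wt f v = D ∧ na v = n then φ (evw u X γ v) else 0

variable {φ γ f D n}

theorem Rep.psi (s : Wd) : Rep φ γ f D n u X (tl s (psi φ γ f D n u X)) (wt f s) (na s)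
    (evw u X γ s) := by
  intro v
  simp only [tl, T2.psi, wt_append, na_eq, evw_append]
  rfl

theorem Rep.tr {χ : Wd → W} {d e : ℕ} {r : R} (h : Rep φ γ f D n u X χ d e r) (a : ℕ) :
    Rep φ γ f D n u X (tr a χ) (wtl f a + d) (wtl (fun _ => 1) a + e) (evl u X γ a * r) := by
  intro v
  rw [T2.tr, h]
  simp only [wt_append, na_eq, evw_append, wt_cons, wt_nil, add_zero, evw_cons, evw_nil, mul_one,
    add_assoc, mul_assoc]
  rfl

theorem Rep.sub {χ χ' : Wd → W} {d e : ℕ} {r r' : R} (h : Rep φ γ f D n u X χ d e r)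
    (h' : Rep φ γ f D n u X χ' d e r') : Rep φ γ f D n u X (χ - χ') d e (r - r') := by
  intro v
  rw [Pi.sub_apply, h, h']
  split_ifs
  · rw [mul_sub, map_sub]
  · rw [sub_zero]

theorem Rep.zF : ∀ (z : List ℕ) {χ : Wd → W} {d e : ℕ} {r : R} (_ : Rep φ γ f D n u X χ d e r),
    Rep φ γ f D n u X (zF z χ) (wt f z + d) (na z + e) (Cr u X γ z * r)
  | [], χ, d, e, r, h => by
    intro v
    rw [T2.zF, h]
    simp [Cr, na_eq] <;> rfl
  | [a], χ, d, e, r, h => by
    have := h.tr a
    intro v
    rw [zF_one, this]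
    simp [Cr, na_eq] <;> rfl
  | a :: b :: l, χ, d, e, r, h => by
    have h1 := Rep.zF (b :: l) (h.tr a)
    have h2 := (Rep.zF (b :: l) h).tr a
    intro v
    have e1 : wt f (b :: l) + (wtl f a + d) = wt f (a :: b :: l) + d := by
      rw [wt_cons a]; omega
    have e2 : na (b :: l) + (wtl (fun _ => 1) a + e) = na (a :: b :: l) + e := by
      simp only [na_eq]; rw [wt_cons a]; omega
    have e3 : wtl f a + (wt f (b :: l) + d) = wt f (a :: b :: l) + d := by
      rw [wt_cons a]; omega
    have e4 : wtl (fun _ => 1) a + (na (b :: l) + e) = na (a :: b :: l) + e := by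
      simp only [na_eq]; rw [wt_cons a]; omega
    rw [e1, e2] at h1
    rw [e3, e4] at h2
    have h3 := h1.sub h2 v
    rw [zF_cons, h3]
    have e5 : Cr u X γ (b :: l) * (evl u X γ a * r) - evl u X γ a * (Cr u X γ (b :: l) * r) =
        Cr u X γ (a :: b :: l) * r := by
      simp only [Cr]; noncomm_ring
    rw [e5]

/-- The symmetric sum of the ring commutators. -/
def symC (u : Γ →* R) (X : R) (γ : ℕ → Γ) : ℕ → List (List ℕ) → R
  | 0, _ => 1
  | m + 1, zs => ((picks zs).map fun p => symC u X γ m p.2 * Cr u X γ p.1).sum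

theorem picks_perm {α : Type*} : ∀ (l : List α) (p : α × List α), p ∈ picks l →
    l.Perm (p.1 :: p.2)
  | [], p, h => by simp [picks] at h
  | a :: l, p, h => by
    simp only [picks, List.mem_cons, List.mem_map] at h
    rcases h with rfl | ⟨q, hq, rfl⟩
    · exact List.Perm.refl _
    · have := picks_perm l q hq
      exact (this.cons a).trans (List.Perm.swap _ _ _)

theorem Rep.symF : ∀ (m : ℕ) (zs : List (List ℕ)) (_ : zs.length = m) {χ : Wd → W} {d e : ℕ}
    {r : R} (_ : Rep φ γ f D n u X χ d e r),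
    symF m zs χ = if (zs.map (wt f)).sum + d = D ∧ (zs.map na).sum + e = n then
      φ (symC u X γ m zs * r) else 0
  | 0, zs, h0, χ, d, e, r, h => by
    have := h []
    obtain rfl : zs = [] := List.length_eq_zero_iff.1 h0
    simpa [T2.symF, symC, na_eq] using this
  | m + 1, zs, h0, χ, d, e, r, h => by
    simp only [T2.symF, symC]
    have key : ∀ L : List (List ℕ × List (List ℕ)), (∀ p ∈ L, zs.Perm (p.1 :: p.2)) →
        (L.map fun p => T2.symF m p.2 (T2.zF p.1 χ)).sum =
        if (zs.map (wt f)).sum + d = D ∧ (zs.map na).sum + e = n then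
          φ ((L.map fun p => symC u X γ m p.2 * Cr u X γ p.1).sum * r) else 0 := by
      intro L
      induction L with
      | nil => intro _; simp
      | cons p L ih =>
        intro hL
        have hp := hL p List.mem_cons_self
        have hlen : p.2.length = m := by
          have := hp.length_eq
          rw [List.length_cons] at this
          omega
        rw [List.map_cons, List.sum_cons, ih fun p h => hL p (List.mem_cons_of_mem _ h),
          Rep.symF m p.2 hlen (Rep.zF p.1 h)]
        have e1 : (zs.map (wt f)).sum = wt f p.1 + (p.2.map (wt f)).sum := by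
          rw [(hp.map (wt f)).sum_eq, List.map_cons, List.sum_cons]
        have e2 : (zs.map na).sum = na p.1 + (p.2.map na).sum := by
          rw [(hp.map na).sum_eq, List.map_cons, List.sum_cons]
        have e3 : ((p.2.map (wt f)).sum + (wt f p.1 + d) = D ∧
            (p.2.map na).sum + (na p.1 + e) = n) ↔
            ((zs.map (wt f)).sum + d = D ∧ (zs.map na).sum + e = n) := by
          rw [e1, e2]
          constructor <;> rintro ⟨a, b⟩ <;> constructor <;> omega
        rw [if_congr e3 rfl rfl]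
        split_ifs
        · rw [List.map_cons, List.sum_cons, add_mul, map_add, mul_assoc]
        · rw [add_zero]
    exact key _ (picks_perm zs)

theorem symC_four (z1 z2 z3 z4 : List ℕ) : symC u X γ 4 [z1, z2, z3, z4] =
    symR [Cr u X γ z1, Cr u X γ z2, Cr u X γ z3, Cr u X γ z4] := by
  simp only [symR, List.permutations', List.permutations'Aux, List.flatMap_cons, List.flatMap_nil,
    List.map_cons, List.map_nil, List.append_nil, List.cons_append, List.nil_append,
    List.prod_cons, List.prod_nil, List.sum_cons, List.sum_nil, mul_one,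
    symC, picks, one_mul, add_zero]
  noncomm_ring

end Rep

/-! ## The main induction -/

theorem exists_labels (l : List (List ℕ)) (h : ∀ z ∈ l, ∃ j, z = [j + 1]) :
    ∃ js : List ℕ, l = js.map fun j => [j + 1] := by
  induction l with
  | nil => exact ⟨[], rfl⟩
  | cons z l ih =>
    obtain ⟨j, hj⟩ := h z List.mem_cons_self
    obtain ⟨js, hjs⟩ := ih fun z hz => h z (List.mem_cons_of_mem _ hz)
    exact ⟨j :: js, by rw [hj, hjs]; rfl⟩

/-- A label. -/
def isLab : List ℕ → Bool
  | [_ + 1] => true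
  | _ => false

theorem isLab_iff (z : List ℕ) : isLab z = true ↔ ∃ j, z = [j + 1] := by
  constructor
  · intro h
    match z, h with
    | [j + 1], _ => exact ⟨j, rfl⟩
  · rintro ⟨j, rfl⟩; rfl

theorem isZl_of (z : List ℕ) (h : isZ z = true) (h' : isLab z = false) :
    isZ.isZl z = true := by
  match z, h, h' with
  | [0], _, _ => rfl
  | [j + 1], _, h' => simp [isLab] at h'
  | a :: b :: r, h, _ => exact h

section Main

variable {φ : R →+ W}

/-- Lie operators in the slots. -/
theorem FrameHyp.quartL (H : FrameHyp u X At φ) (g : Γ) (es : List R)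
    (he : ∀ e ∈ es, IsLie u X e) (s : R) :
    φ (SS (u g) es (1, 1) (1, 1) (1, 1) (1, 1) * s) = 0 := by
  refine lie_exp (u := u) (X := X)
    (fun es => φ (SS (u g) es (1, 1) (1, 1) (1, 1) (1, 1) * s)) ?_ ?_ ?_ es he
  · intro P Q x y; simp only [SS_sub, sub_mul, map_sub]
  · intro P Q x y; simp only [SS_swap, sub_mul, map_sub]
  · intro hs; exact H.quart g hs s

theorem sym_zero (H : FrameHyp u X At φ) {γ : ℕ → Γ} {f : ℕ → ℕ}
    (hγ : ∀ j, At (γ j) (f j) ∧ 1 ≤ f j) {D : ℕ} (hD : ∀ r ∈ 𝒲 u X At (D + 1), φ r = 0)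
    (zs : List (List ℕ)) (s : Wd) (hlen : zs.length = 4) (hz : ∀ z ∈ zs, isZ z = true)
    (hdeg : (zs.map (wt f)).sum + wt f s = D) :
    φ (symR (zs.map (Cr u X γ)) * evw u X γ s) = 0 := by
  set labs := zs.filter isLab with hlabs
  set lies := zs.filter (fun z => !isLab z) with hlies
  have hperm : (labs ++ lies).Perm zs := List.filter_append_perm _ _
  obtain ⟨js, hjs⟩ := exists_labels labs fun z hz' => (isLab_iff z).1 (by
    rw [hlabs, List.mem_filter] at hz'
    exact hz'.2)
  have hl : ∀ z ∈ lies, isZ.isZl z = true := by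
    intro z hz'
    rw [hlies, List.mem_filter] at hz'
    exact isZl_of z (hz z hz'.1) (by simpa using hz'.2)
  -- the exact relation
  have hs : u 1 = 1 := map_one u
  have q1 := DD_zero φ (evw u X γ s)
    (fun g => SS (u g) (lies.map (That u X γ)) (1, 1) (1, 1) (1, 1) (1, 1))
    (fun g => H.quartL g _ (by
      intro e he
      rw [List.mem_map] at he
      obtain ⟨z, _, rfl⟩ := he
      exact That_lie z) _) (js.map γ) 1
  have q2 := (DD_SS (u := u) (X := X) (At := At) H.at_one (lies.map (That u X γ))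
    (lies.map (wt f)) (by
      rw [List.forall₂_map_left_iff, List.forall₂_map_right_iff]
      rw [List.forall₂_same]
      intro z hz'
      exact (That_cg hγ H.at_one z (hl z hz')).2.1) (js.map γ) (js.map f) (by
      rw [List.forall₂_map_left_iff, List.forall₂_map_right_iff]
      rw [List.forall₂_same]
      intro j _
      exact hγ j) 0) 1
  beta_reduce at q2
  rw [hs] at q2
  -- the triples
  set L : List (R × R × ℕ) := (js.map fun j => (u (γ j) - 1, u (γ j) - 1, f j)) ++
    (lies.map fun z => (Cr u X γ z, That u X γ z, wt f z)) with hL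
  have q3 := SS_cg (u := u) (X := X) (At := At) L (by
    intro t ht
    rw [hL, List.mem_append, List.mem_map, List.mem_map] at ht
    rcases ht with ⟨j, _, rfl⟩ | ⟨z, hz', rfl⟩
    · exact Cg.rfl' (𝒲_sub (hγ j).1 (hγ j).2)
    · exact That_cg hγ H.at_one z (hl z hz')) 0 0 0 0 _ _ _ _ _ _ _ _ CgS.one CgS.one CgS.one
    CgS.one
  have eL1 : (L.map fun t => t.1) = (labs ++ lies).map (Cr u X γ) := by
    rw [hL, hjs]
    simp only [List.map_append, List.map_map]
    rfl
  have eL2 : (L.map fun t => t.2.1) = (js.map γ).map (fun γ => u γ - 1) ++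
      lies.map (That u X γ) := by
    rw [hL]
    simp only [List.map_append, List.map_map]
    rfl
  have eL3 : (L.map fun t => t.2.2).sum = (zs.map (wt f)).sum := by
    have : (L.map fun t => t.2.2) = (labs ++ lies).map (wt f) := by
      rw [hL, hjs]
      simp only [List.map_append, List.map_map, Function.comp_def, wt_cons, wt_nil, wtl, add_zero]
    rw [this, (hperm.map (wt f)).sum_eq]
  have eL4 : (js.map f).sum + (lies.map (wt f)).sum = (zs.map (wt f)).sum := by
    rw [← eL3, hL]
    simp only [List.map_append, List.map_map, List.sum_append]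
    rfl
  rw [eL1, eL2, eL3] at q3
  rw [eL4] at q2
  have hlen' : (labs ++ lies).length = 4 := by rw [hperm.length_eq, hlen]
  have e4 : symR (zs.map (Cr u X γ)) =
      SS 1 ((labs ++ lies).map (Cr u X γ)) (1, 1) (1, 1) (1, 1) (1, 1) := by
    rw [← symR_perm (hperm.map (Cr u X γ))]
    match (labs ++ lies), hlen' with
    | [a, b, c, d], _ => exact symR_four _ _ _ _
  have m1 := sub_mem (q3.2.2) (neg_mem (neg_mem (𝒲_anti (show 0 + 0 + 0 + 0 +
    (zs.map (wt f)).sum + 1 ≤ (zs.map (wt f)).sum + 1 by omega) q2)))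
  rw [e4]
  have e5 : SS 1 ((labs ++ lies).map (Cr u X γ)) (1, 1) (1, 1) (1, 1) (1, 1) * evw u X γ s =
      DD (js.map γ) (fun g => SS (u g) (lies.map (That u X γ)) (1, 1) (1, 1) (1, 1) (1, 1)) 1 *
        evw u X γ s +
      (SS 1 ((labs ++ lies).map (Cr u X γ)) (1, 1) (1, 1) (1, 1) (1, 1) -
        SS 1 ((js.map γ).map (fun γ => u γ - 1) ++ lies.map (That u X γ)) (1, 1) (1, 1) (1, 1)
          (1, 1) - - -
        (DD (js.map γ) (fun g => SS (u g) (lies.map (That u X γ)) (1, 1) (1, 1) (1, 1) (1, 1)) 1 -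
        SS 1 ((js.map γ).map (fun γ => u γ - 1) ++ lies.map (That u X γ)) (1, 1) (1, 1) (1, 1)
          (1, 1))) * evw u X γ s := by noncomm_ring
  rw [e5, map_add, q1, zero_add]
  refine hD _ ?_
  have := 𝒲_mul m1 (evw_mem (u := u) (X := X) hγ s)
  exact 𝒲_anti (by omega) this

theorem valid_psi (H : FrameHyp u X At φ) {γ : ℕ → Γ} {f : ℕ → ℕ}
    (hγ : ∀ j, At (γ j) (f j) ∧ 1 ≤ f j) {D n : ℕ} (hD : ∀ r ∈ 𝒲 u X At (D + 1), φ r = 0)
    (hn : ∀ k n' r, n' < n → Wrd u X At k D n' r → φ r = 0) :
    Valid (psi φ γ f D n u X) where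
  five w := by
    simp only [psi]
    split_ifs
    · exact H.five _
    · exact smul_zero _
  comm p i j s := by
    simp only [psi]
    have e1 : wt f (p ++ (i + 1) :: (j + 1) :: s) = wt f p + (f i + f j) + wt f s := by
      rw [wt_append]; simp only [wt_cons, wtl]; omega
    have e2 : wt f (p ++ (j + 1) :: (i + 1) :: s) = wt f p + (f i + f j) + wt f s := by
      rw [wt_append]; simp only [wt_cons, wtl]; omega
    have e3 : na (p ++ (i + 1) :: (j + 1) :: s) = na p + 2 + na s := by
      simp only [na_eq]; rw [wt_append]; simp only [wt_cons, wtl]; omega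
    have e4 : na (p ++ (j + 1) :: (i + 1) :: s) = na p + 2 + na s := by
      simp only [na_eq]; rw [wt_append]; simp only [wt_cons, wtl]; omega
    rw [e1, e2, e3, e4]
    split_ifs with hc
    · obtain ⟨h1, h2⟩ := hc
      rw [← sub_eq_zero, ← map_sub]
      set k := MP_d7201b_al.comm (γ i) (γ j) with hk
      have hAt : At k (f i + f j) := H.at_comm _ _ _ _ (hγ i).1 (hγ j).1
      have hf : 1 ≤ f i + f j := by have := (hγ i).2; omega
      have e5 : u (γ i) * u (γ j) - u (γ j) * u (γ i) = u (γ j * γ i) * (u k - 1) := by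
        rw [mul_sub, mul_one, ← map_mul, ← map_mul, ← map_mul, hk]
        congr 2
        unfold MP_d7201b_al.comm; group
      have e6 : evw u X γ (p ++ (i + 1) :: (j + 1) :: s) - evw u X γ (p ++ (j + 1) :: (i + 1) :: s)
          = evw u X γ p * (u k - 1) * evw u X γ s +
            evw u X γ p * ((u (γ j * γ i) - 1) * (u k - 1)) * evw u X γ s := by
        rw [evw_append, evw_append, evw_cons, evw_cons, evw_cons, evw_cons]
        simp only [evl]
        have e7 : evw u X γ p * ((u (γ i) - 1) * ((u (γ j) - 1) * evw u X γ s)) -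
            evw u X γ p * ((u (γ j) - 1) * ((u (γ i) - 1) * evw u X γ s)) =
            evw u X γ p * (u (γ i) * u (γ j) - u (γ j) * u (γ i)) * evw u X γ s := by
          noncomm_ring
        rw [e7, e5]; noncomm_ring
      rw [e6, map_add]
      have a1 := ((wrd_evw (u := u) (X := X) hγ p).atm hAt hf).mul u X At
        (wrd_evw (u := u) (X := X) hγ s)
      have a2 : φ (evw u X γ p * (u k - 1) * evw u X γ s) = 0 := by
        refine hn (List.count 0 p + List.count 0 s) (na p + 1 + na s) _ (by omega) ?_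
        rw [← h1]
        exact a1
      have a3 : φ (evw u X γ p * ((u (γ j * γ i) - 1) * (u k - 1)) * evw u X γ s) = 0 := by
        refine hD _ ?_
        have b1 : u (γ j * γ i) - 1 ∈ 𝒲 u X At 1 := 𝒲_sub (H.at_one _) le_rfl
        have b2 : u k - 1 ∈ 𝒲 u X At (f i + f j) := 𝒲_sub hAt hf
        have b3 := 𝒲_mul (𝒲_mul (evw_mem (u := u) (X := X) hγ p) (𝒲_mul b1 b2))
          (evw_mem (u := u) (X := X) hγ s)
        exact 𝒲_anti (by omega) b3
      rw [a2, a3, add_zero]
    · rfl
  xx s := by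
    simp only [psi]
    split_ifs
    · rw [evw_cons]; exact H.xx _
    · rfl
  lie a b s := by
    have ra := (Rep.psi (φ := φ) (γ := γ) (f := f) (D := D) (n := n) (u := u) (X := X) s).zF
      (b.reverse ++ [0])
    have rb := (Rep.psi (φ := φ) (γ := γ) (f := f) (D := D) (n := n) (u := u) (X := X) s).zF
      (a.reverse ++ [0])
    rw [ra, rb]
    have w1 : ∀ (g : ℕ → ℕ) (c : Wd), wt g (c.reverse ++ [0]) = wt g c := by
      intro g c
      rw [wt_append, wt_reverse]; simp [wtl]
    simp only [na_eq, w1]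
    have c1 : (wt f b + (wt f a + wt f s) = D ∧
        wt (fun _ => 1) b + (wt (fun _ => 1) a + wt (fun _ => 1) s) = n) ↔
        (wt f a + (wt f b + wt f s) = D ∧
        wt (fun _ => 1) a + (wt (fun _ => 1) b + wt (fun _ => 1) s) = n) := by
      constructor <;> rintro ⟨h1, h2⟩ <;> constructor <;> omega
    rw [if_congr c1 rfl rfl]
    split_ifs with hc
    · obtain ⟨h1, -⟩ := hc
      set za := a.reverse ++ [0] with hza
      set zb := b.reverse ++ [0] with hzb
      have la : isZ.isZl za = true := isZl_snoc _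
      have lb : isZ.isZl zb = true := isZl_snoc _
      have ca := That_cg (u := u) (X := X) hγ H.at_one za la
      have cb := That_cg (u := u) (X := X) hγ H.at_one zb lb
      have wa : wt f za = wt f a := w1 f a
      have wb : wt f zb = wt f b := w1 f b
      have an := H.anti _ _ _ _ _ _ (evw u X γ s) (That_pr (u := u) (X := X) (γ := γ) za la)
        (That_pr (u := u) (X := X) (γ := γ) zb lb)
      rw [hza, wz_rev, ← hza, hzb, wz_rev, ← hzb] at an
      rw [← map_add]
      have e1 : evw u X γ a * (Cr u X γ zb * evw u X γ s) +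
          evw u X γ b * (Cr u X γ za * evw u X γ s) =
          (evw u X γ a * That u X γ zb + evw u X γ b * That u X γ za) * evw u X γ s +
          (evw u X γ a * (Cr u X γ zb - That u X γ zb) * evw u X γ s +
          evw u X γ b * (Cr u X γ za - That u X γ za) * evw u X γ s) := by noncomm_ring
      rw [e1, map_add, an, zero_add]
      refine hD _ ?_
      refine add_mem ?_ ?_
      · have := 𝒲_mul (𝒲_mul (evw_mem (u := u) (X := X) hγ a) cb.2.2)
          (evw_mem (u := u) (X := X) hγ s)
        exact 𝒲_anti (by omega) this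
      · have := 𝒲_mul (𝒲_mul (evw_mem (u := u) (X := X) hγ b) ca.2.2)
          (evw_mem (u := u) (X := X) hγ s)
        exact 𝒲_anti (by omega) this
    · rw [add_zero]
  sym zs s hlen hz := by
    have r1 := (Rep.psi (φ := φ) (γ := γ) (f := f) (D := D) (n := n) (u := u) (X := X) s).symF
      4 zs hlen
    rw [r1]
    split_ifs with hc
    · obtain ⟨h1, -⟩ := hc
      have e : symC u X γ 4 zs = symR (zs.map (Cr u X γ)) := by
        match zs, hlen with
        | [a, b, c, d], _ => exact symC_four _ _ _ _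
      rw [e]
      exact sym_zero H hγ hD zs s hlen hz h1
    · rfl

theorem canon (h1 : ∀ γ, At γ 1) {k d n : ℕ} {r : R} (h : Wrd u X At k d n r) :
    ∃ (γ : ℕ → Γ) (f : ℕ → ℕ) (w : Wd), (∀ j, At (γ j) (f j) ∧ 1 ≤ f j) ∧ (∀ a ∈ w, a ≤ n) ∧
      w.count 0 = k ∧ wt f w = d ∧ na w = n ∧ evw u X γ w = r := by
  induction h with
  | one => exact ⟨fun _ => 1, fun _ => 1, [], fun _ => ⟨h1 _, le_rfl⟩, by simp, rfl, rfl, rfl, rfl⟩
  | x _ ih =>
    obtain ⟨γ, f, w, hγ, hle, hk, hd, hn, hr⟩ := ih
    refine ⟨γ, f, w ++ [0], hγ, ?_, ?_, ?_, ?_, ?_⟩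
    · intro a ha
      rw [List.mem_append, List.mem_singleton] at ha
      rcases ha with ha | rfl
      · exact hle a ha
      · exact Nat.zero_le _
    · rw [List.count_append, hk]; rfl
    · rw [wt_append, hd]; rfl
    · rw [na_eq, wt_append, ← na_eq, hn]; rfl
    · rw [evw_append, hr]; simp [evl]
  | @atm k d n r g w0 _ hg hw0 ih =>
    obtain ⟨γ, f, w, hγ, hle, hk, hd, hn, hr⟩ := ih
    have k1 : ∀ a ∈ w, evl u X (Function.update γ n g) a = evl u X γ a := by
      intro a ha
      cases a with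
      | zero => rfl
      | succ j =>
        have := hle _ ha
        simp only [evl]
        rw [Function.update_of_ne (by omega)]
    have k2 : ∀ a ∈ w, wtl (Function.update f n w0) a = wtl f a := by
      intro a ha
      cases a with
      | zero => rfl
      | succ j =>
        have := hle _ ha
        simp only [wtl]
        rw [Function.update_of_ne (by omega)]
    refine ⟨Function.update γ n g, Function.update f n w0, w ++ [n + 1], ?_, ?_, ?_, ?_, ?_, ?_⟩
    · intro j
      by_cases hj : j = n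
      · subst hj
        rw [Function.update_self, Function.update_self]
        exact ⟨hg, hw0⟩
      · rw [Function.update_of_ne hj, Function.update_of_ne hj]
        exact hγ j
    · intro a ha
      rw [List.mem_append, List.mem_singleton] at ha
      rcases ha with ha | rfl
      · have := hle a ha; omega
      · exact le_rfl
    · rw [List.count_append, hk]; simp
    · rw [wt_append, ← hd]
      simp only [wt, List.map_cons, List.map_nil, List.sum_cons, List.sum_nil, wtl,
        Function.update_self, add_zero]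
      rw [List.map_congr_left k2]
    · rw [na_eq, wt_append, ← na_eq, hn]; simp [wtl]
    · rw [evw_append, ← hr]
      simp only [evw, List.map_cons, List.map_nil, List.prod_cons, List.prod_nil, evl,
        Function.update_self, mul_one]
      rw [List.map_congr_left k1]

theorem step (H : FrameHyp u X At φ) {D : ℕ} (hD : ∀ r ∈ 𝒲 u X At (D + 1), φ r = 0) :
    ∀ r ∈ 𝒲 u X At D, φ r = 0 := by
  have key : ∀ n k r, Wrd u X At k D n r → φ r = 0 := by
    intro n
    induction n using Nat.strong_induction_on with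
    | _ n ih =>
      intro k r hr
      by_cases hk : k < 6
      · exact H.low _ _ _ _ hr hk
      · obtain ⟨γ, f, w, hγ, -, h0, hd, hna, hev⟩ := canon H.at_one hr
        have hv := valid_psi (n := n) H hγ hD (fun k n' r hn' hr' => ih n' hn' k r hr')
        have := kill hv w (by omega)
        simp only [psi] at this
        rw [if_pos ⟨hd, hna⟩, hev] at this
        exact this
  intro r hr
  induction hr using AddSubgroup.closure_induction with
  | mem r hr =>
    obtain ⟨k, d', n, hd', hw⟩ := hr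
    rcases Nat.eq_or_lt_of_le hd' with rfl | h
    · exact key n k r hw
    · exact hD r (AddSubgroup.subset_closure ⟨k, d', n, h, hw⟩)
  | zero => exact map_zero φ
  | add a b _ _ ha hb => rw [map_add, ha, hb, add_zero]
  | neg a _ ha => rw [map_neg, ha, neg_zero]

theorem all_zero (H : FrameHyp u X At φ) : ∀ r ∈ 𝒲 u X At 0, φ r = 0 := by
  obtain ⟨D0, hD0⟩ := H.bound
  have base : ∀ r ∈ 𝒲 u X At D0, φ r = 0 := by
    intro r hr
    induction hr using AddSubgroup.closure_induction with
    | mem r hr =>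
      obtain ⟨k, d', n, hd', hw⟩ := hr
      exact hD0 k d' n r hw hd'
    | zero => exact map_zero φ
    | add a b _ _ ha hb => rw [map_add, ha, hb, add_zero]
    | neg a _ ha => rw [map_neg, ha, neg_zero]
  have down : ∀ j, j ≤ D0 → ∀ r ∈ 𝒲 u X At (D0 - j), φ r = 0 := by
    intro j
    induction j with
    | zero => intro _; exact base
    | succ j ih =>
      intro hj
      refine step H ?_
      have := ih (by omega)
      rwa [show D0 - j = D0 - (j + 1) + 1 by omega] at this
  have := down D0 le_rfl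
  rwa [Nat.sub_self] at this

theorem closure_le (h1 : ∀ γ, At γ 1) : ∀ r ∈ Subring.closure (insert X (Set.range u)),
    r ∈ 𝒲 u X At 0 := by
  intro r hr
  induction hr using Subring.closure_induction with
  | mem r hr =>
    rcases hr with rfl | ⟨γ, rfl⟩
    · exact 𝒲_X
    · exact 𝒲_u h1 γ
  | zero => exact zero_mem _
  | one => exact 𝒲_one
  | add a b _ _ ha hb => exact add_mem ha hb
  | neg a _ ha => exact neg_mem ha
  | mul a b _ _ ha hb => exact 𝒲_mul_left ha hb

end Main

end Frame

/-- The frame theorem. -/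
theorem stmt_frame : Stmt_Frame.{u, v, w} := by
  intro Γ R W _ _ _ u X At φ H r hr
  exact all_zero H r (closure_le H.at_one r hr)

end T2

end Pool.Agent.Work.MP_d7201b_al
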