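import Pool.Agent.Work.MP_d7201b_al_L2.Rel
import Pool.Agent.Work.MP_d7201b_al_helper73.Prod

/-!
# Interface of the frame of T2 (nilpotent action, `p = 5`)

`Γ` acts on the right by `u : Γ →* R`; `X` is the bracket with `x`; `φ : R →+ W` is `r ↦ (v₀ r)(rest)`
modulo `5`.  `Stmt_Frame` is proved from the finite certificate (`T2.kill`), `Stmt_Inst` is the
application.
-/

set_option autoImplicit false

namespace Pool.Agent.Work.MP_d7201b_al

namespace T2

section Frame

variable {Γ R W : Type*} [Group Γ] [Ring R] [AddCommGroup W]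

/-- `Wrd u X At k d n r`: `r` is a product of `k` factors `X` and `n` factors `u γ - 1` of total
weight `d`. -/
inductive Wrd (u : Γ →* R) (X : R) (At : Γ → ℕ → Prop) : ℕ → ℕ → ℕ → R → Prop
  | one : Wrd u X At 0 0 0 1
  | x {k d n : ℕ} {r : R} : Wrd u X At k d n r → Wrd u X At (k + 1) d n (r * X)
  | atm {k d n : ℕ} {r : R} {γ : Γ} {w : ℕ} : Wrd u X At k d n r → At γ w → 1 ≤ w →
      Wrd u X At k (d + w) (n + 1) (r * (u γ - 1))

/-- The value of a slot `(p, ε)`: `g p - ε`; the empty slot is `(1, 1)`. -/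
def slotv (g : R) (s : R × R) : R := g * s.1 - s.2

/-- Put the operator `e` in a slot (on the right of what is already there). -/
def put (e : R) (s : R × R) : R × R := (s.1 * e, 0)

/-- The multilinear part of `(g ∏ (1 + eᵢ) - 1)⁴` : the sum over all ways to distribute the `eᵢ`
over four slots. -/
def SS (g : R) : List R → R × R → R × R → R × R → R × R → R
  | [], a, b, c, d => slotv g a * slotv g b * slotv g c * slotv g d
  | e :: es, a, b, c, d => SS g es (put e a) b c d + SS g es a (put e b) c d +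
      SS g es a b (put e c) d + SS g es a b c (put e d)

/-- `Pr u X k w T`: for `z = v₀ w` (in the `k`-th term) `T` is the operator the bracket with `z`. -/
inductive Pr (u : Γ →* R) (X : R) : ℕ → R → R → Prop
  | one : Pr u X 1 1 X
  | cj {k : ℕ} {w T : R} (g : Γ) : Pr u X k w T → Pr u X k (w * u g) (u g⁻¹ * T * u g)
  | x {k : ℕ} {w T : R} : Pr u X k w T → Pr u X (k + 1) (w * X) (T * X - X * T)
  | sub {k : ℕ} {w w' T T' : R} : Pr u X k w T → Pr u X k w' T' → Pr u X k (w - w') (T - T')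

/-- The hypotheses of the frame. -/
structure FrameHyp (u : Γ →* R) (X : R) (At : Γ → ℕ → Prop) (φ : R →+ W) : Prop where
  five : ∀ r, 5 • φ r = 0
  at_one : ∀ γ, At γ 1
  at_comm : ∀ γ δ w w', At γ w → At δ w' → At (comm γ δ) (w + w')
  bound : ∃ D0, ∀ k d n r, Wrd u X At k d n r → D0 ≤ d → φ r = 0
  low : ∀ k d n r, Wrd u X At k d n r → k < 6 → φ r = 0
  xx : ∀ s, φ (X * s) = 0
  anti : ∀ k w T k' w' T' s, Pr u X k w T → Pr u X k' w' T' → φ ((w * T' + w' * T) * s) = 0
  quart : ∀ (g : Γ) (hs : List Γ) (s : R),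
    φ (SS (u g) (hs.map fun h => u h⁻¹ * X * u h) (1, 1) (1, 1) (1, 1) (1, 1) * s) = 0

end Frame

universe u v w

/-- The frame theorem. -/
def Stmt_Frame : Prop :=
  ∀ {Γ : Type u} {R : Type v} {W : Type w} [Group Γ] [Ring R] [AddCommGroup W] (u : Γ →* R)
    (X : R) (At : Γ → ℕ → Prop) (φ : R →+ W), FrameHyp u X At φ →
    ∀ r ∈ Subring.closure (insert X (Set.range u)), φ r = 0

section Inst

variable {G : Type*} [Group G] {N : Subgroup G} [hN : N.Normal] {c : ℕ}
  (hc : N.lowerCentralSeries (c + 1) = ⊥)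

/-- `H` acts nilpotently on the values modulo `5`: `[z, γ₁, …, γₙ]` is zero modulo `5` for all `z`
in `N` and `γᵢ` in `H`. -/
def NilAct (H : Subgroup G) : Prop :=
  ∃ n : ℕ, ∀ z ∈ N, ∀ γs : List G, (∀ γ ∈ γs, γ ∈ H) → γs.length = n → ∀ l : List G,
    ∃ w : Last N c hc, 5 • w = (baseSys hc).θ 1 (γs.foldl comm z) l

end Inst

/-- The application: T2. -/
def Stmt_Inst : Prop :=
  ∀ {G : Type u} [Group G] {x : G} (_ : IsRightEngel 4 x) {c : ℕ}
    (hc : (Subgroup.normalClosure {x}).lowerCentralSeries (c + 1) = ⊥) (_ : 6 ≤ c) (a : G)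
    (l : List G) (_ : l.length = c),
    NilAct hc (Subgroup.closure (insert a {g | g ∈ l})) →
    ∃ w : Last (Subgroup.normalClosure {x}) c hc, 5 • w = MP_d7201b_al_helper73.value hc x a l

end T2

end Pool.Agent.Work.MP_d7201b_al
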