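import Pool.Agent.Work.MP_d7201b_al_T2.Core

/-!
# Soundness of the checker
-/

set_option autoImplicit false
set_option linter.unusedSectionVars false

namespace Pool.Agent.Work.MP_d7201b_al

namespace T2

universe u

theorem len_eq {α : Type} (l : List α) : len l = l.length := by
  induction l with
  | nil => rfl
  | cons a l ih => rw [len, ih]; rfl

theorem lbeq_eq : ∀ {l m : List ℕ}, lbeq l m = true → l = m
  | [], [], _ => rfl
  | [], _ :: _, h => by simp [lbeq] at h
  | _ :: _, [], h => by simp [lbeq] at h
  | a :: r, b :: m, h => by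
    rw [lbeq, Bool.and_eq_true] at h
    rw [Nat.eq_of_beq_eq_true h.1, lbeq_eq h.2]

theorem wbeq_eq : ∀ {l m : List Wd}, wbeq l m = true → l = m
  | [], [], _ => rfl
  | [], _ :: _, h => by simp [wbeq] at h
  | _ :: _, [], h => by simp [wbeq] at h
  | a :: r, b :: m, h => by
    rw [wbeq, Bool.and_eq_true] at h
    rw [lbeq_eq h.1, wbeq_eq h.2]

theorem nth_eq {α : Type} (d : α) (n : ℕ) (l : List α) : nth d n l = l.getD n d := by
  induction l generalizing n with
  | nil => cases n <;> rfl
  | cons a l ih =>
    cases n with
    | zero => rfl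
    | succ n => exact ih n

theorem rv_eq (l m : List ℕ) : rv l m = l.reverse ++ m := by
  induction l generalizing m with
  | nil => rfl
  | cons a l ih => rw [rv, ih]; simp

theorem ins_getD_pos (j : ℕ) (A : List ℕ) : (ins j A).getD (pos j A) 0 = j := by
  induction A with
  | nil => rfl
  | cons a l ih =>
    rw [ins, pos]
    cases h : Nat.blt j a with
    | true => rfl
    | false => exact ih

theorem ins_getD_skip (j : ℕ) (A : List ℕ) (i : ℕ) :
    (ins j A).getD (skip (pos j A) i) 0 = A.getD i 0 := by
  induction A generalizing i with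
  | nil =>
    rw [ins, pos, skip]
    have : Nat.blt i 0 = false := rfl
    rw [this]
    rfl
  | cons a l ih =>
    rw [ins, pos]
    cases h : Nat.blt j a with
    | true =>
      have : skip 0 i = i + 1 := rfl
      show (j :: a :: l).getD (skip 0 i) 0 = _
      rw [this]; rfl
    | false =>
      show (a :: ins j l).getD (skip (pos j l + 1) i) 0 = _
      cases i with
      | zero =>
        have : skip (pos j l + 1) 0 = 0 := rfl
        rw [this]; rfl
      | succ i =>
        have : skip (pos j l + 1) (i + 1) = skip (pos j l) i + 1 := by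
          unfold skip
          have e : Nat.blt (i + 1) (pos j l + 1) = Nat.blt i (pos j l) := rfl
          rw [e]
          cases Nat.blt i (pos j l) <;> rfl
        rw [this]
        exact ih i

theorem ins_length (j : ℕ) (A : List ℕ) : (ins j A).length = A.length + 1 := by
  induction A with
  | nil => rfl
  | cons a l ih =>
    rw [ins]
    cases Nat.blt j a with
    | true => rfl
    | false => simp [ih]

theorem pos_le (j : ℕ) (A : List ℕ) : pos j A ≤ A.length := by
  induction A with
  | nil => exact le_rfl
  | cons a l ih =>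
    rw [pos]
    cases Nat.blt j a with
    | true => exact Nat.zero_le _
    | false => simpa using ih

section

variable {W : Type*} [AddCommGroup W]

/-- linear combination of the values at the words -/
def vsum : List ℕ → List Wd → (Wd → W) → W
  | a :: v, b :: bs, f => a • f b + vsum v bs f
  | _, _, _ => 0

theorem vsum_nil (bs : List Wd) (f : Wd → W) : vsum [] bs f = 0 := by cases bs <;> rfl

theorem vsum_nil' (v : List ℕ) (f : Wd → W) : vsum v [] f = 0 := by cases v <;> rfl

theorem vsum_cons (a : ℕ) (v : List ℕ) (b : Wd) (bs : List Wd) (f : Wd → W) :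
    vsum (a :: v) (b :: bs) f = a • f b + vsum v bs f := rfl

theorem vsum_addm (c : ℕ) (u v : List ℕ) (bs : List Wd) (f : Wd → W) :
    vsum (addm c u v) bs f = c • vsum u bs f + vsum v bs f := by
  induction u generalizing v bs with
  | nil => simp [addm, vsum_nil]
  | cons a r ih =>
    cases bs with
    | nil => simp [vsum_nil']
    | cons b bs =>
      cases v with
      | nil =>
        rw [addm, vsum_cons, vsum_cons, ih, vsum_nil, vsum_nil]
        show (c * a) • f b + _ = _
        rw [mul_smul]
        simp
      | cons d m =>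
        rw [addm, vsum_cons, vsum_cons, vsum_cons, ih]
        show (c * a + d) • f b + _ = _
        rw [add_smul, mul_smul, smul_add]
        abel

theorem vsum_sub (v : List ℕ) (bs : List Wd) (f g : Wd → W) :
    vsum v bs (f - g) = vsum v bs f - vsum v bs g := by
  induction v generalizing bs with
  | nil => simp [vsum_nil]
  | cons a r ih =>
    cases bs with
    | nil => simp [vsum_nil']
    | cons b bs =>
      rw [vsum_cons, vsum_cons, vsum_cons, ih]
      show a • (f b - g b) + _ = _
      rw [smul_sub]
      abel

theorem vsum_five {f : Wd → W} (hf : ∀ w, 5 • f w = 0) (v : List ℕ) (bs : List Wd) :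
    5 • vsum v bs f = 0 := by
  induction v generalizing bs with
  | nil => simp [vsum_nil]
  | cons a r ih =>
    cases bs with
    | nil => simp [vsum_nil']
    | cons b bs =>
      rw [vsum_cons, smul_add, ih, ← mul_smul, mul_comm, mul_smul, hf]
      simp

theorem mod_smul {w : W} (h : 5 • w = 0) (a : ℕ) : a • w = (a % 5) • w := by
  conv_lhs => rw [← Nat.mod_add_div a 5, add_smul, mul_comm, mul_smul, h]
  simp

theorem vsum_lin {f g : Wd → W} {bs bs' : List Wd} {rows : List (List ℕ)}
    (h : List.Forall₂ (fun w r => f w = vsum r bs' g) bs rows) (hf : ∀ w, 5 • f w = 0)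
    (v : List ℕ) : vsum v bs f = vsum (lin v rows) bs' g := by
  induction h generalizing v with
  | nil => cases v <;> simp [lin, vsum_nil', vsum_nil]
  | @cons w r bs rs hw _ ih =>
    cases v with
    | nil => simp [lin, vsum_nil]
    | cons a v =>
      rw [vsum_cons, lin, mod_smul (hf w)]
      show (Nat.mod a 5) • f w + _ = _
      cases hm : Nat.mod a 5 with
      | zero => simp only [zero_smul, zero_add]; exact ih v
      | succ c =>
        simp only
        rw [vsum_addm, hw, ih v]

theorem vsum_tk {bs : List Wd} (v : List ℕ) (g : Wd → Wd) (rest : List Wd) (f : Wd → W) :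
    vsum (tk bs.length v) (bs.map g ++ rest) f = vsum v bs (fun w => f (g w)) := by
  induction bs generalizing v with
  | nil => simp [tk, vsum_nil, vsum_nil']
  | cons b bs ih =>
    cases v with
    | nil => simp [tk, vsum_nil]
    | cons a v =>
      show vsum (a :: tk bs.length v) (g b :: (bs.map g ++ rest)) f = _
      rw [vsum_cons, vsum_cons, ih]

theorem vsum_zeros (n : ℕ) (v : List ℕ) (bs : List Wd) (f : Wd → W) :
    vsum (zeros n v) bs f = vsum v (bs.drop n) f := by
  induction n generalizing bs with
  | zero => rfl
  | succ n ih =>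
    cases bs with
    | nil => simp [vsum_nil']
    | cons b bs =>
      show vsum (0 :: zeros n v) (b :: bs) f = _
      rw [vsum_cons, ih]
      simp

theorem drop_flatMap {α β : Type*} (g : α → List β) (n : ℕ) (l : List α)
    (h : ∀ a ∈ l, (g a).length = n) (p : ℕ) :
    (l.flatMap g).drop (p * n) = (l.drop p).flatMap g := by
  induction p generalizing l with
  | zero => simp
  | succ p ih =>
    cases l with
    | nil => simp
    | cons a l =>
      have ha := h a List.mem_cons_self
      rw [List.flatMap_cons, add_mul, one_mul, add_comm, ← List.drop_drop, ← ha,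
        List.drop_left, ha, ih l fun b hb => h b (List.mem_cons_of_mem _ hb)]
      rfl

variable (tab : ℕ → ℕ → Lv) (k0 T0 : ℕ)

/-- the rules of level `(k, T)` hold -/
structure LR (k T : ℕ) : Prop where
  hx : (tab k T).x.length = (tab (k - 1) T).w.length
  hd : (tab k T).d.length = T
  hl : ∀ r ∈ (tab k T).d, r.length = (tab k (T - 1)).w.length
  h : ∀ {W : Type u} [AddCommGroup W] (ψ : Wd → W), Valid ψ →
    List.Forall₂ (fun w r => ψ w = vsum r (tab k T).w ψ) (pre tab k T)
      ((tab k T).x ++ (tab k T).d.flatten)

end

section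

variable {W : Type u} [AddCommGroup W] (tab : ℕ → ℕ → Lv) (k0 T0 : ℕ)

theorem pre_drop (p : ℕ) (hp : p < T0) :
    (pre tab k0 T0).drop ((tab (k0 - 1) T0).w.length + p * (tab k0 (T0 - 1)).w.length) =
      ((tab k0 (T0 - 1)).w.map fun w => w.map (relab (skip p)) ++ [p + 1]) ++
        ((List.range T0).drop (p + 1)).flatMap fun p =>
          (tab k0 (T0 - 1)).w.map fun w => w.map (relab (skip p)) ++ [p + 1] := by
  have e : (tab (k0 - 1) T0).w.length =
      ((tab (k0 - 1) T0).w.map (fun w => w ++ [0])).length := by simp
  rw [pre, ← List.drop_drop, e, List.drop_left,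
    drop_flatMap _ (tab k0 (T0 - 1)).w.length _ (by simp)]
  rw [List.drop_eq_getElem_cons (by simpa using hp)]
  simp

variable {tab k0 T0}

theorem LR.rowX {k T : ℕ} (h : LR.{u} tab k T) {ψ : Wd → W} (hψ : Valid ψ) :
    List.Forall₂ (fun w r => ψ (w ++ [0]) = vsum r (tab k T).w ψ) (tab (k - 1) T).w
      (tab k T).x := by
  have h1 := List.forall₂_take (tab k T).x.length (h.h ψ hψ)
  rw [List.take_left, pre] at h1
  rw [h.hx, show (tab (k - 1) T).w.length =
      ((tab (k - 1) T).w.map (fun w => w ++ [0])).length by simp, List.take_left] at h1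
  rwa [List.forall₂_map_left_iff] at h1

theorem LR.rowD {k T : ℕ} (h : LR.{u} tab k T) {ψ : Wd → W} (hψ : Valid ψ) {p : ℕ} (hp : p < T) :
    List.Forall₂ (fun w r => ψ (w.map (relab (skip p)) ++ [p + 1]) = vsum r (tab k T).w ψ)
      (tab k (T - 1)).w (nth [] p (tab k T).d) := by
  have h1 := List.forall₂_drop ((tab k T).x.length + p * (tab k (T - 1)).w.length) (h.h ψ hψ)
  rw [← List.drop_drop (l := (tab k T).x ++ (tab k T).d.flatten), List.drop_left] at h1
  have e : (tab k T).d.flatten = (tab k T).d.flatMap fun a => a := by simp [List.flatMap]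
  have hp' : p < (tab k T).d.length := by rw [h.hd]; exact hp
  rw [e, drop_flatMap _ _ _ h.hl, List.drop_eq_getElem_cons hp',
    List.flatMap_cons, h.hx, pre_drop _ _ _ _ hp] at h1
  have h2 := List.forall₂_take (tab k (T - 1)).w.length h1
  have hm : ((tab k T).d[p]'(by rw [h.hd]; exact hp)) ∈ (tab k T).d := List.getElem_mem _
  rw [List.take_left' (by simp), List.take_left' (by simpa using h.hl _ hm),
    List.forall₂_map_left_iff] at h2
  rw [nth_eq, List.getD_eq_getElem _ _ (by rw [h.hd]; exact hp)]
  exact h2

variable (tab k0 T0)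

/-- the words of a level, with the target level replaced by the prewords -/
def bw (k T : ℕ) : List Wd := if k = k0 ∧ T = T0 then pre tab k0 T0 else (tab k T).w

/-- the value of a vector -/
def V (ψ : Wd → W) (s : St) : W :=
  vsum s.v (bw tab k0 T0 s.k s.A.length) (rn (fun i => s.A.getD i 0) ψ)

variable {tab k0 T0}

theorem V_sub (ψ φ : Wd → W) (s : St) :
    V tab k0 T0 (ψ - φ) s = V tab k0 T0 ψ s - V tab k0 T0 φ s := by
  unfold V
  have : rn (fun i => s.A.getD i 0) (ψ - φ) =
    rn (fun i => s.A.getD i 0) ψ - rn (fun i => s.A.getD i 0) φ := rfl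
  rw [this, vsum_sub]

theorem cond_some {b : Bool} {s t : St} {o : Option St}
    (h : (bif b then some s else o) = some t) : (b = true ∧ s = t) ∨ (b = false ∧ o = some t) := by
  cases b with
  | true => left; exact ⟨rfl, by simpa using h⟩
  | false => right; exact ⟨rfl, h⟩

theorem cond_some' {b : Bool} {t : St} {o : Option St}
    (h : (bif b then none else o) = some t) : b = false ∧ o = some t := by
  cases b with
  | true => simp at h
  | false => exact ⟨rfl, h⟩

theorem beq_and {a b c d : ℕ} : (Nat.beq a b && Nat.beq c d) = true ↔ a = b ∧ c = d := by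
  rw [Bool.and_eq_true]
  exact and_congr ⟨Nat.eq_of_beq_eq_true, fun h => by rw [h]; exact Nat.beq_refl b⟩
    ⟨Nat.eq_of_beq_eq_true, fun h => by rw [h]; exact Nat.beq_refl d⟩

theorem beq_and' {a b c d : ℕ} : (Nat.beq a b && Nat.beq c d) = false ↔ ¬ (a = b ∧ c = d) := by
  rw [← Bool.not_eq_true, beq_and]

theorem blt_iff {a b : ℕ} : Nat.blt a b = true ↔ a < b := by
  unfold Nat.blt
  exact ⟨Nat.le_of_ble_eq_true, Nat.ble_eq_true_of_le⟩

theorem mul_sound (hL : ∀ k T, 1 ≤ k → k + T < k0 + T0 → (k, T) ≠ (1, 0) → LR.{u} tab k T)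
    {ψ : Wd → W} (hψ : Valid ψ) {a : ℕ} {s t : St} (hk : 1 ≤ s.k)
    (h : mul tab k0 T0 a s = some t) :
    V tab k0 T0 ψ t = V tab k0 T0 (tr a ψ) s ∧ 1 ≤ t.k := by
  rw [mul.eq_def] at h
  obtain ⟨h0, h⟩ := cond_some' h
  rw [beq_and', len_eq] at h0
  have e0 : bw tab k0 T0 s.k s.A.length = (tab s.k s.A.length).w := by
    rw [bw, if_neg h0]
  cases a with
  | zero =>
    rcases cond_some h with ⟨h1, rfl⟩ | ⟨h1, h2⟩
    · rw [beq_and, len_eq] at h1
      refine ⟨?_, Nat.succ_pos _⟩
      unfold V
      simp only
      rw [e0, bw, if_pos h1, len_eq, len_eq, pre]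
      have e1 : k0 - 1 = s.k := by rw [← h1.1]; rfl
      rw [e1, ← h1.2, vsum_tk]
      congr 1
      funext w
      simp [rn, tr, relab]
    · rw [beq_and', len_eq] at h1
      rcases cond_some h2 with ⟨h3, rfl⟩ | ⟨_, h3⟩
      · rw [blt_iff, len_eq] at h3
        refine ⟨?_, Nat.succ_pos _⟩
        unfold V
        simp only
        rw [e0, bw, if_neg h1, len_eq]
        have hr := (hL (s.k + 1) s.A.length (by omega) h3 (by
          intro e; rw [Prod.mk.injEq] at e; omega)).rowX (hψ.rn fun i => s.A.getD i 0)
        rw [show s.k + 1 - 1 = s.k from rfl] at hr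
        rw [← vsum_lin hr (fun w => hψ.five _)]
        congr 1
        funext w
        simp [rn, tr, relab]
      · simp at h3
  | succ j =>
    rcases cond_some h with ⟨h1, rfl⟩ | ⟨h1, h2⟩
    · rw [beq_and, len_eq] at h1
      refine ⟨?_, hk⟩
      unfold V
      simp only
      rw [e0, bw, ins_length, if_pos h1, len_eq, len_eq, len_eq, vsum_zeros]
      have e1 : T0 - 1 = s.A.length := by rw [← h1.2]; rfl
      have hp : pos j s.A < T0 := by rw [← h1.2]; exact Nat.lt_succ_of_le (pos_le j s.A)
      have e2 := pre_drop tab k0 T0 _ hp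
      rw [e1] at e2
      have h12 : s.A.length + 1 = T0 := h1.2
      rw [h1.1]
      show vsum _ (List.drop ((tab (k0 - 1) (s.A.length + 1)).w.length + pos j s.A *
        (tab k0 s.A.length).w.length) (pre tab k0 T0)) _ = _
      rw [h12]
      rw [e2, vsum_tk]
      congr 1
      funext w
      simp only [rn, tr, List.map_append, List.map_map, List.map_cons, List.map_nil]
      congr 2
      · apply List.map_congr_left
        intro i _
        cases i with
        | zero => rfl
        | succ i =>
          show (ins j s.A).getD (skip (pos j s.A) i) 0 + 1 = _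
          rw [ins_getD_skip]; rfl
      · show [(ins j s.A).getD (pos j s.A) 0 + 1] = _
        rw [ins_getD_pos]
    · rw [beq_and', len_eq] at h1
      rcases cond_some h2 with ⟨h3, rfl⟩ | ⟨_, h3⟩
      · rw [blt_iff, len_eq] at h3
        refine ⟨?_, hk⟩
        unfold V
        simp only
        rw [e0, bw, ins_length, if_neg h1, len_eq]
        have hr := (hL s.k (s.A.length + 1) hk h3 (by
          intro e; rw [Prod.mk.injEq] at e; omega)).rowD
          (hψ.rn fun i => (ins j s.A).getD i 0) (Nat.lt_succ_of_le (pos_le j s.A))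
        rw [show s.A.length + 1 - 1 = s.A.length from rfl] at hr
        rw [Nat.succ_eq_add_one, ← vsum_lin hr (fun w => hψ.five _)]
        congr 1
        funext w
        simp only [rn, tr, List.map_append, List.map_map, List.map_cons, List.map_nil]
        congr 2
        · apply List.map_congr_left
          intro i _
          cases i with
          | zero => rfl
          | succ i =>
            show (ins j s.A).getD (skip (pos j s.A) i) 0 + 1 = _
            rw [ins_getD_skip]; rfl
        · show [(ins j s.A).getD (pos j s.A) 0 + 1] = _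
          rw [ins_getD_pos]
      · simp at h3

theorem sadd_sound {ψ : Wd → W} {c : ℕ} {s t u : St} (h : sadd c s t = some u) :
    V tab k0 T0 ψ u = V tab k0 T0 ψ s + c • V tab k0 T0 ψ t ∧ u.k = s.k := by
  rw [sadd] at h
  rcases cond_some h with ⟨h1, rfl⟩ | ⟨_, h3⟩
  · rw [Bool.and_eq_true] at h1
    have e1 := Nat.eq_of_beq_eq_true h1.1
    have e2 := lbeq_eq h1.2
    refine ⟨?_, rfl⟩
    unfold V
    simp only
    rw [vsum_addm, ← e1, ← e2, add_comm]
  · simp at h3

theorem app_sound (hL : ∀ k T, 1 ≤ k → k + T < k0 + T0 → (k, T) ≠ (1, 0) → LR.{u} tab k T)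
    (z : List ℕ) {ψ : Wd → W} (hψ : Valid ψ) {s t : St} (hk : 1 ≤ s.k)
    (h : app tab k0 T0 z s = some t) :
    V tab k0 T0 ψ t = V tab k0 T0 (zF z ψ) s ∧ 1 ≤ t.k := by
  induction z generalizing ψ s t with
  | nil =>
    rw [app] at h
    obtain rfl := Option.some.inj h
    exact ⟨rfl, hk⟩
  | cons a r ih =>
    cases r with
    | nil => exact mul_sound hL hψ hk h
    | cons b r =>
      rw [app.eq_def] at h
      simp only at h
      cases h1 : app tab k0 T0 (b :: r) s with
      | none => rw [h1] at h; simp at h
      | some s1 =>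
        rw [h1] at h
        simp only at h
        cases h2 : mul tab k0 T0 a s1 with
        | none => rw [h2] at h; simp at h
        | some s2 =>
          rw [h2] at h
          simp only at h
          cases h3 : mul tab k0 T0 a s with
          | none => rw [h3] at h; simp at h
          | some s3 =>
            rw [h3] at h
            simp only at h
            cases h4 : app tab k0 T0 (b :: r) s3 with
            | none => rw [h4] at h; simp at h
            | some s4 =>
              rw [h4] at h
              simp only at h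
              have e1 := ih (hψ.tr a) hk h1
              have e2 := mul_sound hL hψ e1.2 h2
              have e3 := mul_sound hL (hψ.zF (b :: r)) hk h3
              have e4 := ih hψ e3.2 h4
              have e5 := sadd_sound (tab := tab) (k0 := k0) (T0 := T0) (ψ := ψ) h
              refine ⟨?_, by rw [e5.2]; exact e2.2⟩
              rw [e5.1, e2.1, e1.1, e4.1, e3.1, zF_cons, V_sub]
              have e6 : 5 • V tab k0 T0 (tr a (zF (b :: r) ψ)) s = 0 :=
                vsum_five (((hψ.zF (b :: r)).tr a).rn _).five _ _
              have e7 : (4 : ℕ) • V tab k0 T0 (tr a (zF (b :: r) ψ)) s =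
                  - V tab k0 T0 (tr a (zF (b :: r) ψ)) s := by
                rw [eq_neg_iff_add_eq_zero, ← e6, show (5 : ℕ) = 4 + 1 from rfl, add_smul,
                  one_smul]
              rw [e7, sub_eq_add_neg]

theorem ssum_sound {α : Type} {ψ : Wd → W} {f : α → Option St} {g : α → W} (l : List α)
    (hfg : ∀ a ∈ l, ∀ s, f a = some s → V tab k0 T0 ψ s = g a ∧ 1 ≤ s.k) {t : St}
    (h : ssum (l.map f) = some t) : V tab k0 T0 ψ t = (l.map g).sum ∧ 1 ≤ t.k := by
  induction l generalizing t with
  | nil => simp [ssum] at h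
  | cons a l ih =>
    cases l with
    | nil =>
      have h1 : f a = some t := h
      have h2 := hfg a List.mem_cons_self t h1
      exact ⟨by simpa using h2.1, h2.2⟩
    | cons b l =>
      rw [List.map_cons, ssum.eq_def] at h
      simp only [List.map_cons] at h
      cases h1 : f a with
      | none => rw [h1] at h; simp at h
      | some s =>
        rw [h1] at h
        simp only at h
        cases h2 : ssum (f b :: l.map f) with
        | none => rw [h2] at h; simp at h
        | some u =>
          rw [h2] at h
          simp only at h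
          have e1 := ih (fun a ha => hfg a (List.mem_cons_of_mem _ ha)) (t := u) (by simpa using h2)
          have e2 := hfg a List.mem_cons_self s h1
          have e3 := sadd_sound (tab := tab) (k0 := k0) (T0 := T0) (ψ := ψ) h
          refine ⟨?_, by rw [e3.2]; exact e1.2⟩
          rw [e3.1, e1.1, e2.1, one_smul, List.map_cons (l := b :: l), List.sum_cons, add_comm]

theorem V_st0 (h10 : (tab 1 0).w = [[]]) (hne : ¬ (1 = k0 ∧ 0 = T0)) (ψ : Wd → W) :
    V tab k0 T0 ψ st0 = ψ [] := by
  unfold V bw st0
  simp only [List.length_nil]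
  rw [if_neg hne, h10, vsum_cons, vsum_nil]
  simp [rn]

theorem symS_sound (hL : ∀ k T, 1 ≤ k → k + T < k0 + T0 → (k, T) ≠ (1, 0) → LR.{u} tab k T)
    (h10 : (tab 1 0).w = [[]]) (hne : ¬ (1 = k0 ∧ 0 = T0)) (n : ℕ) (zs : List (List ℕ))
    {ψ : Wd → W} (hψ : Valid ψ) {t : St} (h : symS tab k0 T0 n zs = some t) :
    V tab k0 T0 ψ t = symF n zs ψ ∧ 1 ≤ t.k := by
  induction n generalizing zs ψ t with
  | zero =>
    obtain rfl := Option.some.inj h
    exact ⟨V_st0 h10 hne ψ, le_rfl⟩
  | succ n ih =>
    have h' : ssum ((picks zs).map fun p => match symS tab k0 T0 n p.2 with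
      | none => none
      | some s => app tab k0 T0 p.1 s) = some t := h
    refine ssum_sound (g := fun p => symF n p.2 (zF p.1 ψ)) (picks zs) ?_ h'
    intro p _ s hs
    cases h1 : symS tab k0 T0 n p.2 with
    | none => rw [h1] at hs; simp at hs
    | some u =>
      rw [h1] at hs
      simp only at hs
      have e1 := ih p.2 (hψ.zF p.1) h1
      have e2 := app_sound hL p.1 hψ e1.2 hs
      exact ⟨by rw [e2.1, e1.1], e2.2⟩

theorem muls_sound (hL : ∀ k T, 1 ≤ k → k + T < k0 + T0 → (k, T) ≠ (1, 0) → LR.{u} tab k T)
    (r : List ℕ) {ψ : Wd → W} (hψ : Valid ψ) {s t : St} (hk : 1 ≤ s.k)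
    (h : muls tab k0 T0 r s = some t) :
    V tab k0 T0 ψ t = V tab k0 T0 (tl r ψ) s ∧ 1 ≤ t.k := by
  induction r generalizing ψ s t with
  | nil =>
    obtain rfl := Option.some.inj h
    refine ⟨?_, hk⟩
    congr 1
    funext w
    simp [tl]
  | cons a r ih =>
    rw [muls] at h
    cases h1 : mul tab k0 T0 a s with
    | none => rw [h1] at h; simp at h
    | some u =>
      rw [h1] at h
      simp only at h
      have e1 := mul_sound hL (hψ.tl r) hk h1
      have e2 := ih hψ e1.2 h
      refine ⟨?_, e2.2⟩
      rw [e2.1, e1.1, tr_tl]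

theorem oadd_sound {ψ : Wd → W} {c : ℕ} {s t : Option St} {u : St} {x y : W}
    (hs : ∀ s', s = some s' → V tab k0 T0 ψ s' = x) (ht : ∀ t', t = some t' → V tab k0 T0 ψ t' = y)
    (h : oadd c s t = some u) : V tab k0 T0 ψ u = x + c • y := by
  cases s with
  | none => simp [oadd] at h
  | some s =>
    cases t with
    | none => simp [oadd] at h
    | some t =>
      have h1 : sadd c s t = some u := h
      rw [(sadd_sound h1).1, hs s rfl, ht t rfl]

theorem item_sound (hL : ∀ k T, 1 ≤ k → k + T < k0 + T0 → (k, T) ≠ (1, 0) → LR.{u} tab k T)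
    (h10 : (tab 1 0).w = [[]]) (hne : ¬ (1 = k0 ∧ 0 = T0)) (hk0 : 1 ≤ k0)
    {ψ : Wd → W} (hψ : Valid ψ) (it : Item) {t : St} (h : item tab k0 T0 it = some t) :
    V tab k0 T0 ψ t = 0 := by
  cases it with
  | C A i j b =>
    have e := oadd_sound (tab := tab) (k0 := k0) (T0 := T0) (ψ := ψ)
      (fun s' hs => (muls_sound hL [i + 1, j + 1] hψ hk0 hs).1)
      (fun t' ht => (muls_sound hL [j + 1, i + 1] hψ hk0 ht).1) h
    rw [e]
    have e1 : tl [i + 1, j + 1] ψ = tl [j + 1, i + 1] ψ := by
      funext w; exact hψ.comm w i j []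
    rw [e1]
    have e2 : 5 • V tab k0 T0 (tl [j + 1, i + 1] ψ) ⟨k0, A, zeros b [1]⟩ = 0 :=
      vsum_five ((hψ.tl _).rn _).five _ _
    rw [← e2, show (5 : ℕ) = 1 + 4 from rfl, add_smul, one_smul]
  | X =>
    have h' : mul tab k0 T0 0 st0 = some t := h
    rw [(mul_sound hL hψ le_rfl h').1, V_st0 h10 hne]
    exact hψ.xx []
  | L a b =>
    have key : ∀ a b : List ℕ, ∀ s', (match muls tab k0 T0 a st0 with
        | none => none
        | some s => app tab k0 T0 (rv b [0]) s) = some s' →
        V tab k0 T0 ψ s' = zF (b.reverse ++ [0]) ψ a := by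
      intro a b s' hs
      cases h1 : muls tab k0 T0 a st0 with
      | none => rw [h1] at hs; simp at hs
      | some s =>
        rw [h1] at hs
        simp only at hs
        have e1 := muls_sound hL a (hψ.zF (rv b [0])) le_rfl h1
        have e2 := app_sound hL (rv b [0]) hψ e1.2 hs
        rw [e2.1, e1.1, V_st0 h10 hne, rv_eq]
        simp [tl]
    have e := oadd_sound (tab := tab) (k0 := k0) (T0 := T0) (ψ := ψ) (key a b) (key b a) h
    rw [e, one_smul]
    have e2 := hψ.lie a b []
    have e3 : tl [] ψ = ψ := by funext w; simp [tl]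
    rwa [e3] at e2
  | P zs =>
    rw [item] at h
    rcases cond_some (s := t) (t := t) (b := (Nat.beq (len zs) 4 && zs.all isZ))
      (o := none) (by
        cases hb : (Nat.beq (len zs) 4 && zs.all isZ) with
        | true => rfl
        | false => rw [hb] at h; simp at h) with ⟨h1, _⟩ | ⟨h1, _⟩
    · rw [h1] at h
      have h2 : symS tab k0 T0 4 zs = some t := h
      rw [Bool.and_eq_true, len_eq, List.all_eq_true] at h1
      rw [(symS_sound hL h10 hne 4 zs hψ h2).1]
      have e2 := hψ.sym zs [] (Nat.eq_of_beq_eq_true h1.1) h1.2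
      have e3 : tl [] ψ = ψ := by funext w; simp [tl]
      rwa [e3] at e2
    · rw [h1] at h; simp at h

end

/-! ## The rules -/

section

variable {W : Type u} [AddCommGroup W]

theorem vsum_congr {bs : List Wd} {f g : Wd → W} (h : ∀ w ∈ bs, f w = g w) (v : List ℕ) :
    vsum v bs f = vsum v bs g := by
  induction bs generalizing v with
  | nil => simp [vsum_nil']
  | cons b bs ih =>
    cases v with
    | nil => simp [vsum_nil]
    | cons a v =>
      rw [vsum_cons, vsum_cons, h b List.mem_cons_self,
        ih fun w hw => h w (List.mem_cons_of_mem _ hw)]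

theorem vsum_comb {bs : List Wd} {f : Wd → W} {vs : List (List ℕ)}
    (h : ∀ v ∈ vs, vsum v bs f = 0) (c : List (ℕ × ℕ)) (acc : List ℕ) :
    vsum (comb vs c acc) bs f = vsum acc bs f := by
  induction c generalizing acc with
  | nil => rfl
  | cons p l ih =>
    rw [comb, ih, vsum_addm, nth_eq]
    have : vsum (vs.getD p.1 []) bs f = 0 := by
      by_cases hp : p.1 < vs.length
      · rw [List.getD_eq_getElem _ _ hp]
        exact h _ (List.getElem_mem _)
      · rw [List.getD_eq_default _ _ (by omega), vsum_nil]
    rw [this]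
    simp

theorem vsum_unit {bs : List Wd} {f : Wd → W} {i a : ℕ} (hi : i < bs.length) :
    vsum (zeros i [a]) bs f = a • f (nth [] i bs) := by
  rw [vsum_zeros, List.drop_eq_getElem_cons hi, vsum_cons, vsum_nil, add_zero, nth_eq,
    List.getD_eq_getElem _ _ hi]

theorem vsum_lift {bs : List Wd} {f : Wd → W} (r idx : List ℕ)
    (hi : ∀ i ∈ idx, i < bs.length) (acc : List ℕ) :
    vsum (lift r idx acc) bs f =
      vsum r (idx.map fun i => nth [] i bs) f + vsum acc bs f := by
  induction r generalizing idx acc with
  | nil => simp [lift, vsum_nil]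
  | cons a r ih =>
    cases idx with
    | nil => simp [lift, vsum_nil']
    | cons i is =>
      rw [List.map_cons, vsum_cons]
      cases a with
      | zero =>
        rw [lift.eq_def]
        simp only
        rw [ih is (fun i h => hi i (List.mem_cons_of_mem _ h))]
        simp
      | succ a =>
        rw [lift.eq_def]
        simp only
        rw [ih is (fun i h => hi i (List.mem_cons_of_mem _ h)), vsum_addm,
          vsum_unit (hi i List.mem_cons_self), one_smul]
        show _ + ((a + 1) • _ + _) = _
        abel

theorem vsum_div5 {bs : List Wd} {f : Wd → W} (hf : ∀ w, 5 • f w = 0) (l : List ℕ)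
    (h : div5 l = true) : vsum l bs f = 0 := by
  induction l generalizing bs with
  | nil => exact vsum_nil bs f
  | cons a l ih =>
    cases bs with
    | nil => exact vsum_nil' _ f
    | cons b bs =>
      rw [div5, Bool.and_eq_true] at h
      rw [vsum_cons, ih h.2, mod_smul (hf b)]
      have : a % 5 = 0 := Nat.eq_of_beq_eq_true h.1
      rw [this]
      simp

theorem rules_sound {bs ws : List Wd} {f : Wd → W} (hf : ∀ w, 5 • f w = 0)
    {vs : List (List ℕ)} (hv : ∀ v ∈ vs, vsum v bs f = 0) {idx : List ℕ}
    (hi : ∀ i ∈ idx, i < bs.length) (hw : ws = idx.map fun i => nth [] i bs) (e : ℕ)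
    (rs : List (List ℕ)) (cs : List (List (ℕ × ℕ))) (h : rules vs idx e rs cs = true)
    (hlen : (bs.drop e).length = rs.length) :
    List.Forall₂ (fun w r => f w = vsum r ws f) (bs.drop e) rs := by
  induction rs generalizing e cs with
  | nil =>
    rw [List.length_nil, List.length_eq_zero_iff] at hlen
    rw [hlen]
    exact List.Forall₂.nil
  | cons r rs ih =>
    cases cs with
    | nil => simp [rules] at h
    | cons c cs =>
      rw [rules.eq_def] at h
      simp only at h
      rw [Bool.and_eq_true] at h
      have he : e < bs.length := by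
        rw [List.length_drop, List.length_cons] at hlen
        omega
      have h1 := ih (e + 1) cs h.2 (by
        rw [List.length_drop] at hlen ⊢
        rw [List.length_cons] at hlen
        omega)
      rw [List.drop_eq_getElem_cons he]
      refine List.Forall₂.cons ?_ h1
      have h2 := vsum_div5 (bs := bs) hf _ h.1
      rw [vsum_comb hv, vsum_lift r idx hi, vsum_unit he, ← hw, nth_eq,
        List.getD_eq_getElem _ _ he] at h2
      have h3 := hf bs[e]
      rw [show (5 : ℕ) = 4 + 1 from rfl, add_smul, one_smul] at h3
      have h4 := h2.trans h3.symm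
      have h5 : vsum r ws f + 4 • f bs[e] = f bs[e] + 4 • f bs[e] := by
        rw [h4, add_comm]
      exact (add_right_cancel h5).symm

theorem items_sound {tab : ℕ → ℕ → Lv} {k0 T0 : ℕ}
    (hL : ∀ k T, 1 ≤ k → k + T < k0 + T0 → (k, T) ≠ (1, 0) → LR.{u} tab k T)
    (h10 : (tab 1 0).w = [[]]) (hne : ¬ (1 = k0 ∧ 0 = T0)) (hk0 : 1 ≤ k0)
    {ψ : Wd → W} (hψ : Valid ψ) (its : List Item) {vs : List (List ℕ)}
    (h : items tab k0 T0 its = some vs) :
    ∀ v ∈ vs, vsum v (pre tab k0 T0) (rn (fun i => (List.range T0).getD i 0) ψ) = 0 := by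
  induction its generalizing vs with
  | nil =>
    obtain rfl := Option.some.inj h
    simp
  | cons it its ih =>
    rw [items] at h
    cases h1 : item tab k0 T0 it with
    | none => rw [h1] at h; simp at h
    | some s =>
      rw [h1] at h
      simp only at h
      cases hb : (Nat.beq s.k k0 && lbeq s.A (List.range T0)) with
      | false => rw [hb] at h; simp at h
      | true =>
        rw [hb] at h
        simp only [cond_true] at h
        cases h2 : items tab k0 T0 its with
        | none => rw [h2] at h; simp at h
        | some us =>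
          rw [h2] at h
          simp only at h
          obtain rfl := Option.some.inj h
          rw [Bool.and_eq_true] at hb
          have e1 := Nat.eq_of_beq_eq_true hb.1
          have e2 := lbeq_eq hb.2
          intro v hv
          rcases List.mem_cons.1 hv with rfl | hv
          · have e3 := item_sound hL h10 hne hk0 hψ it h1
            unfold V bw at e3
            rw [e1, e2, if_pos (by simp)] at e3
            exact e3
          · exact ih h2 v hv

theorem lens_sound {n : ℕ} {l : List (List (List ℕ))} (h : lens n l = true) :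
    ∀ r ∈ l, r.length = n := by
  induction l with
  | nil => simp
  | cons a l ih =>
    rw [lens, Bool.and_eq_true, len_eq] at h
    intro r hr
    rcases List.mem_cons.1 hr with rfl | hr
    · exact Nat.eq_of_beq_eq_true h.1
    · exact ih h.2 r hr

theorem wlt_sound {n : ℕ} {l : List Wd} (h : wlt n l = true) : ∀ w ∈ l, ∀ i ∈ w, i ≤ n := by
  induction l with
  | nil => simp
  | cons a l ih =>
    rw [wlt, Bool.and_eq_true, List.all_eq_true] at h
    intro w hw
    rcases List.mem_cons.1 hw with rfl | hw
    · intro i hi
      exact Nat.le_of_ble_eq_true (h.1 i hi)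
    · exact ih h.2 w hw

/-- The check of a level proves its rules. -/
theorem chk_sound {tab : ℕ → ℕ → Lv} {k0 T0 : ℕ}
    (hL : ∀ k T, 1 ≤ k → k + T < k0 + T0 → (k, T) ≠ (1, 0) → LR.{u} tab k T)
    (h10 : (tab 1 0).w = [[]]) (hne : ¬ (1 = k0 ∧ 0 = T0)) (hk0 : 1 ≤ k0)
    {its : List Item} {idx : List ℕ} {cs : List (List (ℕ × ℕ))}
    (h : chk tab k0 T0 its idx cs = true) : LR.{u} tab k0 T0 := by
  rw [chk] at h
  cases h1 : items tab k0 T0 its with
  | none => rw [h1] at h; simp at h
  | some vs =>
    rw [h1] at h
    simp only [Bool.and_eq_true, len_eq] at h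
    obtain ⟨hx, hd, hl, hw, hi, hlt, hr⟩ := h
    have hx := Nat.eq_of_beq_eq_true hx
    have hd := Nat.eq_of_beq_eq_true hd
    have hl := lens_sound hl
    have hw := wbeq_eq hw
    have hlt := wlt_sound hlt
    rw [List.all_eq_true] at hi
    have hi : ∀ i ∈ idx, i < (pre tab k0 T0).length := fun i h => blt_iff.1 (hi i h)
    refine ⟨hx, hd, hl, ?_⟩
    intro W _ ψ hψ
    have hv := items_sound hL h10 hne hk0 hψ its h1
    have hv' : ∀ v ∈ vs, vsum v (pre tab k0 T0) ψ = 0 := by
      intro v hv1
      rw [← hv v hv1]
      refine vsum_congr ?_ v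
      intro w hw1
      show ψ w = ψ (w.map _)
      congr 1
      conv_lhs => rw [← List.map_id w]
      apply List.map_congr_left
      intro i hi1
      have := hlt w hw1 i hi1
      cases i with
      | zero => rfl
      | succ i =>
        show i + 1 = (List.range T0).getD i 0 + 1
        rw [List.getD_eq_getElem _ _ (by rw [List.length_range]; omega), List.getElem_range]
    have := rules_sound hψ.five hv' hi hw 0 _ cs hr (by
      rw [List.drop_zero, pre, List.length_append, List.length_map, List.length_append, ← hx,
        List.length_flatMap, List.length_flatten]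
      congr 1
      have e1 : (List.map List.length (tab k0 T0).d) =
          List.replicate T0 (tab k0 (T0 - 1)).w.length := by
        rw [List.eq_replicate_iff]
        refine ⟨by rw [List.length_map, hd], ?_⟩
        intro n hn
        obtain ⟨r, hr, rfl⟩ := List.mem_map.1 hn
        exact hl r hr
      rw [e1]
      simp)
    rw [List.drop_zero] at this
    exact this

end

end T2

end Pool.Agent.Work.MP_d7201b_al
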